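import Pool.Agent.H5.CP.EDef

/-!
ROW ABg (180 lines).  Generalisation of `ABs_main` (same method, same auxiliary lemmas `ABs_...`) to a central subgroup `S = j(A)`: the sequence
`0 → A → (I_Γ)_S → I_{Γ/S} → 0` of `Γ/S`-modules with explicit maps (`IsAB`, EDef), and the class `e` (`IsEul`).
Write `[g - 1]` for `qmk S _ u_g`, `kernel.ι u_g = single g 1 - single 1 1`.  `ι(x) = [j(x) - 1]`: additive since `j(x)j(y) - 1 = (j(x)-1) + (j(y)-1) + (j(x)-1)(j(y)-1)` and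
`(s-1)u ∈ ker qmk` for `s ∈ S`; equivariant since `g(s-1) - (s-1) = (s-1)(g-1)` (s central).  `a` = `ABs_β` lifted to the kernel.
Injectivity of `ι`: choose for every coset a representative; `γ = ν(γ) r(γ)` with `ν(γ) ∈ S = j(A)`, `r(sγ) = r(γ)`, `r(1) = 1`, so `ν(sγ) = s ν(γ)`; the additive map
`L : ℤ[Γ] → A`, `γ ↦ j⁻¹ν(γ)` satisfies `L(sγ) - L(γ) = j⁻¹(s)` so `L(s y - y) = aug(y) j⁻¹(s) = 0` for `y ∈ I`; hence `L` is defined on `(I_Γ)_S` and
`L([j(x) - 1]) = x`.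
Exactness in the middle: if `u ∈ I_Γ` maps to `0` in `ℤ[Γ/S]` then (`ABs_σ_π`) `qmk S (leftRegular) u = 0`, so `u = Σ (s_i - 1) z_i`, `z_i ∈ ℤ[Γ]` (the kernel of `qmk` is the span of
such elements: `Representation.Coinvariants.mk_eq_zero`/`Coinvariants.ker`), and `(s_i-1) z_i ≡ aug(z_i) (s_i - 1)` modulo `(S-1)I`, so `[u] = Σ aug(z_i) [s_i - 1]` is in the image of `ι`
(prove by `Submodule.span_induction` that for `v` in the kernel of `qmk S (leftRegular)`: there is `x : A` with `v - (j(x) - 1)` the image of an element of `I_Γ` killed by `qmk`, i.e. `[v] = ι(x)`).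
-/

namespace Pool.Agent.H5.CP

open CategoryTheory CategoryTheory.Abelian CategoryTheory.Limits

/-- a lift of `g - 1` to the augmentation ideal -/
private noncomputable def ABg_e {Γ : Type} [Group Γ] (g : Γ) : (kernel (aug ℤ Γ)).V :=
  (ABs_lift (MonoidAlgebra.single g 1 - MonoidAlgebra.single 1 1 : MonoidAlgebra ℤ Γ) (by
    refine (map_sub (aug ℤ Γ).hom _ _).trans ?_
    rw [ABs_aug_single, ABs_aug_single, sub_self])).choose

private theorem ABg_he {Γ : Type} [Group Γ] (g : Γ) : (kernel.ι (aug ℤ Γ)).hom (ABg_e g) =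
    (MonoidAlgebra.single g 1 - MonoidAlgebra.single 1 1 : MonoidAlgebra ℤ Γ) :=
  (ABs_lift (MonoidAlgebra.single g 1 - MonoidAlgebra.single 1 1 : MonoidAlgebra ℤ Γ) (by
    refine (map_sub (aug ℤ Γ).hom _ _).trans ?_
    rw [ABs_aug_single, ABs_aug_single, sub_self])).choose_spec

private theorem ABg_mul {Γ : Type} [Group Γ] (g h : Γ) :
    ABg_e (g * h) = ABg_e g + (kernel (aug ℤ Γ)).ρ g (ABg_e h) := by
  refine ABs_ι_inj _ _ ?_
  rw [map_add, Rep.hom_comm_apply, ABg_he, ABg_he, ABg_he]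
  refine Eq.trans ?_ (congrArg₂ (· + ·) rfl (map_sub ((Rep.leftRegular ℤ Γ).ρ g) _ _)).symm
  rw [ABs_ρ_single, ABs_ρ_single, mul_one]
  exact (sub_add_sub_cancel' _ _ _).symm

private theorem ABg_qmul {Γ : Type} [Group Γ] (S : Subgroup Γ) [S.Normal] (g h : Γ) (hg : g ∈ S) :
    qmk S (kernel (aug ℤ Γ)) (ABg_e (g * h)) =
      qmk S (kernel (aug ℤ Γ)) (ABg_e g) + qmk S (kernel (aug ℤ Γ)) (ABg_e h) := by
  rw [ABg_mul, map_add, ABs_qmk_ρ S _ g hg]

private theorem ABg_qρ {Γ : Type} [Group Γ] (S : Subgroup Γ) [S.Normal]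
    (hc : S ≤ Subgroup.center Γ) (g s : Γ) (hs : s ∈ S) :
    qmk S (kernel (aug ℤ Γ)) ((kernel (aug ℤ Γ)).ρ g (ABg_e s)) =
      qmk S (kernel (aug ℤ Γ)) (ABg_e s) := by
  have h1 := ABg_mul g s
  rw [Subgroup.mem_center_iff.1 (hc hs) g, ABg_mul s g] at h1
  have h2 := congrArg (qmk S (kernel (aug ℤ Γ))) h1
  rw [map_add, map_add, ABs_qmk_ρ S _ s hs, add_comm] at h2
  exact (add_left_cancel h2).symm

private theorem ABg_one {Γ : Type} [Group Γ] : (ABg_e (1 : Γ)) = 0 := by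
  refine ABs_ι_inj _ _ ?_
  rw [ABg_he, map_zero]
  exact sub_self _

private noncomputable def ABg_ad {Γ A : Type} [Group Γ] [AddCommGroup A] (S : Subgroup Γ) [S.Normal]
    (j : Multiplicative A →* Γ) (hS : ∀ x, j (Multiplicative.ofAdd x) ∈ S) :
    A →+ ((QF ℤ S).obj (kernel (aug ℤ Γ))).V where
  toFun := fun x => qmk S (kernel (aug ℤ Γ)) (ABg_e (j (Multiplicative.ofAdd x)))
  map_zero' := by
    rw [ofAdd_zero, map_one, ABg_one, map_zero]
  map_add' := fun x y => by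
    rw [ofAdd_add, map_mul, ABg_qmul S _ _ (hS x)]

private noncomputable def ABg_mk (k : Type) {Γ A : Type} [CommRing k] [Group Γ] [AddCommGroup A]
    [Module k A] (S : Subgroup Γ) [S.Normal] (M : Rep.{0} k Γ) (f : A →+ ((QF k S).obj M).V)
    (hf : ∀ (n : k) (x : A), f (n • x) = n • f x)
    (hi : ∀ (q : Γ ⧸ S) (x : A), ((QF k S).obj M).ρ q (f x) = f x) :
    Rep.trivial k (Γ ⧸ S) A ⟶ (QF k S).obj M :=
  Rep.ofHom ⟨{ toFun := f, map_add' := map_add f, map_smul' := hf }, fun q => by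
    refine LinearMap.ext fun x => ?_
    exact (hi q x).symm⟩

private theorem ABg_mk_apply (k : Type) {Γ A : Type} [CommRing k] [Group Γ] [AddCommGroup A]
    [Module k A] (S : Subgroup Γ) [S.Normal] (M : Rep.{0} k Γ) (f : A →+ ((QF k S).obj M).V)
    (hf : ∀ (n : k) (x : A), f (n • x) = n • f x)
    (hi : ∀ (q : Γ ⧸ S) (x : A), ((QF k S).obj M).ρ q (f x) = f x) (x : A) :
    (ABg_mk k S M f hf hi).hom x = f x := rfl

/-- the map `x ↦ [j(x) - 1]` -/
private noncomputable def ABg_ι {Γ A : Type} [Group Γ] [AddCommGroup A] (S : Subgroup Γ) [S.Normal]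
    (hc : S ≤ Subgroup.center Γ) (j : Multiplicative A →* Γ)
    (hS : ∀ x, j (Multiplicative.ofAdd x) ∈ S) :
    Rep.trivial ℤ (Γ ⧸ S) A ⟶ (QF ℤ S).obj (kernel (aug ℤ Γ)) :=
  ABg_mk ℤ S (kernel (aug ℤ Γ)) (ABg_ad S j hS) (fun n x => by
    refine (map_zsmul (ABg_ad S j hS) n x).trans ?_
    exact (int_smul_eq_zsmul ((QF ℤ S).obj (kernel (aug ℤ Γ))).hV2 n (ABg_ad S j hS x)).symm)
    (fun q x => by
      obtain ⟨g, rfl⟩ := QuotientGroup.mk_surjective q
      exact ABg_qρ S hc g _ (hS x))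

private theorem ABg_ι_apply {Γ A : Type} [Group Γ] [AddCommGroup A] (S : Subgroup Γ) [S.Normal]
    (hc : S ≤ Subgroup.center Γ) (j : Multiplicative A →* Γ)
    (hS : ∀ x, j (Multiplicative.ofAdd x) ∈ S) (x : A) :
    (ABg_ι S hc j hS).hom x =
      qmk S (kernel (aug ℤ Γ)) (ABg_e (j (Multiplicative.ofAdd x))) := rfl

/-- the linear map given by the values on the elements of the group -/
private noncomputable def ABg_L (k : Type) {Γ A : Type} [CommRing k] [AddCommGroup A] [Module k A]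
    (lam : Γ → A) : MonoidAlgebra k Γ →ₗ[k] A :=
  (Finsupp.lift A k Γ lam) ∘ₗ (MonoidAlgebra.coeffLinearEquiv k).toLinearMap

private theorem ABg_L_single (k : Type) {Γ A : Type} [CommRing k] [AddCommGroup A] [Module k A]
    (lam : Γ → A) (g : Γ) : ABg_L k lam (MonoidAlgebra.single g 1) = lam g := by
  simp [ABg_L]

private theorem ABg_L_ρ (k : Type) {Γ A : Type} [CommRing k] [Group Γ] [AddCommGroup A]
    [Module k A] (lam : Γ → A) (s : Γ) (x : A)
    (h : ∀ g, lam (s * g) = x + lam g) (y : MonoidAlgebra k Γ) :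
    ABg_L k lam ((Rep.leftRegular k Γ).ρ s y : MonoidAlgebra k Γ) =
      (show k from (aug k Γ).hom y) • x + ABg_L k lam y := by
  have h1 : ABg_L k lam ∘ₗ (Representation.ofMulAction k Γ Γ s) =
      (LinearMap.toSpanSingleton k A x) ∘ₗ (aug k Γ).hom.toLinearMap + ABg_L k lam := by
    refine MonoidAlgebra.lhom_ext' fun a => ?_
    refine LinearMap.ext_ring ?_
    show ABg_L k lam (Representation.ofMulAction k Γ Γ s (MonoidAlgebra.single a 1)) =
      (show k from (aug k Γ).hom (MonoidAlgebra.single a 1 : MonoidAlgebra k Γ)) • x +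
        ABg_L k lam (MonoidAlgebra.single a 1)
    rw [Representation.ofMulAction_single, smul_eq_mul, ABg_L_single, ABg_L_single, ABs_aug_single]
    show lam (s * a) = (1 : k) • x + lam a
    rw [h a, one_smul]
  exact congrArg (fun f => f y) h1

private theorem ABg_L_zero (k : Type) {Γ A : Type} [CommRing k] [Group Γ] [AddCommGroup A]
    [Module k A] (S : Subgroup Γ) [S.Normal] (lam : Γ → A)
    (h : ∀ s ∈ S, ∃ x : A, ∀ g, lam (s * g) = x + lam g) (u : (kernel (aug k Γ)).V)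
    (hu : qmk S (kernel (aug k Γ)) u = 0) :
    ABg_L k lam ((kernel.ι (aug k Γ)).hom u) = 0 := by
  have hL : ∀ s : S, (ABg_L k lam ∘ₗ (kernel.ι (aug k Γ)).hom.toLinearMap) ∘ₗ
      ((kernel (aug k Γ)).ρ.comp S.subtype) s =
        ABg_L k lam ∘ₗ (kernel.ι (aug k Γ)).hom.toLinearMap := by
    intro s
    refine LinearMap.ext fun y => ?_
    show ABg_L k lam ((kernel.ι (aug k Γ)).hom ((kernel (aug k Γ)).ρ s.1 y)) =
      ABg_L k lam ((kernel.ι (aug k Γ)).hom y)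
    obtain ⟨x, hx⟩ := h s.1 s.2
    rw [Rep.hom_comm_apply]
    refine (ABg_L_ρ k lam s.1 x hx _).trans ?_
    rw [ABs_aug_ι]
    show (0 : k) • x + _ = _
    rw [zero_smul, zero_add]
  have h1 := congrArg (Representation.Coinvariants.lift _ _ hL) hu
  exact h1.trans (map_zero (Representation.Coinvariants.lift _ _ hL))

theorem ABg_main {Γ A : Type} [Group Γ] [AddCommGroup A] (S : Subgroup Γ) [S.Normal]
    (hc : S ≤ Subgroup.center Γ) (j : Multiplicative A →* Γ) (hj : Function.Injective j)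
    (hS : ∀ x, x ∈ S ↔ ∃ a, j (Multiplicative.ofAdd a) = x) :
    ∃ e : Ext (tz (Γ ⧸ S)) (Rep.trivial ℤ (Γ ⧸ S) A) 2, IsEul S j e := by
  have hS' : ∀ x, j (Multiplicative.ofAdd x) ∈ S := fun x => (hS _).2 ⟨x, rfl⟩
  have hβ : ABs_β ℤ S ≫ aug ℤ (Γ ⧸ S) = 0 := by
    refine Rep.hom_ext ?_
    refine DFunLike.ext _ _ fun x => ?_
    obtain ⟨y, rfl⟩ := qmk_surjective _ _ x
    show (aug ℤ (Γ ⧸ S)).hom ((ABs_β ℤ S).hom _) = 0
    rw [ABs_β_apply, ABs_π_aug, ABs_aug_ι]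
  have hlift : ∀ x, (kernel.ι (aug ℤ (Γ ⧸ S))).hom
      ((kernel.lift _ _ hβ).hom x) = (ABs_β ℤ S).hom x := fun x =>
    congrArg (fun f => f.hom x) (kernel.lift_ι _ _ hβ)
  have hw0 : ABg_ι S hc j hS' ≫ kernel.lift _ _ hβ = 0 := by
    refine Rep.hom_ext ?_
    refine DFunLike.ext _ _ fun c => ?_
    show (kernel.lift _ _ hβ).hom ((ABg_ι S hc j hS').hom c) = 0
    refine ABs_ι_inj _ _ ?_
    rw [hlift, ABg_ι_apply, ABs_β_apply, ABg_he, map_sub, map_zero, ABs_π_single, ABs_π_single,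
      (QuotientGroup.eq_one_iff _).2 (hS' c)]
    exact sub_self _
  -- injectivity
  have hinj : Function.Injective (ABg_ι S hc j hS').hom := by
    have hν : ∀ γ : Γ, ∃ a : A, j (Multiplicative.ofAdd a) =
        γ * (Quotient.out (QuotientGroup.mk γ : Γ ⧸ S))⁻¹ := by
      intro γ
      refine (hS _).1 ?_
      obtain ⟨s, hs⟩ := QuotientGroup.mk_out_eq_mul S γ
      rw [hs, mul_inv_rev]
      have h1 := Subgroup.mem_center_iff.1 (hc (S.inv_mem s.2)) γ
      rw [← mul_assoc, h1, mul_assoc, mul_inv_cancel, mul_one]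
      exact S.inv_mem s.2
    choose lam hlam using hν
    have hadd : ∀ (x : A) (γ : Γ), lam (j (Multiplicative.ofAdd x) * γ) = x + lam γ := by
      intro x γ
      apply Multiplicative.ofAdd.injective
      apply hj
      rw [hlam, ofAdd_add, map_mul, hlam]
      have h1 : (QuotientGroup.mk (j (Multiplicative.ofAdd x) * γ) : Γ ⧸ S) = QuotientGroup.mk γ := by
        rw [QuotientGroup.mk_mul, (QuotientGroup.eq_one_iff _).2 (hS' x), one_mul]
      rw [h1, mul_assoc]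
    refine (injective_iff_map_eq_zero _).2 fun x hx => ?_
    have h2 := ABg_L_zero ℤ S lam (fun s hs => by
      obtain ⟨x, hx⟩ := (hS s).1 hs
      exact ⟨x, fun g => by rw [← hx, hadd]⟩) _ ((ABg_ι_apply S hc j hS' x).symm.trans hx)
    rw [ABg_he, map_sub, ABg_L_single, ABg_L_single] at h2
    have h3 := hadd x 1
    rw [mul_one] at h3
    rw [h3, add_sub_cancel_right] at h2
    exact h2
  have hsurj : Function.Surjective (kernel.lift _ _ hβ).hom := by
    intro y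
    obtain ⟨z, hz⟩ := ABs_π_surj S ((kernel.ι (aug ℤ (Γ ⧸ S))).hom y)
    have hz0 : (aug ℤ Γ).hom z = 0 := by
      rw [← ABs_π_aug S, hz, ABs_aug_ι]
    obtain ⟨x, hx⟩ := ABs_lift z hz0
    refine ⟨qmk _ _ x, ABs_ι_inj _ _ ?_⟩
    rw [hlift, ABs_β_apply, hx, hz]
  have hmid : ∀ v ∈ Representation.Coinvariants.ker ((Rep.leftRegular ℤ Γ).ρ.comp S.subtype),
      ∃ (x : A) (u : (kernel (aug ℤ Γ)).V), (kernel.ι (aug ℤ Γ)).hom u = v ∧
        (ABg_ι S hc j hS').hom x = qmk S (kernel (aug ℤ Γ)) u := by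
    intro v hv
    refine Submodule.span_induction (p := fun v _ => ∃ (x : A) (u : (kernel (aug ℤ Γ)).V),
      (kernel.ι (aug ℤ Γ)).hom u = v ∧
        (ABg_ι S hc j hS').hom x = qmk S (kernel (aug ℤ Γ)) u) ?_ ?_ ?_ ?_ hv
    · rintro _ ⟨⟨s, z⟩, rfl⟩
      obtain ⟨a, ha⟩ := (hS s.1).1 s.2
      have hz0 : (aug ℤ Γ).hom (z - ((aug ℤ Γ).hom z : ℤ) •
          (MonoidAlgebra.single 1 (1 : ℤ) : MonoidAlgebra ℤ Γ) : MonoidAlgebra ℤ Γ) = 0 := by
        refine (map_sub (aug ℤ Γ).hom _ _).trans ?_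
        rw [sub_eq_zero]
        refine Eq.trans ?_ (map_smul (aug ℤ Γ).hom _ _).symm
        rw [ABs_aug_single]
        exact (mul_one _).symm
      obtain ⟨u, hu⟩ := ABs_lift _ hz0
      refine ⟨((aug ℤ Γ).hom z : ℤ) • a, (kernel (aug ℤ Γ)).ρ s.1 u - u +
        ((aug ℤ Γ).hom z : ℤ) • ABg_e s.1, ?_, ?_⟩
      · rw [map_add, map_sub, map_zsmul, Rep.hom_comm_apply, hu, ABg_he]
        have e1 : (Rep.leftRegular ℤ Γ).ρ s.1 (z - ((aug ℤ Γ).hom z : ℤ) •
            (MonoidAlgebra.single 1 (1 : ℤ) : MonoidAlgebra ℤ Γ) : MonoidAlgebra ℤ Γ) =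
            ((Rep.leftRegular ℤ Γ).ρ s.1 z : MonoidAlgebra ℤ Γ) - ((aug ℤ Γ).hom z : ℤ) •
              (MonoidAlgebra.single s.1 (1 : ℤ) : MonoidAlgebra ℤ Γ) := by
          refine (map_sub ((Rep.leftRegular ℤ Γ).ρ s.1) _ _).trans ?_
          refine congrArg₂ (· - ·) rfl ?_
          refine (map_smul ((Rep.leftRegular ℤ Γ).ρ s.1) _ _).trans ?_
          rw [ABs_ρ_single, mul_one]
        rw [e1, smul_sub]
        generalize ((aug ℤ Γ).hom z : ℤ) • (MonoidAlgebra.single s.1 (1 : ℤ) : MonoidAlgebra ℤ Γ) = p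
        generalize ((aug ℤ Γ).hom z : ℤ) • (MonoidAlgebra.single 1 (1 : ℤ) : MonoidAlgebra ℤ Γ) = q
        have e2 : ∀ r z p q : MonoidAlgebra ℤ Γ, r - p - (z - q) + (p - q) = r - z := fun r z p q => by
          abel
        exact e2 _ _ _ _
      · rw [map_add, map_sub, ABs_qmk_ρ S _ s.1 s.2, sub_self, zero_add, map_zsmul, map_zsmul,
          ABg_ι_apply, ha]
    · exact ⟨0, 0, map_zero _, by rw [map_zero, map_zero]⟩
    · rintro v1 v2 - - ⟨x1, u1, h1, h1'⟩ ⟨x2, u2, h2, h2'⟩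
      exact ⟨x1 + x2, u1 + u2, by rw [map_add, h1, h2], by rw [map_add, map_add, h1', h2']⟩
    · rintro r v1 - ⟨x1, u1, h1, h1'⟩
      exact ⟨r • x1, r • u1, by rw [map_zsmul, h1], by rw [map_zsmul, map_zsmul, h1']⟩
  have hex : (ShortComplex.mk (ABg_ι S hc j hS') (kernel.lift _ _ hβ) hw0).ShortExact := by
    refine ABs_shortExact _ hinj hsurj ?_
    intro x hx
    obtain ⟨y, rfl⟩ := qmk_surjective _ _ x
    have h1 := congrArg (kernel.ι (aug ℤ (Γ ⧸ S))).hom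
      (show (kernel.lift _ _ hβ).hom (qmk _ _ y) = 0 from hx)
    rw [hlift, ABs_β_apply, map_zero] at h1
    have h2 := congrArg (ABs_σ ℤ S) h1
    rw [ABs_σ_π, map_zero] at h2
    have h3 := (Representation.Coinvariants.mk_eq_zero
      ((Rep.leftRegular ℤ Γ).ρ.comp S.subtype)).1 h2
    obtain ⟨x, u, hu, hx'⟩ := hmid _ h3
    refine ⟨x, ?_⟩
    rw [ABs_ι_inj _ _ hu] at hx'
    exact hx'
  refine ⟨(AugE_exact ℤ (Γ ⧸ S)).extClass.comp hex.extClass rfl, ABg_ι S hc j hS',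
    kernel.lift _ _ hβ, hw0, hex, ⟨?_, ?_⟩, rfl⟩
  · intro x u hu
    rw [ABg_ι_apply, ABs_ι_inj u (ABg_e (j (Multiplicative.ofAdd x))) (by rw [hu, ABg_he])]
  · intro u
    rw [hlift, ABs_β_apply]

end Pool.Agent.H5.CP
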