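import Pool.Agent.H5.CP.TRegC

/-!
ROW ABs (120 lines).  The two short exact sequences of `G/S`-modules, `S = ⟨t⟩`, `t` central of infinite order:
  (a) `0 → k → I_S → J → 0`,   (b) `0 → J → k[G/S] → k → 0`,      `I = kernel (aug k G)`.
`k[G]_S ≅ k[G/S]` (`Rep.leftRegular`).  Take (b) = the augmentation sequence of `G/S` (`augSC k (G/S)`, `J = kernel (aug k (G/S))`).
`a : I_S → J` is induced by `k[G] → k[G/S]`, `g ↦ ḡ`; onto since `ḡ - 1` is the image of `g - 1`.
Kernel of `a`: `y ∈ I` with image `0` in `k[G/S] = k[G]_S` is `y = (t-1)z` with `z ∈ k[G]` (`TRegC_qmk` for `k[G]`); modulo `(t-1)I` this is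
`aug(z) (t-1)`: so the kernel is generated by `qmk(t-1)`, and `c · qmk(t-1) = 0` means `c(t-1) = (t-1)y'` with `y' ∈ I`, so `y' = c` (`t`-regular),
`c = aug(y') = 0`.  So `ι : k → I_S`, `c ↦ c qmk(t-1)` is injective with image the kernel of `a` (it is equivariant, see RetB).
-/

/-!
ROW ABs (120 lines).  The two short exact sequences of `G/S`-modules, `S = ⟨t⟩`, `t` central of infinite order:
  (a) `0 → k → I_S → J → 0`,   (b) `0 → J → k[G/S] → k → 0`,      `I = kernel (aug k G)`.
-/

namespace Pool.Agent.H5.CP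

open CategoryTheory CategoryTheory.Abelian CategoryTheory.Limits

theorem ABs_exact {k G : Type} [CommRing k] [Group G] {A B C : Rep.{0} k G} (f : A ⟶ B)
    (g : B ⟶ C) (w : f ≫ g = 0) :
    (ShortComplex.mk f g w).Exact ↔ ∀ x : B.V, g.hom x = 0 → ∃ y : A.V, f.hom y = x := by
  rw [← ShortComplex.exact_map_iff_of_faithful _ (forget₂ (Rep.{0} k G) (ModuleCat.{0} k)),
      ShortComplex.moduleCat_exact_iff]
  rfl

theorem ABs_aug_single (k G : Type) [CommRing k] [Group G] (g : G) (r : k) :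
    (aug k G).hom (MonoidAlgebra.single g r : MonoidAlgebra k G) = r := by
  rw [aug, Rep.leftRegularHom_hom_single]
  show r * 1 = r
  rw [mul_one]

theorem ABs_lift {k G : Type} [CommRing k] [Group G] (x : (Rep.leftRegular k G).V)
    (hx : (aug k G).hom x = 0) :
    ∃ w : (kernel (aug k G)).V, (kernel.ι (aug k G)).hom w = x :=
  (ABs_exact _ _ (kernel.condition (aug k G))).1 (AugE_exact k G).exact x hx

theorem ABs_ι_inj {k G : Type} [CommRing k] [Group G] (x y : (kernel (aug k G)).V)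
    (h : (kernel.ι (aug k G)).hom x = (kernel.ι (aug k G)).hom y) : x = y :=
  (Rep.mono_iff_injective _).1 inferInstance h

theorem ABs_aug_ι {k G : Type} [CommRing k] [Group G] (x : (kernel (aug k G)).V) :
    (aug k G).hom ((kernel.ι (aug k G)).hom x) = 0 := by
  have h := congrArg (fun f => f.hom x) (kernel.condition (aug k G))
  exact h

/-- `k[G] → k[G/S]` -/
noncomputable def ABs_π (k : Type) {G : Type} [CommRing k] [Group G] (S : Subgroup G)
    [S.Normal] : MonoidAlgebra k G →ₗ[k] MonoidAlgebra k (G ⧸ S) :=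
  (MonoidAlgebra.coeffLinearEquiv k).symm.toLinearMap ∘ₗ
    Finsupp.lmapDomain k k (QuotientGroup.mk : G → G ⧸ S) ∘ₗ
      (MonoidAlgebra.coeffLinearEquiv k).toLinearMap

theorem ABs_π_single {k G : Type} [CommRing k] [Group G] (S : Subgroup G)
    [S.Normal] (g : G) (r : k) : ABs_π k S (MonoidAlgebra.single g r) =
      MonoidAlgebra.single (QuotientGroup.mk g) r := by
  simp [ABs_π]

theorem ABs_π_ρ {k G : Type} [CommRing k] [Group G] (S : Subgroup G)
    [S.Normal] (g : G) (x : MonoidAlgebra k G) :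
    ABs_π k S ((Rep.leftRegular k G).ρ g x) =
      (Rep.leftRegular k (G ⧸ S)).ρ (QuotientGroup.mk g) (ABs_π k S x) := by
  have h : ABs_π k S ∘ₗ (Representation.ofMulAction k G G g) =
    (Representation.ofMulAction k (G ⧸ S) (G ⧸ S) (QuotientGroup.mk g)) ∘ₗ ABs_π k S := by
    refine MonoidAlgebra.lhom_ext' fun a => ?_
    ext
    simp [ABs_π_single]
  exact congrArg (fun f => f x) h

theorem ABs_π_aug {k G : Type} [CommRing k] [Group G] (S : Subgroup G)
    [S.Normal] (x : MonoidAlgebra k G) :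
    (aug k (G ⧸ S)).hom (ABs_π k S x) = (aug k G).hom x := by
  have h : (aug k (G ⧸ S)).hom.toLinearMap ∘ₗ ABs_π k S = (aug k G).hom.toLinearMap := by
    refine MonoidAlgebra.lhom_ext' fun a => ?_
    ext
    show (aug k (G ⧸ S)).hom (ABs_π k S (MonoidAlgebra.single a 1)) =
      (aug k G).hom (MonoidAlgebra.single a 1 : MonoidAlgebra k G)
    rw [ABs_π_single, ABs_aug_single, ABs_aug_single]
  exact congrArg (fun f => f x) h

theorem ABs_π_surj {k G : Type} [CommRing k] [Group G] (S : Subgroup G)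
    [S.Normal] (x : MonoidAlgebra k (G ⧸ S)) : ∃ y, ABs_π k S y = x := by
  induction x using MonoidAlgebra.induction_linear with
  | zero => exact ⟨0, map_zero _⟩
  | add a b ha hb =>
    obtain ⟨a', ha⟩ := ha
    obtain ⟨b', hb⟩ := hb
    exact ⟨a' + b', by rw [map_add, ha, hb]⟩
  | single q r =>
    obtain ⟨g, rfl⟩ := QuotientGroup.mk_surjective q
    exact ⟨MonoidAlgebra.single g r, ABs_π_single S g r⟩

theorem ABs_qmk_ρ {k G : Type} [CommRing k] [Group G] (S : Subgroup G)
    [S.Normal] (M : Rep.{0} k G) (s : G) (hs : s ∈ S) (x : M.V) :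
    qmk S M (M.ρ s x) = qmk S M x :=
  Representation.Coinvariants.mk_self_apply (M.ρ.comp S.subtype) ⟨s, hs⟩ x

/-- `k[G/S] → k[G]_S` -/
noncomputable def ABs_σ (k : Type) {G : Type} [CommRing k] [Group G] (S : Subgroup G)
    [S.Normal] : MonoidAlgebra k (G ⧸ S) →ₗ[k] ((QF k S).obj (Rep.leftRegular k G)).V :=
  (Finsupp.lift _ k (G ⧸ S) fun q : G ⧸ S => qmk S (Rep.leftRegular k G)
    (MonoidAlgebra.single (Quotient.out q) (1 : k) : MonoidAlgebra k G)) ∘ₗ
      (MonoidAlgebra.coeffLinearEquiv k).toLinearMap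

theorem ABs_σ_π {k G : Type} [CommRing k] [Group G] (S : Subgroup G)
    [S.Normal] (x : MonoidAlgebra k G) :
    ABs_σ k S (ABs_π k S x) = qmk S (Rep.leftRegular k G) x := by
  have h : ABs_σ k S ∘ₗ ABs_π k S = qmk S (Rep.leftRegular k G) := by
    refine MonoidAlgebra.lhom_ext' fun a => ?_
    ext
    show ABs_σ k S (ABs_π k S (MonoidAlgebra.single a 1)) = qmk S (Rep.leftRegular k G)
      (MonoidAlgebra.single a (1 : k) : MonoidAlgebra k G)
    rw [ABs_π_single]
    have h1 : ABs_σ k S (MonoidAlgebra.single (QuotientGroup.mk a) 1) =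
        qmk S (Rep.leftRegular k G) (MonoidAlgebra.single
          (Quotient.out (QuotientGroup.mk a : G ⧸ S)) (1 : k) : MonoidAlgebra k G) := by
      simp [ABs_σ]
    rw [h1]
    obtain ⟨s, hs⟩ := QuotientGroup.mk_out_eq_mul S a
    have h2 : (MonoidAlgebra.single (Quotient.out (QuotientGroup.mk a : G ⧸ S)) (1 : k) :
        MonoidAlgebra k G) = (Rep.leftRegular k G).ρ (a * s * a⁻¹)
          (MonoidAlgebra.single a (1 : k) : MonoidAlgebra k G) := by
      show _ = Representation.ofMulAction k G G (a * s * a⁻¹) (MonoidAlgebra.single a (1 : k))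
      rw [Representation.ofMulAction_single, smul_eq_mul, inv_mul_cancel_right]
      congr 1
    rw [h2]
    exact ABs_qmk_ρ S _ _ (Subgroup.Normal.conj_mem inferInstance s.1 s.2 a) _
  exact congrArg (fun f => f x) h

/-- `I_S → k[G/S]` -/
noncomputable def ABs_β (k : Type) {G : Type} [CommRing k] [Group G] (S : Subgroup G)
    [S.Normal] : (QF k S).obj (kernel (aug k G)) ⟶ Rep.leftRegular k (G ⧸ S) :=
  Rep.ofHom ⟨Representation.Coinvariants.lift _
    (ABs_π k S ∘ₗ (kernel.ι (aug k G)).hom.toLinearMap) (fun s => by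
      refine LinearMap.ext fun x => ?_
      show ABs_π k S ((kernel.ι (aug k G)).hom ((kernel (aug k G)).ρ s.1 x)) =
        ABs_π k S ((kernel.ι (aug k G)).hom x)
      rw [Rep.hom_comm_apply, ABs_π_ρ, (QuotientGroup.eq_one_iff s.1).2 s.2, map_one]
      rfl), fun q => by
      obtain ⟨g, rfl⟩ := QuotientGroup.mk_surjective q
      refine Representation.Coinvariants.hom_ext ?_
      refine LinearMap.ext fun x => ?_
      show ABs_π k S ((kernel.ι (aug k G)).hom ((kernel (aug k G)).ρ g x)) =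
        (Rep.leftRegular k (G ⧸ S)).ρ (QuotientGroup.mk g)
          (ABs_π k S ((kernel.ι (aug k G)).hom x))
      rw [Rep.hom_comm_apply, ABs_π_ρ]⟩

theorem ABs_β_apply {k G : Type} [CommRing k] [Group G] (S : Subgroup G)
    [S.Normal] (x : (kernel (aug k G)).V) :
    (ABs_β k S).hom (qmk S (kernel (aug k G)) x) = ABs_π k S ((kernel.ι (aug k G)).hom x) :=
  rfl

theorem ABs_shortExact {k G : Type} [CommRing k] [Group G] (S : ShortComplex (Rep.{0} k G))
    (hf : Function.Injective S.f.hom) (hg : Function.Surjective S.g.hom)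
    (h : ∀ x₂ : S.X₂.V, S.g.hom x₂ = 0 → ∃ x₁ : S.X₁.V, S.f.hom x₁ = x₂) : S.ShortExact where
  exact := by
    rw [← ShortComplex.exact_map_iff_of_faithful S (forget₂ (Rep.{0} k G) (ModuleCat.{0} k)),
      ShortComplex.moduleCat_exact_iff]
    exact h
  mono_f := (Rep.mono_iff_injective _).2 hf
  epi_g := (Rep.epi_iff_surjective _).2 hg

/-- `k → I_S` -/
noncomputable def ABs_ι (k : Type) {G : Type} [CommRing k] [Group G] (S : Subgroup G)
    [S.Normal] (w : (kernel (aug k G)).V)
    (hw : ∀ g : G, qmk S (kernel (aug k G)) ((kernel (aug k G)).ρ g w) =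
      qmk S (kernel (aug k G)) w) :
    Rep.trivial k (G ⧸ S) k ⟶ (QF k S).obj (kernel (aug k G)) :=
  Rep.ofHom ⟨LinearMap.toSpanSingleton k _ (qmk S (kernel (aug k G)) w), fun q => by
    obtain ⟨g, rfl⟩ := QuotientGroup.mk_surjective q
    ext
    simp only [LinearMap.coe_comp, Function.comp_apply, LinearMap.toSpanSingleton_apply]
    refine Eq.trans ?_ (Eq.trans (congrArg (fun z => (1 : k) • z) (hw g)).symm ?_)
    · rfl
    · exact (map_smul (((QF k S).obj (kernel (aug k G))).ρ (QuotientGroup.mk g)) (1 : k)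
        (qmk S (kernel (aug k G)) w)).symm⟩

theorem ABs_ι_apply {k G : Type} [CommRing k] [Group G] (S : Subgroup G)
    [S.Normal] (w : (kernel (aug k G)).V)
    (hw : ∀ g : G, qmk S (kernel (aug k G)) ((kernel (aug k G)).ρ g w) =
      qmk S (kernel (aug k G)) w) (c : k) :
    (ABs_ι k S w hw).hom c = qmk S (kernel (aug k G)) (c • w) :=
  (map_smul (qmk S (kernel (aug k G))) c w).symm

theorem ABs_ρ_single {k G : Type} [CommRing k] [Group G] (g h : G) (r : k) :
    (Rep.leftRegular k G).ρ g (MonoidAlgebra.single h r : MonoidAlgebra k G) =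
      (MonoidAlgebra.single (g * h) r : MonoidAlgebra k G) :=
  Representation.ofMulAction_single g h r

theorem ABs_main (k : Type) {G : Type} [CommRing k] [Group G] (t : G)
    (hc : t ∈ Subgroup.center G) (ht : ∀ n : ℤ, t ^ n = 1 → n = 0)
    [(Subgroup.zpowers t).Normal] :
    ∃ (ι : Rep.trivial k (G ⧸ Subgroup.zpowers t) k ⟶
          (QF k (Subgroup.zpowers t)).obj (kernel (aug k G)))
      (a : (QF k (Subgroup.zpowers t)).obj (kernel (aug k G)) ⟶
          kernel (aug k (G ⧸ Subgroup.zpowers t)))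
      (w : ι ≫ a = 0), (ShortComplex.mk ι a w).ShortExact := by
  have hcm : ∀ g : G, g * t = t * g := fun g => (Subgroup.mem_center_iff.1 hc g)
  -- the elements `g - 1` of `I`
  have hI : ∀ g : G, ∃ w : (kernel (aug k G)).V, (kernel.ι (aug k G)).hom w =
      (MonoidAlgebra.single g 1 - MonoidAlgebra.single 1 1 : MonoidAlgebra k G) := by
    intro g
    refine ABs_lift _ ?_
    refine (map_sub (aug k G).hom _ _).trans ?_
    rw [ABs_aug_single, ABs_aug_single, sub_self]
  choose e he using hI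
  have hw : ∀ g : G, qmk (Subgroup.zpowers t) (kernel (aug k G)) ((kernel (aug k G)).ρ g (e t)) =
      qmk (Subgroup.zpowers t) (kernel (aug k G)) (e t) := by
    intro g
    rw [← sub_eq_zero, ← map_sub, TRegC_qmk]
    refine ⟨e g, ?_⟩
    refine ABs_ι_inj _ _ ?_
    rw [map_sub, map_sub, Rep.hom_comm_apply, Rep.hom_comm_apply, he, he]
    refine (congrArg₂ (· - ·) (map_sub ((Rep.leftRegular k G).ρ t) _ _) rfl).trans ?_
    refine Eq.trans ?_ (congrArg₂ (· - ·) (map_sub ((Rep.leftRegular k G).ρ g) _ _) rfl).symm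
    rw [ABs_ρ_single, ABs_ρ_single, ABs_ρ_single, ABs_ρ_single, mul_one, mul_one, hcm g]
    exact sub_sub_sub_comm _ _ _ _
  have hπ : ∀ z : MonoidAlgebra k G, ABs_π k (Subgroup.zpowers t)
      ((Rep.leftRegular k G).ρ t z - z : MonoidAlgebra k G) = 0 := by
    intro z
    rw [map_sub, ABs_π_ρ, (QuotientGroup.eq_one_iff t).2 (Subgroup.mem_zpowers t), map_one]
    exact sub_self _
  have hβ : ABs_β k (Subgroup.zpowers t) ≫ aug k (G ⧸ Subgroup.zpowers t) = 0 := by
    refine Rep.hom_ext ?_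
    refine DFunLike.ext _ _ fun x => ?_
    obtain ⟨y, rfl⟩ := qmk_surjective _ _ x
    show (aug k (G ⧸ Subgroup.zpowers t)).hom ((ABs_β k (Subgroup.zpowers t)).hom _) = 0
    rw [ABs_β_apply, ABs_π_aug, ABs_aug_ι]
  have hlift : ∀ x, (kernel.ι (aug k (G ⧸ Subgroup.zpowers t))).hom
      ((kernel.lift _ _ hβ).hom x) = (ABs_β k (Subgroup.zpowers t)).hom x := fun x =>
    congrArg (fun f => f.hom x) (kernel.lift_ι _ _ hβ)
  have hτ : (kernel.ι (aug k G)).hom (e t) =
      ((Rep.leftRegular k G).ρ t (MonoidAlgebra.single 1 (1 : k) : MonoidAlgebra k G) -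
        MonoidAlgebra.single 1 1 : MonoidAlgebra k G) := by
    rw [he, ABs_ρ_single, mul_one]
  have hw0 : ABs_ι k (Subgroup.zpowers t) (e t) hw ≫ kernel.lift _ _ hβ = 0 := by
    refine Rep.hom_ext ?_
    refine DFunLike.ext _ _ fun c => ?_
    show (kernel.lift _ _ hβ).hom ((ABs_ι k (Subgroup.zpowers t) (e t) hw).hom c) = 0
    refine ABs_ι_inj _ _ ?_
    rw [hlift, ABs_ι_apply, ABs_β_apply, map_smul, map_smul, hτ, hπ, smul_zero, map_zero]
  refine ⟨ABs_ι k (Subgroup.zpowers t) (e t) hw, kernel.lift _ _ hβ, hw0, ?_⟩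
  refine ABs_shortExact _ ?_ ?_ ?_
  · -- injective
    show Function.Injective (ABs_ι k (Subgroup.zpowers t) (e t) hw).hom
    rw [injective_iff_map_eq_zero]
    intro c h0
    rw [ABs_ι_apply, TRegC_qmk] at h0
    obtain ⟨y, hy⟩ := h0
    have h1 := congrArg (kernel.ι (aug k G)).hom hy
    rw [map_sub, Rep.hom_comm_apply, map_smul, hτ] at h1
    have h2 : (Rep.leftRegular k G).ρ t ((kernel.ι (aug k G)).hom y -
        c • (MonoidAlgebra.single 1 (1 : k) : MonoidAlgebra k G) : MonoidAlgebra k G) =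
        ((kernel.ι (aug k G)).hom y -
        c • (MonoidAlgebra.single 1 (1 : k) : MonoidAlgebra k G) : MonoidAlgebra k G) := by
      refine (map_sub ((Rep.leftRegular k G).ρ t) _ _).trans ?_
      rw [map_smul]
      rw [smul_sub] at h1
      rw [sub_eq_sub_iff_add_eq_add] at h1 ⊢
      exact h1.trans (add_comm _ _)
    have h3 := AugE_proj t ht (Rep.leftRegular k G) _ h2
    have h4 := congrArg (aug k G).hom (sub_eq_zero.1 h3)
    rw [ABs_aug_ι] at h4
    have h5 : (aug k G).hom (c • (MonoidAlgebra.single 1 (1 : k) : MonoidAlgebra k G)) = c := by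
      refine (map_smul (aug k G).hom _ _).trans ?_
      rw [ABs_aug_single]
      exact mul_one c
    rw [h5] at h4
    exact h4.symm
  · -- surjective
    show Function.Surjective (kernel.lift _ _ hβ).hom
    intro y
    obtain ⟨z, hz⟩ := ABs_π_surj (Subgroup.zpowers t)
      ((kernel.ι (aug k (G ⧸ Subgroup.zpowers t))).hom y)
    have hz0 : (aug k G).hom z = 0 := by
      rw [← ABs_π_aug (Subgroup.zpowers t), hz, ABs_aug_ι]
    obtain ⟨x, hx⟩ := ABs_lift z hz0
    refine ⟨qmk _ _ x, ABs_ι_inj _ _ ?_⟩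
    rw [hlift, ABs_β_apply, hx, hz]
  · -- exact in the middle
    intro x hx
    obtain ⟨y, rfl⟩ := qmk_surjective _ _ x
    have h1 := congrArg (kernel.ι (aug k (G ⧸ Subgroup.zpowers t))).hom
      (show (kernel.lift _ _ hβ).hom (qmk _ _ y) = 0 from hx)
    rw [hlift, ABs_β_apply, map_zero] at h1
    have h2 := congrArg (ABs_σ k (Subgroup.zpowers t)) h1
    rw [ABs_σ_π, map_zero, TRegC_qmk] at h2
    obtain ⟨z, hz⟩ := h2
    refine ⟨(aug k G).hom z, ?_⟩
    show (ABs_ι k (Subgroup.zpowers t) (e t) hw).hom ((aug k G).hom z) = qmk _ _ y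
    rw [ABs_ι_apply, ← sub_eq_zero, ← map_sub, TRegC_qmk]
    have hz0 : (aug k G).hom ((((aug k G).hom z : k) •
        (MonoidAlgebra.single 1 (1 : k) : MonoidAlgebra k G)) - z : MonoidAlgebra k G) = 0 := by
      refine (map_sub (aug k G).hom _ _).trans ?_
      rw [sub_eq_zero]
      refine (map_smul (aug k G).hom _ _).trans ?_
      rw [ABs_aug_single]
      exact mul_one _
    obtain ⟨v, hv⟩ := ABs_lift _ hz0
    refine ⟨v, ABs_ι_inj _ _ ?_⟩
    rw [map_sub, map_sub, Rep.hom_comm_apply, hv, map_smul, hτ]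
    refine (congrArg₂ (· - ·) (map_sub ((Rep.leftRegular k G).ρ t) _ _) rfl).trans ?_
    rw [map_smul, smul_sub, ← hz]
    abel

end Pool.Agent.H5.CP
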