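import Mathlib

/-!
ROW AlgA (200 lines).  `T : B → End_ℚ(V)` additive with commuting values, `T f` injective for `f ≠ 0`, `V ≠ 0` finite dimensional, `B` finitely generated free.  Bound on denominators.
(1) `𝓐 = Algebra.adjoin ℚ (range T)` is a commutative finite dimensional `ℚ`-algebra, non-trivial.  Let `𝔪` be a maximal ideal, `K = 𝓐/𝔪`: a field, finite over `ℚ` (a number field).  `ψ : B → K`, `ψ(f)` = class of `T f`.
(2) for `f ≠ 0`, `T f` is a unit of `𝓐` (multiplication by `T f` on the finite dimensional space `𝓐` is injective since `T f` is an injective endomorphism), so `ψ(f) ≠ 0`: `ψ` is injective.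
(3) `IsIntegral ℤ ((s/a) • T f)` implies `(s/a) ψ(f)` is integral over `ℤ`, i.e. in `O = integralClosure ℤ K`, a finitely generated `ℤ`-module (`NumberField.RingOfIntegers`).
(4) Let `W` = the `ℚ`-span of `ψ(B)` in `K`.  `O ∩ W` is a finitely generated abelian group, each element has a positive multiple in `ψ(B)`, so there is `M' > 0` with `M' (O ∩ W) ⊆ ψ(B)`.
(5) if `(s/a) ψ(f) ∈ O` then `M' (s/a) ψ(f) = ψ(b)`, `b ∈ B`: `M' s ψ(f) = a ψ(b)`, `M' s f = a b`, and applying `φ` with `φ f = 1`: `M' s = a φ(b)`.  So `a ∣ M = M' s`.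
-/

namespace Pool.Agent.H5.CP

open CategoryTheory CategoryTheory.Abelian CategoryTheory.Limits

theorem AlgA_lin {K : Type} [AddCommGroup K] (N R : Submodule ℤ K) (hN : N.FG)
    (h : ∀ x ∈ N, ∃ n : ℕ, 0 < n ∧ n • x ∈ R) :
    ∃ M : ℕ, 0 < M ∧ ∀ x ∈ N, M • x ∈ R := by
  classical
  obtain ⟨S, hS⟩ := hN
  have hSN : ∀ x ∈ S, x ∈ N := fun x hx => by
    rw [← hS]; exact Submodule.subset_span hx
  choose! n hn hn' using h
  refine ⟨∏ x ∈ S, n x, Finset.prod_pos fun x hx => hn x (hSN x hx), ?_⟩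
  intro x hx
  rw [← hS] at hx
  induction hx using Submodule.span_induction with
  | mem x hx =>
    have hx' : x ∈ S := hx
    rw [← Finset.prod_erase_mul S n hx', mul_smul]
    exact R.toAddSubgroup.nsmul_mem (hn' x (hSN x hx')) _
  | zero => rw [smul_zero]; exact R.zero_mem
  | add x y _ _ hx hy => rw [smul_add]; exact R.add_mem hx hy
  | smul a x _ hx =>
    rw [smul_comm]
    exact R.smul_mem a hx

theorem AlgA_core {K B : Type} [Field K] [Algebra ℚ K] [FiniteDimensional ℚ K] [AddCommGroup B]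
    (ψ : B →+ K) (hψ : Function.Injective ψ) (s : ℕ) (hs : 0 < s) :
    ∃ M : ℕ, 0 < M ∧ ∀ (f : B) (a : ℕ), 0 < a → (∃ φ : B →ₗ[ℤ] ℤ, φ f = 1) →
      IsIntegral ℤ (((s : ℚ) / a) • ψ f) → a ∣ M := by
  have hno : IsNoetherian ℤ (integralClosure ℤ K) :=
    IsIntegralClosure.isNoetherian ℤ ℚ K (integralClosure ℤ K)
  let R : Submodule ℤ K := AddSubgroup.toIntSubmodule ψ.range
  have hR : ∀ x, x ∈ R ↔ ∃ b, ψ b = x := fun x => Iff.rfl
  let N : Submodule ℤ K :=
    { carrier := {x | IsIntegral ℤ x ∧ ∃ n : ℕ, 0 < n ∧ n • x ∈ R}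
      zero_mem' := ⟨isIntegral_zero, 1, one_pos, by rw [smul_zero]; exact R.zero_mem⟩
      add_mem' := by
        rintro x y ⟨hx, n, hn, hn'⟩ ⟨hy, m, hm, hm'⟩
        refine ⟨hx.add hy, n * m, Nat.mul_pos hn hm, ?_⟩
        rw [smul_add]
        refine R.add_mem ?_ ?_
        · rw [mul_comm, mul_smul]
          exact R.toAddSubgroup.nsmul_mem hn' _
        · rw [mul_smul]
          exact R.toAddSubgroup.nsmul_mem hm' _
      smul_mem' := by
        rintro c x ⟨hx, n, hn, hn'⟩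
        refine ⟨hx.smul c, n, hn, ?_⟩
        rw [smul_comm]
        exact R.smul_mem c hn' }
  have hNle : N ≤ Subalgebra.toSubmodule (integralClosure ℤ K) := fun x hx => hx.1
  have hNfg : N.FG := by
    have : IsNoetherian ℤ (Subalgebra.toSubmodule (integralClosure ℤ K)) := hno
    exact isNoetherian_submodule.1 this N hNle
  obtain ⟨M', hM', hM⟩ := AlgA_lin N R hNfg fun x hx => hx.2
  refine ⟨M' * s, Nat.mul_pos hM' hs, ?_⟩
  rintro f a ha ⟨φ, hφ⟩ hint
  have ha0 : (a : ℚ) ≠ 0 := by exact_mod_cast ha.ne'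
  have h1 : a • (((s : ℚ) / a) • ψ f) = s • ψ f := by
    rw [← Nat.cast_smul_eq_nsmul ℚ a, ← Nat.cast_smul_eq_nsmul ℚ s, smul_smul]
    congr 1
    field_simp
  have h2 : ((s : ℚ) / a) • ψ f ∈ N := by
    refine ⟨hint, a, ha, ?_⟩
    rw [h1]
    exact ⟨s • f, map_nsmul ψ s f⟩
  obtain ⟨b, hb⟩ := hM _ h2
  have h3 : ψ (a • b) = ψ ((M' * s) • f) := by
    rw [map_nsmul, map_nsmul]
    have hb' : ψ b = M' • (((s : ℚ) / a) • ψ f) := hb
    rw [hb', smul_comm, h1, mul_smul]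
  have h4 := hψ h3
  have h5 : φ (a • b) = φ ((M' * s) • f) := by rw [h4]
  rw [map_nsmul, map_nsmul, hφ] at h5
  have h6 : ((M' * s : ℕ) : ℤ) = a * φ b := by
    simpa using h5.symm
  exact Int.natCast_dvd_natCast.1 ⟨φ b, h6⟩

theorem AlgA_alg {V B : Type} [AddCommGroup V] [Module ℚ V] [FiniteDimensional ℚ V]
    [Nontrivial V] [AddCommGroup B]
    (T : B →+ Module.End ℚ V) (hc : ∀ f g, T f * T g = T g * T f)
    (hi : ∀ f, f ≠ 0 → Function.Injective (T f)) :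
    ∃ (K : Type) (_ : Field K) (_ : Algebra ℚ K), FiniteDimensional ℚ K ∧
      ∃ ψ : B →+ K, Function.Injective ψ ∧
        ∀ (f : B) (c : ℚ), IsIntegral ℤ (c • T f) → IsIntegral ℤ (c • ψ f) := by
  let 𝓐 := Algebra.adjoin ℚ (Set.range T)
  have hcomm : ∀ a ∈ Set.range T, ∀ b ∈ Set.range T, a * b = b * a := by
    rintro _ ⟨f, rfl⟩ _ ⟨g, rfl⟩
    exact hc f g
  letI hCR : CommRing 𝓐 := Algebra.adjoinCommRingOfComm ℚ hcomm
  obtain ⟨𝔪, h𝔪⟩ := Ideal.exists_maximal 𝓐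
  letI hF : Field (𝓐 ⧸ 𝔪) := Ideal.Quotient.field 𝔪
  have hfin : FiniteDimensional ℚ 𝓐 := FiniteDimensional.finiteDimensional_subalgebra 𝓐
  have hfinK : FiniteDimensional ℚ (𝓐 ⧸ 𝔪) :=
    Module.Finite.of_surjective (Ideal.Quotient.mkₐ ℚ 𝔪).toLinearMap
      (Ideal.Quotient.mkₐ_surjective ℚ 𝔪)
  let τ : B →+ 𝓐 :=
    { toFun := fun f => ⟨T f, Algebra.subset_adjoin ⟨f, rfl⟩⟩
      map_zero' := Subtype.ext (map_zero T)
      map_add' := fun f g => Subtype.ext (map_add T f g) }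
  let ψ : B →+ 𝓐 ⧸ 𝔪 := (Ideal.Quotient.mk 𝔪).toAddMonoidHom.comp τ
  refine ⟨𝓐 ⧸ 𝔪, hF, inferInstance, hfinK, ψ, ?_, ?_⟩
  · refine (injective_iff_map_eq_zero ψ).2 fun f hf => ?_
    by_contra hf0
    have hinj := hi f hf0
    have hmem : τ f ∈ 𝔪 := Ideal.Quotient.eq_zero_iff_mem.1 hf
    have hLinj : Function.Injective (LinearMap.mulLeft ℚ (τ f)) := by
      intro x y hxy
      have h1 : τ f * x = τ f * y := hxy
      have h2 : T f * x.1 = T f * y.1 := congrArg Subtype.val h1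
      apply Subtype.ext
      apply LinearMap.ext
      intro v
      apply hinj
      exact congrArg (fun t : Module.End ℚ V => t v) h2
    have hLsurj : Function.Surjective (LinearMap.mulLeft ℚ (τ f)) :=
      LinearMap.surjective_of_injective hLinj
    obtain ⟨y, hy⟩ := hLsurj 1
    have hy' : τ f * y = 1 := hy
    have : (1 : 𝓐) ∈ 𝔪 := by
      rw [← hy']
      exact Ideal.mul_mem_right _ _ hmem
    exact h𝔪.ne_top ((Ideal.eq_top_iff_one 𝔪).2 this)
  · intro f c hint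
    have h1 : IsIntegral ℤ (c • τ f) := by
      have h2 : IsIntegral ℤ ((𝓐.val.toRingHom.toIntAlgHom) (c • τ f)) := hint
      exact (isIntegral_algHom_iff _ (fun x y h => Subtype.ext h)).1 h2
    have h3 : c • ψ f = (Ideal.Quotient.mk 𝔪).toIntAlgHom (c • τ f) := rfl
    rw [h3]
    exact h1.map _

theorem AlgA_main {V B : Type} [AddCommGroup V] [Module ℚ V] [FiniteDimensional ℚ V]
    [Nontrivial V] [AddCommGroup B] [Module.Free ℤ B] [Module.Finite ℤ B]
    (T : B →+ Module.End ℚ V) (hc : ∀ f g, T f * T g = T g * T f)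
    (hi : ∀ f, f ≠ 0 → Function.Injective (T f)) (s : ℕ) (hs : 0 < s) :
    ∃ M : ℕ, 0 < M ∧ ∀ (f : B) (a : ℕ), 0 < a → (∃ φ : B →ₗ[ℤ] ℤ, φ f = 1) →
      IsIntegral ℤ (((s : ℚ) / a) • T f) → a ∣ M := by
  obtain ⟨K, hF, hA, hfin, ψ, hψ, hint⟩ := AlgA_alg T hc hi
  obtain ⟨M, hM, h⟩ := AlgA_core ψ hψ s hs
  exact ⟨M, hM, fun f a ha hφ hi => h f a ha hφ (hint f _ hi)⟩

end Pool.Agent.H5.CP
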