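import Mathlib

/-!
ROW AlgI (100 lines).  Integrality criterion.  `L` a finitely generated subgroup of the finite dimensional rational vector space `V`, every vector has a multiple in `L`; `φ : V → V` linear with `N φ^k(L) ⊆ L` for all `k`.  Then `φ` is integral over `ℤ`.
Proof: the additive group `E = {ψ ∈ End V : N ψ(L) ⊆ L}` embeds in `Hom_ℤ(L,L)` (`ψ ↦ N ψ|_L`, injective since `L` spans), a finitely generated (Noetherian) `ℤ`-module, and contains all powers of `φ`.  So the chain of submodules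
`span{1,φ,…,φ^n}` stabilises, which gives a monic integral polynomial killing `φ`.
(Alternatively `L` is free with a basis which is a basis of `V`; the characteristic polynomial ...; or `isIntegral_of_mem_of_FG`/`IsIntegral` for the commutative subalgebra `Algebra.adjoin ℤ {φ}`.)
-/

namespace Pool.Agent.H5.CP

open CategoryTheory CategoryTheory.Abelian CategoryTheory.Limits

lemma AlgI_mem {V : Type} [AddCommGroup V] [Module ℚ V]
    (L : AddSubgroup V) (φ : Module.End ℚ V) (N : ℕ)
    (h : ∀ (k : ℕ) (x : V), x ∈ L → N • (φ ^ k) x ∈ L) (ψ : Module.End ℚ V)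
    (hψ : ψ ∈ Algebra.adjoin ℤ {φ}) (x : V) (hx : x ∈ L) : N • ψ x ∈ L := by
  rw [← Subalgebra.mem_toSubmodule, Algebra.adjoin_eq_span] at hψ
  induction hψ using Submodule.span_induction with
  | mem y hy =>
    obtain ⟨k, rfl⟩ := Submonoid.mem_closure_singleton.1 hy
    exact h k x hx
  | zero => simpa using L.zero_mem
  | add y z _ _ hy hz =>
    rw [LinearMap.add_apply, smul_add]
    exact L.add_mem hy hz
  | smul c y _ hy =>
    rw [LinearMap.smul_apply, smul_comm]
    exact L.zsmul_mem hy c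

theorem AlgI_main {V : Type} [AddCommGroup V] [Module ℚ V] [FiniteDimensional ℚ V]
    (L : AddSubgroup V) (hL : L.FG) (hs : ∀ v : V, ∃ m : ℕ, 0 < m ∧ m • v ∈ L)
    (φ : Module.End ℚ V) (N : ℕ) (hN : 0 < N)
    (h : ∀ (k : ℕ) (x : V), x ∈ L → N • (φ ^ k) x ∈ L) : IsIntegral ℤ φ := by
  have hmem := AlgI_mem L φ N h
  have hz : ∀ (m : ℕ) (v : V), 0 < m → m • v = 0 → v = 0 := by
    intro m v hm hv
    rw [← Nat.cast_smul_eq_nsmul ℚ] at hv
    rcases smul_eq_zero.1 hv with h1 | h1
    · exact absurd h1 (by exact_mod_cast hm.ne')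
    · exact h1
  have hfin : Module.Finite ℤ (AddSubgroup.toIntSubmodule L) :=
    Module.Finite.of_fg ((Submodule.fg_iff_addSubgroup_fg _).2 hL)
  have htf : Module.IsTorsionFree ℤ (AddSubgroup.toIntSubmodule L) := by
    refine Module.IsTorsionFree.of_smul_eq_zero fun r x hx => ?_
    have h1 : (r : ℤ) • (x : V) = 0 := congrArg Subtype.val hx
    rw [← Int.cast_smul_eq_zsmul ℚ] at h1
    rcases smul_eq_zero.1 h1 with h2 | h2
    · left
      exact_mod_cast h2
    · right
      exact Subtype.ext h2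
  have hfree : Module.Free ℤ (AddSubgroup.toIntSubmodule L) := inferInstance
  obtain ⟨Φ, hΦ⟩ : ∃ Φ : (Algebra.adjoin ℤ {φ} : Subalgebra ℤ (Module.End ℚ V)) →ₗ[ℤ]
      ((AddSubgroup.toIntSubmodule L) →ₗ[ℤ] (AddSubgroup.toIntSubmodule L)),
      ∀ ψ x, ((Φ ψ x : AddSubgroup.toIntSubmodule L) : V) = N • (ψ : Module.End ℚ V) (x : V) := by
    refine ⟨AddMonoidHom.toIntLinearMap
      { toFun := fun ψ => AddMonoidHom.toIntLinearMap
          { toFun := fun x => ⟨N • (ψ : Module.End ℚ V) (x : V), hmem ψ.1 ψ.2 x.1 x.2⟩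
            map_zero' := ?_
            map_add' := ?_ }
        map_zero' := ?_
        map_add' := ?_ }, fun ψ x => rfl⟩
    · apply Subtype.ext
      simp
    · intro x y
      apply Subtype.ext
      simp
    · ext x
      simp
    · intro x y
      ext z
      simp
  have hinj : Function.Injective Φ := by
    rw [injective_iff_map_eq_zero]
    intro ψ hψ
    apply Subtype.ext
    ext v
    obtain ⟨m, hm, hv⟩ := hs v
    have h1 := hΦ ψ ⟨m • v, hv⟩
    rw [hψ] at h1
    have h2 : N • (ψ : Module.End ℚ V) (m • v) = 0 := h1.symm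
    have h3 := hz N _ hN h2
    rw [map_nsmul] at h3
    exact hz m _ hm h3
  have hf : Module.Finite ℤ (Algebra.adjoin ℤ {φ} : Subalgebra ℤ (Module.End ℚ V)) :=
    Module.Finite.of_injective Φ hinj
  exact IsIntegral.of_mem_of_fg (Algebra.adjoin ℤ {φ})
    ((Submodule.fg_top _).mp hf.fg_top) φ (Algebra.self_mem_adjoin_singleton ℤ φ)

end Pool.Agent.H5.CP
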