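import Mathlib

/-!
ROW Prim (60 lines).  Every `f ≠ 0` in a finitely generated free abelian group is `c • f'` with `c ≠ 0` and `f'` primitive (`φ f' = 1` for some `φ`).  In a basis, `c` = gcd of the coordinates (`Finset.gcd`), Bezout.
-/

namespace Pool.Agent.H5.CP

open CategoryTheory CategoryTheory.Abelian CategoryTheory.Limits

theorem Prim_main {B : Type} [AddCommGroup B] [Module.Free ℤ B] [Module.Finite ℤ B] (f : B)
    (hf : f ≠ 0) : ∃ (c : ℤ) (f' : B), c ≠ 0 ∧ f = c • f' ∧ ∃ φ : B →ₗ[ℤ] ℤ, φ f' = 1 := by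
  classical
  let b := Module.Free.chooseBasis ℤ B
  let ev : (B →ₗ[ℤ] ℤ) →ₗ[ℤ] ℤ := LinearMap.applyₗ f
  let I : Ideal ℤ := LinearMap.range ev
  obtain ⟨φ₀, hφ₀⟩ : ∃ φ : B →ₗ[ℤ] ℤ, φ f = Submodule.IsPrincipal.generator I :=
    Submodule.IsPrincipal.generator_mem I
  set c := Submodule.IsPrincipal.generator I with hcdef
  have hd : ∀ φ : B →ₗ[ℤ] ℤ, c ∣ φ f := fun φ =>
    (Submodule.IsPrincipal.mem_iff_generator_dvd I).1 ⟨φ, rfl⟩
  have hc : c ≠ 0 := by
    intro h0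
    apply hf
    apply b.repr.injective
    rw [map_zero]
    ext i
    have h1 := hd (b.coord i)
    rw [h0, zero_dvd_iff] at h1
    exact h1
  have hx : ∀ i, ∃ d : ℤ, b.repr f i = c * d := fun i => hd (b.coord i)
  choose d hd' using hx
  have hf' : f = c • ∑ i, d i • b i := by
    conv_lhs => rw [← b.sum_repr f]
    rw [Finset.smul_sum]
    refine Finset.sum_congr rfl fun i _ => ?_
    rw [hd', mul_smul]
  refine ⟨c, ∑ i, d i • b i, hc, hf', φ₀, ?_⟩
  rw [hf', map_smul, smul_eq_mul] at hφ₀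
  exact mul_left_cancel₀ hc (hφ₀.trans (mul_one c).symm)

end Pool.Agent.H5.CP
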