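import Pool.Agent.H5.CP.AlgV
import Pool.Agent.H5.CP.AlgI
import Pool.Agent.H5.CP.AlgA
import Pool.Agent.H5.CP.Prim

/-!
ROW AlgB (250 lines).  The graded version.  `V`, `ι : L 0 → V` from `AlgV_main`; `V ≠ 0` because of `x₀`.
(1) for `f ∈ B`, `x ∈ L 0` choose `x' ∈ L 0` with `E g 0 x' = s • E f 0 x` (`hg1`), unique modulo torsion (`hg2`).  `T f : V → V` is the linear map with `T f (ι x) = (1/s) ι(x')`; it is well defined on `V` (`v = (1/m) ι x`) and additive in `f`.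
 (Torsion in `L 0`: if `k x = 0` then `E g 0 (k x') = 0` and `s k x' = 0`.)
(2) commuting: `T h (T f ι x) = (1/s²) ι(x'')` with `E g 0 x'' = s E h 0 x'`.  In `L 2`: `E g 1 (E g 0 x'') = s E g 1 (E h 0 x') = s E h 1 (E g 0 x') = s² E h 1 (E f 0 x)`, symmetric in `f`, `h` by `hcomm`; and `E g 1 ∘ E g 0` has torsion kernel.
(3) `T f` is injective for `f ≠ 0`: by `Prim_main` we may assume `f` primitive.  If `T f (ι x) = 0` then `x'` is torsion, so `E f 0 x` is torsion: `k E f 0 x = 0`.  Put `x_n = Eit E g n x ∈ L n`; `E f n x_n = (E g)^n (E f 0 x)` (commutation), killed by `k`; for `n ≥ n₀`: `s' k x_n = 0` (`hinj`),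
 and then `x` is torsion since `Eit E g n` has torsion kernel (`hg2`).
(4) Let `(f,a)` be as in the conclusion.  For `x ∈ L 0`, `y ∈ L k` with `N (E_f^k x) = a^k y`.  Iterating `hg1` there is `x' ∈ L 0` with `Eit E g k x' = s^k y`.  And `(T f)^k (ι x) = (1/s^k) ι(z)` with `Eit E g k z = s^k Eit E f k x`
 (induction on k, commutation).  So `Eit E g k (N z) = s^k a^k y = Eit E g k (a^k x')`, hence `N z - a^k x'` is torsion and `N ((s/a) T f)^k (ι x) = N a^{-k} ι(z) = ι(x')`.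
 So `N ((s/a) T f)^k` maps the lattice `ι(L 0)` (finitely generated, spans) into itself: `AlgI_main`: `(s/a) T f` is integral.  Conclude by `AlgA_main`.
-/

namespace Pool.Agent.H5.CP

open CategoryTheory CategoryTheory.Abelian CategoryTheory.Limits

/-- iterates of the operators -/
def Eit {B : Type} {L : ℕ → Type} [∀ n, AddCommGroup (L n)] (E : B → ∀ n, L n →+ L (n + 1))
    (f : B) : (k : ℕ) → L 0 → L k
  | 0, x => x
  | k + 1, x => E f k (Eit E f k x)

/-- additive version of the iterates -/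
def algb_H {B : Type} {L : ℕ → Type} [∀ n, AddCommGroup (L n)] (E : B → ∀ n, L n →+ L (n + 1))
    (f : B) : (k : ℕ) → L 0 →+ L k
  | 0 => AddMonoidHom.id _
  | k + 1 => (E f k).comp (algb_H E f k)

theorem algb_H_succ {B : Type} {L : ℕ → Type} [∀ n, AddCommGroup (L n)]
    (E : B → ∀ n, L n →+ L (n + 1)) (f : B) (k : ℕ) (x : L 0) :
    algb_H E f (k + 1) x = E f k (algb_H E f k x) := rfl

theorem algb_H_eq {B : Type} {L : ℕ → Type} [∀ n, AddCommGroup (L n)]
    (E : B → ∀ n, L n →+ L (n + 1)) (f : B) (k : ℕ) (x : L 0) :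
    Eit E f k x = algb_H E f k x := by
  induction k with
  | zero => rfl
  | succ k ih =>
    change E f k (Eit E f k x) = E f k (algb_H E f k x)
    rw [ih]

theorem algb_tf {W : Type} [AddCommGroup W] [Module ℚ W] (k : ℕ) (w : W) (hk : 0 < k)
    (h : k • w = 0) : w = 0 := by
  rw [← Nat.cast_smul_eq_nsmul ℚ] at h
  rcases smul_eq_zero.1 h with h | h
  · exact absurd h (by positivity)
  · exact h

theorem algb_ext {L V W : Type} [AddCommGroup L] [AddCommGroup V] [Module ℚ V] [AddCommGroup W]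
    [Module ℚ W] (ι : L →+ V) (hker : ∀ x, ι x = 0 ↔ ∃ k : ℕ, 0 < k ∧ k • x = 0)
    (hspan : ∀ v : V, ∃ (m : ℕ) (x : L), 0 < m ∧ m • v = ι x) (t : L →+ W) :
    ∃ T : V →ₗ[ℚ] W, ∀ x, T (ι x) = t x := by
  have ht : ∀ x, ι x = 0 → t x = 0 := by
    intro x hx
    obtain ⟨k, hk, hkx⟩ := (hker x).1 hx
    exact algb_tf k _ hk (by rw [← map_nsmul, hkx, map_zero])
  choose m x hm hx using hspan
  have key : ∀ (v : V) (n : ℕ) (y : L), 0 < n → n • v = ι y →
      ((m v : ℚ)⁻¹) • t (x v) = ((n : ℚ)⁻¹) • t y := by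
    intro v n y hn hy
    have h1 : ι (n • x v - m v • y) = 0 := by
      rw [map_sub, map_nsmul, map_nsmul, ← hx, ← hy, smul_smul, smul_smul, mul_comm, sub_self]
    have h2 := ht _ h1
    rw [map_sub, map_nsmul, map_nsmul, sub_eq_zero] at h2
    have hn' : (n : ℚ) ≠ 0 := by positivity
    have hm' : (m v : ℚ) ≠ 0 := by have := hm v; positivity
    rw [inv_smul_eq_iff₀ hm', smul_comm, eq_inv_smul_iff₀ hn', Nat.cast_smul_eq_nsmul,
      Nat.cast_smul_eq_nsmul]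
    exact h2
  have hadd : ∀ v w : V, ((m (v + w) : ℚ)⁻¹) • t (x (v + w)) =
      ((m v : ℚ)⁻¹) • t (x v) + ((m w : ℚ)⁻¹) • t (x w) := by
    intro v w
    have h1 : (m v * m w) • (v + w) = ι (m w • x v + m v • x w) := by
      rw [map_add, map_nsmul, map_nsmul, ← hx, ← hx, smul_add, smul_smul, smul_smul,
        mul_comm (m w)]
    rw [key (v + w) (m v * m w) (m w • x v + m v • x w) (Nat.mul_pos (hm v) (hm w)) h1]
    have hv' : (m v : ℚ) ≠ 0 := by have := hm v; positivity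
    have hw' : (m w : ℚ) ≠ 0 := by have := hm w; positivity
    rw [map_add, map_nsmul, map_nsmul, ← Nat.cast_smul_eq_nsmul ℚ, ← Nat.cast_smul_eq_nsmul ℚ,
      smul_add, smul_smul, smul_smul]
    congr 2
    · push_cast
      field_simp
    · push_cast
      field_simp
  refine ⟨(AddMonoidHom.mk' (fun v => ((m v : ℚ)⁻¹) • t (x v)) hadd).toRatLinearMap, ?_⟩
  intro y
  change ((m (ι y) : ℚ)⁻¹) • t (x (ι y)) = t y
  rw [key (ι y) 1 y one_pos (one_smul _ _)]
  simp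

theorem algb_uniq {L V W : Type} [AddCommGroup L] [AddCommGroup V] [Module ℚ V] [AddCommGroup W]
    [Module ℚ W] (ι : L →+ V)
    (hspan : ∀ v : V, ∃ (m : ℕ) (x : L), 0 < m ∧ m • v = ι x) (T T' : V →ₗ[ℚ] W)
    (h : ∀ x, T (ι x) = T' (ι x)) : T = T' := by
  ext v
  obtain ⟨m, x, hm, hx⟩ := hspan v
  have h1 : m • (T v - T' v) = 0 := by
    rw [smul_sub, ← map_nsmul, ← map_nsmul, hx, h, sub_self]
  exact sub_eq_zero.1 (algb_tf m _ hm h1)

theorem algb_tor {B : Type} {L : ℕ → Type} [∀ n, AddCommGroup (L n)]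
    (E : B → ∀ n, L n →+ L (n + 1)) (g : B) (s : ℕ) (hs : 0 < s)
    (hg2 : ∀ n (x : L n), E g n x = 0 → s • x = 0) (k : ℕ) (x : L 0)
    (h : ∃ m : ℕ, 0 < m ∧ m • algb_H E g k x = 0) : ∃ m : ℕ, 0 < m ∧ m • x = 0 := by
  induction k with
  | zero => exact h
  | succ k ih =>
    apply ih
    obtain ⟨m, hm, h⟩ := h
    rw [algb_H_succ, ← map_nsmul] at h
    have h1 := hg2 k _ h
    rw [smul_smul] at h1
    exact ⟨s * m, Nat.mul_pos hs hm, h1⟩

theorem algb_lift {B : Type} {L : ℕ → Type} [∀ n, AddCommGroup (L n)]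
    (E : B → ∀ n, L n →+ L (n + 1)) (g : B) (s : ℕ)
    (hg1 : ∀ n (y : L (n + 1)), ∃ x : L n, E g n x = s • y) (k : ℕ) :
    ∀ y : L k, ∃ x, algb_H E g k x = s ^ k • y := by
  induction k with
  | zero => intro y; exact ⟨y, by rw [pow_zero, one_smul]; rfl⟩
  | succ k ih =>
    intro y
    obtain ⟨w, hw⟩ := hg1 k y
    obtain ⟨x, hx⟩ := ih w
    refine ⟨x, ?_⟩
    rw [algb_H_succ, hx, map_nsmul, hw, smul_smul, pow_succ]

theorem algb_C {B : Type} {L : ℕ → Type} [∀ n, AddCommGroup (L n)]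
    (E : B → ∀ n, L n →+ L (n + 1))
    (hcomm : ∀ f g n x, E f (n + 1) (E g n x) = E g (n + 1) (E f n x)) (g f : B) (s : ℕ)
    (z z' : L 0) (h : E g 0 z' = s • E f 0 z) (k : ℕ) :
    algb_H E g (k + 1) z' = s • E f k (algb_H E g k z) := by
  induction k with
  | zero => exact h
  | succ k ih => rw [algb_H_succ, ih, map_nsmul, hcomm, algb_H_succ]

theorem algb_prim {B : Type} [AddCommGroup B] {L : ℕ → Type} [∀ n, AddCommGroup (L n)]
    (E : B → ∀ n, L n →+ L (n + 1))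
    (hcomm : ∀ f g n x, E f (n + 1) (E g n x) = E g (n + 1) (E f n x)) (g : B) (s : ℕ)
    (hs : 0 < s) (hg2 : ∀ n (x : L n), E g n x = 0 → s • x = 0) (f : B)
    (hinj : ∃ s' n₀ : ℕ, 0 < s' ∧ ∀ n, n₀ ≤ n → ∀ x : L n, E f n x = 0 → s' • x = 0)
    (x : L 0) (m : ℕ) (hm : 0 < m) (hx : m • E f 0 x = 0) : ∃ m : ℕ, 0 < m ∧ m • x = 0 := by
  obtain ⟨s', n₀, hs', hn₀⟩ := hinj
  have h1 : ∀ n, m • E f n (algb_H E g n x) = 0 := by
    intro n
    induction n with
    | zero => exact hx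
    | succ n ih => rw [algb_H_succ, hcomm, ← map_nsmul, ih, map_zero]
  have h2 := h1 n₀
  rw [← map_nsmul] at h2
  have h3 := hn₀ n₀ le_rfl _ h2
  rw [smul_smul] at h3
  exact algb_tor E g s hs hg2 n₀ x ⟨s' * m, Nat.mul_pos hs' hm, h3⟩

theorem AlgB_main {B : Type} [AddCommGroup B] [Module.Free ℤ B] [Module.Finite ℤ B]
    {L : ℕ → Type} [∀ n, AddCommGroup (L n)] (E : B → ∀ n, L n →+ L (n + 1))
    (hadd : ∀ f g n x, E (f + g) n x = E f n x + E g n x)
    (hcomm : ∀ f g n x, E f (n + 1) (E g n x) = E g (n + 1) (E f n x))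
    (hfg : AddGroup.FG (L 0)) (g : B) (s : ℕ) (hs : 0 < s)
    (hg1 : ∀ n (y : L (n + 1)), ∃ x : L n, E g n x = s • y)
    (hg2 : ∀ n (x : L n), E g n x = 0 → s • x = 0)
    (hinj : ∀ f : B, (∃ φ : B →ₗ[ℤ] ℤ, φ f = 1) →
      ∃ s' n₀ : ℕ, 0 < s' ∧ ∀ n, n₀ ≤ n → ∀ x : L n, E f n x = 0 → s' • x = 0)
    (x₀ : L 0) (hx₀ : ∀ k : ℕ, 0 < k → k • x₀ ≠ 0) :
    ∃ M : ℕ, 0 < M ∧ ∀ (f : B) (a : ℕ), 0 < a → (∃ φ : B →ₗ[ℤ] ℤ, φ f = 1) →
      (∃ N : ℕ, 0 < N ∧ ∀ (k : ℕ) (x : L 0), ∃ y : L k, N • Eit E f k x = a ^ k • y) →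
      a ∣ M := by
  obtain ⟨V, _, _, _, ι, hker, hspan⟩ := AlgV_main (L 0) hfg
  have hsQ : (s : ℚ) ≠ 0 := by positivity
  -- the values
  choose r hr using fun (f : B) (x : L 0) => hg1 0 (E f 0 x)
  have hιeq : ∀ z z' : L 0, E g 0 z = E g 0 z' → ι z = ι z' := by
    intro z z' h
    rw [← sub_eq_zero, ← map_sub]
    refine (hker _).2 ⟨s, hs, hg2 0 _ ?_⟩
    rw [map_sub, h, sub_self]
  let t : B → L 0 →+ V := fun f => AddMonoidHom.mk' (fun x => ((s : ℚ)⁻¹) • ι (r f x)) (by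
    intro x y
    rw [← smul_add, ← map_add]
    congr 1
    apply hιeq
    rw [map_add, hr, hr, hr, map_add, smul_add])
  choose T hT using fun f => algb_ext ι hker hspan (t f)
  have hTs : ∀ (f : B) (x z : L 0), E g 0 z = s • E f 0 x → s • T f (ι x) = ι z := by
    intro f x z h
    rw [hT]
    change s • (((s : ℚ)⁻¹) • ι (r f x)) = ι z
    rw [← Nat.cast_smul_eq_nsmul ℚ, smul_inv_smul₀ hsQ]
    apply hιeq
    rw [hr, h]
  have hTadd : ∀ f h : B, T (f + h) = T f + T h := by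
    intro f h
    refine algb_uniq ι hspan _ _ (fun x => ?_)
    rw [LinearMap.add_apply, hT, hT, hT]
    change ((s : ℚ)⁻¹) • ι (r (f + h) x) = ((s : ℚ)⁻¹) • ι (r f x) + ((s : ℚ)⁻¹) • ι (r h x)
    rw [← smul_add, ← map_add]
    congr 1
    apply hιeq
    rw [map_add, hr, hr, hr, hadd, smul_add]
  let TT : B →+ Module.End ℚ V := AddMonoidHom.mk' T hTadd
  have hnt : Nontrivial V := by
    refine ⟨ι x₀, 0, fun h => ?_⟩
    obtain ⟨k, hk, h⟩ := (hker _).1 h
    exact hx₀ k hk h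
  -- commuting
  have hc : ∀ f h, TT f * TT h = TT h * TT f := by
    intro f h
    refine algb_uniq ι hspan _ _ (fun x => ?_)
    change T f (T h (ι x)) = T h (T f (ι x))
    have key : ∀ f h : B, s • s • T f (T h (ι x)) = ι (r f (r h x)) := by
      intro f h
      rw [← map_nsmul, hTs h x (r h x) (hr h x), hTs f _ _ (hr f _)]
    have h1 : ι (r f (r h x)) = ι (r h (r f x)) := by
      rw [← sub_eq_zero, ← map_sub]
      refine (hker _).2 (algb_tor E g s hs hg2 2 _ ⟨1, one_pos, ?_⟩)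
      rw [one_smul, map_sub, algb_H_succ, algb_H_succ, algb_H_succ, algb_H_succ]
      change E g 1 (E g 0 (r f (r h x))) - E g 1 (E g 0 (r h (r f x))) = 0
      rw [hr, hr, map_nsmul, map_nsmul, hcomm g f, hcomm g h, hr, hr, map_nsmul, map_nsmul,
        hcomm f h, sub_self]
    rw [← key f h, ← key h f] at h1
    have h2 : (s * s) • (T f (T h (ι x)) - T h (T f (ι x))) = 0 := by
      rw [smul_sub, mul_smul, mul_smul, h1, sub_self]
    exact sub_eq_zero.1 (algb_tf _ _ (Nat.mul_pos hs hs) h2)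
  -- injective
  have hi1 : ∀ f, (∃ φ : B →ₗ[ℤ] ℤ, φ f = 1) → ∀ v, T f v = 0 → v = 0 := by
    intro f hf v hv
    obtain ⟨m, x, hm, hx⟩ := hspan v
    have h1 : T f (ι x) = 0 := by rw [← hx, map_nsmul, hv, smul_zero]
    have h2 : ι (r f x) = 0 := by rw [← hTs f x (r f x) (hr f x), h1, smul_zero]
    obtain ⟨k, hk, h3⟩ := (hker _).1 h2
    have h4 : (k * s) • E f 0 x = 0 := by
      rw [mul_smul, ← hr f x, ← map_nsmul, h3, map_zero]
    have h5 := algb_prim E hcomm g s hs hg2 f (hinj f hf) x _ (Nat.mul_pos hk hs) h4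
    have h6 := (hker _).2 h5
    rw [← hx] at h6
    exact algb_tf m _ hm h6
  have hi : ∀ f, f ≠ 0 → Function.Injective (TT f) := by
    intro f hf
    obtain ⟨c, f', hc0, rfl, hφ⟩ := Prim_main f hf
    rw [map_zsmul]
    rw [injective_iff_map_eq_zero]
    intro v hv
    apply hi1 f' hφ
    have h1 : c • T f' v = 0 := hv
    rw [← Int.cast_smul_eq_zsmul ℚ] at h1
    rcases smul_eq_zero.1 h1 with h | h
    · exact absurd (Int.cast_eq_zero.1 h) hc0
    · exact h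
  obtain ⟨M, hM, hMa⟩ := AlgA_main TT hc hi s hs
  refine ⟨M, hM, fun f a ha hφ hN => hMa f a ha hφ ?_⟩
  obtain ⟨N, hN, hNk⟩ := hN
  have haQ : (a : ℚ) ≠ 0 := by positivity
  refine AlgI_main (V := V) ι.range ?_ ?_ _ N hN ?_
  · have h1 := AddGroup.fg_range ι
    exact (AddGroup.fg_iff_addSubgroup_fg _).1 h1
  · intro v
    obtain ⟨m, x, hm, hx⟩ := hspan v
    exact ⟨m, hm, x, hx.symm⟩
  · rintro k _ ⟨x, rfl⟩
    obtain ⟨y, hy⟩ := hNk k x
    rw [algb_H_eq] at hy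
    obtain ⟨x', hx'⟩ := algb_lift E g s hg1 k y
    have hz : ∀ k : ℕ, ∃ z : L 0, algb_H E g k z = s ^ k • algb_H E f k x ∧
        s ^ k • ((T f) ^ k) (ι x) = ι z := by
      intro k
      induction k with
      | zero => exact ⟨x, by rw [pow_zero, one_smul]; rfl, by simp⟩
      | succ k ih =>
        obtain ⟨z, hz1, hz2⟩ := ih
        refine ⟨r f z, ?_, ?_⟩
        · rw [algb_C E hcomm g f s z _ (hr f z) k, hz1, map_nsmul, smul_smul, algb_H_succ,
            pow_succ, mul_comm]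
        · rw [← hTs f z _ (hr f z), ← hz2, pow_succ' (T f), Module.End.mul_apply, map_nsmul,
            smul_smul, pow_succ, mul_comm]
    obtain ⟨z, hz1, hz2⟩ := hz k
    have h1 : ι (N • z) = ι (a ^ k • x') := by
      rw [← sub_eq_zero, ← map_sub]
      refine (hker _).2 (algb_tor E g s hs hg2 k _ ⟨1, one_pos, ?_⟩)
      rw [one_smul, map_sub, map_nsmul, map_nsmul, hz1, hx', smul_comm N, hy, smul_comm,
        sub_self]
    rw [map_nsmul, map_nsmul, ← hz2] at h1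
    refine ⟨x', ?_⟩
    change ι x' = N • ((((s : ℚ) / a) • T f) ^ k) (ι x)
    have hak : ((a : ℚ) ^ k) ≠ 0 := pow_ne_zero _ haQ
    rw [smul_pow, LinearMap.smul_apply, div_pow]
    rw [← Nat.cast_smul_eq_nsmul ℚ, ← Nat.cast_smul_eq_nsmul ℚ, ← Nat.cast_smul_eq_nsmul ℚ] at h1
    rw [← Nat.cast_smul_eq_nsmul ℚ]
    push_cast at h1
    rw [← inv_smul_eq_iff₀ hak] at h1
    rw [← h1, smul_smul, smul_smul, smul_smul]
    congr 1
    field_simp

end Pool.Agent.H5.CP
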