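import Mathlib

/-!
ROW AlgV (80 lines).  Rationalisation of a finitely generated abelian group: `V = ℚ ⊗[ℤ] L` (or the localisation of `L`), `ι(x) = 1 ⊗ x`.
-/

namespace Pool.Agent.H5.CP

open CategoryTheory CategoryTheory.Abelian CategoryTheory.Limits

open scoped TensorProduct in
theorem AlgV_main (L : Type) [AddCommGroup L] (h : AddGroup.FG L) :
    ∃ (V : Type) (_ : AddCommGroup V) (_ : Module ℚ V) (_ : FiniteDimensional ℚ V)
      (ι : L →+ V), (∀ x, ι x = 0 ↔ ∃ k : ℕ, 0 < k ∧ k • x = 0) ∧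
      ∀ v : V, ∃ (m : ℕ) (x : L), 0 < m ∧ m • v = ι x := by
  have : Module.Finite ℤ L := Module.Finite.iff_addGroup_fg.2 h
  let f : L →ₗ[ℤ] (ℚ ⊗[ℤ] L) := TensorProduct.mk ℤ ℚ L 1
  have hloc : IsLocalizedModule (nonZeroDivisors ℤ) f := by
    rw [isLocalizedModule_iff_isBaseChange (nonZeroDivisors ℤ) ℚ]
    exact TensorProduct.isBaseChange ℤ L ℚ
  refine ⟨ℚ ⊗[ℤ] L, inferInstance, inferInstance, inferInstance, f.toAddMonoidHom, ?_, ?_⟩
  · intro x
    have hx := IsLocalizedModule.eq_zero_iff (nonZeroDivisors ℤ) f (m := x)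
    show f x = 0 ↔ _
    rw [hx]
    constructor
    · rintro ⟨c, hc⟩
      have hc0 : (c : ℤ) ≠ 0 := nonZeroDivisors.ne_zero c.2
      refine ⟨(c : ℤ).natAbs, Int.natAbs_pos.2 hc0, ?_⟩
      have hc' : (c : ℤ) • x = 0 := hc
      rcases Int.natAbs_eq (c : ℤ) with h1 | h1
      · rw [h1] at hc'
        simpa using hc'
      · rw [h1] at hc'
        simpa using hc'
    · rintro ⟨k, hk, hkx⟩
      refine ⟨⟨(k : ℤ), mem_nonZeroDivisors_of_ne_zero (by exact_mod_cast hk.ne')⟩, ?_⟩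
      show (k : ℤ) • x = 0
      simpa using hkx
  · intro v
    obtain ⟨⟨x, c⟩, hx⟩ := IsLocalizedModule.surj (nonZeroDivisors ℤ) f v
    have hc0 : (c : ℤ) ≠ 0 := nonZeroDivisors.ne_zero c.2
    have hx' : (c : ℤ) • v = f x := hx
    rcases Int.natAbs_eq (c : ℤ) with h1 | h1
    · refine ⟨(c : ℤ).natAbs, x, Int.natAbs_pos.2 hc0, ?_⟩
      rw [h1] at hx'
      show _ = f x
      rw [← hx', natCast_zsmul]
    · refine ⟨(c : ℤ).natAbs, -x, Int.natAbs_pos.2 hc0, ?_⟩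
      rw [h1] at hx'
      show _ = f (-x)
      rw [map_neg, ← hx', neg_smul, neg_neg, natCast_zsmul]

end Pool.Agent.H5.CP
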