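import Pool.Agent.H5.CP.QDef

/-!
ROW AugE (80 lines).  (1) The augmentation sequence `augSC` is short exact (`aug` is onto).
(2) if `t` has infinite order then `ρ(t) - 1` is injective on every projective `k[G]`-module: a projective module is a
submodule of a free module `Rep.free k G α` (`α →₀ k[G]`), and if `x ∈ k[G]` satisfies `t x = x` then the support of `x` is a finite
set stable under left multiplication by `t`, hence empty (left translation by `t` has only infinite orbits).
(3) submodules (`Mono f`) of `t`-regular modules are `t`-regular; in particular `kernel (aug k G)` is.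
-/

namespace Pool.Agent.H5.CP

open CategoryTheory CategoryTheory.Abelian CategoryTheory.Limits

theorem AugE_aug_epi (k G : Type) [CommRing k] [Group G] : Epi (aug k G) := by
  rw [Rep.epi_iff_surjective]
  intro r
  refine ⟨MonoidAlgebra.single 1 r, ?_⟩
  have h := Rep.leftRegularHom_hom_single (A := Rep.trivial k G k) (1 : G) (1 : k) r
  refine h.trans ?_
  show r • (1 : k) = r
  rw [smul_eq_mul, mul_one]

theorem AugE_exact (k G : Type) [CommRing k] [Group G] : (augSC k G).ShortExact := by
  have h1 : (augSC k G).Exact :=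
    ShortComplex.exact_of_f_is_kernel (augSC k G) (kernelIsKernel (aug k G))
  have h2 : Mono (augSC k G).f := inferInstanceAs (Mono (kernel.ι (aug k G)))
  have h3 : Epi (augSC k G).g := AugE_aug_epi k G
  exact { exact := h1, mono_f := h2, epi_g := h3 }

theorem AugE_sub {k G : Type} [CommRing k] [Group G] (t : G) {M N : Rep.{0} k G} (f : M ⟶ N)
    [Mono f] (h : TReg t N) : TReg t M := by
  intro x hx
  have hinj := (Rep.mono_iff_injective f).1 inferInstance
  apply hinj
  rw [map_zero]
  apply h
  rw [← Rep.hom_comm_apply, hx]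

theorem AugE_fs {k G : Type} [CommRing k] [Group G] (t : G) {V : Type} [AddCommGroup V]
    [Module k V] (ρ : Representation k G V) {α : Type} (x : α →₀ V) (i : α) :
    (ρ.finsupp α t x) i = ρ t (x i) := by
  induction x using Finsupp.induction_linear with
  | zero => rw [map_zero, Finsupp.zero_apply, map_zero]
  | add f g hf hg => rw [map_add, Finsupp.add_apply, Finsupp.add_apply, map_add, hf, hg]
  | single a b =>
    rw [Representation.finsupp_single]
    by_cases h : a = i
    · rw [h, Finsupp.single_eq_same, Finsupp.single_eq_same]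
    · rw [Finsupp.single_eq_of_ne (Ne.symm h), Finsupp.single_eq_of_ne (Ne.symm h), map_zero]

theorem AugE_lr {k G : Type} [CommRing k] [Group G] (t : G) (ht : ∀ n : ℤ, t ^ n = 1 → n = 0)
    (y : MonoidAlgebra k G) (hy : Representation.leftRegular k G t y = y) : y = 0 := by
  have h1 : ∀ h : G, y.coeff (t⁻¹ * h) = y.coeff h := by
    intro h
    have h2 := Representation.coeff_ofMulAction (k := k) t y h
    rw [smul_eq_mul] at h2
    rw [← h2]
    exact congrArg (fun z : MonoidAlgebra k G => z.coeff h) hy
  have h2 : ∀ (n : ℕ) (h : G), y.coeff ((t⁻¹) ^ n * h) = y.coeff h := by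
    intro n
    induction n with
    | zero => intro h; rw [pow_zero, one_mul]
    | succ n ih => intro h; rw [pow_succ, mul_assoc, ih, h1]
  by_contra hne
  have hc : y.coeff ≠ 0 := by
    intro h0
    apply hne
    exact MonoidAlgebra.ext h0
  obtain ⟨h, hh⟩ := Finsupp.ne_iff.1 hc
  rw [Finsupp.zero_apply] at hh
  have hmem : ∀ n : ℕ, (t⁻¹) ^ n * h ∈ (y.coeff.support : Set G) := by
    intro n
    rw [Finset.mem_coe, Finsupp.mem_support_iff, h2]
    exact hh
  have hinj : Function.Injective (fun n : ℕ => (t⁻¹) ^ n * h) := by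
    intro m n hmn
    have h3 : (t⁻¹) ^ m = (t⁻¹) ^ n := mul_right_cancel hmn
    have h4 : t ^ ((n : ℤ) - (m : ℤ)) = 1 := by
      rw [zpow_sub, zpow_natCast, zpow_natCast]
      rw [inv_pow, inv_pow] at h3
      rw [h3, mul_inv_cancel]
    have h5 := ht _ h4
    omega
  have hinf := Set.infinite_of_injective_forall_mem hinj hmem
  exact hinf (Finset.finite_toSet _)

theorem AugE_free {k G : Type} [CommRing k] [Group G] (t : G) (ht : ∀ n : ℤ, t ^ n = 1 → n = 0)
    (α : Type) : TReg t (Rep.free k G α) := by
  intro x hx
  have hx' : ∀ i : α, Representation.leftRegular k G t ((x : α →₀ MonoidAlgebra k G) i) =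
      (x : α →₀ MonoidAlgebra k G) i := by
    intro i
    rw [← AugE_fs]
    exact congrArg (fun z : α →₀ MonoidAlgebra k G => z i) hx
  have h : (x : α →₀ MonoidAlgebra k G) = 0 := by
    refine Finsupp.ext (fun i => ?_)
    exact AugE_lr t ht _ (hx' i)
  exact h

theorem AugE_proj {k G : Type} [CommRing k] [Group G] (t : G) (ht : ∀ n : ℤ, t ^ n = 1 → n = 0)
    (M : Rep.{0} k G) [Projective M] : TReg t M := by
  have hp : Epi (Rep.freeLift (A := M) k G (id : M.V → M.V)) := by
    rw [Rep.epi_iff_surjective]
    intro m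
    refine ⟨Finsupp.single m (MonoidAlgebra.single 1 1), ?_⟩
    have h := Representation.freeLift_single_single (σ := M.ρ) m (1 : G) (1 : k) (id : M.V → M.V)
    refine h.trans ?_
    rw [map_one, one_smul]
    rfl
  have hs : Projective.factorThru (𝟙 M) (Rep.freeLift (A := M) k G (id : M.V → M.V)) ≫
      Rep.freeLift (A := M) k G (id : M.V → M.V) = 𝟙 M := Projective.factorThru_comp _ _
  have hm : Mono (Projective.factorThru (𝟙 M) (Rep.freeLift (A := M) k G (id : M.V → M.V))) :=
    (SplitMono.mk _ hs).mono
  exact AugE_sub t (Projective.factorThru (𝟙 M) (Rep.freeLift (A := M) k G (id : M.V → M.V)))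
    (AugE_free t ht _)

theorem AugE_ker {k G : Type} [CommRing k] [Group G] (t : G) (ht : ∀ n : ℤ, t ^ n = 1 → n = 0) :
    TReg t (kernel (aug k G)) :=
  AugE_sub t (kernel.ι (aug k G)) (AugE_proj t ht _)

end Pool.Agent.H5.CP
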