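import Pool.Agent.H5.CP.ExA

/-!
ROW ExB (30 lines).  Consequences of ExA (only formal):
`CD k G n` (Defs) is the same as `HasProjectiveDimensionLT (Rep.trivial k G k) n`
(`hasProjectiveDimensionLT_iff`), and multiplication by integers corresponds.
-/

namespace Pool.Agent.H5.CP

open CategoryTheory CategoryTheory.Abelian CategoryTheory.Limits

theorem ExB_zero {k G : Type} [CommRing k] [Group G] (A : Rep.{0} k G) (n : ℕ) :
    IsZero (groupCohomology A n) ↔ ∀ e : Ext (Rep.trivial k G k) A n, e = 0 := by
  obtain ⟨φ⟩ := ExA_equiv (k := k) A n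
  rw [ModuleCat.isZero_iff_subsingleton]
  constructor
  · intro h e
    apply φ.injective
    exact Subsingleton.elim _ _
  · intro h
    refine ⟨fun x y => ?_⟩
    apply φ.symm.injective
    rw [h (φ.symm x), h (φ.symm y)]

theorem ExB_smul {k G : Type} [CommRing k] [Group G] (A : Rep.{0} k G) (n s : ℕ) :
    (∀ x : groupCohomology A n, s • x = 0) ↔ ∀ e : Ext (Rep.trivial k G k) A n, s • e = 0 := by
  obtain ⟨φ⟩ := ExA_equiv (k := k) A n
  constructor
  · intro h e
    apply φ.injective
    rw [map_nsmul, map_zero]
    exact h _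
  · intro h x
    apply φ.symm.injective
    rw [map_nsmul, map_zero]
    exact h _

theorem ExB_pd {k G : Type} [CommRing k] [Group G] (n : ℕ) :
    CD k G n ↔ HasProjectiveDimensionLT (Rep.trivial k G k) n := by
  rw [hasProjectiveDimensionLT_iff]
  constructor
  · intro h j hj Y e
    exact (ExB_zero Y j).mp (h Y j hj) e
  · intro h A j hj
    rw [ExB_zero]
    intro e
    exact h j hj e

end Pool.Agent.H5.CP
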