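import Pool.Agent.H5.CP.QRes
import Pool.Agent.H5.CP.ABs
import Pool.Agent.H5.CP.ExB

/-!
ROW BEs (180 lines).  The climbing step.  `t` central of infinite order in `G`, `S = ⟨t⟩`, `Ḡ = G/S`.
Hypotheses: (h) `BE G` (Defs): `s • H^j(G;A) = 0` for all `A` and `j ≥ j₀`;  (x) for some `m ≥ 1` EVERY element of `Ext^{2m}_{Ḡ}(ℤ,ℤ)` is torsion.
Conclusion `BE Ḡ`.
Proof.  `ABs_main` over `ℤ`: `(a) 0 → ℤ → E → J → 0`, `E = I_S`, and `(b) 0 → J → ℤ[Ḡ] → ℤ → 0` (`augSC ℤ Ḡ`, `AugE_exact`).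
Let `α = extClass (a) ∈ Ext¹(J,ℤ)`, `β = extClass (b) ∈ Ext¹(ℤ,J)`, `e = β.comp α ∈ Ext²(ℤ,ℤ)`, `e^m ∈ Ext^{2m}(ℤ,ℤ)` (iterated composition).
(1) For `j ≥ j₀ + 1`: `s` kills `Ext^j_{Ḡ}(E, A)` for all `A : Rep ℤ Ḡ`: by `QRes_main` (class of `TRegC_main`, `AugE_ker`) it suffices that `s` kills
 `Ext^j_G(I, Infl A)`, `I = kernel (aug ℤ G)`, and `Ext^j_G(I,B) ≅ Ext^{j+1}_G(ℤ,B)` for `j ≥ 1` (`augSC ℤ G`, projective middle term), killed by `s` (`ExB_smul`).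
(2) For `y ∈ Ext^{j+1}(ℤ, A)`, `j ≥ 1`: `y = β.comp y'`, `y' ∈ Ext^j(J,A)` (`Ext.contravariant_sequence_exact₃`, `Ext^{j+1}(ℤ[Ḡ],A) = 0`).  The restriction of `y'` to `E` lies in `Ext^j(E,A)`,
 killed by `s` (j large), so `s • y' = α.comp y''` with `y'' ∈ Ext^{j-1}(ℤ,A)` (`Ext.contravariant_sequence_exact₁`).  So
 `s • y = e.comp y''`.
(3) iterate `m` times: for `j` large (`j ≥ j₀ + 2m + 2`) and `y ∈ Ext^j(ℤ,A)`: `s^m • y = e^m.comp z` with `z ∈ Ext^{j-2m}(ℤ,A)`.  With `s' • e^m = 0`, `s' > 0`: `s' s^m • y = 0`.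
 `ExB_smul` back to group cohomology.
-/

namespace Pool.Agent.H5.CP

open CategoryTheory CategoryTheory.Abelian CategoryTheory.Limits

section BEsAbs

universe w v u

variable {C : Type u} [Category.{v} C] [Abelian C] [HasExt.{w} C]

theorem BEs_comp_nsmul {X Y Z : C} {a b c : ℕ} (x : Ext.{w} X Y a) (h : a + b = c) (s : ℕ)
    (y : Ext.{w} Y Z b) : x.comp (s • y) h = s • x.comp y h :=
  map_nsmul (x.precomp Z h) s y

theorem BEs_nsmul_comp {X Y Z : C} {a b c : ℕ} (x : Ext.{w} X Y a) (h : a + b = c) (s : ℕ)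
    (y : Ext.{w} Y Z b) : (s • x).comp y h = s • x.comp y h :=
  map_nsmul (y.postcomp X h) s x

/-- iterated composition of a class of degree two -/
noncomputable def BEs_pow {Z : C} (e : Ext.{w} Z Z 2) : (m : ℕ) → Ext.{w} Z Z (2 * m)
  | 0 => Ext.mk₀ (𝟙 Z)
  | m + 1 => (BEs_pow e m).comp e (by omega)

theorem BEs_iter {Z : C} (e : Ext.{w} Z Z 2) (s i0 : ℕ)
    (hstep : ∀ (A : C) (i j : ℕ) (hij : 2 + i = j) (_ : i0 ≤ i) (y : Ext.{w} Z A j),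
      ∃ z : Ext.{w} Z A i, s • y = e.comp z hij) (m : ℕ) :
    ∀ (A : C) (i j : ℕ) (hij : 2 * m + i = j) (_ : i0 ≤ i) (y : Ext.{w} Z A j),
      ∃ z : Ext.{w} Z A i, s ^ m • y = (BEs_pow e m).comp z hij := by
  induction m with
  | zero =>
    intro A i j hij hi y
    obtain rfl : i = j := by omega
    refine ⟨y, ?_⟩
    rw [pow_zero, one_smul]
    exact (Ext.mk₀_id_comp y).symm
  | succ m ih =>
    intro A i j hij hi y
    obtain ⟨z', hz'⟩ := ih A (2 + i) j (by omega) (by omega) y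
    obtain ⟨z, hz⟩ := hstep A i (2 + i) rfl hi z'
    refine ⟨z, ?_⟩
    rw [pow_succ', mul_smul, hz', ← BEs_comp_nsmul, hz]
    exact (Ext.comp_assoc (BEs_pow e m) e z (by omega) rfl (by omega)).symm

/-- one step of the periodicity -/
theorem BEs_step {Z J E P : C} [Projective P] {f1 : Z ⟶ E} {g1 : E ⟶ J} {w1 : f1 ≫ g1 = 0}
    (h1 : (ShortComplex.mk f1 g1 w1).ShortExact) {f2 : J ⟶ P} {g2 : P ⟶ Z} {w2 : f2 ≫ g2 = 0}
    (h2 : (ShortComplex.mk f2 g2 w2).ShortExact) (s i0 : ℕ)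
    (hs : ∀ (A : C) (i : ℕ) (_ : i0 ≤ i) (x : Ext.{w} E A (i + 1)), s • x = 0) :
    ∃ e : Ext.{w} Z Z 2, ∀ (A : C) (i j : ℕ) (hij : 2 + i = j) (_ : i0 ≤ i) (y : Ext.{w} Z A j),
      ∃ z : Ext.{w} Z A i, s • y = e.comp z hij := by
  have α : Ext.{w} J Z 1 := h1.extClass
  refine ⟨(h2.extClass : Ext.{w} Z J 1).comp (h1.extClass : Ext.{w} J Z 1) rfl, ?_⟩
  intro A i j hij hi y
  obtain rfl : j = (i + 1) + 1 := by omega
  obtain ⟨y', hy'⟩ := Ext.contravariant_sequence_exact₃ h2 A y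
    (Ext.eq_zero_of_projective (P := P) _) (n₀ := i + 1) (by omega)
  have h3 : (Ext.mk₀ g1).comp (s • (y' : Ext.{w} J A (i + 1))) (zero_add (i + 1)) = 0 := by
    rw [BEs_comp_nsmul]
    exact hs A i hi _
  obtain ⟨z, hz⟩ := Ext.contravariant_sequence_exact₃ h1 A (s • (y' : Ext.{w} J A (i + 1))) h3
    (n₀ := i) (by omega)
  refine ⟨z, ?_⟩
  rw [← hy', ← BEs_comp_nsmul]
  have h4 : (s • y' : Ext.{w} J A (i + 1)) = (h1.extClass : Ext.{w} J Z 1).comp z (by omega) :=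
    hz.symm
  have h5 := Ext.comp_assoc (h2.extClass : Ext.{w} Z J 1) (h1.extClass : Ext.{w} J Z 1) z
    (a₁₂ := 2) (a₂₃ := i + 1) (a := i + 1 + 1) rfl (by omega) (by omega)
  rw [h5, ← h4]

/-- descent of annihilators to the kernel of an epimorphism from a projective object -/
theorem BEs_ker {Z J P : C} [Projective P] {f2 : J ⟶ P} {g2 : P ⟶ Z} {w2 : f2 ≫ g2 = 0}
    (h2 : (ShortComplex.mk f2 g2 w2).ShortExact) (s i : ℕ) (A : C)
    (hs : ∀ x : Ext.{w} Z A (i + 2), s • x = 0) (x : Ext.{w} J A (i + 1)) : s • x = 0 := by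
  have h3 : (h2.extClass : Ext.{w} Z J 1).comp (s • x) (show 1 + (i + 1) = i + 2 by omega) = 0 := by
    rw [BEs_comp_nsmul]
    exact hs _
  obtain ⟨y, hy⟩ := Ext.contravariant_sequence_exact₁ h2 A (s • x) (n₁ := i + 2) (by omega) h3
  have hy0 : (y : Ext.{w} P A (i + 1)) = 0 := Ext.eq_zero_of_projective _
  rw [← hy, hy0]
  exact Ext.comp_zero _ _ _ _ _

end BEsAbs

theorem BEs_main {G : Type} [Group G] (t : G) (hc : t ∈ Subgroup.center G)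
    (ht : ∀ n : ℤ, t ^ n = 1 → n = 0) [(Subgroup.zpowers t).Normal] (h : BE G) (m : ℕ)
    (hm : 1 ≤ m)
    (hx : ∀ x : Ext (Rep.trivial ℤ (G ⧸ Subgroup.zpowers t) ℤ)
      (Rep.trivial ℤ (G ⧸ Subgroup.zpowers t) ℤ) (2 * m), ∃ s : ℕ, 0 < s ∧ s • x = 0) :
    BE (G ⧸ Subgroup.zpowers t) := by
  obtain ⟨s, n, hs, hB⟩ := h
  obtain ⟨C, hC⟩ := TRegC_main ℤ t hc ht
  obtain ⟨ι, a, w, hS⟩ := ABs_main ℤ t hc ht
  have hker : C.P (kernel (aug ℤ G)) := (hC _).2 (AugE_ker t ht)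
  have hG : (ShortComplex.mk (kernel.ι (aug ℤ G)) (aug ℤ G) (kernel.condition _)).ShortExact :=
    AugE_exact ℤ G
  have hQ : (ShortComplex.mk (kernel.ι (aug ℤ (G ⧸ Subgroup.zpowers t)))
      (aug ℤ (G ⧸ Subgroup.zpowers t)) (kernel.condition _)).ShortExact :=
    AugE_exact ℤ (G ⧸ Subgroup.zpowers t)
  -- Ext over G
  have e1 : ∀ (A : Rep.{0} ℤ G) (j : ℕ), n ≤ j → ∀ e : Ext (Rep.trivial ℤ G ℤ) A j, s • e = 0 := by
    intro A j hj
    refine (ExB_smul A j s).1 fun x => ?_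
    exact (natCast_zsmul x s).symm.trans (hB A j hj x)
  have e2 : ∀ (A : Rep.{0} ℤ G) (j : ℕ), n ≤ j → ∀ e : Ext (kernel (aug ℤ G)) A (j + 1),
      s • e = 0 := by
    intro A j hj e
    exact BEs_ker hG s j A (e1 A (j + 2) (by omega)) e
  have e3 : ∀ (A : Rep.{0} ℤ (G ⧸ Subgroup.zpowers t)) (j : ℕ), n ≤ j →
      ∀ e : Ext ((QF ℤ (Subgroup.zpowers t)).obj (kernel (aug ℤ G))) A (j + 1), s • e = 0 := by
    intro A j hj
    exact (QRes_main C (kernel (aug ℤ G)) hker A (j + 1) s).1 (e2 _ j hj)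
  obtain ⟨e, he⟩ := BEs_step hS hQ s n e3
  obtain ⟨s', hs', hx'⟩ := hx (BEs_pow e m)
  refine ⟨s' * s ^ m, 2 * m + n, by positivity, fun A j hj => ?_⟩
  have key : ∀ y : Ext (Rep.trivial ℤ (G ⧸ Subgroup.zpowers t) ℤ) A j, (s' * s ^ m) • y = 0 := by
    intro y
    obtain ⟨z, hz⟩ := BEs_iter e s n he m A (j - 2 * m) j (by omega) (by omega) y
    rw [mul_smul, hz, ← BEs_nsmul_comp, hx']
    simp
  intro x
  exact (natCast_zsmul x _).trans ((ExB_smul A j (s' * s ^ m)).2 key x)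

end Pool.Agent.H5.CP
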