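import Pool.Agent.H5.CP.CupB

/-!
ROW BarE (120 lines).  Exactness of the bar complex, elementwise: from Mathlib's `Rep.barResolution ℤ G : ProjectiveResolution (Rep.trivial ℤ G ℤ)` (`ProjectiveResolution.exact_succ`, `exact₀`; `Rep.barComplex.d_def`), using
`ABs_exact`.  For the augmentation: `(Rep.barResolution ℤ G).π.f 0` may differ from `barε` (Mathlib's augmentation: compute it on generators, it sends `single x (single g 1)` to `1`), or prove `BarE_0` directly: the kernel of `barε` is spanned by
`g[ ] - [ ] = d([g])`.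
-/

namespace Pool.Agent.H5.CP

open CategoryTheory CategoryTheory.Abelian CategoryTheory.Limits

theorem BarE_ε_single {G : Type} [Group G] (c : Fin 0 → G) (g : G) (r : ℤ) :
    (barε G).hom (Finsupp.single c (MonoidAlgebra.single g r)) = r := by
  have h := Representation.freeLift_single_single (tz G).ρ c g r (fun _ => (1 : ℤ))
  have h2 : (barε G).hom (Finsupp.single c (MonoidAlgebra.single g r)) =
      r • (tz G).ρ g (1 : ℤ) := h
  rw [h2]
  show r • (1 : ℤ) = r
  simp

theorem BarE_surj (G : Type) [Group G] : Function.Surjective (barε G).hom := by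
  intro r
  exact ⟨Finsupp.single Fin.elim0 (MonoidAlgebra.single 1 r), BarE_ε_single _ _ _⟩

theorem BarE_d0 {G : Type} [Group G] (g : G) :
    (Rep.barComplex.d ℤ G 0).hom (Finsupp.single (fun _ => g) (MonoidAlgebra.single 1 1)) =
      Finsupp.single Fin.elim0 (MonoidAlgebra.single g 1) -
        Finsupp.single Fin.elim0 (MonoidAlgebra.single 1 1) := by
  rw [Rep.barComplex.d_single]
  rw [Fin.sum_univ_one]
  have e1 : (fun i : Fin 0 => (fun _ : Fin 1 => g) i.succ) = (Fin.elim0 : Fin 0 → G) :=
    Subsingleton.elim _ _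
  have e2 : (Fin.contractNth (0 : Fin 1) (· * ·) (fun _ : Fin 1 => g)) =
      (Fin.elim0 : Fin 0 → G) := Subsingleton.elim _ _
  rw [e1, e2, sub_eq_add_neg]
  congr 1
  rw [← Finsupp.single_neg]
  congr 1
  rw [← MonoidAlgebra.single_neg]
  simp

theorem BarE_d0_ε (G : Type) [Group G] : Rep.barComplex.d ℤ G 0 ≫ barε G = 0 := by
  refine Rep.free_ext _ _ _ _ _ fun c => ?_
  have hc : c = fun _ => c 0 := by
    funext i
    have hi : i = 0 := Fin.ext (by have := i.2; simp only [Fin.val_zero]; omega)
    rw [hi]
  rw [hc]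
  change (barε G).hom ((Rep.barComplex.d ℤ G 0).hom _) = _
  rw [BarE_d0, map_sub, BarE_ε_single, BarE_ε_single]
  rfl

theorem BarE_mem {G : Type} [Group G] (x : (Rep.free ℤ G (Fin 0 → G)).V) :
    ∃ y : (Rep.free ℤ G (Fin 1 → G)).V, (Rep.barComplex.d ℤ G 0).hom y =
      x - Finsupp.single Fin.elim0 (MonoidAlgebra.single 1 ((barε G).hom x)) := by
  let L : Submodule ℤ (Rep.free ℤ G (Fin 0 → G)).V :=
    LinearMap.range (Rep.barComplex.d ℤ G 0).hom.toLinearMap
  have key : x - Finsupp.single Fin.elim0 (MonoidAlgebra.single 1 ((barε G).hom x)) ∈ L := by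
    change (Fin 0 → G) →₀ MonoidAlgebra ℤ G at x
    induction x using Finsupp.induction_linear with
    | zero =>
      rw [map_zero]
      simp
    | add a b ha hb =>
      have := Submodule.add_mem _ ha hb
      rw [map_add]
      rw [MonoidAlgebra.single_add, Finsupp.single_add]
      convert this using 1
      abel
    | single c a =>
      induction a using MonoidAlgebra.induction_linear with
      | zero =>
        rw [Finsupp.single_zero, map_zero]
        simp
      | add a b ha hb =>
        have := Submodule.add_mem _ ha hb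
        rw [Finsupp.single_add, map_add]
        rw [MonoidAlgebra.single_add, Finsupp.single_add]
        convert this using 1
        abel
      | single g r =>
        rw [BarE_ε_single]
        have hc : c = Fin.elim0 := Subsingleton.elim _ _
        rw [hc]
        have h1 : (Finsupp.single Fin.elim0 (MonoidAlgebra.single g r) -
            Finsupp.single Fin.elim0 (MonoidAlgebra.single 1 r) : (Fin 0 → G) →₀ MonoidAlgebra ℤ G) =
            r • (Finsupp.single Fin.elim0 (MonoidAlgebra.single g 1) -
            Finsupp.single Fin.elim0 (MonoidAlgebra.single 1 1)) := by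
          rw [smul_sub, Finsupp.smul_single, Finsupp.smul_single, MonoidAlgebra.smul_single,
            MonoidAlgebra.smul_single, smul_eq_mul, mul_one]
        have h2 : (Finsupp.single Fin.elim0 (MonoidAlgebra.single g 1) -
            Finsupp.single Fin.elim0 (MonoidAlgebra.single 1 1) :
              (Fin 0 → G) →₀ MonoidAlgebra ℤ G) ∈ L :=
          ⟨Finsupp.single (fun _ => g) (MonoidAlgebra.single 1 1), BarE_d0 g⟩
        have h3 := Submodule.smul_mem L r h2
        rw [← h1] at h3
        exact h3
  obtain ⟨y, hy⟩ := key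
  exact ⟨y, hy⟩

theorem BarE_0 (G : Type) [Group G] :
    Function.Exact (Rep.barComplex.d ℤ G 0).hom (barε G).hom := by
  intro x
  constructor
  · intro hx
    obtain ⟨y, hy⟩ := BarE_mem x
    refine ⟨y, ?_⟩
    rw [hy, hx]
    have : (MonoidAlgebra.single 1 (0 : ℤ) : MonoidAlgebra ℤ G) = 0 := MonoidAlgebra.single_zero _
    change _ - Finsupp.single Fin.elim0 (MonoidAlgebra.single 1 (0 : ℤ)) = _
    rw [this, Finsupp.single_zero, sub_zero]
  · rintro ⟨y, rfl⟩
    have h := congrArg (fun f => f.hom y) (BarE_d0_ε G)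
    exact h

theorem BarE_n (G : Type) [Group G] (n : ℕ) :
    Function.Exact (Rep.barComplex.d ℤ G (n + 1)).hom (Rep.barComplex.d ℤ G n).hom := by
  have h := (Rep.barResolution ℤ G).exact_succ n
  have hw : Rep.barComplex.d ℤ G (n + 1) ≫ Rep.barComplex.d ℤ G n = 0 := by
    have := (Rep.barComplex ℤ G).d_comp_d (n + 2) (n + 1) n
    rw [Rep.barComplex.d_def, Rep.barComplex.d_def] at this
    exact this
  have key : ∀ (f : (Rep.barComplex ℤ G).X (n + 2) ⟶ (Rep.barComplex ℤ G).X (n + 1))
      (g : (Rep.barComplex ℤ G).X (n + 1) ⟶ (Rep.barComplex ℤ G).X n)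
      (_ : (Rep.barComplex ℤ G).d (n + 2) (n + 1) = f) (_ : (Rep.barComplex ℤ G).d (n + 1) n = g)
      (w : f ≫ g = 0), (ShortComplex.mk f g w).Exact := by
    rintro _ _ rfl rfl w
    exact h
  have h' : (ShortComplex.mk (Rep.barComplex.d ℤ G (n + 1)) (Rep.barComplex.d ℤ G n) hw).Exact :=
    key _ _ (Rep.barComplex.d_def ℤ G) (Rep.barComplex.d_def ℤ G) hw
  intro x
  constructor
  · intro hx
    obtain ⟨y, hy⟩ := (ABs_exact _ _ hw).1 h' x hx
    exact ⟨y, hy⟩
  · rintro ⟨y, rfl⟩
    have h := congrArg (fun f => f.hom y) hw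
    exact h

end Pool.Agent.H5.CP
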