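import Pool.Agent.H5.CP.GDef

/-!
ROW CenF (150 lines).  Two lemmas on abelian groups `C`.
(1) `CenF_ex`: if free abelian subgroups of `C` have rank at most `n`, there is a finitely generated `C₀ ≤ C` with `C/C₀` torsion: take an injective `φ : Multiplicative (Fin m → ℤ) →* C` with `m`
maximal, `C₀ = φ.range`.  If no positive power of `x` is in `C₀`, then `(a_0, a) ↦ x^{a_0} φ(a)` is injective on `Multiplicative (Fin (m+1) → ℤ)`, contradiction.
(2) `CenF_fg`: `C` torsion-free, `C₀ ≤ C` finitely generated and `c^s ∈ C₀` for all `c`, `s > 0`: then `C` is finitely generated: `c ↦ c^s` is an injective homomorphism `C → C₀`, and subgroups of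
finitely generated abelian groups are finitely generated (`Additive C₀` is a Noetherian `ℤ`-module).
-/

namespace Pool.Agent.H5.CP

open CategoryTheory CategoryTheory.Abelian CategoryTheory.Limits

theorem CenF_ex {C : Type} [CommGroup C] (n : ℕ)
    (h : ∀ (m : ℕ) (φ : Multiplicative (Fin m → ℤ) →* C), Function.Injective φ → m ≤ n) :
    ∃ C₀ : Subgroup C, C₀.FG ∧ ∀ x : C, ∃ s : ℕ, 0 < s ∧ x ^ s ∈ C₀ := by
  classical
  obtain ⟨m, hm, hmax⟩ : ∃ m, (∃ φ : Multiplicative (Fin m → ℤ) →* C, Function.Injective φ) ∧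
      ∀ m', (∃ φ : Multiplicative (Fin m' → ℤ) →* C, Function.Injective φ) → m' ≤ m := by
    have h0 : (∃ φ : Multiplicative (Fin 0 → ℤ) →* C, Function.Injective φ) :=
      ⟨1, fun a b _ => by
        apply Multiplicative.toAdd.injective
        exact Subsingleton.elim _ _⟩
    refine ⟨Nat.findGreatest (fun m => ∃ φ : Multiplicative (Fin m → ℤ) →* C,
      Function.Injective φ) n, Nat.findGreatest_spec (P := fun m =>
      ∃ φ : Multiplicative (Fin m → ℤ) →* C, Function.Injective φ) (m := 0)
      (Nat.zero_le n) h0, ?_⟩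
    rintro m' ⟨φ, hφ⟩
    exact Nat.le_findGreatest (h m' φ hφ) ⟨φ, hφ⟩
  obtain ⟨φ, hφ⟩ := hm
  refine ⟨φ.range, ?_, ?_⟩
  · have h1 : Group.FG (Multiplicative (Fin m → ℤ)) := by
      rw [← AddGroup.fg_iff_mul_fg]
      exact Module.Finite.iff_addGroup_fg.1 inferInstance
    have h2 := Group.fg_range φ
    exact (Group.fg_iff_subgroup_fg _).1 h2
  · intro x
    by_contra hcon
    push Not at hcon
    have hx : ∀ z : ℤ, x ^ z ∈ φ.range → z = 0 := by
      intro z hz
      by_contra hz0
      apply hcon z.natAbs (Int.natAbs_pos.2 hz0)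
      rcases Int.natAbs_eq z with h1 | h1
      · rw [h1] at hz
        rwa [zpow_natCast] at hz
      · rw [h1, zpow_neg, zpow_natCast] at hz
        exact (Subgroup.inv_mem_iff _).1 hz
    let ψ : Multiplicative (Fin (m + 1) → ℤ) →* C :=
      { toFun := fun a => x ^ (a.toAdd 0) *
          φ (Multiplicative.ofAdd (fun i : Fin m => a.toAdd i.succ))
        map_one' := by
          have : (Multiplicative.ofAdd (fun i : Fin m =>
            (1 : Multiplicative (Fin (m + 1) → ℤ)).toAdd i.succ)) = 1 := rfl
          rw [this, φ.map_one]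
          change x ^ (0 : ℤ) * 1 = 1
          simp
        map_mul' := by
          intro a b
          have : (Multiplicative.ofAdd (fun i : Fin m => (a * b).toAdd i.succ)) =
            Multiplicative.ofAdd (fun i : Fin m => a.toAdd i.succ) *
            Multiplicative.ofAdd (fun i : Fin m => b.toAdd i.succ) := rfl
          rw [this, φ.map_mul]
          change x ^ (a.toAdd 0 + b.toAdd 0) * _ = _
          rw [zpow_add]
          exact mul_mul_mul_comm _ _ _ _ }
    have hψ : Function.Injective ψ := by
      rw [injective_iff_map_eq_one]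
      intro a ha
      change x ^ (a.toAdd 0) * φ (Multiplicative.ofAdd (fun i : Fin m => a.toAdd i.succ)) = 1 at ha
      have h1 : a.toAdd 0 = 0 := by
        apply hx
        rw [eq_inv_of_mul_eq_one_left ha]
        exact Subgroup.inv_mem _ ⟨_, rfl⟩
      rw [h1, zpow_zero, one_mul] at ha
      have h2 := (injective_iff_map_eq_one φ).1 hφ _ ha
      have h3 : (fun i : Fin m => a.toAdd i.succ) = 0 := h2
      apply Multiplicative.toAdd.injective
      funext i
      refine Fin.cases h1 (fun j => ?_) i
      exact congrFun h3 j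
    have := hmax (m + 1) ⟨ψ, hψ⟩
    omega

theorem CenF_fg {C : Type} [CommGroup C] (ht : ∀ x : C, IsOfFinOrder x → x = 1)
    (C₀ : Subgroup C) (hf : C₀.FG) (s : ℕ) (hs : 0 < s) (h : ∀ x : C, x ^ s ∈ C₀) :
    Group.FG C := by
  have h1 : Group.FG C₀ := (Group.fg_iff_subgroup_fg _).2 hf
  have h2 : AddGroup.FG (Additive C₀) := (GroupFG.iff_add_fg).1 h1
  have h3 : Module.Finite ℤ (Additive C₀) := Module.Finite.iff_addGroup_fg.2 h2
  let f : C →* C₀ := (powMonoidHom s).codRestrict C₀ h
  have hf : Function.Injective f := by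
    rw [injective_iff_map_eq_one]
    intro a ha
    apply ht a
    rw [isOfFinOrder_iff_pow_eq_one]
    exact ⟨s, hs, congrArg Subtype.val ha⟩
  have h4 : Module.Finite ℤ (Additive C) :=
    Module.Finite.of_injective (MonoidHom.toAdditive f).toIntLinearMap hf
  exact (GroupFG.iff_add_fg).2 (Module.Finite.iff_addGroup_fg.1 h4)

end Pool.Agent.H5.CP
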