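import Pool.Agent.H5.CP.CocA

/-!
ROW CocB (60 lines).  Change of the coefficient ring: the cohomology of `A : Rep k G` vanishes in a positive
degree iff that of the underlying `ℤ`-representation `resZ A` (Defs) does, because the criterion
`CocA_iff` does not see `k` (`dd (resZ A) n f = dd A n f` by definition / `rfl`-like unfolding).
`CocB_triv`: `resZ (Rep.trivial k G V)` and `Rep.trivial ℤ G V` have the same `dd`.  In `CocB_triv` the
`ℤ`-module structure on `V` is the canonical one (`AddCommGroup.toIntModule`).
`CocB_CD`: from cd over `ℤ` to cd over `k` (we allow to lose one degree so that only positive degrees occur).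
-/

namespace Pool.Agent.H5.CP

open CategoryTheory CategoryTheory.Abelian CategoryTheory.Limits

theorem CocB_resZ {k G : Type} [CommRing k] [Group G] (A : Rep.{0} k G) (n : ℕ) :
    IsZero (groupCohomology A (n + 1)) ↔ IsZero (groupCohomology (resZ A) (n + 1)) := by
  rw [CocA_iff A n, CocA_iff (resZ A) n]
  exact Iff.rfl

theorem CocB_triv {k G V : Type} [CommRing k] [Group G] [AddCommGroup V] [Module k V] (n : ℕ) :
    IsZero (groupCohomology (Rep.trivial k G V) (n + 1)) ↔
      IsZero (groupCohomology (Rep.trivial ℤ G V) (n + 1)) := by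
  rw [CocA_iff (Rep.trivial k G V) n, CocA_iff (Rep.trivial ℤ G V) n]
  exact Iff.rfl

theorem CocB_CD {k G : Type} [CommRing k] [Group G] (n : ℕ) (h : CD ℤ G n) : CD k G (n + 1) := by
  intro A j hj
  obtain ⟨m, rfl⟩ : ∃ m, j = m + 1 := ⟨j - 1, by omega⟩
  exact (CocB_resZ A m).2 (h (resZ A) (m + 1) (by omega))

end Pool.Agent.H5.CP
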