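import Pool.Agent.H5.CP.FPb

/-!
ROW FPc (100 lines).  `FPc_proj`: a finitely generated projective module is `FP_n` for all n: `f : F → P` onto, `F` free on `Fin m`, splits, kernel `K` is
a direct summand of `F`, so again finitely generated projective; induction on n.
`FPc_main`: a group of type FP (`IsTypeFP`, Defs): the trivial module is `FP_n` for all `n`.  The resolution `P` has `P_i` finitely generated projective,
`P_i = 0` for `i > d`.  Let `Z_i` = the image of `P_{i+1} → P_i` (= kernel of `P_i → P_{i-1}`): descending induction on `i ≤ d`: `Z_d = 0`, and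
`0 → Z_{i} → P_i → Z_{i-1} → 0` exact, so `Z_{i-1}` is `FP_n` for all n (`FPa_coker`); finally `0 → Z_0 → P_0 → ℤ → 0`.
(Use `P.exact_succ`, `P.exact₀`, `ShortComplex` kernels; `HomologicalComplex` `cycles`/`opcycles` or `kernel`.)
-/

namespace Pool.Agent.H5.CP

open CategoryTheory CategoryTheory.Abelian CategoryTheory.Limits

theorem FPc_proj {k G : Type} [CommRing k] [Group G] (P : Rep.{0} k G) [Projective P] (m : ℕ)
    (f : Rep.free k G (Fin m) ⟶ P) (hf : Epi f) (n : ℕ) : FPm k G n P := by
  induction n generalizing P with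
  | zero => exact ⟨m, f, hf⟩
  | succ n ih =>
    refine ⟨m, f, hf, ?_⟩
    let s : P ⟶ Rep.free k G (Fin m) := Projective.factorThru (𝟙 P) f
    have hs : s ≫ f = 𝟙 P := Projective.factorThru_comp _ _
    let r : Rep.free k G (Fin m) ⟶ kernel f := kernel.lift f (𝟙 _ - f ≫ s) (by
      rw [Preadditive.sub_comp, Category.assoc, hs, Category.id_comp, Category.comp_id, sub_self])
    have hr : kernel.ι f ≫ r = 𝟙 _ := by
      rw [← cancel_mono (kernel.ι f)]
      simp [r, Preadditive.comp_sub]
    have hproj : Projective (kernel f) :=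
      Retract.projective (Y := Rep.free k G (Fin m)) ⟨kernel.ι f, r, hr⟩
    have hre : Epi r := by
      have : IsSplitEpi r := ⟨⟨kernel.ι f, hr⟩⟩
      infer_instance
    exact ih (kernel f) r hre

theorem FPc_zero {k G : Type} [CommRing k] [Group G] (M : Rep.{0} k G) (hM : IsZero M) (n : ℕ) :
    FPm k G n M := by
  have hP : Projective M := ⟨fun f e _ => ⟨0, hM.eq_of_src _ _⟩⟩
  exact FPc_proj M 0 0 ⟨fun u v _ => hM.eq_of_src _ _⟩ n

/-- the short exact sequence `0 → coker f → X₃ → coker g → 0` of an exact `X₁ → X₂ → X₃` -/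
theorem FPc_ses {C : Type*} [Category C] [Abelian C] {X₁ X₂ X₃ : C} (f : X₁ ⟶ X₂) (g : X₂ ⟶ X₃)
    (w : f ≫ g = 0) (h : (ShortComplex.mk f g w).Exact) :
    (ShortComplex.mk (cokernel.desc f g w) (cokernel.π g) (by
      rw [← cancel_epi (cokernel.π f)]; simp)).ShortExact := by
  have hm : Mono (cokernel.desc f g w) := h.mono_cokernelDesc
  refine ShortComplex.ShortExact.mk' ?_ hm inferInstance
  have h1 := ShortComplex.exact_cokernel g
  refine (ShortComplex.exact_iff_of_epi_of_isIso_of_mono (S₁ := ShortComplex.mk g (cokernel.π g) (by simp))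
    (S₂ := ShortComplex.mk (cokernel.desc f g w) (cokernel.π g) _)
    { τ₁ := cokernel.π f
      τ₂ := 𝟙 _
      τ₃ := 𝟙 _
      comm₁₂ := by simp
      comm₂₃ := by simp }).1 h1

theorem FPc_main {G : Type} [Group G] (h : IsTypeFP G) (n : ℕ) :
    FPm ℤ G n (Rep.trivial ℤ G ℤ) := by
  obtain ⟨P, hfg, d, hd⟩ := h
  have hP : ∀ i n, FPm ℤ G n (P.complex.X i) := by
    intro i n
    obtain ⟨m, f, hf⟩ := hfg i
    exact FPc_proj (P.complex.X i) m f hf n
  have key : ∀ e i, d < i + e → ∀ n, FPm ℤ G n (cokernel (P.complex.d (i + 1) i)) := by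
    intro e
    induction e with
    | zero =>
      intro i hi n
      have hz := hd i (by simpa using hi)
      refine FPc_zero _ ?_ n
      exact IsZero.of_epi (cokernel.π (P.complex.d (i + 1) i)) hz
    | succ e ih =>
      intro i hi n
      have h1 := ih (i + 1) (by omega)
      have hex := FPc_ses _ _ _ (P.exact_succ i)
      exact FPa_mono _ _ (FPa_coker _ hex n (h1 n) (hP i (n + 1)))
  have h0 := key (d + 1) 0 (by omega) n
  refine FPa_iso ⟨?_⟩ n h0
  have hm : Mono (cokernel.desc _ _ P.complex_d_comp_π_f_zero) := P.exact₀.mono_cokernelDesc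
  have he : Epi (cokernel.desc _ _ P.complex_d_comp_π_f_zero) := by
    have : Epi (P.π.f 0) := inferInstance
    exact epi_of_epi_fac (cokernel.π_desc _ _ P.complex_d_comp_π_f_zero)
  have : IsIso (cokernel.desc _ _ P.complex_d_comp_π_f_zero) := isIso_of_mono_of_epi _
  exact asIso (cokernel.desc _ _ P.complex_d_comp_π_f_zero) ≪≫
    HomologicalComplex.singleObjXSelf (ComplexShape.down ℕ) 0 (Rep.trivial ℤ G ℤ)

end Pool.Agent.H5.CP
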