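import Pool.Agent.H5.CP.LesA

/-!
ROW NoTor (100 lines).  (1) `CDfin (ZMod q) G`, `q` prime, then `G` has no element of order `q`.  Let `x^q = 1`, `x ≠ 1`, `S = ⟨x⟩` cyclic of order `q`.
For large even `i`, `H^i(S;ZMod q) = H^i(G; coind_S^G (ZMod q)) = 0` (`LesA_coind`), but for the finite cyclic group `S` with trivial coefficients `ZMod q` it is
`ker(ρ(x)-1)/im N = ZMod q / q ZMod q = ZMod q ≠ 0` (`Rep.FiniteCyclicGroup.groupCohomologyIsoEven`, `groupCohomologyπEven_eq_zero_iff`: the class of 1 is nonzero because the norm is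
multiplication by `q = 0`).  (`S` needs `CommGroup` and `Fintype` instances compatible with the `Group` instance; e.g. transport along
`Multiplicative (ZMod q) ≃* S` using CocC, or `Subgroup.zpowers` has `IsCyclic`/`CommGroup` instance.)
(2) `BE G` ⟹ bounded torsion: there is `s > 0` with `x^s = 1` for all `x` of finite order: if `x` has order `n`, `H^i(⟨x⟩;ℤ) = ℤ/n` for even `i > 0`
(norm = multiplication by n), and this is `H^i(G; coind ℤ)`, killed by `s` (`groupCohomology.coindIso` is linear), so `n ∣ s`.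
-/

namespace Pool.Agent.H5.CP

open CategoryTheory CategoryTheory.Abelian CategoryTheory.Limits

theorem NoTor_cyc {k C : Type} [CommRing k] [CommGroup C] [Fintype C] (g : C)
    (hg : ∀ x, x ∈ Subgroup.zpowers g) (i : ℕ) (hi0 : i ≠ 0) (hi : Even i) (s : k)
    (h : ∀ ξ : groupCohomology (Rep.trivial k C k) i, s • ξ = 0) :
    ∃ y : k, (Fintype.card C : k) * y = s := by
  have : NeZero i := ⟨hi0⟩
  have hker : (1 : k) ∈ LinearMap.ker
      (Rep.applyAsHom (Rep.trivial k C k) g - 𝟙 (Rep.trivial k C k)).hom.toLinearMap := by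
    rw [LinearMap.mem_ker]
    simp [Rep.sub_hom, Rep.applyAsHom]
  have h1 := h (Rep.FiniteCyclicGroup.groupCohomologyπEven (Rep.trivial k C k) g hg i hi ⟨1, hker⟩)
  rw [← map_smul, Rep.FiniteCyclicGroup.groupCohomologyπEven_eq_zero_iff] at h1
  obtain ⟨y, hy⟩ := h1
  refine ⟨y, ?_⟩
  simp [Rep.norm, Representation.norm] at hy
  exact hy

theorem NoTor_sub {k G : Type} [CommRing k] [Group G] (x : G) (hx : IsOfFinOrder x) (i : ℕ)
    (hi0 : i ≠ 0) (hi : Even i) (s : k)
    (h : ∀ (A : Rep.{0} k G) (ξ : groupCohomology A i), s • ξ = 0) :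
    ∃ y : k, (orderOf x : k) * y = s := by
  let _ : CommGroup (Subgroup.zpowers x) :=
    { (inferInstance : Group (Subgroup.zpowers x)) with
      mul_comm := by
        rintro ⟨a, ha⟩ ⟨b, hb⟩
        obtain ⟨m, rfl⟩ := ha
        obtain ⟨n, rfl⟩ := hb
        exact Subtype.ext ((Commute.refl x).zpow_zpow m n).eq }
  have hfin : Finite (Subgroup.zpowers x) := by
    have := (finite_zpowers (a := x)).2 hx
    exact this
  have hF : Fintype (Subgroup.zpowers x) := Fintype.ofFinite _
  have hcard : Fintype.card (Subgroup.zpowers x) = orderOf x := by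
    rw [← Nat.card_eq_fintype_card, Nat.card_zpowers]
  rw [← hcard]
  refine NoTor_cyc (C := Subgroup.zpowers x) ⟨x, Subgroup.mem_zpowers x⟩ ?_ i hi0 hi s ?_
  · rintro ⟨y, hy⟩
    obtain ⟨m, rfl⟩ := hy
    exact ⟨m, by ext; simp⟩
  · intro ξ
    have h1 := h (Rep.coind (Subgroup.zpowers x).subtype
      (Rep.trivial k (Subgroup.zpowers x) k))
      ((groupCohomology.coindIso (Rep.trivial k (Subgroup.zpowers x) k) i).inv ξ)
    have h2 := congrArg (groupCohomology.coindIso (Rep.trivial k (Subgroup.zpowers x) k) i).hom h1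
    rw [map_smul, map_zero] at h2
    have h3 : (groupCohomology.coindIso (Rep.trivial k (Subgroup.zpowers x) k) i).hom
        ((groupCohomology.coindIso (Rep.trivial k (Subgroup.zpowers x) k) i).inv ξ) = ξ := by
      simp
    rw [h3] at h2
    exact h2

theorem NoTor_main {G : Type} [Group G] (q : ℕ) [Fact q.Prime] (h : CDfin (ZMod q) G) (x : G)
    (hx : x ^ q = 1) : x = 1 := by
  obtain ⟨n, hn⟩ := h
  have hfin : IsOfFinOrder x := isOfFinOrder_iff_pow_eq_one.2 ⟨q, (Fact.out : q.Prime).pos, hx⟩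
  by_contra hne
  have hord : orderOf x = q := orderOf_eq_prime hx hne
  obtain ⟨y, hy⟩ := NoTor_sub (k := ZMod q) x hfin (2 * (n + 1)) (by omega) (by simp) 1 (by
    intro A ξ
    have h1 := hn A (2 * (n + 1)) (by omega)
    have h2 : Subsingleton (groupCohomology A (2 * (n + 1))) :=
      ModuleCat.subsingleton_of_isZero h1
    exact Subsingleton.elim _ _)
  rw [hord, CharP.cast_eq_zero, zero_mul] at hy
  exact zero_ne_one hy

theorem NoTor_BE {G : Type} [Group G] (h : BE G) :
    ∃ s : ℕ, 0 < s ∧ ∀ x : G, IsOfFinOrder x → x ^ s = 1 := by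
  obtain ⟨s, n, hs, hn⟩ := h
  refine ⟨s, hs, fun x hx => ?_⟩
  obtain ⟨y, hy⟩ := NoTor_sub (k := ℤ) x hx (2 * (n + 1)) (by omega) (by simp) (s : ℤ)
    (fun A ξ => (int_smul_eq_zsmul _ _ _).trans (hn A (2 * (n + 1)) (by omega) ξ))
  have h1 : (orderOf x : ℤ) ∣ (s : ℤ) := ⟨y, hy.symm⟩
  exact orderOf_dvd_iff_pow_eq_one.1 (by exact_mod_cast h1)

end Pool.Agent.H5.CP
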