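import Pool.Agent.H5.CP.GDef
import Pool.Agent.H5.CP.FPc
import Pool.Agent.H5.CP.CocB
import Pool.Agent.H5.CP.ExB
import Pool.Agent.H5.CP.NoTor

/-!
ROW FPcd (80 lines).  Consequences of type FP (`IsTypeFP`, Defs).  `FPcd_CD`: `CD ℤ G (d+1)`: `Ext^n(ℤ,A) = 0` for `n > d` since `P.complex.X n = 0` (`P.extMk_surjective`, or
`groupCohomologyIso A n P`), `ExB_pd`.  `FPcd_fin`: `CDfin k G` for every `k` (`CocB_CD`).  `FPcd_inf` = `FPc_main`.
`FPcd_tf`: `G` is torsion-free (`NoTor_main` for all primes q: if `x ≠ 1` has finite order then some power has prime order).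
-/

namespace Pool.Agent.H5.CP

open CategoryTheory CategoryTheory.Abelian CategoryTheory.Limits

theorem FPcd_aux {k G : Type} [CommRing k] [Group G] (A : Rep.{0} k G)
    (P : ProjectiveResolution (Rep.trivial k G k)) (j : ℕ) (h1 : IsZero (P.complex.X j)) :
    IsZero (groupCohomology A j) := by
  have h2 : Subsingleton (P.complex.X j ⟶ A) := ⟨fun f g => h1.eq_of_src f g⟩
  have h3 : Subsingleton ((P.complex.linearYonedaObj k A).X j) := h2
  have h4 : IsZero ((P.complex.linearYonedaObj k A).X j) :=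
    ModuleCat.isZero_of_subsingleton _
  have h6 : (P.complex.linearYonedaObj k A).ExactAt j := ShortComplex.exact_of_isZero_X₂ _ h4
  exact h6.isZero_homology.of_iso (groupCohomologyIso A j P)

theorem FPcd_CD {G : Type} [Group G] (h : IsTypeFP G) : CDfin ℤ G := by
  obtain ⟨P, _, d, hd⟩ := h
  exact ⟨d + 1, fun A j hj => FPcd_aux A P j (hd j (by omega))⟩

theorem FPcd_fin (k : Type) {G : Type} [CommRing k] [Group G] (h : IsTypeFP G) :
    CDfin k G := by
  obtain ⟨n, hn⟩ := FPcd_CD h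
  exact ⟨n + 1, CocB_CD n hn⟩

theorem FPcd_inf {G : Type} [Group G] (h : IsTypeFP G) : FPinf G := by
  intro n
  exact FPc_main h n

theorem FPcd_tf {G : Type} [Group G] (h : IsTypeFP G) (x : G) (hx : IsOfFinOrder x) :
    x = 1 := by
  by_contra hne
  have h1 : orderOf x ≠ 1 := fun h1 => hne (orderOf_eq_one_iff.1 h1)
  have h0 : 0 < orderOf x := hx.orderOf_pos
  obtain ⟨q, hq, hd⟩ := Nat.exists_prime_and_dvd h1
  have : Fact q.Prime := ⟨hq⟩
  obtain ⟨m, hm⟩ := hd
  have h2 : (x ^ m) ^ q = 1 := by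
    rw [← pow_mul, mul_comm, ← hm]
    exact pow_orderOf_eq_one x
  have h3 := NoTor_main q (FPcd_fin (ZMod q) h) (x ^ m) h2
  have h4 : orderOf x ∣ m := orderOf_dvd_of_pow_eq_one h3
  have hm0 : 0 < m := by
    rcases Nat.eq_zero_or_pos m with h5 | h5
    · rw [h5, mul_zero] at hm; omega
    · exact h5
  have h5 := Nat.le_of_dvd hm0 h4
  have h6 := hq.two_le
  nlinarith

end Pool.Agent.H5.CP
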