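import Pool.Agent.H5.CP.Defs

/-!
ROW FinA (150 lines).  `G` a group, `M` of type `FP_1` over `ℤ[G]` resp. `FP_n`.  Coefficients `ZMod p`, `ℤ`, `ℚ` with trivial action.
`FinA_one` (n = 1): `M` is `FP_1`: `0 → K → F → M → 0`, `F = Rep.free ℤ G (Fin m)`, `K` finitely generated.
  `Hom(K, ℤ)` (G-maps to the trivial module) is a finitely generated abelian group: it embeds in `ℤ^l` by the values on the `l` generators.
  Let `H = Hom(K,ℤ)/(restrictions of Hom(F,ℤ))`.  If `Ext¹(M, ℤ/p) = 0` then `H = pH`: for `f : K → ℤ`, `f mod p` extends to `F → ℤ/p`, which lifts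
  to `g : F → ℤ` (free module: lift the values on the basis), `f - g|K = p f₁`.  So (finitely generated, Nakayama
  `Submodule.exists_sub_one_mem_and_smul_eq_zero_of_fg_of_le_smul`) there is an integer `s ≡ 1 mod p` with `s H = 0`, `s ≠ 0`.
  Now `f : K → ℚ`: finitely many generators, so `m f` has integer values for some `m > 0`, `s m f` extends to `F → ℤ`, so `f` extends to `F → ℚ`.
  Hence `Ext¹(M,ℚ) = 0` (`Ext¹(M,A)` = coker(Hom(F,A) → Hom(K,A)), `Ext.contravariant_sequence_exact₃` and `Ext¹(F,A) = 0`).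
`FinA_main`: all n ≥ 1 by dimension shifting: `M` `FP_{n+1}`: `K = kernel f` is `FP_n` and `Ext^{n+1}(M,A) ≅ Ext^n(K,A)` for `n ≥ 1`.
-/

namespace Pool.Agent.H5.CP

open CategoryTheory CategoryTheory.Abelian CategoryTheory.Limits

/-- an intertwining map to a trivial module from an additive invariant map -/
noncomputable def FinA_it {G : Type} [Group G] {A V : Type} [AddCommGroup A] [AddCommGroup V]
    [hV : Module ℤ V] (ρ : Representation ℤ G V)
    (φ : V → A) (hadd : ∀ x y, φ (x + y) = φ x + φ y)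
    (hinv : ∀ g x, φ (ρ g x) = φ x) : ρ.IntertwiningMap (Representation.trivial ℤ G A) where
  toFun := φ
  map_add' := hadd
  map_smul' := by
    intro z x
    have h1 := map_zsmul (AddMonoidHom.mk' φ hadd) z x
    have h2 := int_smul_eq_zsmul hV z x
    exact (congrArg φ h2).trans h1
  isIntertwining' := by
    intro g
    ext x
    exact hinv g x

/-- a morphism to a trivial module from an additive invariant map -/
noncomputable def FinA_mk {G : Type} [Group G] {A : Type} [AddCommGroup A] (K : Rep.{0} ℤ G)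
    (φ : K.V → A) (hadd : ∀ x y, φ (x + y) = φ x + φ y)
    (hinv : ∀ g x, φ (K.ρ g x) = φ x) : K ⟶ Rep.trivial ℤ G A :=
  ConcreteCategory.ofHom (C := Rep.{0} ℤ G) (X := K) (Y := Rep.trivial ℤ G A)
    (@FinA_it G _ A K.V _ _ K.hV2 K.ρ φ hadd hinv)

theorem FinA_mk_apply {G : Type} [Group G] {A : Type} [AddCommGroup A] (K : Rep.{0} ℤ G)
    (φ : K.V → A) (hadd : ∀ x y, φ (x + y) = φ x + φ y)
    (hinv : ∀ g x, φ (K.ρ g x) = φ x) (x : K.V) : (FinA_mk K φ hadd hinv).hom x = φ x := rfl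

theorem FinA_inv {G : Type} [Group G] {A : Type} [AddCommGroup A] {K : Rep.{0} ℤ G}
    (f : K ⟶ Rep.trivial ℤ G A) (g : G) (x : K.V) : f.hom (K.ρ g x) = f.hom x := by
  have := Rep.hom_comm_apply f g x
  simpa using this

theorem FinA_hom {G : Type} [Group G] (p : ℕ) [hp : Fact p.Prime] {m l : ℕ}
    {K : Rep.{0} ℤ G} (i : K ⟶ Rep.free ℤ G (Fin m)) (q : Rep.free ℤ G (Fin l) ⟶ K) [Epi q]
    (h : ∀ g : K ⟶ Rep.trivial ℤ G (ZMod p),
      ∃ g' : Rep.free ℤ G (Fin m) ⟶ Rep.trivial ℤ G (ZMod p), i ≫ g' = g)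
    (f : K ⟶ Rep.trivial ℤ G ℚ) :
    ∃ f' : Rep.free ℤ G (Fin m) ⟶ Rep.trivial ℤ G ℚ, i ≫ f' = f := by
  have hp0 : (p : ℤ) ≠ 0 := by exact_mod_cast hp.out.ne_zero
  -- the group of invariant functionals is finitely generated
  let e : (K ⟶ Rep.trivial ℤ G ℤ) →+ (Fin l → ℤ) :=
    { toFun := fun φ => Rep.freeLiftLEquiv ℤ G (Fin l) (Rep.trivial ℤ G ℤ) (q ≫ φ)
      map_zero' := by rw [comp_zero, map_zero]
      map_add' := fun φ ψ => by rw [Preadditive.comp_add, map_add] }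
  have he : Function.Injective e := by
    intro φ ψ hφ
    have h1 : q ≫ φ = q ≫ ψ := (Rep.freeLiftLEquiv ℤ G (Fin l) (Rep.trivial ℤ G ℤ)).injective hφ
    exact (cancel_epi q).1 h1
  have hfin : Module.Finite ℤ (K ⟶ Rep.trivial ℤ G ℤ) :=
    Module.Finite.of_injective e.toIntLinearMap he
  -- the restrictions
  let r : (Rep.free ℤ G (Fin m) ⟶ Rep.trivial ℤ G ℤ) →+ (K ⟶ Rep.trivial ℤ G ℤ) :=
    { toFun := fun ψ => i ≫ ψ
      map_zero' := comp_zero
      map_add' := fun φ ψ => Preadditive.comp_add _ _ _ _ _ _ }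
  let R : Submodule ℤ (K ⟶ Rep.trivial ℤ G ℤ) := LinearMap.range r.toIntLinearMap
  let red : Rep.trivial ℤ G ℤ ⟶ Rep.trivial ℤ G (ZMod p) :=
    FinA_mk (Rep.trivial ℤ G ℤ) (fun z : ℤ => (z : ZMod p)) (by intro x y; push_cast; rfl)
      (by intro g x; rfl)
  have hred : ∀ z : ℤ, red.hom z = (z : ZMod p) := fun z => rfl
  have hdiv : ∀ φ : K ⟶ Rep.trivial ℤ G ℤ, ∃ (ψ : Rep.free ℤ G (Fin m) ⟶ Rep.trivial ℤ G ℤ)
      (φ₁ : K ⟶ Rep.trivial ℤ G ℤ), φ = r ψ + (p : ℤ) • φ₁ := by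
    intro φ
    obtain ⟨g', hg'⟩ := h (φ ≫ red)
    choose c hc using fun z : ZMod p => ZMod.intCast_surjective z
    let ψ : Rep.free ℤ G (Fin m) ⟶ Rep.trivial ℤ G ℤ :=
      (Rep.freeLiftLEquiv ℤ G (Fin m) (Rep.trivial ℤ G ℤ)).symm
        (fun j => c (Rep.freeLiftLEquiv ℤ G (Fin m) (Rep.trivial ℤ G (ZMod p)) g' j))
    have hψ : ψ ≫ red = g' := by
      apply (Rep.freeLiftLEquiv ℤ G (Fin m) (Rep.trivial ℤ G (ZMod p))).injective
      funext j
      have h1 : Rep.freeLiftLEquiv ℤ G (Fin m) (Rep.trivial ℤ G ℤ) ψ j =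
          c (Rep.freeLiftLEquiv ℤ G (Fin m) (Rep.trivial ℤ G (ZMod p)) g' j) := by
        simp only [ψ, LinearEquiv.apply_symm_apply]
      have h2 : Rep.freeLiftLEquiv ℤ G (Fin m) (Rep.trivial ℤ G (ZMod p)) (ψ ≫ red) j =
          red.hom (Rep.freeLiftLEquiv ℤ G (Fin m) (Rep.trivial ℤ G ℤ) ψ j) := rfl
      rw [h2, h1, hred, hc]
    have hdvd : ∀ x : K.V, (p : ℤ) ∣ (φ - r ψ).hom x := by
      intro x
      rw [← ZMod.intCast_zmod_eq_zero_iff_dvd]
      · have h3 : red.hom ((φ - r ψ).hom x) = ((φ - r ψ) ≫ red).hom x := rfl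
        have h4 : (φ - r ψ) ≫ red = 0 := by
          rw [Preadditive.sub_comp, ← hg']
          change i ≫ g' - (i ≫ ψ) ≫ red = 0
          rw [Category.assoc, hψ, sub_self]
        rw [← hred, h3, h4]
        rfl
    choose d hd using hdvd
    have hdadd : ∀ x y, d (x + y) = d x + d y := by
      intro x y
      have := hd (x + y)
      rw [map_add, hd x, hd y, ← mul_add] at this
      exact (mul_left_cancel₀ hp0 this).symm
    have hdinv : ∀ g x, d (K.ρ g x) = d x := by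
      intro g x
      have h5 := hd (K.ρ g x)
      rw [FinA_inv, hd x] at h5
      exact (mul_left_cancel₀ hp0 h5).symm
    refine ⟨ψ, FinA_mk K d hdadd hdinv, ?_⟩
    rw [← sub_eq_iff_eq_add']
    apply Rep.hom_ext
    apply DFunLike.ext
    intro x
    exact hd x
  -- Nakayama
  have hNak : (⊤ : Submodule ℤ ((K ⟶ Rep.trivial ℤ G ℤ) ⧸ R)) ≤
      (Ideal.span {(p : ℤ)}) • (⊤ : Submodule ℤ ((K ⟶ Rep.trivial ℤ G ℤ) ⧸ R)) := by
    intro x _
    obtain ⟨φ, rfl⟩ := R.mkQ_surjective x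
    obtain ⟨ψ, φ₁, hφ⟩ := hdiv φ
    have h1 : R.mkQ φ = (p : ℤ) • R.mkQ φ₁ := by
      rw [hφ, map_add, map_zsmul, add_eq_right]
      exact (Submodule.Quotient.mk_eq_zero R).2 ⟨ψ, rfl⟩
    rw [h1]
    exact Submodule.smul_mem_smul (Ideal.mem_span_singleton_self _) trivial
  obtain ⟨s, hs1, hs⟩ := Submodule.exists_sub_one_mem_and_smul_eq_zero_of_fg_of_le_smul
    (Ideal.span {(p : ℤ)}) ⊤ Module.Finite.fg_top hNak
  have hs0 : s ≠ 0 := by
    rintro rfl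
    rw [Ideal.mem_span_singleton, zero_sub, dvd_neg] at hs1
    exact hp.out.one_lt.ne' (by exact_mod_cast Int.eq_one_of_dvd_one (by positivity) hs1)
  have hsR : ∀ φ : K ⟶ Rep.trivial ℤ G ℤ, ∃ ψ : Rep.free ℤ G (Fin m) ⟶ Rep.trivial ℤ G ℤ,
      i ≫ ψ = s • φ := by
    intro φ
    have h1 := hs (R.mkQ φ) trivial
    rw [← map_smul] at h1
    obtain ⟨ψ, hψ⟩ := (Submodule.Quotient.mk_eq_zero R).1 h1
    exact ⟨ψ, hψ⟩
  -- clearing denominators
  obtain ⟨D, hD0, hD⟩ : ∃ D : ℕ, D ≠ 0 ∧ ∀ j : Fin l, ∃ z : ℤ,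
      (D : ℚ) * Rep.freeLiftLEquiv ℤ G (Fin l) (Rep.trivial ℤ G ℚ) (q ≫ f) j = z := by
    refine ⟨∏ j : Fin l, (Rep.freeLiftLEquiv ℤ G (Fin l) (Rep.trivial ℤ G ℚ) (q ≫ f) j : ℚ).den,
      Finset.prod_ne_zero_iff.2 fun j _ => Rat.den_nz _, fun j => ?_⟩
    set a : ℚ := Rep.freeLiftLEquiv ℤ G (Fin l) (Rep.trivial ℤ G ℚ) (q ≫ f) j with ha
    obtain ⟨t, ht⟩ := Finset.dvd_prod_of_mem
      (fun j : Fin l => (Rep.freeLiftLEquiv ℤ G (Fin l) (Rep.trivial ℤ G ℚ) (q ≫ f) j : ℚ).den)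
      (Finset.mem_univ j)
    refine ⟨t * a.num, ?_⟩
    rw [ht]
    have h1 : (a.den : ℚ) * a = a.num := by
      rw [mul_comm]
      exact Rat.mul_den_eq_num a
    push_cast
    calc ((a.den : ℚ) * t) * a = t * ((a.den : ℚ) * a) := by ring
      _ = _ := by rw [h1]
  choose z hz using hD
  let ι : Rep.trivial ℤ G ℤ ⟶ Rep.trivial ℤ G ℚ :=
    FinA_mk (Rep.trivial ℤ G ℤ) (fun z : ℤ => (z : ℚ)) (by intro x y; push_cast; rfl)
      (by intro g x; rfl)
  have hι : ∀ z : ℤ, ι.hom z = (z : ℚ) := fun z => rfl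
  let w : Rep.free ℤ G (Fin l) ⟶ Rep.trivial ℤ G ℤ :=
    (Rep.freeLiftLEquiv ℤ G (Fin l) (Rep.trivial ℤ G ℤ)).symm z
  have hw : w ≫ ι = (D : ℤ) • (q ≫ f) := by
    apply (Rep.freeLiftLEquiv ℤ G (Fin l) (Rep.trivial ℤ G ℚ)).injective
    funext j
    have h1 : Rep.freeLiftLEquiv ℤ G (Fin l) (Rep.trivial ℤ G ℚ) (w ≫ ι) j =
        ι.hom (Rep.freeLiftLEquiv ℤ G (Fin l) (Rep.trivial ℤ G ℤ) w j) := rfl
    have h2 : Rep.freeLiftLEquiv ℤ G (Fin l) (Rep.trivial ℤ G ℤ) w j = z j := by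
      simp only [w, LinearEquiv.apply_symm_apply]
    rw [h1, h2, hι, map_zsmul, Pi.smul_apply, ← hz j]
    exact (zsmul_eq_mul _ _).symm
  have hint : ∀ x : K.V, ∃ y : ℤ, (D : ℚ) * f.hom x = y := by
    intro x
    obtain ⟨x', rfl⟩ := (Rep.epi_iff_surjective q).1 inferInstance x
    refine ⟨w.hom x', ?_⟩
    have h1 : (w ≫ ι).hom x' = ((D : ℤ) • (q ≫ f)).hom x' := by rw [hw]
    have h2 : (w ≫ ι).hom x' = ((w.hom x' : ℤ) : ℚ) := rfl
    rw [← h2, h1]
    exact (zsmul_eq_mul (f.hom (q.hom x') : ℚ) (D : ℤ)).symm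
  choose y hy using hint
  have hyadd : ∀ a b, y (a + b) = y a + y b := by
    intro a b
    have h1 := hy (a + b)
    have h2 : f.hom (a + b) = f.hom a + f.hom b := map_add _ _ _
    have h3 : ((y (a + b) : ℤ) : ℚ) = ((y a + y b : ℤ) : ℚ) := by
      rw [← h1, h2]
      push_cast
      rw [← hy a, ← hy b]
      exact mul_add _ _ _
    exact_mod_cast h3
  have hyinv : ∀ g x, y (K.ρ g x) = y x := by
    intro g x
    have h1 : ((y (K.ρ g x) : ℤ) : ℚ) = ((y x : ℤ) : ℚ) := by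
      rw [← hy, ← hy, FinA_inv]
    exact_mod_cast h1
  obtain ⟨ψ, hψ⟩ := hsR (FinA_mk K y hyadd hyinv)
  have hψx : ∀ x : K.V, ψ.hom (i.hom x) = s * y x := by
    intro x
    have h1 : (i ≫ ψ).hom x = (s • FinA_mk K y hyadd hyinv).hom x := by rw [hψ]
    exact h1
  refine ⟨FinA_mk _ (fun x => ((ψ.hom x : ℤ) : ℚ) / (s * D)) (by
    intro a b
    rw [map_add]
    push_cast
    exact add_div _ _ _) (by
    intro g x
    rw [FinA_inv]), ?_⟩
  apply Rep.hom_ext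
  apply DFunLike.ext
  intro x
  change ((ψ.hom (i.hom x) : ℤ) : ℚ) / (s * D) = f.hom x
  rw [hψx]
  push_cast
  rw [← hy x]
  have h1 : (s : ℚ) ≠ 0 := by exact_mod_cast hs0
  have h2 : (D : ℚ) ≠ 0 := by exact_mod_cast hD0
  field_simp

theorem FinA_one {G : Type} [Group G] (p : ℕ) [Fact p.Prime] (M : Rep.{0} ℤ G)
    (hM : FPm ℤ G 1 M)
    (h : ∀ e : Ext M (Rep.trivial ℤ G (ZMod p)) 1, e = 0) :
    ∀ e : Ext M (Rep.trivial ℤ G ℚ) 1, e = 0 := by
  obtain ⟨m, f, hf, l, q, hq⟩ := hM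
  let S : ShortComplex (Rep.{0} ℤ G) := ShortComplex.mk (kernel.ι f) f (kernel.condition f)
  have hS : S.ShortExact := { exact := ShortComplex.exact_of_f_is_kernel _ (kernelIsKernel f) }
  intro e
  have he : (Ext.mk₀ S.g).comp e (zero_add 1) = 0 := Ext.eq_zero_of_projective _
  obtain ⟨x, rfl⟩ := Ext.contravariant_sequence_exact₃ hS _ e he (add_zero 1)
  obtain ⟨g, rfl⟩ := (Ext.mk₀_bijective _ _).2 x
  obtain ⟨g', rfl⟩ := FinA_hom p (kernel.ι f) q (by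
    intro g
    have h1 := h (hS.extClass.comp (Ext.mk₀ g) (add_zero 1))
    obtain ⟨y, hy⟩ := Ext.contravariant_sequence_exact₁ hS _ (Ext.mk₀ g) (add_zero 1) h1
    obtain ⟨g', rfl⟩ := (Ext.mk₀_bijective _ _).2 y
    refine ⟨g', ?_⟩
    rw [Ext.mk₀_comp_mk₀] at hy
    exact (Ext.mk₀_bijective _ _).1 hy) g
  rw [← Ext.mk₀_comp_mk₀]
  exact hS.extClass_comp_assoc _

theorem FinA_main {G : Type} [Group G] (p : ℕ) [Fact p.Prime] (n : ℕ) (M : Rep.{0} ℤ G)
    (hM : FPm ℤ G (n + 1) M)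
    (h : ∀ e : Ext M (Rep.trivial ℤ G (ZMod p)) (n + 1), e = 0) :
    ∀ e : Ext M (Rep.trivial ℤ G ℚ) (n + 1), e = 0 := by
  induction n generalizing M with
  | zero => exact FinA_one p M hM h
  | succ n ih =>
    obtain ⟨m, f, hf, hK⟩ := hM
    let S : ShortComplex (Rep.{0} ℤ G) := ShortComplex.mk (kernel.ι f) f (kernel.condition f)
    have hS : S.ShortExact := { exact := ShortComplex.exact_of_f_is_kernel _ (kernelIsKernel f) }
    have hK' := ih (kernel f) hK (by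
      intro e
      have h1 := h (hS.extClass.comp e (by omega))
      obtain ⟨y, hy⟩ := Ext.contravariant_sequence_exact₁ hS _ e (by omega) h1
      rw [← hy, Ext.eq_zero_of_projective y, Ext.comp_zero])
    intro e
    have he : (Ext.mk₀ S.g).comp e (zero_add (n + 1 + 1)) = 0 := Ext.eq_zero_of_projective _
    obtain ⟨x, rfl⟩ := Ext.contravariant_sequence_exact₃ hS _ e he
      (show 1 + (n + 1) = n + 1 + 1 by omega)
    rw [hK' x, Ext.comp_zero]

end Pool.Agent.H5.CP
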