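import Pool.Agent.H5.CP.IsoI
import Pool.Agent.H5.CP.FinA

/-!
ROW PtoQ (60 lines).  `FPinf G` and `CDfin (ZMod p) G` imply `RatTrFin G`.  `CD (ZMod p) G N`: `groupCohomology (Rep.trivial (ZMod p) G (ZMod p)) n = 0` for `n ≥ N`, by `CocB_triv` the
same with coefficients `Rep.trivial ℤ G (ZMod p)`, by `ExB_zero` `Ext^n(ℤ, ZMod p) = 0` for `n ≥ N + 1`; `FinA_main` and `IsoI_Ext`.
(The `ℤ`-module structure on `ZMod p` in `FinA_main` is the canonical one.)
-/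

namespace Pool.Agent.H5.CP

open CategoryTheory CategoryTheory.Abelian CategoryTheory.Limits

theorem PtoQ_main {G : Type} [Group G] (p : ℕ) [Fact p.Prime] (hF : FPinf G)
    (h : CDfin (ZMod p) G) : RatTrFin G := by
  obtain ⟨N, hN⟩ := h
  refine IsoI_Ext.2 ⟨N + 1, fun n hn => ?_⟩
  obtain ⟨m, rfl⟩ : ∃ m, n = m + 1 := ⟨n - 1, by omega⟩
  have h1 : IsZero (groupCohomology (Rep.trivial (ZMod p) G (ZMod p)) (m + 1)) :=
    hN _ _ (by omega)
  have h2 : IsZero (groupCohomology (Rep.trivial ℤ G (ZMod p)) (m + 1)) := (CocB_triv m).1 h1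
  have h3 := (ExB_zero (Rep.trivial ℤ G (ZMod p)) (m + 1)).1 h2
  exact FinA_main p m _ (hF (m + 1)) h3

end Pool.Agent.H5.CP
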