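import Pool.Agent.H5.CP.QAdj

/-!
ROW QEx (60 lines).  Exactness of coinvariants on a `QClass`.  `QF` is right exact: `X₂_S → X₃_S` onto is clear; if `qmk x ↦ 0` in
`X₃_S` then the image of `x` in `X₃` is a sum of `ρ(s)y - y`; lift the `y` to `X₂` and subtract: `x ≡ x'` modulo the kernel of
`qmk` with `x'` in the image of `X₁`.  (Or: `QF` is a left adjoint, hence preserves cokernels:
`Functor.preservesFiniteColimits...`, `ShortComplex.Exact` of right exact functors.)  Injectivity on the left is `C.mono`.
-/

namespace Pool.Agent.H5.CP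

open CategoryTheory CategoryTheory.Abelian CategoryTheory.Limits

theorem QEx_main {k : Type} {G : Type} [CommRing k] [Group G] {S : Subgroup G} [S.Normal]
    (C : QClass k S) (X : ShortComplex (Rep.{0} k G)) (hX : X.ShortExact) (h : C.P X.X₃) :
    (X.map (QF k S)).ShortExact := by
  obtain ⟨adj⟩ := QAdj_main k S
  have := hX.epi_g
  have : PreservesColimitsOfSize.{0, 0} (QF k S) := adj.leftAdjoint_preservesColimits
  have : Mono (X.map (QF k S)).f := C.mono X hX h
  have : Epi (X.map (QF k S)).g := QAdj_epi S X.g
  refine ShortComplex.ShortExact.mk ?_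
  exact hX.exact.map_of_epi_of_preservesCokernel (QF k S) inferInstance inferInstance

end Pool.Agent.H5.CP
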