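import Pool.Agent.H5.CP.FPb
import Pool.Agent.H5.CP.FPc
import Pool.Agent.H5.CP.ABs
import Pool.Agent.H5.CP.QEx

/-!
ROW FPd (120 lines).  If the trivial module is `FP_n` over `G` for all `n` then it is so over `G/S`, `S = ⟨t⟩`, `t` central of infinite order.
`FPd_Q`: if `M` is in a `QClass` and `FP_n` over `G` then `M_S` is `FP_n` over `G/S`: `(Rep.free k G (Fin m))_S ≅ Rep.free k (G/S) (Fin m)`
(or: it is projective and generated by m elements - use freeLift both ways), `QF` preserves epimorphisms, and for `0 → K → F → M → 0`: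
`0 → K_S → F_S → M_S → 0` exact (`QEx_main`), `K` in the class (`C.ker`); `FPa_mk`; induction on `n`.
`I = kernel (aug k G)` is `FP_n` for all n (`FPb_ker` for `augSC`, `k[G]` is free of rank one), so `I_S` is (class of TRegC, `AugE_ker`).
`ABs_main`: `0 → k → I_S → J → 0`, `J = kernel (aug k (G/S))`; `augSC` of `G/S`: `0 → J → k[G/S] → k → 0`.
Trivial module `k` over `G/S` is `FP_0`; if it is `FP_n` then `J` is `FP_{n+1}` (`FPa_coker`) and then `k` is `FP_{n+2}` (`FPa_coker`); so all n (`FPa_mono`).
-/

namespace Pool.Agent.H5.CP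

open CategoryTheory CategoryTheory.Abelian CategoryTheory.Limits

/-- a family of elements whose translates generate gives an epimorphism from a free module -/
theorem FPd_epi {k G : Type} [CommRing k] [Group G] (P : Rep.{0} k G) (m : ℕ) (x : Fin m → P.V)
    (h : ∀ W : Submodule k P.V, (∀ (g : G) (i : Fin m), P.ρ g (x i) ∈ W) → W = ⊤) :
    Epi (Rep.freeLift k G P x) := by
  rw [Rep.epi_iff_surjective]
  have h1 : LinearMap.range (Rep.freeLift k G P x).hom.toLinearMap = ⊤ := by
    refine h _ fun g i => ⟨Finsupp.single i (MonoidAlgebra.single g 1), ?_⟩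
    have := Representation.freeLift_single_single P.ρ i g (1 : k) x
    rw [one_smul] at this
    exact this
  exact LinearMap.range_eq_top.1 h1

theorem FPd_free (k : Type) {G : Type} [CommRing k] [Group G] (S : Subgroup G) [S.Normal]
    (m n : ℕ) : FPm k (G ⧸ S) n ((QF k S).obj (Rep.free k G (Fin m))) := by
  have : Projective ((QF k S).obj (Rep.free k G (Fin m))) := QAdj_proj S _
  refine FPc_proj _ m (Rep.freeLift k (G ⧸ S) ((QF k S).obj (Rep.free k G (Fin m)))
    (fun i => qmk S (Rep.free k G (Fin m)) (Finsupp.single i (MonoidAlgebra.single 1 1)))) ?_ n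
  refine FPd_epi _ m _ fun W hW => ?_
  have h1 : W.comap (qmk S (Rep.free k G (Fin m))) = ⊤ := by
    rw [eq_top_iff]
    rintro y -
    change (Fin m →₀ MonoidAlgebra k G) at y
    induction y using Finsupp.induction_linear with
    | zero => exact Submodule.zero_mem _
    | add a b ha hb => exact Submodule.add_mem _ ha hb
    | single i a =>
      induction a using MonoidAlgebra.induction_linear with
      | zero =>
        rw [Finsupp.single_zero]
        exact Submodule.zero_mem _
      | add a b ha hb =>
        rw [Finsupp.single_add]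
        exact Submodule.add_mem _ ha hb
      | single g r =>
        have h2 := hW (QuotientGroup.mk g) i
        rw [QF_rho_qmk] at h2
        have h3 : (Rep.free k G (Fin m)).ρ g (Finsupp.single i (MonoidAlgebra.single 1 1))
            = Finsupp.single i (MonoidAlgebra.single g 1) := by
          have := Representation.free_single_single g (1 : G) i (1 : k)
          rw [mul_one] at this
          exact this
        rw [h3] at h2
        have h4 : (Finsupp.single i (MonoidAlgebra.single g r) : Fin m →₀ MonoidAlgebra k G)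
            = r • Finsupp.single i (MonoidAlgebra.single g 1) := by
          rw [Finsupp.smul_single, MonoidAlgebra.smul_single, smul_eq_mul, mul_one]
        rw [h4]
        exact Submodule.smul_mem _ r h2
  rw [eq_top_iff]
  rintro z -
  obtain ⟨y, rfl⟩ := qmk_surjective S _ z
  have : y ∈ W.comap (qmk S (Rep.free k G (Fin m))) := by rw [h1]; trivial
  exact this

theorem FPd_reg (k G : Type) [CommRing k] [Group G] (n : ℕ) :
    FPm k G n (Rep.leftRegular k G) := by
  refine FPc_proj _ 1 (Rep.freeLift k G (Rep.leftRegular k G)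
    (fun _ => (MonoidAlgebra.single 1 1 : MonoidAlgebra k G))) ?_ n
  refine FPd_epi _ 1 _ fun W hW => ?_
  rw [eq_top_iff]
  rintro y -
  change MonoidAlgebra k G at y
  induction y using MonoidAlgebra.induction_linear with
  | zero => exact Submodule.zero_mem _
  | add a b ha hb => exact Submodule.add_mem _ ha hb
  | single g r =>
    have h2 := hW g 0
    have h3 : (Rep.leftRegular k G).ρ g (MonoidAlgebra.single 1 1 : MonoidAlgebra k G)
        = (MonoidAlgebra.single g 1 : MonoidAlgebra k G) := by
      have := Representation.free_single_single g (1 : G) (0 : Fin 1) (1 : k)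
      simp
    rw [h3] at h2
    have h4 : (MonoidAlgebra.single g r : MonoidAlgebra k G) = r • MonoidAlgebra.single g 1 := by
      rw [MonoidAlgebra.smul_single, smul_eq_mul, mul_one]
    rw [h4]
    exact Submodule.smul_mem _ r h2

theorem FPd_Q {k : Type} {G : Type} [CommRing k] [Group G] {S : Subgroup G} [S.Normal]
    (C : QClass k S) (M : Rep.{0} k G) (hM : C.P M) (n : ℕ) (h : FPm k G n M) :
    FPm k (G ⧸ S) n ((QF k S).obj M) := by
  induction n generalizing M with
  | zero =>
    obtain ⟨m, f, hf⟩ := h
    obtain ⟨m', f', hf'⟩ := FPd_free k S m 0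
    have := QAdj_epi S f
    exact ⟨m', f' ≫ (QF k S).map f, inferInstance⟩
  | succ n ih =>
    obtain ⟨m, f, hf, hk⟩ := h
    let X : ShortComplex (Rep.{0} k G) := ShortComplex.mk (kernel.ι f) f (kernel.condition f)
    have hX : X.ShortExact :=
      { exact := ShortComplex.exact_of_f_is_kernel _ (kernelIsKernel f)
        mono_f := inferInstanceAs (Mono (kernel.ι f))
        epi_g := hf }
    have : Projective (Rep.free k G (Fin m)) := Rep.free_projective
    have hP : C.P (kernel f) := C.ker X hX this hM
    have h1 := ih (kernel f) hP hk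
    exact FPa_coker (X.map (QF k S)) (QEx_main C X hX hM) n h1 (FPd_free k S m (n + 1))

theorem FPd_main {k G : Type} [CommRing k] [Group G] (t : G) (hc : t ∈ Subgroup.center G)
    (ht : ∀ n : ℤ, t ^ n = 1 → n = 0) [(Subgroup.zpowers t).Normal]
    (h : ∀ n, FPm k G n (Rep.trivial k G k)) (n : ℕ) :
    FPm k (G ⧸ Subgroup.zpowers t) n (Rep.trivial k (G ⧸ Subgroup.zpowers t) k) := by
  obtain ⟨C, hC⟩ := TRegC_main k t hc ht
  have hI : ∀ n, FPm k G n (kernel (aug k G)) := fun n =>
    FPb_ker (augSC k G) (AugE_exact k G) n (FPd_reg k G n) (h (n + 1))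
  have hIP : C.P (kernel (aug k G)) := (hC _).2 (AugE_ker t ht)
  have hQ : ∀ n, FPm k (G ⧸ Subgroup.zpowers t) n
      ((QF k (Subgroup.zpowers t)).obj (kernel (aug k G))) := fun n =>
    FPd_Q C _ hIP n (hI n)
  obtain ⟨ι, a, w, hw⟩ := ABs_main k t hc ht
  induction n with
  | zero =>
    obtain ⟨m, f, hf⟩ := FPd_reg k (G ⧸ Subgroup.zpowers t) 0
    have : Epi (aug k (G ⧸ Subgroup.zpowers t)) :=
      (AugE_exact k (G ⧸ Subgroup.zpowers t)).epi_g
    exact ⟨m, f ≫ aug k (G ⧸ Subgroup.zpowers t), epi_comp _ _⟩
  | succ n ih =>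
    have h1 : FPm k (G ⧸ Subgroup.zpowers t) (n + 1)
        (kernel (aug k (G ⧸ Subgroup.zpowers t))) :=
      FPa_coker (ShortComplex.mk ι a w) hw n ih (hQ (n + 1))
    have h2 : FPm k (G ⧸ Subgroup.zpowers t) (n + 1 + 1)
        (Rep.trivial k (G ⧸ Subgroup.zpowers t) k) :=
      FPa_coker (augSC k (G ⧸ Subgroup.zpowers t)) (AugE_exact k _) (n + 1) h1
        (FPd_reg k _ (n + 1 + 1))
    exact FPa_mono _ _ h2

end Pool.Agent.H5.CP
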