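import Pool.Agent.H5.CP.Defs

/-!
ROW FPe (60 lines).  Invariance of `FPm` of the trivial module under isomorphisms of groups `e : H ≃* G`: the functor `Rep.resFunctor e.toMonoidHom` is
an equivalence, sends `Rep.free k G (Fin m)` to a module isomorphic to `Rep.free k H (Fin m)`, preserves kernels and epimorphisms.  More generally
prove `FPm k G n M → FPm k H n (Rep.res e.toMonoidHom M)` by induction on `n`.
-/

namespace Pool.Agent.H5.CP

open CategoryTheory CategoryTheory.Abelian CategoryTheory.Limits

theorem FPe_iso {k G : Type} [CommRing k] [Group G] (n : ℕ) (M M' : Rep.{0} k G) (i : M ≅ M')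
    (h : FPm k G n M) : FPm k G n M' := by
  induction n generalizing M M' with
  | zero =>
    obtain ⟨m, f, hf⟩ := h
    exact ⟨m, f ≫ i.hom, epi_comp f i.hom⟩
  | succ n ih =>
    obtain ⟨m, f, hf, hk⟩ := h
    exact ⟨m, f ≫ i.hom, epi_comp f i.hom, ih _ _ (kernelCompMono f i.hom).symm hk⟩

noncomputable def FPe_lin {k G H : Type} [CommRing k] [Group G] [Group H] (e : H ≃* G) (α : Type) :
    (α →₀ MonoidAlgebra k H) ≃ₗ[k] (α →₀ MonoidAlgebra k G) :=
  Finsupp.mapRange.linearEquiv (MonoidAlgebra.domCongr k k e).toLinearEquiv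

theorem FPe_lin_single {k G H : Type} [CommRing k] [Group G] [Group H] (e : H ≃* G) (α : Type)
    (i : α) (h : H) (r : k) :
    FPe_lin e α (Finsupp.single i (MonoidAlgebra.single h r)) =
      Finsupp.single i (MonoidAlgebra.single (e h) r) := by
  simp [FPe_lin]

theorem FPe_lin_comm {k G H : Type} [CommRing k] [Group G] [Group H] (e : H ≃* G) (α : Type)
    (g : H) (x : α →₀ MonoidAlgebra k H) :
    FPe_lin e α (Representation.free k H α g x) =
      Representation.free k G α (e g) (FPe_lin e α x) := by
  induction x using Finsupp.induction_linear with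
  | zero => simp
  | add x y hx hy => rw [map_add, map_add, map_add, map_add, hx, hy]
  | single i y =>
    induction y using MonoidAlgebra.induction_linear with
    | zero => simp
    | add x y hx hy =>
      rw [Finsupp.single_add, map_add, map_add, map_add, map_add, hx, hy]
    | single h r =>
      rw [Representation.free_single_single, FPe_lin_single, FPe_lin_single,
        Representation.free_single_single, map_mul]

noncomputable def FPe_free {k G H : Type} [CommRing k] [Group G] [Group H] (e : H ≃* G) (α : Type) :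
    Rep.free k H α ≅ Rep.res e.toMonoidHom (Rep.free k G α) :=
  Rep.mkIso (Representation.Equiv.mk (FPe_lin e α)
    (fun g => LinearMap.ext fun x => FPe_lin_comm e α g x))

theorem FPe_res {k G H : Type} [CommRing k] [Group G] [Group H] (e : H ≃* G) (n : ℕ)
    (M : Rep.{0} k G) (h : FPm k G n M) : FPm k H n (Rep.res e.toMonoidHom M) := by
  induction n generalizing M with
  | zero =>
    obtain ⟨m, f, hf⟩ := h
    have h1 : Epi ((Rep.resFunctor e.toMonoidHom).map f) :=
      (Rep.epi_iff_surjective _).mpr ((Rep.epi_iff_surjective f).mp hf)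
    exact ⟨m, (FPe_free e (Fin m)).hom ≫ (Rep.resFunctor e.toMonoidHom).map f, epi_comp _ _⟩
  | succ n ih =>
    obtain ⟨m, f, hf, hk⟩ := h
    have h1 : Epi ((Rep.resFunctor e.toMonoidHom).map f) :=
      (Rep.epi_iff_surjective _).mpr ((Rep.epi_iff_surjective f).mp hf)
    refine ⟨m, (FPe_free e (Fin m)).hom ≫ (Rep.resFunctor e.toMonoidHom).map f,
      epi_comp _ _, ?_⟩
    refine FPe_iso n _ _ ?_ (ih _ hk)
    exact (PreservesKernel.iso (Rep.resFunctor e.toMonoidHom) f) ≪≫
      (kernelIsIsoComp (FPe_free e (Fin m)).hom ((Rep.resFunctor e.toMonoidHom).map f)).symm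

theorem FPe_triv {k G H : Type} [CommRing k] [Group G] [Group H] (e : H ≃* G) (n : ℕ)
    (h : FPm k G n (Rep.trivial k G k)) : FPm k H n (Rep.trivial k H k) := by
  have h1 := FPe_res e n _ h
  exact h1

end Pool.Agent.H5.CP
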