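import Pool.Agent.H5.CP.TowI
import Pool.Agent.H5.CP.FPd
import Pool.Agent.H5.CP.FPe

/-!
ROW TowB (30 lines).  `FPinf G` implies `FPinf (G/D)` for `D ≤ Z(G)` finitely generated torsion-free.  `TowI_main` with `R G Q := FPinf G → FPinf Q`; `FPe_triv`, `FPd_main`.
-/

namespace Pool.Agent.H5.CP

open CategoryTheory CategoryTheory.Abelian CategoryTheory.Limits

theorem TowB_main {G : Type} [Group G] (D : Subgroup G) [D.Normal]
    (hD : D ≤ Subgroup.center G) (hf : D.FG) (ht : ∀ x ∈ D, IsOfFinOrder x → x = 1)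
    (h : FPinf G) : FPinf (G ⧸ D) := by
  refine TowI_main (fun G Q _ _ => FPinf G → FPinf Q) ?_ ?_ G D hD hf ht h
  · rintro G Q _ _ ⟨e⟩ hG n
    exact FPe_triv e.symm n (hG n)
  · intro G Q _ _ z hz hz' _ hR hG
    exact hR fun n => FPd_main z hz hz' hG n

end Pool.Agent.H5.CP
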