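import Pool.Agent.H5.CP.Defs

/-!
ROW FinB (120 lines).  `M` of type `FP_n` over `ℤ[G]`, `n ≥ 1`, `Ext^n(M,ℚ) = 0`: every `x ∈ Ext^n(M,ℤ)` is torsion.
n = 1: `0 → K → F → M → 0` with `F = Rep.free ℤ G (Fin m)`; `x` comes from `f : K → ℤ`; composed with `ℤ → ℚ` it extends to `g : F → ℚ`
(`Ext¹(M,ℚ) = 0`); `F` is generated by finitely many elements, so `s g` is integral for some `s > 0` (trivial action), so `s f` extends to `F → ℤ` and
`s x = 0`.  n+1: dimension shifting as in FinA.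
-/

namespace Pool.Agent.H5.CP

open CategoryTheory CategoryTheory.Abelian CategoryTheory.Limits

private noncomputable def FinB_iota (G : Type) [Group G] :
    Rep.trivial ℤ G ℤ ⟶ Rep.trivial ℤ G ℚ :=
  Rep.ofHom
    { toFun := fun x => (x : ℚ)
      map_add' := fun x y => by push_cast; rfl
      map_smul' := fun c x => by simp
      isIntertwining' := fun g => by
        ext
        simp }

private instance FinB_mono {G : Type} [Group G] : Mono (FinB_iota G) := by
  rw [Rep.mono_iff_injective]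
  intro x y h
  exact Int.cast_injective (α := ℚ) h

private theorem FinB_clear {G : Type} [Group G] (m : ℕ)
    (g : Rep.free ℤ G (Fin m) ⟶ Rep.trivial ℤ G ℚ) :
    ∃ (s : ℕ) (g' : Rep.free ℤ G (Fin m) ⟶ Rep.trivial ℤ G ℤ), 0 < s ∧
      g' ≫ FinB_iota G = s • g := by
  classical
  let v : Fin m → ℚ := fun i => g.hom (Finsupp.single i (MonoidAlgebra.single 1 1))
  let s : ℕ := ∏ i, (v i).den
  have hs : 0 < s := Finset.prod_pos fun i _ => (v i).den_pos
  have hint : ∀ i, ∃ z : ℤ, (z : ℚ) = s • v i := by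
    intro i
    obtain ⟨c, hc⟩ := Finset.dvd_prod_of_mem (fun i => (v i).den) (Finset.mem_univ i)
    refine ⟨c * (v i).num, ?_⟩
    have h1 : (s : ℚ) = (v i).den * c := by
      have : s = (v i).den * c := hc
      rw [this]; push_cast; ring
    rw [nsmul_eq_mul, h1]
    push_cast
    have := Rat.mul_den_eq_num (v i)
    rw [← this]
    ring
  choose z hz using hint
  refine ⟨s, Rep.freeLift ℤ G _ z, hs, ?_⟩
  apply Rep.free_ext
  intro i
  have e1 : (Rep.freeLift ℤ G (Rep.trivial ℤ G ℤ) z).hom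
      (Finsupp.single i (MonoidAlgebra.single 1 1)) = z i := by
    have := Representation.freeLift_single_single (Rep.trivial ℤ G ℤ).ρ i (1 : G) (1 : ℤ) z
    rw [one_smul, map_one] at this
    exact this
  calc (Rep.freeLift ℤ G (Rep.trivial ℤ G ℤ) z ≫ FinB_iota G).hom
        (Finsupp.single i (MonoidAlgebra.single 1 1))
      = (((Rep.freeLift ℤ G (Rep.trivial ℤ G ℤ) z).hom
        (Finsupp.single i (MonoidAlgebra.single 1 1)) : ℤ) : ℚ) := rfl
    _ = (z i : ℚ) := by rw [e1]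
    _ = s • v i := hz i
    _ = _ := by
      have : ∀ (n : ℕ) (x : Rep.free ℤ G (Fin m)), n • (g.hom x) = (n • g).hom x := by
        intro n x
        rfl
      exact this s _

private theorem FinB_ses {G : Type} [Group G] {m : ℕ} {M : Rep.{0} ℤ G}
    (f : Rep.free ℤ G (Fin m) ⟶ M) [Epi f] :
    (ShortComplex.mk (kernel.ι f) f (kernel.condition f)).ShortExact where
  exact := ShortComplex.exact_kernel f
  mono_f := inferInstanceAs (Mono (kernel.ι f))
  epi_g := inferInstanceAs (Epi f)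

private theorem FinB_proj (G : Type) [Group G] (m : ℕ) : Projective (Rep.free ℤ G (Fin m)) :=
  inferInstance

private theorem FinB_nsmul {G : Type} [Group G] {X Y Z : Rep.{0} ℤ G} {a b c : ℕ}
    (α : Ext X Y a) (β : Ext Y Z b) (h : a + b = c) (s : ℕ) :
    s • α.comp β h = α.comp (s • β) h := by
  induction s with
  | zero => simp
  | succ s ih => rw [succ_nsmul, succ_nsmul, Ext.comp_add, ih]

private theorem FinB_mk₀ {G : Type} [Group G] {X Y : Rep.{0} ℤ G} (f : X ⟶ Y) (s : ℕ) :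
    s • Ext.mk₀ f = Ext.mk₀ (s • f) := by
  induction s with
  | zero => simp
  | succ s ih => rw [succ_nsmul, succ_nsmul, Ext.mk₀_add, ih]

private theorem FinB_zero {G : Type} [Group G] (M : Rep.{0} ℤ G) (hM : FPm ℤ G 1 M)
    (h : ∀ e : Ext M (Rep.trivial ℤ G ℚ) 1, e = 0)
    (x : Ext M (Rep.trivial ℤ G ℤ) 1) : ∃ s : ℕ, 0 < s ∧ s • x = 0 := by
  obtain ⟨m, f, hf, -⟩ := hM
  have := hf
  have hS := FinB_ses f
  have := FinB_proj G m
  obtain ⟨x1, hx1⟩ := Ext.contravariant_sequence_exact₃ hS (Rep.trivial ℤ G ℤ) x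
    (Ext.eq_zero_of_projective _) (n₀ := 0) (by norm_num)
  obtain ⟨f0, rfl⟩ := (Ext.mk₀_bijective _ _).2 x1
  have h0 : hS.extClass.comp (Ext.mk₀ (f0 ≫ FinB_iota G)) (add_zero 1) = 0 := h _
  obtain ⟨x2, hx2⟩ := Ext.contravariant_sequence_exact₁ hS (Rep.trivial ℤ G ℚ)
    (Ext.mk₀ (f0 ≫ FinB_iota G)) (by norm_num) h0
  obtain ⟨g, rfl⟩ := (Ext.mk₀_bijective _ _).2 x2
  rw [Ext.mk₀_comp_mk₀] at hx2
  have hg : kernel.ι f ≫ g = f0 ≫ FinB_iota G := (Ext.mk₀_bijective _ _).1 hx2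
  obtain ⟨s, g', hs, hg'⟩ := FinB_clear m g
  refine ⟨s, hs, ?_⟩
  have key : kernel.ι f ≫ g' = s • f0 := by
    rw [← cancel_mono (FinB_iota G), Category.assoc, hg', Preadditive.comp_nsmul, hg,
      Preadditive.nsmul_comp]
  have e1 : s • x = hS.extClass.comp (Ext.mk₀ (s • f0)) (add_zero 1) := by
    rw [← hx1, FinB_nsmul, FinB_mk₀]
  rw [e1, ← key, ← Ext.mk₀_comp_mk₀]
  exact hS.extClass_comp_assoc _

theorem FinB_main {G : Type} [Group G] (n : ℕ) (M : Rep.{0} ℤ G) (hM : FPm ℤ G (n + 1) M)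
    (h : ∀ e : Ext M (Rep.trivial ℤ G ℚ) (n + 1), e = 0)
    (x : Ext M (Rep.trivial ℤ G ℤ) (n + 1)) : ∃ s : ℕ, 0 < s ∧ s • x = 0 := by
  induction n generalizing M with
  | zero => exact FinB_zero M hM h x
  | succ n ih =>
    obtain ⟨m, f, hf, hK⟩ := hM
    have := hf
    have hS := FinB_ses f
    have := FinB_proj G m
    obtain ⟨x1, hx1⟩ := Ext.contravariant_sequence_exact₃ hS (Rep.trivial ℤ G ℤ) x
      (Ext.eq_zero_of_projective _) (n₀ := n + 1) (by omega)
    have hK0 : ∀ e : Ext (kernel f) (Rep.trivial ℤ G ℚ) (n + 1), e = 0 := by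
      intro e
      obtain ⟨x2, hx2⟩ := Ext.contravariant_sequence_exact₁ hS (Rep.trivial ℤ G ℚ) e
        (n₁ := n + 1 + 1) (by omega) (h _)
      rw [← hx2, Ext.eq_zero_of_projective x2, Ext.comp_zero]
    obtain ⟨s, hs, h0⟩ := ih (kernel f) hK hK0 x1
    refine ⟨s, hs, ?_⟩
    rw [← hx1, FinB_nsmul, h0, Ext.comp_zero]

end Pool.Agent.H5.CP
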