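import Pool.Agent.H5.CP.QRes
import Pool.Agent.H5.CP.ABs
import Pool.Agent.H5.CP.ExB

/-!
ROW RGys (100 lines).  Descending: `V` an abelian group with trivial action (a `k`-module).  If `H^n(G/S;V) = 0` for `n ≥ N` then `H^n(G;V) = 0` for `n ≥ N+1`, where
`S = ⟨t⟩`, `t` central of infinite order.  WLOG `N ≥ 1` is not needed: for `n ≥ N + 2` (we allow this bound): `H^n(G;V) = Ext^n_G(k,V) ≅ Ext^{n-1}_G(I,V)` (`augSC k G`, n ≥ 2),
which vanishes iff `Ext^{n-1}_{G/S}(E,V) = 0` (`QRes_main`, `s = 1`, class `TRegC_main`; `V = Infl V`).  From `ABs_main`: `Ext^{n-1}(J,V) → Ext^{n-1}(E,V) → Ext^{n-1}(k,V)`,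
`Ext^{n-1}(k,V) = 0` since `n-1 ≥ N`, and `Ext^{n-1}(J,V) ≅ Ext^n(k,V) = 0` (`augSC k (G/S)`).
(`(Infl k S).obj (Rep.trivial k (G ⧸ S) V)` is `Rep.trivial k G V`, by `rfl` or an isomorphism.)
-/

namespace Pool.Agent.H5.CP

open CategoryTheory CategoryTheory.Abelian CategoryTheory.Limits

theorem rgys_up {k G : Type} [CommRing k] [Group G] (A : Rep.{0} k G) (m : ℕ)
    (h : ∀ e : Ext (kernel (aug k G)) A m, e = 0) (e : Ext (Rep.trivial k G k) A (m + 1)) :
    e = 0 := by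
  have hS := AugE_exact k G
  have h2 : (Ext.mk₀ (augSC k G).g).comp e (zero_add (m + 1)) = 0 := by
    have : Projective (augSC k G).X₂ := inferInstanceAs (Projective (Rep.leftRegular k G))
    exact Ext.eq_zero_of_projective _
  obtain ⟨x, hx⟩ := Ext.contravariant_sequence_exact₃ hS A e h2 (add_comm 1 m)
  have hx0 : x = 0 := h x
  rw [← hx, hx0, Ext.comp_zero]
  rfl

theorem rgys_down {k G : Type} [CommRing k] [Group G] (A : Rep.{0} k G) (m : ℕ)
    (h : ∀ e : Ext (Rep.trivial k G k) A (m + 2), e = 0) (e : Ext (kernel (aug k G)) A (m + 1)) :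
    e = 0 := by
  have hS := AugE_exact k G
  have h2 : hS.extClass.comp (id e : Ext (augSC k G).X₁ A (m + 1)) (add_comm 1 (m + 1)) = 0 :=
    h _
  obtain ⟨x, hx⟩ := Ext.contravariant_sequence_exact₁ hS A (e : Ext (augSC k G).X₁ A (m + 1))
    (add_comm 1 (m + 1)) h2
  have hx0 : x = 0 := by
    have : Projective (augSC k G).X₂ := inferInstanceAs (Projective (Rep.leftRegular k G))
    exact Ext.eq_zero_of_projective _
  rw [← hx, hx0, Ext.comp_zero]
  rfl

theorem RGys_main {k G V : Type} [CommRing k] [Group G] [AddCommGroup V] [Module k V] (t : G)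
    (hc : t ∈ Subgroup.center G) (ht : ∀ n : ℤ, t ^ n = 1 → n = 0)
    [(Subgroup.zpowers t).Normal] (N : ℕ)
    (h : ∀ n, N ≤ n → IsZero (groupCohomology (Rep.trivial k (G ⧸ Subgroup.zpowers t) V) n))
    (n : ℕ) (hn : N + 2 ≤ n) : IsZero (groupCohomology (Rep.trivial k G V) n) := by
  obtain ⟨m, rfl⟩ : ∃ m, n = m + 2 := ⟨n - 2, by omega⟩
  have hm : N ≤ m := by omega
  have h' : ∀ n, N ≤ n → ∀ e : Ext (Rep.trivial k (G ⧸ Subgroup.zpowers t) k)
      (Rep.trivial k (G ⧸ Subgroup.zpowers t) V) n, e = 0 := by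
    intro n hn
    exact (ExB_zero _ n).mp (h n hn)
  rw [ExB_zero]
  apply rgys_up
  obtain ⟨C, hC⟩ := TRegC_main k t hc ht
  have hI : C.P (kernel (aug k G)) := (hC _).2 (AugE_ker t ht)
  have key := QRes_main C (kernel (aug k G)) hI (Rep.trivial k (G ⧸ Subgroup.zpowers t) V) (m + 1) 1
  have hE : ∀ e : Ext ((QF k (Subgroup.zpowers t)).obj (kernel (aug k G)))
      (Rep.trivial k (G ⧸ Subgroup.zpowers t) V) (m + 1), 1 • e = 0 := by
    intro e
    rw [one_smul]
    obtain ⟨ι, a, w, hS⟩ := ABs_main k t hc ht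
    have h1 : (Ext.mk₀ ι).comp e (zero_add (m + 1)) = 0 := h' (m + 1) (by omega) _
    obtain ⟨x, hx⟩ := Ext.contravariant_sequence_exact₂ hS _ e h1
    have hx0 : x = 0 := rgys_down _ m (h' (m + 2) (by omega)) x
    rw [← hx, hx0, Ext.comp_zero]
  intro e
  have h3 := key.2 hE e
  exact (one_nsmul e).symm.trans h3

end Pool.Agent.H5.CP
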