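import Pool.Agent.H5.CP.IsoI
import Pool.Agent.H5.CP.RGys
import Pool.Agent.H5.CP.BEs
import Pool.Agent.H5.CP.FPd
import Pool.Agent.H5.CP.FinB

/-!
ROW StepC (60 lines).  One step of (i) => (iii).  `StepC_D`: `RatTrFin (G/⟨z⟩)` implies `RatTrFin G` (`RGys_main` with `k = V = ℚ`).
`StepC_main`: `FPinf G`, `BE G`, `RatTrFin (G/⟨z⟩)` imply `BE (G/⟨z⟩)`: `FPd_main` gives `FPinf (G/⟨z⟩)`; `IsoI_Ext` gives `Ext^n(ℤ,ℚ) = 0` for `n ≥ N`; take `m = N + 1`, `FinB_main`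
with `2 * m = n + 1` gives the torsion hypothesis of `BEs_main`.
-/

namespace Pool.Agent.H5.CP

open CategoryTheory CategoryTheory.Abelian CategoryTheory.Limits

theorem StepC_D {G : Type} [Group G] (z : G)
    (hc : z ∈ Subgroup.center G) (ht : ∀ n : ℤ, z ^ n = 1 → n = 0)
    [(Subgroup.zpowers z).Normal] (h : RatTrFin (G ⧸ Subgroup.zpowers z)) : RatTrFin G := by
  obtain ⟨N, hN⟩ := h
  exact ⟨N + 2, fun n hn => RGys_main z hc ht N hN n hn⟩

theorem StepC_main {G : Type} [Group G] (z : G)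
    (hc : z ∈ Subgroup.center G) (ht : ∀ n : ℤ, z ^ n = 1 → n = 0)
    [(Subgroup.zpowers z).Normal] (hF : FPinf G) (hB : BE G)
    (h : RatTrFin (G ⧸ Subgroup.zpowers z)) : BE (G ⧸ Subgroup.zpowers z) := by
  have hF' : FPinf (G ⧸ Subgroup.zpowers z) := fun n => FPd_main z hc ht hF n
  obtain ⟨N, hN⟩ := IsoI_Ext.1 h
  refine BEs_main z hc ht hB (N + 1) (by omega) fun x => ?_
  have key : ∀ (n : ℕ) (_ : n = 2 * N + 1)
      (x : Ext (Rep.trivial ℤ (G ⧸ Subgroup.zpowers z) ℤ)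
        (Rep.trivial ℤ (G ⧸ Subgroup.zpowers z) ℤ) (n + 1)), ∃ s : ℕ, 0 < s ∧ s • x = 0 := by
    intro n hn x
    exact FinB_main n _ (hF' (n + 1)) (fun e => hN (n + 1) (by omega) e) x
  exact key (2 * N + 1) rfl x

end Pool.Agent.H5.CP
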