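import Pool.Agent.H5.CP.TowI
import Pool.Agent.H5.CP.StepC
import Pool.Agent.H5.CP.FPe
import Pool.Agent.H5.CP.TowB

/-!
ROW TowC (50 lines).  `D ≤ Z(G)` finitely generated torsion-free: `FPinf G`, `BE G`, `RatTrFin (G/D)` imply `BE (G/D)`.  `TowI_main` with
`R G Q := (RatTrFin Q → RatTrFin G) ∧ (FPinf G → BE G → RatTrFin Q → BE Q)`.
(h0): `IsoI_RT`, `IsoI_BE`.  (hs): `StepC_D`, `StepC_main`, `FPd_main`.
-/

namespace Pool.Agent.H5.CP

open CategoryTheory CategoryTheory.Abelian CategoryTheory.Limits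

theorem TowC_main {G : Type} [Group G] (D : Subgroup G) [D.Normal]
    (hD : D ≤ Subgroup.center G) (hf : D.FG) (ht : ∀ x ∈ D, IsOfFinOrder x → x = 1)
    (hF : FPinf G) (hB : BE G) (h : RatTrFin (G ⧸ D)) : BE (G ⧸ D) := by
  have key : (RatTrFin (G ⧸ D) → RatTrFin G) ∧
      (FPinf G → BE G → RatTrFin (G ⧸ D) → BE (G ⧸ D)) := by
    refine TowI_main (fun G Q [Group G] [Group Q] => (RatTrFin Q → RatTrFin G) ∧
      (FPinf G → BE G → RatTrFin Q → BE Q)) ?_ ?_ G D hD hf ht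
    · rintro G Q _ _ ⟨e⟩
      exact ⟨fun hq => IsoI_RT e hq, fun _ hB _ => IsoI_BE e.symm hB⟩
    · intro G Q _ _ z hz hz1 _ ih
      refine ⟨fun hq => StepC_D z hz hz1 (ih.1 hq), fun hF hB hq => ?_⟩
      exact ih.2 (FPd_main z hz hz1 hF) (StepC_main z hz hz1 hF hB (ih.1 hq)) hq
  exact key.2 hF hB h

end Pool.Agent.H5.CP
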