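import Pool.Agent.H5.CP.TowA
import Pool.Agent.H5.CP.TowB
import Pool.Agent.H5.CP.TowC
import Pool.Agent.H5.CP.FPcd
import Pool.Agent.H5.CP.PtoQ

/-!
ROW MainA (60 lines).  THEOREM 1 (a).  `G` of type FP, `D ≤ Z(G)` finitely generated: equivalent are (1) `RatTrFin (G/D)`, (2) some prime is not the order of an element of `G/D`, (3) the
orders of the torsion elements of `G/D` are bounded.
(2)=>(1): `TowA_main`, `TowB_main`, `PtoQ_main`.  (1)=>(3): `TowC_main` (`IsoI_BE0`, `FPcd_CD`) and `NoTor_BE`.  (3)=>(2): a prime `p > s` (`Nat.exists_infinite_primes`): `x^p = 1`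
and `x^s = 1` with `gcd(p,s) = 1` give `x = 1`.
-/

namespace Pool.Agent.H5.CP

open CategoryTheory CategoryTheory.Abelian CategoryTheory.Limits

/-- (2) implies (1) -/
theorem MainA_aux1 {G : Type} [Group G] (h : IsTypeFP G) (D : Subgroup G) [D.Normal]
    (hD : D ≤ Subgroup.center G) (hf : D.FG) (p : ℕ) (hp : p.Prime) (hN : NoP p (G ⧸ D)) :
    RatTrFin (G ⧸ D) := by
  have : Fact p.Prime := ⟨hp⟩
  have ht : ∀ x ∈ D, IsOfFinOrder x → x = 1 := fun x _ hx => FPcd_tf h x hx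
  exact PtoQ_main p (TowB_main D hD hf ht (FPcd_inf h))
    (TowA_main p D hD hf ht hN (FPcd_fin (ZMod p) h))

/-- (1) implies (3) -/
theorem MainA_aux2 {G : Type} [Group G] (h : IsTypeFP G) (D : Subgroup G) [D.Normal]
    (hD : D ≤ Subgroup.center G) (hf : D.FG) (hR : RatTrFin (G ⧸ D)) : BdT (G ⧸ D) := by
  have ht : ∀ x ∈ D, IsOfFinOrder x → x = 1 := fun x _ hx => FPcd_tf h x hx
  exact NoTor_BE (TowC_main D hD hf ht (FPcd_inf h) (IsoI_BE0 (FPcd_CD h)) hR)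

/-- (3) implies (2) -/
theorem MainA_aux3 {Q : Type} [Group Q] (h : BdT Q) : ∃ p : ℕ, p.Prime ∧ NoP p Q := by
  obtain ⟨s, hs, hb⟩ := h
  obtain ⟨p, hps, hp⟩ := Nat.exists_infinite_primes (s + 1)
  refine ⟨p, hp, fun x hx => ?_⟩
  have h1 : x ^ s = 1 := hb x (isOfFinOrder_iff_pow_eq_one.2 ⟨p, hp.pos, hx⟩)
  have h2 : Nat.Coprime p s :=
    (Nat.Prime.coprime_iff_not_dvd hp).2 fun hd => by
      have := Nat.le_of_dvd hs hd
      omega
  have h3 : orderOf x ∣ Nat.gcd p s :=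
    Nat.dvd_gcd (orderOf_dvd_of_pow_eq_one hx) (orderOf_dvd_of_pow_eq_one h1)
  rw [h2] at h3
  exact orderOf_eq_one_iff.1 (Nat.dvd_one.1 h3)

theorem MainA_iff {G : Type} [Group G] (h : IsTypeFP G) (D : Subgroup G) [D.Normal]
    (hD : D ≤ Subgroup.center G) (hf : D.FG) :
    RatTrFin (G ⧸ D) ↔ ∃ p : ℕ, p.Prime ∧ NoP p (G ⧸ D) := by
  constructor
  · intro hR
    exact MainA_aux3 (MainA_aux2 h D hD hf hR)
  · rintro ⟨p, hp, hN⟩
    exact MainA_aux1 h D hD hf p hp hN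

theorem MainA_bd {G : Type} [Group G] (h : IsTypeFP G) (D : Subgroup G) [D.Normal]
    (hD : D ≤ Subgroup.center G) (hf : D.FG) : RatTrFin (G ⧸ D) ↔ BdT (G ⧸ D) := by
  constructor
  · intro hR
    exact MainA_aux2 h D hD hf hR
  · intro hB
    obtain ⟨p, hp, hN⟩ := MainA_aux3 hB
    exact MainA_aux1 h D hD hf p hp hN

end Pool.Agent.H5.CP
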