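import Pool.Agent.H5.CP.CocA

/-!
ROW CocC (80 lines).  Invariance under isomorphisms of groups `e : H ≃* G`, by the criterion `CocA_iff`:
a cochain `f : (Fin n → G) → A` corresponds to `fun h => f (e ∘ h)`, and `dd` commutes with this.
Every `A' : Rep k H` is `Rep.res e.toMonoidHom A` with `A = Rep.res e.symm.toMonoidHom A'` (up to the
identity on the underlying module), which gives `CocC_CD`.
-/

namespace Pool.Agent.H5.CP

open CategoryTheory CategoryTheory.Abelian CategoryTheory.Limits

theorem CocC_dd {k G H : Type} [CommRing k] [Group G] [Group H] (e : H ≃* G) (A : Rep.{0} k G)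
    (n : ℕ) (f : (Fin n → G) → A) (h : Fin (n + 1) → H) :
    dd (Rep.res e.toMonoidHom A) n (fun x => f (fun i => e (x i))) h
      = dd A n f (fun i => e (h i)) := by
  have h2 : ∀ j : Fin (n + 1), (fun i => e (Fin.contractNth j (· * ·) h i))
      = Fin.contractNth j (· * ·) (fun i => e (h i)) := fun j =>
    Fin.comp_contractNth (· * ·) (· * ·) (f := e) (fun x y => map_mul e x y) j h
  have h3 : dd (Rep.res e.toMonoidHom A) n (fun x => f (fun i => e (x i))) h
      = A.ρ (e (h 0)) (f fun i => e (h i.succ)) +
        ∑ j : Fin (n + 1), ((-1 : ℤ) ^ ((j : ℕ) + 1)) •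
          f (fun i => e (Fin.contractNth j (· * ·) h i)) := rfl
  rw [h3]
  unfold dd
  congr 1
  exact Finset.sum_congr rfl fun j _ => by rw [h2 j]

theorem CocC_res {k G H : Type} [CommRing k] [Group G] [Group H] (e : H ≃* G) (A : Rep.{0} k G)
    (n : ℕ) : IsZero (groupCohomology (Rep.res e.toMonoidHom A) (n + 1)) ↔
      IsZero (groupCohomology A (n + 1)) := by
  rw [CocA_iff, CocA_iff]
  constructor
  · intro hyp f hf
    obtain ⟨g, hg⟩ := hyp (fun x => f (fun i => e (x i))) (by
      funext h
      rw [CocC_dd e A (n + 1) f h, hf]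
      rfl)
    refine ⟨fun x => g (fun i => e.symm (x i)), ?_⟩
    funext x
    have h1 := CocC_dd e A n (fun x => g (fun i => e.symm (x i))) (fun i => e.symm (x i))
    simp only [MulEquiv.apply_symm_apply, MulEquiv.symm_apply_apply] at h1
    rw [← h1, hg]
    simp only [MulEquiv.apply_symm_apply]
  · intro hyp f hf
    have hf2 : f = fun x => (fun y : Fin (n + 1) → G => f (fun i => e.symm (y i)))
        (fun i => e (x i)) := by
      funext x
      simp only [MulEquiv.symm_apply_apply]
    obtain ⟨g, hg⟩ := hyp (fun y => f (fun i => e.symm (y i))) (by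
      funext x
      have h1 := CocC_dd e A (n + 1) (fun y => f (fun i => e.symm (y i))) (fun i => e.symm (x i))
      simp only [MulEquiv.apply_symm_apply, MulEquiv.symm_apply_apply] at h1
      rw [← h1]
      exact congrFun hf _)
    refine ⟨fun x => g (fun i => e (x i)), ?_⟩
    funext h
    rw [CocC_dd e A n g h, hg]
    simp only [MulEquiv.symm_apply_apply]

theorem CocC_CD {k G H : Type} [CommRing k] [Group G] [Group H] (e : H ≃* G) (n : ℕ)
    (h : CD k G n) : CD k H (n + 1) := by
  intro A' j hj
  obtain ⟨m, rfl⟩ : ∃ m, j = m + 1 := ⟨j - 1, by omega⟩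
  exact (CocC_res e.symm A' m).1 (h _ (m + 1) (by omega))

theorem CocC_triv {k G H V : Type} [CommRing k] [Group G] [Group H] [AddCommGroup V] [Module k V]
    (e : H ≃* G) (n : ℕ) (h : IsZero (groupCohomology (Rep.trivial k G V) (n + 1))) :
    IsZero (groupCohomology (Rep.trivial k H V) (n + 1)) := by
  exact (CocC_res e (Rep.trivial k G V) n).2 h

end Pool.Agent.H5.CP
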