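import Pool.Agent.H5.CP.Defs

/-!
Definitions for the group-theoretic part and the assembly.
-/

namespace Pool.Agent.H5.CP

open CategoryTheory CategoryTheory.Abelian CategoryTheory.Limits

/-- `G` has no element of order `p` (for `p` prime) -/
def NoP (p : ℕ) (G : Type) [Group G] : Prop := ∀ x : G, x ^ p = 1 → x = 1

/-- the trivial module `ℤ` is `FP_n` for all `n` -/
def FPinf (G : Type) [Group G] : Prop := ∀ n, FPm ℤ G n (Rep.trivial ℤ G ℤ)

/-- the orders of the elements of finite order are bounded -/
def BdT (G : Type) [Group G] : Prop :=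
  ∃ s : ℕ, 0 < s ∧ ∀ x : G, IsOfFinOrder x → x ^ s = 1

lemma normal_of_le_center {G : Type} [Group G] (D : Subgroup G) (hD : D ≤ Subgroup.center G) :
    D.Normal := by
  constructor
  intro n hn g
  have h := Subgroup.mem_center_iff.1 (hD hn) g
  rw [h, mul_assoc, mul_inv_cancel, mul_one]
  exact hn

lemma zpowers_normal {G : Type} [Group G] (z : G) (hc : z ∈ Subgroup.center G) :
    (Subgroup.zpowers z).Normal :=
  normal_of_le_center _ ((Subgroup.zpowers_le).2 hc)

end Pool.Agent.H5.CP
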