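import Pool.Agent.H5.CP.ROne
import Pool.Agent.H5.CP.CocC
import Pool.Agent.H5.CP.GDef

/-!
ROW RkZ (130 lines).  `cd_ℚ(ℤ^m) ≥ m`: `CD ℚ (Multiplicative (Fin m → ℤ)) n` implies `m ≤ n` (we prove the weak form `m ≤ n`; in fact `m < n`).
Induction on `m` for all `n`.  `m = 0` trivial.  `m + 1`: let `H = Multiplicative (Fin (m+1) → ℤ)`.  `n = 0`: `H^0(H;ℚ) = ℚ ≠ 0`.  `n = 1`: then `CD ℚ H 1`, so `H^1(H;ℚ) = 0`; but the
homomorphism `χ_0` (coordinate 0) is a non-zero class in `H^1(H; trivial ℚ)` (`groupCohomology.H1IsoOfIsTrivial` or `CocA_iff` with n = 0: the 0-cochains have zero coboundary).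
`n = n' + 2`: `ROne_main` with `t = e_0`, `χ` = coordinate 0 composed with `ℤ → ℚ` gives `CD ℚ (H/⟨t⟩) (n'+1)`, and `H/⟨t⟩ ≃* Multiplicative (Fin m → ℤ)`.  To avoid the loss of
a degree in `CocC_CD` prove the statement for every group `H'` isomorphic to `H`: i.e. prove by induction on `m`: for every group `H` with `e : H ≃* Multiplicative (Fin m → ℤ)` and `CD ℚ H n`: `m ≤ n`.
-/

namespace Pool.Agent.H5.CP

open CategoryTheory CategoryTheory.Abelian CategoryTheory.Limits

/-- the coordinate `0` as a character with values in `ℚ` -/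
noncomputable def RkZ_chi {m : ℕ} {H : Type} [Group H]
    (e : H ≃* Multiplicative (Fin (m + 1) → ℤ)) : H →* Multiplicative ℚ where
  toFun x := Multiplicative.ofAdd (((e x).toAdd 0 : ℤ) : ℚ)
  map_one' := by simp
  map_mul' x y := by
    rw [map_mul, toAdd_mul, Pi.add_apply, Int.cast_add, ofAdd_add]

/-- the remaining coordinates -/
def RkZ_rest {m : ℕ} {H : Type} [Group H]
    (e : H ≃* Multiplicative (Fin (m + 1) → ℤ)) : H →* Multiplicative (Fin m → ℤ) where
  toFun x := Multiplicative.ofAdd (fun i => (e x).toAdd i.succ)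
  map_one' := by
    rw [map_one]
    rfl
  map_mul' x y := by
    rw [map_mul]
    rfl

theorem RkZ_rest_surj {m : ℕ} {H : Type} [Group H]
    (e : H ≃* Multiplicative (Fin (m + 1) → ℤ)) : Function.Surjective (RkZ_rest e) := by
  intro y
  refine ⟨e.symm (Multiplicative.ofAdd (Fin.cons 0 y.toAdd)), ?_⟩
  change Multiplicative.ofAdd (fun i : Fin m => (e (e.symm (Multiplicative.ofAdd
    (Fin.cons 0 y.toAdd : Fin (m + 1) → ℤ)))).toAdd i.succ) = y
  rw [MulEquiv.apply_symm_apply]
  rfl

theorem RkZ_ker {m : ℕ} {H : Type} [Group H]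
    (e : H ≃* Multiplicative (Fin (m + 1) → ℤ)) :
    Subgroup.zpowers (e.symm (Multiplicative.ofAdd (Pi.single 0 1 : Fin (m + 1) → ℤ))) =
      (RkZ_rest e).ker := by
  ext x
  rw [MonoidHom.mem_ker, Subgroup.mem_zpowers_iff]
  constructor
  · rintro ⟨n, rfl⟩
    rw [map_zpow]
    have h1 : RkZ_rest e (e.symm (Multiplicative.ofAdd (Pi.single 0 1 : Fin (m + 1) → ℤ))) = 1 := by
      change Multiplicative.ofAdd (fun i : Fin m => (e (e.symm (Multiplicative.ofAdd
        (Pi.single 0 1 : Fin (m + 1) → ℤ)))).toAdd i.succ) = 1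
      rw [MulEquiv.apply_symm_apply]
      have : (fun i : Fin m => (Pi.single 0 1 : Fin (m + 1) → ℤ) i.succ) = 0 := by
        funext i
        simp [Pi.single_apply]
      exact congrArg Multiplicative.ofAdd this
    rw [h1, one_zpow]
  · intro hx
    refine ⟨(e x).toAdd 0, ?_⟩
    apply e.injective
    rw [map_zpow, MulEquiv.apply_symm_apply]
    apply Multiplicative.toAdd.injective
    rw [toAdd_zpow, toAdd_ofAdd]
    funext i
    refine Fin.cases ?_ (fun j => ?_) i
    · simp
    · have h2 : (fun i : Fin m => (e x).toAdd i.succ) = 0 :=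
        Multiplicative.ofAdd.injective hx
      have h3 := congrFun h2 j
      simp only [Pi.zero_apply] at h3
      rw [h3]
      simp [Pi.single_apply]

theorem RkZ_comm {m : ℕ} {H : Type} [Group H]
    (e : H ≃* Multiplicative (Fin m → ℤ)) (x y : H) : x * y = y * x := by
  apply e.injective
  rw [map_mul, map_mul, mul_comm]

theorem RkZ_main (m n : ℕ) (H : Type) [Group H] (e : H ≃* Multiplicative (Fin m → ℤ))
    (h : CD ℚ H n) : m ≤ n := by
  induction m generalizing n H with
  | zero => exact Nat.zero_le n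
  | succ m ih =>
    have hχ : RkZ_chi e (e.symm (Multiplicative.ofAdd (Pi.single 0 1 : Fin (m + 1) → ℤ))) =
        Multiplicative.ofAdd (1 : ℚ) := by
      change Multiplicative.ofAdd ((((e (e.symm (Multiplicative.ofAdd
        (Pi.single 0 1 : Fin (m + 1) → ℤ)))).toAdd 0 : ℤ) : ℚ)) = _
      rw [MulEquiv.apply_symm_apply]
      simp
    have key : ¬ CD ℚ H 1 := by
      intro h1
      have h2 : IsZero (groupCohomology.H1 (Rep.trivial ℚ H ℚ)) := h1 _ 1 le_rfl
      have h3 : IsZero (ModuleCat.of ℚ (Additive H →+ ℚ)) :=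
        IsZero.of_iso h2 (groupCohomology.H1IsoOfIsTrivial (Rep.trivial ℚ H ℚ)).symm
      have h4 : Subsingleton (Additive H →+ ℚ) := ModuleCat.subsingleton_of_isZero h3
      have h5 : MonoidHom.toAdditiveLeft (RkZ_chi e) = (0 : Additive H →+ ℚ) :=
        Subsingleton.elim _ _
      have h6 := DFunLike.congr_fun h5 (Additive.ofMul
        (e.symm (Multiplicative.ofAdd (Pi.single 0 1 : Fin (m + 1) → ℤ))))
      have h7 : (RkZ_chi e (e.symm (Multiplicative.ofAdd
        (Pi.single 0 1 : Fin (m + 1) → ℤ)))).toAdd = 0 := h6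
      rw [hχ] at h7
      exact one_ne_zero h7
    match n, h with
    | 0, h => exact absurd (fun A j hj => h A j (Nat.zero_le j)) key
    | 1, h => exact absurd h key
    | n + 2, h =>
      have hc : e.symm (Multiplicative.ofAdd (Pi.single 0 1 : Fin (m + 1) → ℤ)) ∈
          Subgroup.center H := Subgroup.mem_center_iff.2 fun g => RkZ_comm e _ _
      have := zpowers_normal _ hc
      have ht : ∀ n : ℤ, (e.symm (Multiplicative.ofAdd (Pi.single 0 1 : Fin (m + 1) → ℤ))) ^ n = 1 →
          n = 0 := by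
        intro n hn
        have h1 := congrArg (RkZ_chi e) hn
        rw [map_zpow, hχ, (RkZ_chi e).map_one] at h1
        have h2 := congrArg Multiplicative.toAdd h1
        rw [toAdd_zpow, toAdd_ofAdd, toAdd_one, zsmul_one] at h2
        exact_mod_cast h2
      have h1 := ROne_main _ hc ht (RkZ_chi e) hχ n h
      have e2 : (H ⧸ Subgroup.zpowers
          (e.symm (Multiplicative.ofAdd (Pi.single 0 1 : Fin (m + 1) → ℤ)))) ≃*
          Multiplicative (Fin m → ℤ) :=
        (QuotientGroup.quotientMulEquivOfEq (RkZ_ker e)).trans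
          (QuotientGroup.quotientKerEquivOfSurjective (RkZ_rest e) (RkZ_rest_surj e))
      have h2 := ih (n + 1) _ e2 h1
      omega

end Pool.Agent.H5.CP
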