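import Pool.Agent.H5.CP.SubC
import Pool.Agent.H5.CP.RkZ

/-!
ROW RkC (50 lines).  `CD ℚ G n` and an injective homomorphism `Multiplicative (Fin m → ℤ) →* G` imply `m ≤ n`: its range `S` is isomorphic to `Multiplicative (Fin m → ℤ)`
(`MonoidHom.ofInjective`); `SubC_main`, `RkZ_main`.
-/

namespace Pool.Agent.H5.CP

open CategoryTheory CategoryTheory.Abelian CategoryTheory.Limits

theorem RkC_main {G : Type} [Group G] (n : ℕ) (h : CD ℚ G n) (m : ℕ)
    (φ : Multiplicative (Fin m → ℤ) →* G) (hφ : Function.Injective φ) : m ≤ n :=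
  RkZ_main m n φ.range (MonoidHom.ofInjective hφ).symm (SubC_main n h φ.range)

end Pool.Agent.H5.CP
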