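import Pool.Agent.H5.CP.GDef
import Pool.Agent.H5.CP.CocB
import Pool.Agent.H5.CP.CocC
import Pool.Agent.H5.CP.ExB

/-!
ROW IsoI (80 lines).  Invariance under isomorphisms `e : H ≃* G` of `RatTrFin` (`CocC_triv`), `BE` and `CDfin`, and `CDfin ℤ G → BE G` (`s = 1`).
`IsoI_BE`: use cochains: every element of `groupCohomology A (n+1)` is the class of a cocycle; `s • x = 0` for all x iff for every cocycle `f` the cocycle `s • f` is a
coboundary; cochains on `H` and `G` correspond.  Or: `groupCohomology.mapIso`/functoriality in the group (Mathlib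
`groupCohomology.map`, `map_comp`, `map_id`) : `groupCohomology A j ≅ groupCohomology (Rep.res e.toMonoidHom A) j`, and every `A : Rep ℤ H` is
(isomorphic to) `Rep.res e.toMonoidHom A'`.  Or: `Ext` and the equivalence of categories `Rep.resFunctor e.toMonoidHom` (`Ext.mapExactFunctor`, `ExB_smul`).
-/

namespace Pool.Agent.H5.CP

open CategoryTheory CategoryTheory.Abelian CategoryTheory.Limits

theorem IsoI_isIso {k G H : Type} [CommRing k] [Group G] [Group H] (e : H ≃* G)
    (A : Rep.{0} k G) (n : ℕ) :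
    IsIso (groupCohomology.map e.toMonoidHom (𝟙 (Rep.res e.toMonoidHom A)) n) := by
  have h1 : ∀ i, IsIso ((groupCohomology.cochainsMap e.toMonoidHom
      (𝟙 (Rep.res e.toMonoidHom A))).f i) := by
    intro i
    have hm : Mono ((groupCohomology.cochainsMap e.toMonoidHom
        (𝟙 (Rep.res e.toMonoidHom A))).f i) :=
      groupCohomology.cochainsMap_f_map_mono e.toMonoidHom _ e.surjective i
    have he : Epi ((groupCohomology.cochainsMap e.toMonoidHom
        (𝟙 (Rep.res e.toMonoidHom A))).f i) :=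
      groupCohomology.cochainsMap_f_map_epi e.toMonoidHom _ e.injective i
    exact isIso_of_mono_of_epi _
  have h2 : IsIso (groupCohomology.cochainsMap e.toMonoidHom
      (𝟙 (Rep.res e.toMonoidHom A))) :=
    HomologicalComplex.Hom.isIso_of_components _
  exact (inferInstance : IsIso (HomologicalComplex.homologyMap (groupCohomology.cochainsMap
    e.toMonoidHom (𝟙 (Rep.res e.toMonoidHom A))) n))

theorem IsoI_inj {k G H : Type} [CommRing k] [Group G] [Group H] (e : H ≃* G)
    (A : Rep.{0} k G) (n : ℕ) (s : ℤ)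
    (h : ∀ x : groupCohomology (Rep.res e.toMonoidHom A) n, s • x = 0)
    (x : groupCohomology A n) : s • x = 0 := by
  have hi := IsoI_isIso e A n
  have hinj := (ModuleCat.mono_iff_injective
    (groupCohomology.map e.toMonoidHom (𝟙 (Rep.res e.toMonoidHom A)) n)).1 inferInstance
  apply hinj
  have h1 := h ((groupCohomology.map e.toMonoidHom (𝟙 (Rep.res e.toMonoidHom A)) n) x)
  rw [← map_zsmul] at h1
  rw [h1, map_zero]

theorem IsoI_RT {G H : Type} [Group G] [Group H] (e : H ≃* G) (h : RatTrFin G) :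
    RatTrFin H := by
  obtain ⟨N, hN⟩ := h
  refine ⟨N + 1, fun n hn => ?_⟩
  obtain ⟨m, rfl⟩ : ∃ m, n = m + 1 := ⟨n - 1, by omega⟩
  exact CocC_triv e m (hN (m + 1) (by omega))

theorem IsoI_CD {k G H : Type} [CommRing k] [Group G] [Group H] (e : H ≃* G)
    (h : CDfin k G) : CDfin k H := by
  obtain ⟨n, hn⟩ := h
  exact ⟨n + 1, CocC_CD e n hn⟩

theorem IsoI_BE {G H : Type} [Group G] [Group H] (e : H ≃* G) (h : BE G) : BE H := by
  obtain ⟨s, n, hs, h1⟩ := h
  refine ⟨s, n, hs, fun A j hj x => ?_⟩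
  exact IsoI_inj e.symm A j s (h1 _ j hj) x

theorem IsoI_BE0 {G : Type} [Group G] (h : CDfin ℤ G) : BE G := by
  obtain ⟨n, hn⟩ := h
  refine ⟨1, n, one_pos, fun A j hj x => ?_⟩
  have h1 : Subsingleton (groupCohomology A j) :=
    ModuleCat.subsingleton_of_isZero (hn A j hj)
  exact Subsingleton.elim _ _

/-- `RatTrFin` in terms of `Ext` over `ℤ` -/
theorem IsoI_Ext {G : Type} [Group G] :
    RatTrFin G ↔ ∃ N, ∀ n, N ≤ n → ∀ e : Ext (Rep.trivial ℤ G ℤ) (Rep.trivial ℤ G ℚ) n, e = 0 := by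
  constructor
  · rintro ⟨N, hN⟩
    refine ⟨N + 1, fun n hn => ?_⟩
    obtain ⟨m, rfl⟩ : ∃ m, n = m + 1 := ⟨n - 1, by omega⟩
    exact (ExB_zero (k := ℤ) (Rep.trivial ℤ G ℚ) (m + 1)).1
      ((CocB_triv (k := ℚ) (V := ℚ) m).1 (hN (m + 1) (by omega)))
  · rintro ⟨N, hN⟩
    refine ⟨N + 1, fun n hn => ?_⟩
    obtain ⟨m, rfl⟩ : ∃ m, n = m + 1 := ⟨n - 1, by omega⟩
    exact (CocB_triv (k := ℚ) (V := ℚ) m).2
      ((ExB_zero (k := ℤ) (Rep.trivial ℤ G ℚ) (m + 1)).2 (hN (m + 1) (by omega)))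

end Pool.Agent.H5.CP
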