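import Pool.Agent.H5.CP.QEx

/-!
ROW QRes (150 lines).  Change of rings for `Ext`, with annihilators.  By induction on `n`, for all `M` in the class.
`n = 0`: `Ext^0 = Hom` (`Ext.addEquiv₀`/`Ext.homEquiv₀`), and `f ↦ (adjunction)` is additive, injective and surjective
between `Hom_G(M, Infl N)` and `Hom_{G/S}(M_S, N)`: explicitly `g ↦ (x ↦ g(qmk x))`, so `s • f = 0 ↔ s • g = 0`.
Let `0 → K → F → M → 0` be exact with `F` projective (`Projective.over M`, kernel of `Projective.π M`);
`0 → K_S → F_S → M_S → 0` is exact (`QEx_main`), `F_S` is projective (`QAdj_proj`), `K` is in the class (`C.ker`).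
`n = 1`: every `e ∈ Ext¹(M, A)` is `hS.extClass.comp (Ext.mk₀ f)` for some `f : K ⟶ A` (`Ext.contravariant_sequence_exact₃`/
`Ext¹(F,A) = 0`), and `s • e = 0` iff `s • f` factors through `F` (exactness at `Hom(K,A)`).  So
(∀ e, s • e = 0) iff every `s • f`, `f : K ⟶ A`, extends to `F`.  Use the bijections `Hom_G(K, Infl N) = Hom(K_S, N)`,
`Hom_G(F, Infl N) = Hom(F_S, N)` compatible with the maps.
`n ≥ 1 → n+1`: composition with the extension class is a bijection `Ext^n(K,A) → Ext^{n+1}(M,A)` (both for `M`, `A = Infl N` and for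
`M_S`, `N`), additive; apply the induction hypothesis to `K`.
-/

namespace Pool.Agent.H5.CP

open CategoryTheory CategoryTheory.Abelian CategoryTheory.Limits

section general

universe w v u

variable {C : Type u} [Category.{v} C] [Abelian C] [HasExt.{w} C]

theorem QRes_zero (X A : C) (s : ℕ) :
    (∀ e : Ext X A 0, s • e = 0) ↔ ∀ f : X ⟶ A, s • f = 0 := by
  constructor
  · intro h f
    have h1 := h (Ext.addEquiv₀.symm f)
    rw [← map_nsmul] at h1
    exact (Ext.addEquiv₀.symm.map_eq_zero_iff).1 h1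
  · intro h e
    have h1 := h (Ext.addEquiv₀ e)
    rw [← map_nsmul] at h1
    exact (Ext.addEquiv₀.map_eq_zero_iff).1 h1

theorem QRes_one {X : ShortComplex C} (hX : X.ShortExact) [Projective X.X₂] (A : C) (s : ℕ) :
    (∀ e : Ext X.X₃ A 1, s • e = 0) ↔ ∀ f : X.X₁ ⟶ A, ∃ g : X.X₂ ⟶ A, X.f ≫ g = s • f := by
  constructor
  · intro h f
    have h1 : hX.extClass.comp (Ext.mk₀ (s • f)) (add_zero 1) = 0 := by
      have h2 := h (hX.extClass.comp (Ext.mk₀ f) (add_zero 1))
      have h3 : hX.extClass.precomp A (add_zero 1) (s • Ext.mk₀ f)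
          = s • hX.extClass.precomp A (add_zero 1) (Ext.mk₀ f) := map_nsmul _ _ _
      have h4 : Ext.mk₀ (s • f) = s • Ext.mk₀ f :=
        map_nsmul (Ext.addEquiv₀ (X := X.X₁) (Y := A)).symm s f
      rw [h4]
      exact h3.trans h2
    obtain ⟨x, hx⟩ := Ext.contravariant_sequence_exact₁ hX A (Ext.mk₀ (s • f)) (add_zero 1) h1
    refine ⟨Ext.homEquiv₀ x, ?_⟩
    rw [← Ext.mk₀_homEquiv₀_apply x, Ext.mk₀_comp_mk₀] at hx
    exact Ext.addEquiv₀.symm.injective hx
  · intro h e
    obtain ⟨x, hx⟩ := Ext.contravariant_sequence_exact₃ hX A e (Ext.eq_zero_of_projective _)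
      (add_zero 1)
    obtain ⟨g, hg⟩ := h (Ext.homEquiv₀ x)
    have h3 : hX.extClass.precomp A (add_zero 1) (s • x)
          = s • hX.extClass.precomp A (add_zero 1) x := map_nsmul _ _ _
    have h4 : Ext.mk₀ (s • Ext.homEquiv₀ x) = s • Ext.mk₀ (Ext.homEquiv₀ x) :=
        map_nsmul (Ext.addEquiv₀ (X := X.X₁) (Y := A)).symm s _
    have h5 : s • x = (Ext.mk₀ X.f).comp (Ext.mk₀ g) (zero_add 0) := by
      rw [Ext.mk₀_comp_mk₀, hg, h4, Ext.mk₀_homEquiv₀_apply]
    have h6 : hX.extClass.precomp A (add_zero 1) (s • x) = 0 := by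
      rw [h5]
      exact ShortComplex.ShortExact.extClass_comp_assoc hX (Ext.mk₀ g) (h := add_zero 1)
    rw [← hx]
    exact h3.symm.trans h6

theorem QRes_step {X : ShortComplex C} (hX : X.ShortExact) [Projective X.X₂] (A : C) (n s : ℕ) :
    (∀ e : Ext X.X₃ A (n + 2), s • e = 0) ↔ ∀ e : Ext X.X₁ A (n + 1), s • e = 0 := by
  have hn : 1 + (n + 1) = n + 2 := by omega
  constructor
  · intro h e
    have h3 : hX.extClass.precomp A hn (s • e)
          = s • hX.extClass.precomp A hn e := map_nsmul _ _ _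
    have h1 : hX.extClass.comp (s • e) hn = 0 := h3.trans (h _)
    obtain ⟨x, hx⟩ := Ext.contravariant_sequence_exact₁ hX A (s • e) hn h1
    rw [← hx, Ext.eq_zero_of_projective x, Ext.comp_zero]
  · intro h e
    obtain ⟨x, hx⟩ := Ext.contravariant_sequence_exact₃ hX A e (Ext.eq_zero_of_projective _) hn
    have h3 : hX.extClass.precomp A hn (s • x)
          = s • hX.extClass.precomp A hn x := map_nsmul _ _ _
    rw [h x, map_zero] at h3
    rw [← hx]
    exact h3.symm

end general

theorem QRes_adj {C : Type*} [Category C] [Preadditive C] {D : Type*} [Category D]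
    [Preadditive D] {F : C ⥤ D} {I : D ⥤ C} [F.Additive] (adj : F ⊣ I) {K P : C} (i : K ⟶ P)
    (N : D) (s : ℕ) :
    (∀ f : K ⟶ I.obj N, ∃ g : P ⟶ I.obj N, i ≫ g = s • f) ↔
      (∀ f : F.obj K ⟶ N, ∃ g : F.obj P ⟶ N, F.map i ≫ g = s • f) := by
  constructor
  · intro h f
    obtain ⟨g, hg⟩ := h (adj.homEquiv K N f)
    refine ⟨(adj.homEquiv P N).symm g, ?_⟩
    apply (adj.homEquiv K N).injective
    rw [adj.homEquiv_naturality_left, Equiv.apply_symm_apply, hg]
    exact (map_nsmul (adj.homAddEquiv K N) s f).symm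
  · intro h f
    obtain ⟨g, hg⟩ := h ((adj.homEquiv K N).symm f)
    refine ⟨adj.homEquiv P N g, ?_⟩
    rw [← adj.homEquiv_naturality_left, hg]
    have h1 : adj.homEquiv K N (s • (adj.homEquiv K N).symm f)
        = s • adj.homEquiv K N ((adj.homEquiv K N).symm f) :=
      map_nsmul (adj.homAddEquiv K N) s _
    rw [h1, Equiv.apply_symm_apply]

theorem QRes_main {k : Type} {G : Type} [CommRing k] [Group G] {S : Subgroup G} [S.Normal]
    (C : QClass k S) (M : Rep.{0} k G) (hM : C.P M) (N : Rep.{0} k (G ⧸ S)) (n s : ℕ) :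
    (∀ e : Ext M ((Infl k S).obj N) n, s • e = 0) ↔
      (∀ e : Ext ((QF k S).obj M) N n, s • e = 0) := by
  obtain ⟨adj⟩ := QAdj_main k S
  induction n using Nat.strong_induction_on generalizing M with
  | _ n ih =>
    rcases n with _ | n
    · rw [QRes_zero, QRes_zero]
      constructor
      · intro h f
        apply (adj.homAddEquiv M N).injective
        rw [map_nsmul, map_zero]
        exact h _
      · intro h f
        apply (adj.homAddEquiv M N).symm.injective
        rw [map_nsmul, map_zero]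
        exact h _
    · -- presentation
      let X : ShortComplex (Rep.{0} k G) :=
        ShortComplex.mk (kernel.ι (Projective.π M)) (Projective.π M) (kernel.condition _)
      have hX : X.ShortExact :=
        { exact := ShortComplex.exact_kernel (Projective.π M)
          mono_f := inferInstanceAs (Mono (kernel.ι (Projective.π M)))
          epi_g := inferInstanceAs (Epi (Projective.π M)) }
      have hP : Projective X.X₂ := inferInstanceAs (Projective (Projective.over M))
      have hK : C.P X.X₁ := C.ker X hX hP hM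
      have hQ : (X.map (QF k S)).ShortExact := QEx_main C X hX hM
      have hP' : Projective (X.map (QF k S)).X₂ := QAdj_proj S X.X₂
      rcases n with _ | n
      · have e1 := QRes_one hX ((Infl k S).obj N) s
        have e2 := QRes_one hQ N s
        refine Iff.trans e1 (Iff.trans ?_ e2.symm)
        exact QRes_adj adj X.f N s
      · have e1 := QRes_step hX ((Infl k S).obj N) n s
        have e2 := QRes_step hQ N n s
        exact Iff.trans e1 (Iff.trans (ih (n + 1) (by omega) X.X₁ hK) e2.symm)

end Pool.Agent.H5.CP
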