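import Pool.Agent.H5.CP.TorC
import Pool.Agent.H5.CP.QRes
import Pool.Agent.H5.CP.IsoI

/-!
ROW TorQ (80 lines).  `T ≤ Z(G)` a torsion subgroup: `RatTrFin (G/T) ↔ RatTrFin G`.  `TorC_main` gives a `QClass ℚ T` containing all modules; `QRes_main` with `M = Rep.trivial ℚ G ℚ`, `N = Rep.trivial ℚ (G/T) ℚ`, `s = 1`:
`Infl N = Rep.trivial ℚ G ℚ` (rfl or iso), `(QF ℚ T).obj M ≅ Rep.trivial ℚ (G/T) ℚ` (coinvariants of the trivial module: `qmk` is bijective).  Then `ExB_zero` on both sides.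
-/

namespace Pool.Agent.H5.CP

open CategoryTheory CategoryTheory.Abelian CategoryTheory.Limits

theorem TorQ_ext {C : Type*} [Category C] [Abelian C] [HasExt.{0} C] {X Y A : C} (i : X ≅ Y)
    (n : ℕ) (h : ∀ e : Ext X A n, e = 0) (e : Ext Y A n) : e = 0 := by
  have h1 := h ((Ext.mk₀ i.hom).comp e (zero_add n))
  have h2 : (Ext.mk₀ i.inv).comp ((Ext.mk₀ i.hom).comp e (zero_add n)) (zero_add n) = e := by
    rw [Ext.mk₀_comp_mk₀_assoc, i.inv_hom_id, Ext.mk₀_id_comp]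
  rw [← h2, h1, Ext.comp_zero]

theorem TorQ_ker {G : Type} [Group G] (T : Subgroup G) [T.Normal] (x : ℚ)
    (hx : qmk T (Rep.trivial ℚ G ℚ) x = 0) : x = 0 := by
  have h1 : x ∈ Representation.Coinvariants.ker ((Rep.trivial ℚ G ℚ).ρ.comp T.subtype) :=
    (Representation.Coinvariants.mk_eq_zero _).1 hx
  unfold Representation.Coinvariants.ker at h1
  rw [← Submodule.mem_bot ℚ]
  refine (Submodule.span_le.2 ?_ : Submodule.span ℚ _ ≤ (⊥ : Submodule ℚ ℚ)) h1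
  rintro _ ⟨⟨t, y⟩, rfl⟩
  exact sub_self (y : ℚ)

/-- the coinvariants of the trivial module -/
noncomputable def TorQ_lin {G : Type} [Group G] (T : Subgroup G) [T.Normal] :
    ℚ ≃ₗ[ℚ] ((QF ℚ T).obj (Rep.trivial ℚ G ℚ)).V :=
  LinearEquiv.ofBijective (qmk T (Rep.trivial ℚ G ℚ))
    ⟨(injective_iff_map_eq_zero _).2 (TorQ_ker T), qmk_surjective T _⟩

noncomputable def TorQ_iso {G : Type} [Group G] (T : Subgroup G) [T.Normal] :
    Rep.trivial ℚ (G ⧸ T) ℚ ≅ (QF ℚ T).obj (Rep.trivial ℚ G ℚ) :=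
  Rep.mkIso (Representation.Equiv.mk (TorQ_lin T) (by
    intro g
    obtain ⟨g, rfl⟩ := QuotientGroup.mk_surjective g
    rfl))

theorem TorQ_main {G : Type} [Group G] (T : Subgroup G) [T.Normal]
    (hT : T ≤ Subgroup.center G) (ht : ∀ x ∈ T, IsOfFinOrder x) :
    RatTrFin (G ⧸ T) ↔ RatTrFin G := by
  obtain ⟨C, hC⟩ := TorC_main T hT ht
  have key : ∀ n, IsZero (groupCohomology (Rep.trivial ℚ (G ⧸ T) ℚ) n) ↔
      IsZero (groupCohomology (Rep.trivial ℚ G ℚ) n) := by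
    intro n
    rw [ExB_zero, ExB_zero]
    have h1 := QRes_main C (Rep.trivial ℚ G ℚ) (hC _) (Rep.trivial ℚ (G ⧸ T) ℚ) n 1
    simp only [one_smul] at h1
    constructor
    · intro h
      exact h1.2 (TorQ_ext (TorQ_iso T) n h)
    · intro h
      exact TorQ_ext (TorQ_iso T).symm n (h1.1 h)
  constructor
  · rintro ⟨N, hN⟩
    exact ⟨N, fun n hn => (key n).1 (hN n hn)⟩
  · rintro ⟨N, hN⟩
    exact ⟨N, fun n hn => (key n).2 (hN n hn)⟩

end Pool.Agent.H5.CP
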