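import Pool.Agent.H5.CP.CenF
import Pool.Agent.H5.CP.RkC
import Pool.Agent.H5.CP.MainA
import Pool.Agent.H5.CP.TorQ

/-!
ROW CenR (120 lines).  `G` of type FP.  If `RatTrFin (G/D)` for every finitely generated `D ≤ Z(G)`, or if `RatTrFin (G/Z(G))`, then `Z(G)` is finitely generated.
`FPcd_fin ℚ`, `RkC_main`, `CenF_ex` (with `C = Subgroup.center G`, a `CommGroup` after `open scoped IsMulCommutative`) give a finitely generated `C₀` of `Z(G)` with `Z(G)/C₀` torsion; let `D = C₀.map (Subgroup.subtype _)`, a finitely generated subgroup of `G`,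
`D ≤ Z(G)`.  In the second case `T = Z(G).map (mk' D)` is a central torsion subgroup of `G/D`, `(G/D)/T ≃* G/Z(G)`
(`QuotientGroup.quotientQuotientEquivQuotient`), so `RatTrFin (G/D)` by `TorQ_main` and `IsoI_RT`.  In both cases `RatTrFin (G/D)`, hence `BdT (G/D)` (`MainA_bd`): there is `s > 0` with `c^s ∈ D` for all `c ∈ Z(G)`
(the image of `c` in `G/D` has finite order).  `CenF_fg` (`FPcd_tf`) and `Subgroup.fg_iff_...` : `(Subgroup.center G).FG`.
-/

namespace Pool.Agent.H5.CP

open CategoryTheory CategoryTheory.Abelian CategoryTheory.Limits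

open scoped IsMulCommutative in
lemma CenR_base {G : Type} [Group G] (h : IsTypeFP G) :
    ∃ C₀ : Subgroup (Subgroup.center G), C₀.FG ∧
      ∀ x : Subgroup.center G, ∃ s : ℕ, 0 < s ∧ x ^ s ∈ C₀ := by
  obtain ⟨n, hn⟩ := FPcd_fin ℚ h
  refine CenF_ex (C := Subgroup.center G) n ?_
  intro m φ hφ
  exact RkC_main n hn m ((Subgroup.center G).subtype.comp φ)
    ((Subgroup.subtype_injective _).comp hφ)

lemma CenR_map {G : Type} [Group G] (C₀ : Subgroup (Subgroup.center G)) (hC : C₀.FG) :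
    (C₀.map (Subgroup.center G).subtype).FG := by
  obtain ⟨S, hS⟩ := hC
  classical
  refine ⟨S.image (Subgroup.center G).subtype, ?_⟩
  rw [← hS, Finset.coe_image, MonoidHom.map_closure]

lemma CenR_le {G : Type} [Group G] (C₀ : Subgroup (Subgroup.center G)) :
    C₀.map (Subgroup.center G).subtype ≤ Subgroup.center G := by
  rintro _ ⟨y, hy, rfl⟩
  exact y.2

lemma CenR_fin {G : Type} [Group G] (C₀ : Subgroup (Subgroup.center G))
    (hx : ∀ x : Subgroup.center G, ∃ s : ℕ, 0 < s ∧ x ^ s ∈ C₀)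
    [(C₀.map (Subgroup.center G).subtype).Normal] (x : Subgroup.center G) :
    IsOfFinOrder (QuotientGroup.mk (x : G) : G ⧸ C₀.map (Subgroup.center G).subtype) := by
  obtain ⟨m, hm, hxm⟩ := hx x
  rw [isOfFinOrder_iff_pow_eq_one]
  refine ⟨m, hm, ?_⟩
  rw [← QuotientGroup.mk_pow, QuotientGroup.eq_one_iff]
  exact ⟨x ^ m, hxm, rfl⟩

open scoped IsMulCommutative in
lemma CenR_core {G : Type} [Group G] (h : IsTypeFP G)
    (C₀ : Subgroup (Subgroup.center G)) (hC : C₀.FG)
    (hx : ∀ x : Subgroup.center G, ∃ s : ℕ, 0 < s ∧ x ^ s ∈ C₀)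
    [(C₀.map (Subgroup.center G).subtype).Normal]
    (hr : RatTrFin (G ⧸ C₀.map (Subgroup.center G).subtype)) :
    (Subgroup.center G).FG := by
  have hDf : (C₀.map (Subgroup.center G).subtype).FG := CenR_map C₀ hC
  obtain ⟨s, hs, hb⟩ := (MainA_bd h _ (CenR_le C₀) hDf).1 hr
  have key : ∀ x : Subgroup.center G, x ^ s ∈ C₀ := by
    intro x
    have h2 := hb _ (CenR_fin C₀ hx x)
    rw [← QuotientGroup.mk_pow, QuotientGroup.eq_one_iff] at h2
    obtain ⟨y, hy, hyx⟩ := h2
    have h3 : y = x ^ s := Subtype.ext (by simpa using hyx)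
    rwa [← h3]
  have h4 : Group.FG (Subgroup.center G) := by
    refine CenF_fg (C := Subgroup.center G) ?_ C₀ hC s hs key
    intro x hf
    refine Subtype.ext (FPcd_tf h (x : G) ?_)
    exact (isOfFinOrder_iff_pow_eq_one.2 (by
      obtain ⟨m, hm, hxm⟩ := isOfFinOrder_iff_pow_eq_one.1 hf
      exact ⟨m, hm, by simpa using congrArg Subtype.val hxm⟩))
  exact (Group.fg_iff_subgroup_fg _).1 h4

theorem CenR_all {G : Type} [Group G] (h : IsTypeFP G)
    (hr : ∀ (D : Subgroup G) [D.Normal], D ≤ Subgroup.center G → D.FG → RatTrFin (G ⧸ D)) :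
    (Subgroup.center G).FG := by
  obtain ⟨C₀, hC, hx⟩ := CenR_base h
  have hN : (C₀.map (Subgroup.center G).subtype).Normal := normal_of_le_center _ (CenR_le C₀)
  exact CenR_core h C₀ hC hx (hr _ (CenR_le C₀) (CenR_map C₀ hC))

theorem CenR_center {G : Type} [Group G] (h : IsTypeFP G)
    (hr : RatTrFin (G ⧸ Subgroup.center G)) : (Subgroup.center G).FG := by
  obtain ⟨C₀, hC, hx⟩ := CenR_base h
  have hN : (C₀.map (Subgroup.center G).subtype).Normal := normal_of_le_center _ (CenR_le C₀)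
  refine CenR_core h C₀ hC hx ?_
  have hT : (Subgroup.center G).map (QuotientGroup.mk' (C₀.map (Subgroup.center G).subtype)) ≤
      Subgroup.center (G ⧸ C₀.map (Subgroup.center G).subtype) := by
    rintro _ ⟨y, hy, rfl⟩
    rw [Subgroup.mem_center_iff]
    intro g
    induction g using QuotientGroup.induction_on with
    | H g =>
      have h1 := Subgroup.mem_center_iff.1 hy g
      rw [QuotientGroup.mk'_apply, ← QuotientGroup.mk_mul, h1, QuotientGroup.mk_mul]
  have hTN : ((Subgroup.center G).map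
      (QuotientGroup.mk' (C₀.map (Subgroup.center G).subtype))).Normal :=
    normal_of_le_center _ hT
  refine (TorQ_main ((Subgroup.center G).map
    (QuotientGroup.mk' (C₀.map (Subgroup.center G).subtype))) hT ?_).1 ?_
  · rintro _ ⟨y, hy, rfl⟩
    exact CenR_fin C₀ hx ⟨y, hy⟩
  · exact IsoI_RT (QuotientGroup.quotientQuotientEquivQuotient _ _ (CenR_le C₀)) hr

end Pool.Agent.H5.CP
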