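import Mathlib

/-!
# Cls: residue classes outside of `H` which kill much of `S` (averaging)

Induction on `Q` with a general weight `g ≥ 0` on `S`: claim
`∑_{k ∈ S, k ≢ r p ∀ p ∈ Q} g k ≤ ∑_{k ∈ S} g k ∏_{p ∈ Q, k ≢ h mod p ∀ h ∈ H} (1 - 1/p)`.
Step `insert p Q`: by induction (weight `g' k = g k` restricted later, or choose `r p` first): let `R = {r < p : ∀ h ∈ H, ¬ h ≡ r mod p}` (nonempty as `|H| < p`,
at most `p` elements). `∑_{r ∈ R} ∑_{k ∈ T, k ≡ r} g k = ∑_{k ∈ T, k ≢ h ∀ h} g k`, so some `r ∈ R` has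
`∑_{k ∈ T, k ≡ r} g k ≥ (1/p) ∑_{k ∈ T, k ≢ h ∀ h} g k` (`T = ` the part of `S` that survives the classes of `Q`, weight `g k * [survives]`). Precisely: first apply
the averaging at `p` to the weight `g k ∏_{q ∈ Q, ...}(1 - 1/q)` on `S`, get `r p`; then apply the induction hypothesis to `S' = {k ∈ S : k ≢ r p}` and `Q`.
Compare `Avg_class`, `avg` in `Pool/Agent/H7/LG/Avg.lean`.
-/

set_option autoImplicit false

namespace H5CP

open Finset

open scoped Classical in
theorem cls_avg (H : Finset ℕ) (p : ℕ) (hp : p.Prime) (hHp : H.card < p) (S : Finset ℕ) (w : ℕ → ℝ)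
    (hw : ∀ k ∈ S, 0 ≤ w k) :
    ∃ ρ : ℕ, (∀ h ∈ H, ¬ h ≡ ρ [MOD p]) ∧
      (∑ k ∈ S.filter (fun k : ℕ => ∀ h ∈ H, ¬ k ≡ h [MOD p]), w k) / (p : ℝ) ≤
        ∑ k ∈ S.filter (fun k : ℕ => k ≡ ρ [MOD p]), w k := by
  set T : ℝ := ∑ k ∈ S.filter (fun k : ℕ => ∀ h ∈ H, ¬ k ≡ h [MOD p]), w k with hT
  have hT0 : 0 ≤ T := Finset.sum_nonneg fun k hk => hw k (Finset.mem_filter.1 hk).1
  have hp0 : 0 < p := hp.pos
  have hpR : (0 : ℝ) < p := by exact_mod_cast hp0
  set R : Finset ℕ := (Finset.range p).filter (fun r : ℕ => ∀ h ∈ H, ¬ h ≡ r [MOD p]) with hR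
  have hRne : R.Nonempty := by
    by_contra hne
    rw [Finset.not_nonempty_iff_eq_empty] at hne
    have hsub : Finset.range p ⊆ H.image (fun h => h % p) := by
      intro r hr
      by_contra hc
      have : r ∈ R := by
        rw [hR, Finset.mem_filter]
        refine ⟨hr, fun h hh hmod => hc ?_⟩
        rw [Finset.mem_image]
        refine ⟨h, hh, ?_⟩
        have h1 : h % p = r % p := hmod
        rw [h1, Nat.mod_eq_of_lt (Finset.mem_range.1 hr)]
      rw [hne] at this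
      exact absurd this (Finset.notMem_empty r)
    have h2 := Finset.card_le_card hsub
    rw [Finset.card_range] at h2
    exact absurd (h2.trans Finset.card_image_le) (not_le.2 hHp)
  have hRcard : R.card ≤ p := by
    calc R.card ≤ (Finset.range p).card := Finset.card_filter_le _ _
      _ = p := Finset.card_range p
  have hsum : ∑ r ∈ R, ∑ k ∈ S.filter (fun k : ℕ => k ≡ r [MOD p]), w k = T := by
    rw [hT]
    have h3 : ∀ r ∈ R, ∑ k ∈ S.filter (fun k : ℕ => k ≡ r [MOD p]), w k =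
        ∑ k ∈ (S.filter (fun k : ℕ => ∀ h ∈ H, ¬ k ≡ h [MOD p])).filter
          (fun k : ℕ => k % p = r), w k := by
      intro r hr
      rw [hR, Finset.mem_filter, Finset.mem_range] at hr
      refine Finset.sum_congr ?_ fun _ _ => rfl
      ext k
      simp only [Finset.mem_filter]
      constructor
      · rintro ⟨hk, hkr⟩
        refine ⟨⟨hk, fun h hh hkh => hr.2 h hh (hkh.symm.trans hkr)⟩, ?_⟩
        have h4 : k % p = r % p := hkr
        rw [h4, Nat.mod_eq_of_lt hr.1]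
      · rintro ⟨⟨hk, _⟩, hkr⟩
        refine ⟨hk, ?_⟩
        change k % p = r % p
        rw [hkr, Nat.mod_eq_of_lt hr.1]
    rw [Finset.sum_congr rfl h3]
    refine Finset.sum_fiberwise_of_maps_to ?_ _
    intro k hk
    rw [Finset.mem_filter] at hk
    rw [hR, Finset.mem_filter, Finset.mem_range]
    refine ⟨Nat.mod_lt _ hp0, fun h hh hmod => hk.2 h hh ?_⟩
    have h5 : h % p = k % p % p := hmod
    rw [Nat.mod_mod] at h5
    exact h5.symm
  have h6 : ∑ _r ∈ R, T / (p : ℝ) ≤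
      ∑ r ∈ R, ∑ k ∈ S.filter (fun k : ℕ => k ≡ r [MOD p]), w k := by
    rw [hsum, Finset.sum_const, nsmul_eq_mul]
    rw [← mul_div_assoc, div_le_iff₀ hpR]
    rw [mul_comm T]
    exact mul_le_mul_of_nonneg_right (by exact_mod_cast hRcard) hT0
  obtain ⟨ρ, hρ, hle⟩ := Finset.exists_le_of_sum_le hRne h6
  rw [hR, Finset.mem_filter] at hρ
  exact ⟨ρ, hρ.2, hle⟩

open scoped Classical in
theorem cls_g (H Q : Finset ℕ) (hQ : ∀ p ∈ Q, p.Prime ∧ H.card < p) (S : Finset ℕ) (g : ℕ → ℝ) (hg : ∀ k ∈ S, 0 ≤ g k) :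
    ∃ r : ℕ → ℕ, (∀ p ∈ Q, ∀ h ∈ H, ¬ h ≡ r p [MOD p]) ∧
      ∑ k ∈ S.filter (fun k : ℕ => ∀ p ∈ Q, ¬ k ≡ r p [MOD p]), g k ≤
        ∑ k ∈ S, g k * ∏ p ∈ Q.filter (fun p : ℕ => ∀ h ∈ H, ¬ k ≡ h [MOD p]), (1 - 1 / (p : ℝ)) := by
  induction Q using Finset.induction_on generalizing S with
  | empty =>
    refine ⟨fun _ => 0, fun p hp => absurd hp (Finset.notMem_empty p), ?_⟩
    refine le_of_eq ?_
    rw [Finset.filter_true_of_mem (fun k _ p hp => absurd hp (Finset.notMem_empty p))]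
    refine Finset.sum_congr rfl fun k _ => ?_
    rw [Finset.filter_empty, Finset.prod_empty, mul_one]
  | insert p Q hpQ ih =>
    have hp := hQ p (Finset.mem_insert_self p Q)
    have hQ' : ∀ q ∈ Q, q.Prime ∧ H.card < q := fun q hq => hQ q (Finset.mem_insert_of_mem hq)
    have hfac : ∀ q ∈ Q, (0 : ℝ) ≤ 1 - 1 / (q : ℝ) := by
      intro q hq
      have h1 : (1 : ℝ) ≤ q := by exact_mod_cast (hQ' q hq).1.one_lt.le
      have h2 : 1 / (q : ℝ) ≤ 1 := by rw [div_le_one (by linarith)]; exact h1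
      linarith
    let w : ℕ → ℝ := fun k => g k *
      ∏ q ∈ Q.filter (fun q : ℕ => ∀ h ∈ H, ¬ k ≡ h [MOD q]), (1 - 1 / (q : ℝ))
    have hw : ∀ k ∈ S, 0 ≤ w k := fun k hk =>
      mul_nonneg (hg k hk) (Finset.prod_nonneg fun q hq => hfac q (Finset.mem_filter.1 hq).1)
    obtain ⟨ρ, hρ, havg⟩ := cls_avg H p hp.1 hp.2 S w hw
    set S' : Finset ℕ := S.filter (fun k : ℕ => ¬ k ≡ ρ [MOD p]) with hS'
    obtain ⟨r', hr', hsum'⟩ := ih hQ' S' (fun k hk => hg k (Finset.mem_filter.1 hk).1)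
    refine ⟨Function.update r' p ρ, ?_, ?_⟩
    · intro q hq h hh
      rw [Finset.mem_insert] at hq
      rcases hq with rfl | hq
      · rw [Function.update_self]; exact hρ h hh
      · rw [Function.update_of_ne (show q ≠ p from fun h0 => hpQ (h0 ▸ hq))]; exact hr' q hq h hh
    · have h3 : S.filter (fun k : ℕ => ∀ q ∈ insert p Q, ¬ k ≡ Function.update r' p ρ q [MOD q]) =
          S'.filter (fun k : ℕ => ∀ q ∈ Q, ¬ k ≡ r' q [MOD q]) := by
        ext k
        simp only [hS', Finset.mem_filter, Finset.mem_insert]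
        constructor
        · rintro ⟨hk, hall⟩
          refine ⟨⟨hk, ?_⟩, fun q hq => ?_⟩
          · have := hall p (Or.inl rfl)
            rwa [Function.update_self] at this
          · have := hall q (Or.inr hq)
            rwa [Function.update_of_ne (show q ≠ p from fun h0 => hpQ (h0 ▸ hq))] at this
        · rintro ⟨⟨hk, hkρ⟩, hall⟩
          refine ⟨hk, ?_⟩
          rintro q (rfl | hq)
          · rw [Function.update_self]; exact hkρ
          · rw [Function.update_of_ne (show q ≠ p from fun h0 => hpQ (h0 ▸ hq))]; exact hall q hq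
      rw [h3]
      refine hsum'.trans ?_
      change ∑ k ∈ S', w k ≤ _
      have h4 : ∑ k ∈ S', w k = ∑ k ∈ S, w k - ∑ k ∈ S.filter (fun k : ℕ => k ≡ ρ [MOD p]), w k := by
        rw [hS', ← Finset.sum_filter_add_sum_filter_not S (fun k : ℕ => k ≡ ρ [MOD p]) w]
        ring
      have h5 : ∑ k ∈ S, g k * ∏ q ∈ (insert p Q).filter (fun q : ℕ => ∀ h ∈ H, ¬ k ≡ h [MOD q]),
            (1 - 1 / (q : ℝ)) =
          ∑ k ∈ S, w k - (∑ k ∈ S.filter (fun k : ℕ => ∀ h ∈ H, ¬ k ≡ h [MOD p]), w k) / (p : ℝ) := by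
        rw [Finset.sum_filter, Finset.sum_div, ← Finset.sum_sub_distrib]
        refine Finset.sum_congr rfl fun k _ => ?_
        rw [Finset.filter_insert]
        split_ifs with hc
        · rw [Finset.prod_insert (fun h0 => hpQ (Finset.mem_filter.1 h0).1)]
          simp only [w]
          ring
        · simp only [w]
          ring
      rw [h4, h5]
      linarith

open scoped Classical in
theorem cls (H Q : Finset ℕ) (hQ : ∀ p ∈ Q, p.Prime ∧ H.card < p) (S : Finset ℕ) :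
    ∃ r : ℕ → ℕ, (∀ p ∈ Q, ∀ h ∈ H, ¬ h ≡ r p [MOD p]) ∧
      ((S.filter (fun k : ℕ => ∀ p ∈ Q, ¬ k ≡ r p [MOD p])).card : ℝ) ≤
        ∑ k ∈ S, ∏ p ∈ Q.filter (fun p : ℕ => ∀ h ∈ H, ¬ k ≡ h [MOD p]), (1 - 1 / (p : ℝ)) := by
  obtain ⟨r, h1, h2⟩ := cls_g H Q hQ S (fun _ => 1) (fun _ _ => zero_le_one)
  refine ⟨r, h1, ?_⟩
  simpa using h2

end H5CP
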