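import Pool.Agent.H5.CP.DefsCl
import Pool.Agent.H7.LG.Sdc

/-!
# Cnt: the number of elements of `S0 N w0 w z P B`

`k ∈ S0`. (a) some `p ∈ B` divides `k`, or `P > w` and `P ∣ k`: at most `∑_{p ∈ B} N/p + N/w` such `k`.
(b) otherwise all prime factors of `k` lie in `(w0, w] ∪ {P}` (with `P ≤ w`) or are `> z`. If none is `> z`, then `k ∈ sm N w` (`Pool.Agent.H7.LG.sm`).
(c) otherwise `k = q m`, `q > z` prime, `m ≤ N/z < z` (hypothesis `N < z^2`), so all prime factors of `m` lie in `(w0, w] ∪ {P}`: at most `∑_m π(N/m)`, and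
`π(N/m) log z ≤ 4 N/m` (`Pool.Agent.H7.LG.pib`: `π(n) log n ≤ 4 n`; `N/m ≥ z` as naturals: `m ≤ N/z`; see Sdc.lean for the same step with all `m`).
`∑_{m ≤ M, primes in (w0, w] ∪ {P}} 1/m ≤ (1 - 1/P)^(-1) ∏_{w0 < p ≤ M} (1 - 1/p)^(-1) ≤ 2 V(univ, w0)/V(univ, M)`-type bound `≤ 2 c log M/log w0` for `M > w0`
(`Mert` part 3 with `P = {p | w0 < p}` and `w = w0`, `z = M`: `V P w0 = 1`), and `≤ 2` for `M ≤ w0` (only powers of `P`).
A convenient way to bound the sum: every such `m` is `P^a m'` with `m'` composed of primes of `(w0, M]`; `∑_{m' ≤ M} 1/m' ≤ ∏ (1 - 1/p)^(-1)`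
(`Nat.factoredNumbers`/`primesBelow` Euler product in Mathlib, `EulerProduct`, or the library lemma used in H7/LG/Eul.lean, Smo.lean).
-/

set_option autoImplicit false

namespace H5CP

open Finset Pool.Agent.H7.LG

lemma Cnt_sum (s T : Finset ℕ) (hT : ∀ m ∈ T, m ∈ Nat.factoredNumbers s) :
    ∑ m ∈ T, ((m : ℝ))⁻¹ ≤ ∏ p ∈ s with p.Prime, (1 - ((p : ℝ))⁻¹)⁻¹ := by
  have h := EulerProduct.summable_and_hasSum_factoredNumbers_prod_filter_prime_geometric
    (f := Pool.Agent.H93.DC.pw 1) (fun {p} hp => Pool.Agent.H93.DC.pw_prime_lt one_pos hp) s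
  have hpw : ∀ m : ℕ, Pool.Agent.H93.DC.pw 1 m = ((m : ℝ))⁻¹ := fun m => by
    rw [Pool.Agent.H93.DC.pw_apply, Real.rpow_neg_one]
  have h1 := sum_le_hasSum (T.subtype (fun m => m ∈ Nat.factoredNumbers s))
    (fun i _ => Pool.Agent.H93.DC.pw_nonneg 1 i) h.2
  have h2 : ∑ i ∈ T.subtype (fun m => m ∈ Nat.factoredNumbers s), Pool.Agent.H93.DC.pw 1 (i : ℕ) =
      ∑ m ∈ T, ((m : ℝ))⁻¹ := by
    rw [Finset.sum_subtype_of_mem (fun m => Pool.Agent.H93.DC.pw 1 m) hT]
    exact Finset.sum_congr rfl fun m _ => hpw m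
  rw [h2] at h1
  refine h1.trans (le_of_eq ?_)
  exact Finset.prod_congr rfl fun p _ => by rw [hpw]

lemma Cnt_prs (Q : Set ℕ) (M p : ℕ) :
    p ∈ Pool.Agent.H67.GT.prs Q M ↔ (1 ≤ p ∧ p ≤ M) ∧ p.Prime ∧ p ∈ Q := by
  classical
  unfold Pool.Agent.H67.GT.prs
  rw [Finset.mem_filter, Finset.mem_Icc]

/-- the reciprocal sum over the cofactors -/
theorem cnt_m : ∃ C : ℝ, 1 ≤ C ∧ ∀ (M w0 P : ℕ), 2 ≤ w0 → (P = 0 ∨ P.Prime) → ∀ T : Finset ℕ,
    (∀ m ∈ T, 1 ≤ m ∧ m ≤ M ∧ ∀ p : ℕ, p.Prime → p ∣ m → w0 < p ∨ p = P) →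
    ∑ m ∈ T, ((m : ℝ))⁻¹ ≤ C * (1 + Real.log M / Real.log w0) := by
  obtain ⟨c, hc, _, _, h3, _⟩ := Pool.Agent.H67.GT.MERT.mert
  refine ⟨2 * c, by linarith, ?_⟩
  intro M w0 P hw0 hP T hT
  classical
  set A : Finset ℕ := Pool.Agent.H67.GT.prs {p | w0 < p} M with hA
  have memA : ∀ p : ℕ, p ∈ A ↔ (1 ≤ p ∧ p ≤ M) ∧ p.Prime ∧ w0 < p := by
    intro p
    rw [hA, Cnt_prs]
    exact Iff.rfl
  have hVdef : Pool.Agent.H67.GT.V {p | w0 < p} M = ∏ p ∈ A, (1 - 1 / (p : ℝ)) := rfl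
  have hfac : ∀ p : ℕ, p.Prime → (0 : ℝ) < 1 - 1 / (p : ℝ) := by
    intro p hp
    have h := Pool.Agent.H93.DC.one_sub_inv_pos hp
    rwa [← one_div] at h
  have hV0 : 0 < Pool.Agent.H67.GT.V {p | w0 < p} M := by
    rw [hVdef]
    exact Finset.prod_pos fun p hp => hfac p ((memA p).1 hp).2.1
  have hlw : 0 < Real.log w0 := Real.log_pos (by exact_mod_cast hw0)
  have hlM : 0 ≤ Real.log M := Real.log_natCast_nonneg M
  have hinv : (Pool.Agent.H67.GT.V {p | w0 < p} M)⁻¹ ≤ c * (1 + Real.log M / Real.log w0) := by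
    rcases le_or_gt M w0 with hM | hM
    · have hA0 : A = ∅ := by
        rw [Finset.eq_empty_iff_forall_notMem]
        intro p hp
        have := (memA p).1 hp
        omega
      rw [hVdef, hA0, Finset.prod_empty, inv_one]
      have : 0 ≤ Real.log M / Real.log w0 := by positivity
      nlinarith
    · have h := h3 {p | w0 < p} w0 M hw0 hM.le
      have hV1 : Pool.Agent.H67.GT.V {p | w0 < p} w0 = 1 := by
        unfold Pool.Agent.H67.GT.V
        have : Pool.Agent.H67.GT.prs {p | w0 < p} w0 = ∅ := by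
          rw [Finset.eq_empty_iff_forall_notMem]
          intro p hp
          rw [Cnt_prs] at hp
          have hp2 : w0 < p := hp.2.2
          omega
        rw [this, Finset.prod_empty]
      rw [hV1] at h
      have h5 : (Pool.Agent.H67.GT.V {p | w0 < p} M)⁻¹ ≤ c * (Real.log M / Real.log w0) := by
        rw [inv_le_iff_one_le_mul₀ hV0]
        exact h
      linarith
  have hVinv : ∏ p ∈ A, (1 - ((p : ℝ))⁻¹)⁻¹ = (Pool.Agent.H67.GT.V {p | w0 < p} M)⁻¹ := by
    rw [hVdef, ← Finset.prod_inv_distrib]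
    exact Finset.prod_congr rfl fun p _ => by rw [one_div]
  have hAp : A.filter Nat.Prime = A := Finset.filter_true_of_mem fun p hp => ((memA p).1 hp).2.1
  have hVi0 : 0 < (Pool.Agent.H67.GT.V {p | w0 < p} M)⁻¹ := inv_pos.2 hV0
  have h6 : ∑ m ∈ T, ((m : ℝ))⁻¹ ≤ 2 * (Pool.Agent.H67.GT.V {p | w0 < p} M)⁻¹ := by
    have h7 := Cnt_sum (insert P A) T (fun m hm => by
      obtain ⟨h1, h2, h3⟩ := hT m hm
      rw [Nat.mem_factoredNumbers_iff_forall_le]
      refine ⟨by omega, fun p hp hpp hd => ?_⟩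
      rw [Finset.mem_insert, memA]
      rcases h3 p hpp hd with h | h
      · right
        exact ⟨⟨hpp.one_lt.le, hp.trans h2⟩, hpp, h⟩
      · left
        exact h)
    refine h7.trans ?_
    rw [Finset.filter_insert, hAp]
    split_ifs with hPp
    · by_cases hPA : P ∈ A
      · rw [Finset.insert_eq_of_mem hPA, hVinv]
        linarith
      · rw [Finset.prod_insert hPA, hVinv]
        refine mul_le_mul_of_nonneg_right ?_ hVi0.le
        have h8 := Pool.Agent.H93.DC.one_sub_inv_pos hPp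
        rw [inv_le_iff_one_le_mul₀ h8]
        have h9 : ((P : ℝ))⁻¹ ≤ 1 / 2 := by
          rw [inv_le_comm₀ (by exact_mod_cast hPp.pos) (by norm_num)]
          norm_num
          exact_mod_cast hPp.two_le
        linarith
    · rw [hVinv]
      linarith
  refine h6.trans ?_
  have := mul_le_mul_of_nonneg_left hinv (by norm_num : (0 : ℝ) ≤ 2)
  linarith

lemma Cnt_mul (N p : ℕ) : (((Icc 1 N).filter (fun k => p ∣ k)).card : ℝ) ≤ N * (1 / (p : ℝ)) := by
  have h : (Icc 1 N).filter (fun k => p ∣ k) = (Ioc 0 N).filter (fun k => p ∣ k) := by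
    ext k
    simp only [Finset.mem_filter, Finset.mem_Icc, Finset.mem_Ioc]
    constructor
    · rintro ⟨⟨h1, h2⟩, h3⟩
      exact ⟨⟨by omega, h2⟩, h3⟩
    · rintro ⟨⟨h1, h2⟩, h3⟩
      exact ⟨⟨by omega, h2⟩, h3⟩
  rw [h, Nat.Ioc_filter_dvd_card_eq_div]
  refine Nat.cast_div_le.trans (le_of_eq ?_)
  ring

open Classical in
lemma Cnt_cover (N w0 w z P : ℕ) (B : Finset ℕ) (hw0 : 2 ≤ w0) (hww : w0 ≤ w) (hwz : w ≤ z) (hN : N < z ^ 2) :
    S0 N w0 w z P B ⊆ (sm N w ∪ B.biUnion (fun p => (Icc 1 N).filter (fun k => p ∣ k))) ∪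
      ((if w < P then (Icc 1 N).filter (fun k => P ∣ k) else ∅) ∪
        ((Icc 1 (N / z)).filter (fun m => ∀ p : ℕ, p.Prime → p ∣ m → w0 < p ∨ p = P)).biUnion
          (fun s => (Nat.primesLE (N / s)).image (fun p => p * s))) := by
  intro k hk
  rw [mem_S0] at hk
  obtain ⟨⟨h1, h2⟩, h3⟩ := hk
  rw [Finset.mem_union, Finset.mem_union, Finset.mem_union]
  by_cases hB : ∃ p ∈ B, p ∣ k
  · obtain ⟨p, hp, hd⟩ := hB
    left
    right
    rw [Finset.mem_biUnion]
    exact ⟨p, hp, by rw [Finset.mem_filter, Finset.mem_Icc]; exact ⟨⟨h1, h2⟩, hd⟩⟩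
  by_cases hP : w < P ∧ P ∣ k
  · right
    left
    rw [if_pos hP.1, Finset.mem_filter, Finset.mem_Icc]
    exact ⟨⟨h1, h2⟩, hP.2⟩
  by_cases hs : ∀ p : ℕ, p.Prime → p ∣ k → p ≤ w
  · left
    left
    exact mem_sm.2 ⟨⟨h1, h2⟩, hs⟩
  · right
    right
    push Not at hs hB
    obtain ⟨q, hq, hdq, hw⟩ := hs
    have hzq : z < q := by
      rcases h3 q hq hdq with h | h | h | h
      · omega
      · exact h
      · exact absurd ⟨by omega, h ▸ hdq⟩ hP
      · exact absurd hdq (hB q h)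
    obtain ⟨s, rfl⟩ := hdq
    have hs1 : 1 ≤ s := by
      rcases Nat.eq_zero_or_pos s with h | h
      · rw [h] at h1
        omega
      · exact h
    have hsz : s ≤ N / z := by
      rw [Nat.le_div_iff_mul_le (by omega)]
      calc s * z ≤ s * q := Nat.mul_le_mul_left _ hzq.le
        _ = q * s := Nat.mul_comm _ _
        _ ≤ N := h2
    have hsz' : s < z := by
      refine lt_of_le_of_lt hsz ?_
      rw [Nat.div_lt_iff_lt_mul (by omega)]
      calc N < z ^ 2 := hN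
        _ = z * z := by ring
    rw [Finset.mem_biUnion]
    refine ⟨s, ?_, ?_⟩
    · rw [Finset.mem_filter, Finset.mem_Icc]
      refine ⟨⟨hs1, hsz⟩, fun p hp hd => ?_⟩
      have hple : p ≤ s := Nat.le_of_dvd (by omega) hd
      rcases h3 p hp (hd.trans (Nat.dvd_mul_left s q)) with h | h | h | h
      · exact Or.inl h.1
      · omega
      · exact Or.inr h
      · exact absurd (hd.trans (Nat.dvd_mul_left s q)) (hB p h)
    · rw [Finset.mem_image]
      refine ⟨q, ?_, rfl⟩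
      rw [Nat.mem_primesLE]
      exact ⟨(Nat.le_div_iff_mul_le (by omega)).2 h2, hq⟩

theorem cnt : ∃ C : ℝ, 1 ≤ C ∧ ∀ (N w0 w z P : ℕ) (B : Finset ℕ), 2 ≤ w0 → w0 ≤ w → w ≤ z → z ≤ N → N < z ^ 2 →
    (P = 0 ∨ P.Prime) →
    ((S0 N w0 w z P B).card : ℝ) * Real.log z ≤
      ((sm N w).card : ℝ) * Real.log z + (∑ p ∈ B, (1 : ℝ) / p + 1 / w) * N * Real.log z +
        C * N * (1 + Real.log ((N : ℝ) / z) / Real.log w0) := by
  obtain ⟨C0, hC0, hm⟩ := cnt_m
  refine ⟨4 * C0, by linarith, ?_⟩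
  intro N w0 w z P B hw0 hww hwz hzN hN hP
  classical
  have hlz : 0 ≤ Real.log z := Real.log_natCast_nonneg z
  have hz0 : (0 : ℝ) < z := by exact_mod_cast (by omega : 0 < z)
  have hN0 : (0 : ℝ) ≤ N := Nat.cast_nonneg _
  have hw00 : (0 : ℝ) < w := by exact_mod_cast (by omega : 0 < w)
  have hlw : 0 < Real.log w0 := Real.log_pos (by exact_mod_cast hw0)
  set T : Finset ℕ := (Icc 1 (N / z)).filter (fun m => ∀ p : ℕ, p.Prime → p ∣ m → w0 < p ∨ p = P) with hT
  have h1 : ((S0 N w0 w z P B).card : ℝ) ≤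
      ((sm N w).card + ∑ p ∈ B, N * (1 / (p : ℝ))) + (N * (1 / w) + ∑ s ∈ T, (Nat.primeCounting (N / s) : ℝ)) := by
    have e1 := (Finset.card_le_card (Cnt_cover N w0 w z P B hw0 hww hwz hN)).trans
      ((Finset.card_union_le _ _).trans (Nat.add_le_add (Finset.card_union_le _ _) (Finset.card_union_le _ _)))
    have e2 : ((S0 N w0 w z P B).card : ℝ) ≤ (((sm N w).card : ℝ) +
        ((B.biUnion (fun p => (Icc 1 N).filter (fun k => p ∣ k))).card : ℝ)) +
        (((if w < P then (Icc 1 N).filter (fun k => P ∣ k) else ∅ : Finset ℕ).card : ℝ) +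
        ((T.biUnion (fun s => (Nat.primesLE (N / s)).image (fun p => p * s))).card : ℝ)) := by
      exact_mod_cast e1
    refine e2.trans (add_le_add (add_le_add le_rfl ?_) (add_le_add ?_ ?_))
    · have e3 : ((B.biUnion (fun p => (Icc 1 N).filter (fun k => p ∣ k))).card : ℝ) ≤
          ∑ p ∈ B, (((Icc 1 N).filter (fun k => p ∣ k)).card : ℝ) := by
        exact_mod_cast Finset.card_biUnion_le
      exact e3.trans (Finset.sum_le_sum fun p _ => Cnt_mul N p)
    · split_ifs with h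
      · refine (Cnt_mul N P).trans (mul_le_mul_of_nonneg_left ?_ hN0)
        exact one_div_le_one_div_of_le hw00 (by exact_mod_cast h.le)
      · rw [Finset.card_empty, Nat.cast_zero]
        positivity
    · have e4 : ((T.biUnion (fun s => (Nat.primesLE (N / s)).image (fun p => p * s))).card : ℝ) ≤
          ∑ s ∈ T, (((Nat.primesLE (N / s)).image (fun p => p * s)).card : ℝ) := by
        exact_mod_cast Finset.card_biUnion_le
      refine e4.trans (Finset.sum_le_sum fun s _ => ?_)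
      have e5 : ((Nat.primesLE (N / s)).image (fun p => p * s)).card ≤ Nat.primeCounting (N / s) := by
        refine Finset.card_image_le.trans ?_
        rw [Nat.primesLE_card_eq_primeCounting]
      exact_mod_cast e5
  have h2 : ∀ s ∈ T, (Nat.primeCounting (N / s) : ℝ) * Real.log z ≤ 4 * N * ((s : ℝ))⁻¹ := by
    intro s hs
    rw [hT, Finset.mem_filter, Finset.mem_Icc] at hs
    have hsz : z ≤ N / s := by
      rw [Nat.le_div_iff_mul_le (by omega), Nat.mul_comm]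
      exact (Nat.le_div_iff_mul_le (by omega)).1 hs.1.2
    have h3 : Real.log z ≤ Real.log ((N / s : ℕ) : ℝ) :=
      Real.log_le_log hz0 (by exact_mod_cast hsz)
    have h4 : ((N / s : ℕ) : ℝ) ≤ (N : ℝ) / s := Nat.cast_div_le
    calc (Nat.primeCounting (N / s) : ℝ) * Real.log z
        ≤ (Nat.primeCounting (N / s) : ℝ) * Real.log ((N / s : ℕ) : ℝ) :=
          mul_le_mul_of_nonneg_left h3 (Nat.cast_nonneg _)
      _ ≤ 4 * ((N / s : ℕ) : ℝ) := pib (N / s)
      _ ≤ 4 * ((N : ℝ) / s) := by linarith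
      _ = 4 * N * ((s : ℝ))⁻¹ := by rw [div_eq_mul_inv]; ring
  have h5 : ∑ s ∈ T, ((s : ℝ))⁻¹ ≤ C0 * (1 + Real.log ((N : ℝ) / z) / Real.log w0) := by
    have h6 := hm (N / z) w0 P hw0 hP T (fun m hm => by
      rw [hT, Finset.mem_filter, Finset.mem_Icc] at hm
      exact ⟨hm.1.1, hm.1.2, hm.2⟩)
    refine h6.trans (mul_le_mul_of_nonneg_left ?_ (by linarith))
    have h7 : (1 : ℝ) ≤ ((N / z : ℕ) : ℝ) := by
      exact_mod_cast (Nat.one_le_div_iff (by omega)).2 hzN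
    have h8 : ((N / z : ℕ) : ℝ) ≤ (N : ℝ) / z := Nat.cast_div_le
    have h9 := Real.log_le_log (by linarith) h8
    have h10 := div_le_div_of_nonneg_right h9 hlw.le
    linarith
  calc ((S0 N w0 w z P B).card : ℝ) * Real.log z
      ≤ (((sm N w).card + ∑ p ∈ B, N * (1 / (p : ℝ))) + (N * (1 / w) + ∑ s ∈ T, (Nat.primeCounting (N / s) : ℝ))) *
          Real.log z := mul_le_mul_of_nonneg_right h1 hlz
    _ = ((sm N w).card : ℝ) * Real.log z + (∑ p ∈ B, (1 : ℝ) / p + 1 / w) * N * Real.log z +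
          ∑ s ∈ T, (Nat.primeCounting (N / s) : ℝ) * Real.log z := by
        rw [← Finset.mul_sum, ← Finset.sum_mul]
        ring
    _ ≤ ((sm N w).card : ℝ) * Real.log z + (∑ p ∈ B, (1 : ℝ) / p + 1 / w) * N * Real.log z +
          ∑ s ∈ T, 4 * N * ((s : ℝ))⁻¹ := by
        have := Finset.sum_le_sum h2
        linarith
    _ = ((sm N w).card : ℝ) * Real.log z + (∑ p ∈ B, (1 : ℝ) / p + 1 / w) * N * Real.log z +
          4 * N * ∑ s ∈ T, ((s : ℝ))⁻¹ := by
        rw [Finset.mul_sum]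
    _ ≤ _ := by
        have := mul_le_mul_of_nonneg_left h5 (by linarith : (0 : ℝ) ≤ 4 * N)
        linarith

end H5CP
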