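import Pool.Agent.H5.CP.Defs

/-!
ROW CocA (60 lines).  The cochain criterion for the vanishing of group cohomology in positive degree.
`groupCohomology A (n+1)` is the homology of `groupCohomology.inhomogeneousCochains A` in degree
`n+1` (Mathlib.RepresentationTheory.Homological.GroupCohomology.Basic); the differential is
`groupCohomology.inhomogeneousCochains.d_def` / `inhomogeneousCochains.d`, whose formula is that of `dd`
(Defs) except that the signs live in `k`: `(-1 : k)^m • x = (-1 : ℤ)^m • x`.
Hint: homology of a complex of modules vanishes iff exact iff kernel = range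
(`HomologicalComplex.exactAt_iff_isZero_homology`, `ShortComplex.moduleCat_exact_iff`), or work with
`groupCohomology_induction_on` and `groupCohomology.cocyclesMk`.
-/

namespace Pool.Agent.H5.CP

open CategoryTheory CategoryTheory.Abelian CategoryTheory.Limits

lemma CocA_dd {k G : Type} [CommRing k] [Group G] (A : Rep.{0} k G) (n : ℕ)
    (f : (Fin n → G) → A) : inhomogeneousCochains.d A n f = dd A n f := by
  funext g
  have h := inhomogeneousCochains.d_hom_apply A n f g
  refine h.trans ?_
  unfold dd
  congr 1
  refine Finset.sum_congr rfl ?_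
  intro j _
  rcases Nat.even_or_odd ((j : ℕ) + 1) with h1 | h1
  · rw [h1.neg_one_pow, h1.neg_one_pow, one_smul, one_smul]
  · rw [h1.neg_one_pow, h1.neg_one_pow, neg_smul, neg_smul, one_smul, one_smul]

theorem CocA_iff {k G : Type} [CommRing k] [Group G] (A : Rep.{0} k G) (n : ℕ) :
    IsZero (groupCohomology A (n + 1)) ↔
      ∀ f : (Fin (n + 1) → G) → A, dd A (n + 1) f = 0 → ∃ g : (Fin n → G) → A, dd A n g = f := by
  have h0 : IsZero (groupCohomology A (n + 1)) ↔
      ((groupCohomology.inhomogeneousCochains A).sc' n (n + 1) (n + 2)).Exact := by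
    rw [← HomologicalComplex.exactAt_iff' _ n (n + 1) (n + 2) (by simp) (by simp),
      HomologicalComplex.exactAt_iff_isZero_homology]
    rfl
  rw [h0, ShortComplex.moduleCat_exact_iff]
  have e1 : (groupCohomology.inhomogeneousCochains A).d n (n + 1) =
      inhomogeneousCochains.d A n := groupCohomology.inhomogeneousCochains.d_def A n
  have e2 : (groupCohomology.inhomogeneousCochains A).d (n + 1) (n + 2) =
      inhomogeneousCochains.d A (n + 1) := groupCohomology.inhomogeneousCochains.d_def A (n + 1)
  constructor
  · intro h f hf
    obtain ⟨g, hg⟩ := h f (by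
      show ((groupCohomology.inhomogeneousCochains A).d (n + 1) (n + 2)) f = 0
      rw [e2]
      exact (CocA_dd A (n + 1) f).trans hf)
    refine ⟨g, ?_⟩
    have hg' : ((groupCohomology.inhomogeneousCochains A).d n (n + 1)) g = f := hg
    rw [e1] at hg'
    exact (CocA_dd A n g).symm.trans hg'
  · intro h f hf
    have hf' : ((groupCohomology.inhomogeneousCochains A).d (n + 1) (n + 2)) f = 0 := hf
    rw [e2] at hf'
    obtain ⟨g, hg⟩ := h f ((CocA_dd A (n + 1) f).symm.trans hf')
    refine ⟨g, ?_⟩
    show ((groupCohomology.inhomogeneousCochains A).d n (n + 1)) g = f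
    rw [e1]
    exact (CocA_dd A n g).trans hg

end Pool.Agent.H5.CP
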