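import Pool.Agent.H5.CP.DefsCl

/-!
# CrW: the residue class of the modulus (Chinese remainder theorem)

`b ≡ - r p (mod p)` for all `p ∈ PP z P B` (compare `Pool/Agent/H7/LG/Crt.lean`); `p ∣ WW` for `p ∈ PP`, so `p ∣ WW t + b + k ↔ k ≡ r p`.
-/

set_option autoImplicit false

namespace H5CP

open Finset

lemma prime_of_mem_PP {z P p : ℕ} {B : Finset ℕ} (hp : p ∈ PP z P B) : p.Prime :=
  (mem_PP.1 hp).2.1

theorem WW_pos (z P : ℕ) (B : Finset ℕ) : 0 < WW z P B :=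
  Finset.prod_pos fun _ hp => (prime_of_mem_PP hp).pos

lemma dvd_WW_of_mem {z P p : ℕ} {B : Finset ℕ} (hp : p ∈ PP z P B) : p ∣ WW z P B :=
  Finset.dvd_prod_of_mem (fun q : ℕ => q) hp

theorem crW (r : ℕ → ℕ) (z P : ℕ) (B : Finset ℕ) : ∃ b : ℕ, b < WW z P B ∧
    ∀ p ∈ PP z P B, ∀ t k : ℕ, (p ∣ WW z P B * t + b + k ↔ k ≡ r p [MOD p]) := by
  obtain ⟨k, hk⟩ := Nat.chineseRemainderOfFinset (fun p : ℕ => p - r p % p) (fun p : ℕ => p)
    (PP z P B)
    (by
      intro p hp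
      exact (prime_of_mem_PP hp).ne_zero)
    (by
      intro p hp q hq hpq
      exact (Nat.coprime_primes (prime_of_mem_PP hp) (prime_of_mem_PP hq)).2 hpq)
  refine ⟨k % WW z P B, Nat.mod_lt _ (WW_pos z P B), fun p hpm m j => ?_⟩
  have hp := prime_of_mem_PP hpm
  have hpP : p ∣ WW z P B := dvd_WW_of_mem hpm
  have h1 : k % WW z P B ≡ p - r p % p [MOD p] :=
    ((Nat.mod_modEq k (WW z P B)).of_dvd hpP).trans (hk p hpm)
  have hlt : r p % p < p := Nat.mod_lt _ hp.pos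
  have h3 : k % WW z P B + r p ≡ 0 [MOD p] := by
    calc k % WW z P B + r p ≡ (p - r p % p) + r p % p [MOD p] :=
          h1.add (Nat.mod_modEq (r p) p).symm
      _ = p := Nat.sub_add_cancel hlt.le
      _ ≡ 0 [MOD p] := by
          rw [Nat.modEq_zero_iff_dvd]
  have h4 : WW z P B * m + k % WW z P B + j ≡ k % WW z P B + j [MOD p] := by
    have h5 : WW z P B * m ≡ 0 [MOD p] := (Nat.modEq_zero_iff_dvd).2 (Dvd.dvd.mul_right hpP m)
    calc WW z P B * m + k % WW z P B + j ≡ 0 + k % WW z P B + j [MOD p] :=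
          (h5.add (Nat.ModEq.refl _)).add (Nat.ModEq.refl j)
      _ = k % WW z P B + j := by rw [zero_add]
  rw [← Nat.modEq_zero_iff_dvd]
  constructor
  · intro h
    have h6 : k % WW z P B + j ≡ k % WW z P B + r p [MOD p] :=
      (h4.symm.trans h).trans h3.symm
    exact Nat.ModEq.add_left_cancel' _ h6
  · intro h
    exact h4.trans (((Nat.ModEq.refl _).add h).trans h3)

theorem WW_dvd_primorial (z P : ℕ) (B : Finset ℕ) : WW z P B ∣ primorial z := by
  unfold WW primorial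
  apply Finset.prod_dvd_prod_of_subset
  intro p hp
  have h := mem_PP.1 hp
  rw [Finset.mem_filter, Finset.mem_range]
  exact ⟨by omega, h.2.1⟩

theorem WW_le (z P : ℕ) (B : Finset ℕ) : WW z P B ≤ 4 ^ z :=
  (Nat.le_of_dvd (primorial_pos z) (WW_dvd_primorial z P B)).trans (primorial_le_four_pow z)

theorem WW_sqf (z P : ℕ) (B : Finset ℕ) : Squarefree (WW z P B) := by
  unfold WW
  refine Finset.squarefree_prod_of_pairwise_isCoprime (fun p hp q hq hpq ↦ ?_)
    fun p hp ↦ (prime_of_mem_PP hp).squarefree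
  change IsRelPrime p q
  rw [← Nat.coprime_iff_isRelPrime]
  exact (Nat.coprime_primes (prime_of_mem_PP hp) (prime_of_mem_PP hq)).mpr hpq

/-- a prime divides `WW` iff it is in `PP` -/
theorem dvd_WW {z P p : ℕ} {B : Finset ℕ} (hp : p.Prime) : p ∣ WW z P B ↔ p ∈ PP z P B := by
  constructor
  · intro h
    obtain ⟨q, hq, hpq⟩ := (Prime.dvd_finsetProd_iff hp.prime _).1 h
    rw [(Nat.prime_dvd_prime_iff_eq hp (prime_of_mem_PP hq)).1 hpq]
    exact hq
  · exact dvd_WW_of_mem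

/-- survivors: coprime to the modulus -/
theorem coprime_iff {r : ℕ → ℕ} {z P b : ℕ} {B : Finset ℕ}
    (hb : ∀ p ∈ PP z P B, ∀ t k : ℕ, (p ∣ WW z P B * t + b + k ↔ k ≡ r p [MOD p])) (k : ℕ) :
    Nat.Coprime (b + k) (WW z P B) ↔ ∀ p ∈ PP z P B, ¬ k ≡ r p [MOD p] := by
  have hb' : ∀ p ∈ PP z P B, (p ∣ b + k ↔ k ≡ r p [MOD p]) := by
    intro p hp
    have := hb p hp 0 k
    rwa [mul_zero, zero_add] at this
  constructor
  · intro h p hp hk
    have h1 : p ∣ b + k := (hb' p hp).2 hk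
    exact Nat.Prime.not_dvd_one (prime_of_mem_PP hp)
      (h ▸ Nat.dvd_gcd h1 (dvd_WW_of_mem hp))
  · intro h
    rw [Nat.coprime_iff_gcd_eq_one]
    by_contra hne
    obtain ⟨p, hp, hpd⟩ := Nat.exists_prime_and_dvd hne
    have h1 : p ∣ b + k := hpd.trans (Nat.gcd_dvd_left _ _)
    have h2 : p ∣ WW z P B := hpd.trans (Nat.gcd_dvd_right _ _)
    have h3 := (dvd_WW hp).1 h2
    exact h p h3 ((hb' p h3).1 h1)

end H5CP
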