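import Pool.Agent.H5.CP.EDef

/-!
ROW CupB (200 lines).  Cup products in the bar resolution.  `Rep.barComplex.d ℤ G n : Rep.free ℤ G (Fin (n+1) → G) ⟶ Rep.free ℤ G (Fin n → G)` with formula `Rep.barComplex.d_single`; morphisms out of a free module: `Rep.freeLift`, `Rep.free_ext`.
`barε` is the augmentation `[ ] ↦ 1`.  For a cocycle `f : P₂ → ℤ` put `c(g,h) = f([g|h])` (`f.hom (single ![g,h] (single 1 1))`); `d₃ ≫ f = 0` means
 (C) `c(h,k) - c(gh,k) + c(g,hk) - c(g,h) = 0` (trivial action).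
`l_n : P_{n+2} → P_n`, `[g₁|…|g_{n+2}] ↦ c(g_{n+1},g_{n+2}) [g₁|…|g_n]`, n = 0,1,2.  `l₀ ≫ ε = f`.  `d ≫ l_n = l_{n+1} ≫ d`: for `n = 0`: on `[g₁|g₂|g₃]`: `d₃ = g₁[g₂|g₃] - [g₁g₂|g₃] + [g₁|g₂g₃] - [g₁|g₂]` maps to
 `c(g₂,g₃) g₁[ ] - c(g₁g₂,g₃)[ ] + c(g₁,g₂g₃)[ ] - c(g₁,g₂)[ ] = c(g₂,g₃)(g₁[ ] - [ ])` by (C) `= d(c(g₂,g₃)[g₁])`.  `n = 1`: on `[g₁|g₂|g₃|g₄]`: `c(g₃,g₄)(g₁[g₂] - [g₁g₂]) + c(g₂g₃,g₄)[g₁] - c(g₂,g₃g₄)[g₁] + c(g₂,g₃)[g₁]
 = c(g₃,g₄)(g₁[g₂] - [g₁g₂] + [g₁])`.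
With `d(g,h)` the cocycle of `g : P₂ → ℤ`: `(l₂ ≫ g)([g₁|..|g₄]) = c(g₃,g₄) d(g₁,g₂)`, `(m₂ ≫ f)(..) = d(g₃,g₄) c(g₁,g₂)`; `u([x|y|z]) = d(x,yz) c(y,z) - d(xy,z) c(x,y)` (cup-1 product) satisfies
 `c(g₃,g₄)d(g₁,g₂) - d(g₃,g₄)c(g₁,g₂) = u(g₂,g₃,g₄) - u(g₁g₂,g₃,g₄) + u(g₁,g₂g₃,g₄) - u(g₁,g₂,g₃g₄) + u(g₁,g₂,g₃)` (checked by computer): use the cocycle identities of `c` and `d` at `(g₁,g₂,g₃)`, `(g₁,g₂,g₃g₄)`, `(g₁,g₂g₃,g₄)`, `(g₁g₂,g₃,g₄)`, `(g₂,g₃,g₄)` multiplied by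
 suitable values (`linear_combination`, or substitute; associativity of `G`).
-/

namespace Pool.Agent.H5.CP

open CategoryTheory CategoryTheory.Abelian CategoryTheory.Limits

/-- the augmentation of the bar resolution -/
noncomputable def barε (G : Type) [Group G] : Rep.free ℤ G (Fin 0 → G) ⟶ tz G :=
  Rep.freeLift ℤ G (A := tz G) (fun _ => (1 : ℤ))

/-- basis element `g [v]` -/
noncomputable def CupB_e {G : Type} [Group G] {n : ℕ} (v : Fin n → G) (g : G) :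
    (Rep.free ℤ G (Fin n → G)).V :=
  (Finsupp.single v (MonoidAlgebra.single g (1 : ℤ)) : (Fin n → G) →₀ MonoidAlgebra ℤ G)

theorem CupB_single {G : Type} [Group G] {n : ℕ} (v : Fin n → G) (g : G) (r : ℤ) :
    (Finsupp.single v (MonoidAlgebra.single g r) : (Fin n → G) →₀ MonoidAlgebra ℤ G)
      = r • CupB_e v g := by
  have h : (r • (Finsupp.single v (MonoidAlgebra.single g (1 : ℤ))) :
      (Fin n → G) →₀ MonoidAlgebra ℤ G) = Finsupp.single v (MonoidAlgebra.single g r) := by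
    rw [Finsupp.smul_single, MonoidAlgebra.smul_single, smul_eq_mul, mul_one]
  exact h.symm

theorem CupB_liftk {k G : Type} [CommRing k] [Group G] {n : ℕ} (A : Rep.{0} k G)
    (φ : (Fin n → G) → A.V) (v : Fin n → G) (g : G) :
    (Rep.freeLift k G (A := A) φ).hom
      ((Finsupp.single v (MonoidAlgebra.single g (1 : k)) : (Fin n → G) →₀ MonoidAlgebra k G))
      = A.ρ g (φ v) :=
  (Representation.freeLift_single_single A.ρ v g 1 φ).trans (one_smul _ _)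

theorem CupB_lift {G : Type} [Group G] {n : ℕ} (A : Rep.{0} ℤ G) (φ : (Fin n → G) → A.V)
    (v : Fin n → G) (g : G) :
    (Rep.freeLift ℤ G (A := A) φ).hom (CupB_e v g) = A.ρ g (φ v) :=
  CupB_liftk A φ v g

theorem CupB_ext {G : Type} [Group G] {n : ℕ} (A : Rep.{0} ℤ G)
    (f g : Rep.free ℤ G (Fin n → G) ⟶ A)
    (h : ∀ v : Fin n → G, f.hom (CupB_e v 1) = g.hom (CupB_e v 1)) : f = g :=
  Rep.free_ext ℤ G _ _ _ h

theorem CupB_act {G : Type} [Group G] {n : ℕ} (A : Rep.{0} ℤ G)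
    (f : Rep.free ℤ G (Fin n → G) ⟶ A) (v : Fin n → G) (g : G) :
    f.hom (CupB_e v g) = A.ρ g (f.hom (CupB_e v 1)) := by
  have h : f = Rep.freeLift ℤ G (A := A) (fun v => f.hom (CupB_e v 1)) := by
    apply CupB_ext
    intro v
    rw [CupB_lift, map_one]
    rfl
  conv_lhs => rw [h]
  rw [CupB_lift]

theorem CupB_rho {G : Type} [Group G] {n : ℕ} (v : Fin n → G) (g h : G) :
    (Rep.free ℤ G (Fin n → G)).ρ g (CupB_e v h) = CupB_e v (g * h) :=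
  Representation.free_single_single g h v 1

theorem CupB_d {G : Type} [Group G] (n : ℕ) (x : Fin (n + 1) → G) :
    (Rep.barComplex.d ℤ G n).hom (CupB_e x 1) = CupB_e (fun i => x i.succ) (x 0) +
      ∑ j : Fin (n + 1), ((-1 : ℤ) ^ (j.val + 1)) • CupB_e (j.contractNth (· * ·) x) 1 := by
  have h := Rep.barComplex.d_single (k := ℤ) (G := G) n x
  refine h.trans ?_
  simp only [CupB_single, one_smul]

theorem CupB_d0 {G : Type} [Group G] (x : Fin 1 → G) (v : Fin 0 → G) :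
    (Rep.barComplex.d ℤ G 0).hom (CupB_e x 1) = CupB_e v (x 0) - CupB_e v 1 := by
  rw [CupB_d, Fin.sum_univ_one]
  have h1 : (fun i : Fin 0 => x i.succ) = v := Subsingleton.elim _ _
  have h2 : (0 : Fin 1).contractNth (· * ·) x = v := Subsingleton.elim _ _
  rw [h1, h2]
  simp [sub_eq_add_neg]

theorem CupB_d1 {G : Type} [Group G] (x : Fin 2 → G) :
    (Rep.barComplex.d ℤ G 1).hom (CupB_e x 1) =
      CupB_e ![x 1] (x 0) - CupB_e ![x 0 * x 1] 1 + CupB_e ![x 0] 1 := by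
  rw [CupB_d, Fin.sum_univ_two]
  have h0 : (fun i : Fin 1 => x i.succ) = ![x 1] := by
    funext i
    fin_cases i
    rfl
  have h1 : (0 : Fin 2).contractNth (· * ·) x = ![x 0 * x 1] := by
    funext i
    fin_cases i
    rfl
  have h2 : (1 : Fin 2).contractNth (· * ·) x = ![x 0] := by
    funext i
    fin_cases i
    rfl
  rw [h0, h1, h2]
  norm_num
  abel

theorem CupB_d2 {G : Type} [Group G] (x : Fin 3 → G) :
    (Rep.barComplex.d ℤ G 2).hom (CupB_e x 1) =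
      CupB_e ![x 1, x 2] (x 0) - CupB_e ![x 0 * x 1, x 2] 1 + CupB_e ![x 0, x 1 * x 2] 1
        - CupB_e ![x 0, x 1] 1 := by
  rw [CupB_d, Fin.sum_univ_three]
  have h0 : (fun i : Fin 2 => x i.succ) = ![x 1, x 2] := by
    funext i
    fin_cases i <;> rfl
  have h1 : (0 : Fin 3).contractNth (· * ·) x = ![x 0 * x 1, x 2] := by
    funext i
    fin_cases i <;> rfl
  have h2 : (1 : Fin 3).contractNth (· * ·) x = ![x 0, x 1 * x 2] := by
    funext i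
    fin_cases i <;> rfl
  have h3 : (2 : Fin 3).contractNth (· * ·) x = ![x 0, x 1] := by
    funext i
    fin_cases i <;> rfl
  rw [h0, h1, h2, h3]
  norm_num
  abel

theorem CupB_d3 {G : Type} [Group G] (x : Fin 4 → G) :
    (Rep.barComplex.d ℤ G 3).hom (CupB_e x 1) =
      CupB_e ![x 1, x 2, x 3] (x 0) - CupB_e ![x 0 * x 1, x 2, x 3] 1
        + CupB_e ![x 0, x 1 * x 2, x 3] 1 - CupB_e ![x 0, x 1, x 2 * x 3] 1
        + CupB_e ![x 0, x 1, x 2] 1 := by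
  rw [CupB_d, Fin.sum_univ_four]
  have h0 : (fun i : Fin 3 => x i.succ) = ![x 1, x 2, x 3] := by
    funext i
    fin_cases i <;> rfl
  have h1 : (0 : Fin 4).contractNth (· * ·) x = ![x 0 * x 1, x 2, x 3] := by
    funext i
    fin_cases i <;> rfl
  have h2 : (1 : Fin 4).contractNth (· * ·) x = ![x 0, x 1 * x 2, x 3] := by
    funext i
    fin_cases i <;> rfl
  have h3 : (2 : Fin 4).contractNth (· * ·) x = ![x 0, x 1, x 2 * x 3] := by
    funext i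
    fin_cases i <;> rfl
  have h4 : (3 : Fin 4).contractNth (· * ·) x = ![x 0, x 1, x 2] := by
    funext i
    fin_cases i <;> rfl
  rw [h0, h1, h2, h3, h4]
  norm_num
  abel

/-- the cochain of a morphism -/
noncomputable def CupB_c {G : Type} [Group G] (f : Rep.free ℤ G (Fin 2 → G) ⟶ tz G) (x y : G) :
    ℤ := f.hom (CupB_e ![x, y] 1)

theorem CupB_tz {G : Type} [Group G] {n : ℕ} (f : Rep.free ℤ G (Fin n → G) ⟶ tz G)
    (v : Fin n → G) (g : G) : f.hom (CupB_e v g) = f.hom (CupB_e v 1) := by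
  rw [CupB_act]
  rfl

theorem CupB_eta {G : Type} [Group G] (f : Rep.free ℤ G (Fin 2 → G) ⟶ tz G) (v : Fin 2 → G) :
    f.hom (CupB_e v 1) = CupB_c f (v 0) (v 1) := by
  unfold CupB_c
  congr 2
  funext i
  fin_cases i <;> rfl

theorem CupB_coc {G : Type} [Group G] (f : Rep.free ℤ G (Fin 2 → G) ⟶ tz G)
    (hf : Rep.barComplex.d ℤ G 2 ≫ f = 0) (x y z : G) :
    CupB_c f y z - CupB_c f (x * y) z + CupB_c f x (y * z) - CupB_c f x y = 0 := by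
  have h : f.hom ((Rep.barComplex.d ℤ G 2).hom (CupB_e ![x, y, z] 1)) = (0 : ℤ) := by
    have := congrArg (fun t => t.hom (CupB_e ![x, y, z] 1)) hf
    exact this
  rw [CupB_d2, map_sub, map_add, map_sub, CupB_tz] at h
  exact h

theorem CupB_one {G : Type} [Group G] (f : Rep.free ℤ G (Fin 2 → G) ⟶ tz G)
    (hf : Rep.barComplex.d ℤ G 2 ≫ f = 0) :
    ∃ (l0 : Rep.free ℤ G (Fin 2 → G) ⟶ Rep.free ℤ G (Fin 0 → G))
      (l1 : Rep.free ℤ G (Fin 3 → G) ⟶ Rep.free ℤ G (Fin 1 → G))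
      (l2 : Rep.free ℤ G (Fin 4 → G) ⟶ Rep.free ℤ G (Fin 2 → G)),
        l0 ≫ barε G = f ∧ Rep.barComplex.d ℤ G 2 ≫ l0 = l1 ≫ Rep.barComplex.d ℤ G 0 ∧
        Rep.barComplex.d ℤ G 3 ≫ l1 = l2 ≫ Rep.barComplex.d ℤ G 1 ∧
        ∀ v, l2.hom (CupB_e v 1) = CupB_c f (v 2) (v 3) • CupB_e ![v 0, v 1] 1 := by
  obtain ⟨l0, hl0⟩ : ∃ l0 : Rep.free ℤ G (Fin 2 → G) ⟶ Rep.free ℤ G (Fin 0 → G),
      ∀ v, l0.hom (CupB_e v 1) = CupB_c f (v 0) (v 1) • CupB_e ![] 1 :=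
    ⟨Rep.freeLift ℤ G (A := Rep.free ℤ G (Fin 0 → G))
      (fun v => CupB_c f (v 0) (v 1) • CupB_e ![] 1), fun v => by
        rw [CupB_lift, map_one]
        rfl⟩
  obtain ⟨l1, hl1⟩ : ∃ l1 : Rep.free ℤ G (Fin 3 → G) ⟶ Rep.free ℤ G (Fin 1 → G),
      ∀ v, l1.hom (CupB_e v 1) = CupB_c f (v 1) (v 2) • CupB_e ![v 0] 1 :=
    ⟨Rep.freeLift ℤ G (A := Rep.free ℤ G (Fin 1 → G))
      (fun v => CupB_c f (v 1) (v 2) • CupB_e ![v 0] 1), fun v => by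
        rw [CupB_lift, map_one]
        rfl⟩
  obtain ⟨l2, hl2⟩ : ∃ l2 : Rep.free ℤ G (Fin 4 → G) ⟶ Rep.free ℤ G (Fin 2 → G),
      ∀ v, l2.hom (CupB_e v 1) = CupB_c f (v 2) (v 3) • CupB_e ![v 0, v 1] 1 :=
    ⟨Rep.freeLift ℤ G (A := Rep.free ℤ G (Fin 2 → G))
      (fun v => CupB_c f (v 2) (v 3) • CupB_e ![v 0, v 1] 1), fun v => by
        rw [CupB_lift, map_one]
        rfl⟩
  refine ⟨l0, l1, l2, ?_, ?_, ?_, hl2⟩
  · apply CupB_ext
    intro v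
    have h1 : (barε G).hom (l0.hom (CupB_e v 1)) = f.hom (CupB_e v 1) := by
      rw [hl0, map_zsmul, CupB_eta]
      unfold barε
      rw [CupB_lift]
      change CupB_c f (v 0) (v 1) • (1 : ℤ) = _
      rw [smul_eq_mul, mul_one]
    exact h1
  · apply CupB_ext
    intro v
    have h1 : l0.hom ((Rep.barComplex.d ℤ G 2).hom (CupB_e v 1))
        = (Rep.barComplex.d ℤ G 0).hom (l1.hom (CupB_e v 1)) := by
      rw [CupB_d2, map_sub, map_add, map_sub, hl1, map_zsmul, CupB_d0 _ ![], CupB_act, hl0, hl0,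
        hl0, hl0, map_zsmul, CupB_rho, mul_one]
      have h2 := CupB_coc f hf (v 0) (v 1) (v 2)
      have h3 : CupB_c f (v 1) (v 2) = CupB_c f (v 0 * v 1) (v 2) - CupB_c f (v 0) (v 1 * v 2)
        + CupB_c f (v 0) (v 1) := by linarith
      simp only [Matrix.cons_val_zero, Matrix.cons_val_one]
      rw [smul_sub]
      conv_rhs => rw [h3]
      rw [h3]
      module
    exact h1
  · apply CupB_ext
    intro v
    have h1 : l1.hom ((Rep.barComplex.d ℤ G 3).hom (CupB_e v 1))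
        = (Rep.barComplex.d ℤ G 1).hom (l2.hom (CupB_e v 1)) := by
      rw [CupB_d3, map_add, map_sub, map_add, map_sub, hl2, map_zsmul, CupB_d1, CupB_act, hl1, hl1,
        hl1, hl1, hl1, map_zsmul, CupB_rho, mul_one]
      have h2 := CupB_coc f hf (v 1) (v 2) (v 3)
      have h3 : CupB_c f (v 2) (v 3) = CupB_c f (v 1 * v 2) (v 3) - CupB_c f (v 1) (v 2 * v 3)
        + CupB_c f (v 1) (v 2) := by linarith
      simp only [Matrix.cons_val_zero, Matrix.cons_val_one, Matrix.cons_val]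
      rw [h3]
      module
    exact h1

theorem CupB_main {G : Type} [Group G] (f g : Rep.free ℤ G (Fin 2 → G) ⟶ tz G)
    (hf : Rep.barComplex.d ℤ G 2 ≫ f = 0) (hg : Rep.barComplex.d ℤ G 2 ≫ g = 0) :
    ∃ (l0 m0 : Rep.free ℤ G (Fin 2 → G) ⟶ Rep.free ℤ G (Fin 0 → G))
      (l1 m1 : Rep.free ℤ G (Fin 3 → G) ⟶ Rep.free ℤ G (Fin 1 → G))
      (l2 m2 : Rep.free ℤ G (Fin 4 → G) ⟶ Rep.free ℤ G (Fin 2 → G))
      (u : Rep.free ℤ G (Fin 3 → G) ⟶ tz G),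
        l0 ≫ barε G = f ∧ Rep.barComplex.d ℤ G 2 ≫ l0 = l1 ≫ Rep.barComplex.d ℤ G 0 ∧
        Rep.barComplex.d ℤ G 3 ≫ l1 = l2 ≫ Rep.barComplex.d ℤ G 1 ∧
        m0 ≫ barε G = g ∧ Rep.barComplex.d ℤ G 2 ≫ m0 = m1 ≫ Rep.barComplex.d ℤ G 0 ∧
        Rep.barComplex.d ℤ G 3 ≫ m1 = m2 ≫ Rep.barComplex.d ℤ G 1 ∧
        l2 ≫ g - m2 ≫ f = Rep.barComplex.d ℤ G 3 ≫ u := by
  obtain ⟨l0, l1, l2, a1, a2, a3, a4⟩ := CupB_one f hf
  obtain ⟨m0, m1, m2, b1, b2, b3, b4⟩ := CupB_one g hg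
  obtain ⟨u, hu⟩ : ∃ u : Rep.free ℤ G (Fin 3 → G) ⟶ tz G,
      ∀ v, u.hom (CupB_e v 1) = (CupB_c g (v 0) (v 1 * v 2) * CupB_c f (v 1) (v 2)
        - CupB_c g (v 0 * v 1) (v 2) * CupB_c f (v 0) (v 1) : ℤ) :=
    ⟨Rep.freeLift ℤ G (A := tz G) (fun v => (CupB_c g (v 0) (v 1 * v 2) * CupB_c f (v 1) (v 2)
        - CupB_c g (v 0 * v 1) (v 2) * CupB_c f (v 0) (v 1) : ℤ)), fun v => by
        rw [CupB_lift, map_one]
        rfl⟩
  refine ⟨l0, m0, l1, m1, l2, m2, u, a1, a2, a3, b1, b2, b3, ?_⟩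
  apply CupB_ext
  intro v
  have h1 : g.hom (l2.hom (CupB_e v 1)) - f.hom (m2.hom (CupB_e v 1))
      = u.hom ((Rep.barComplex.d ℤ G 3).hom (CupB_e v 1)) := by
    rw [a4, b4, map_zsmul, map_zsmul, CupB_d3, map_add, map_sub, map_add, map_sub, CupB_tz u, hu,
      hu, hu, hu, hu]
    simp only [Matrix.cons_val_zero, Matrix.cons_val_one, Matrix.cons_val]
    have e1 : g.hom (CupB_e ![v 0, v 1] 1) = CupB_c g (v 0) (v 1) := rfl
    have e2 : f.hom (CupB_e ![v 0, v 1] 1) = CupB_c f (v 0) (v 1) := rfl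
    rw [e1, e2]
    have E1 := CupB_coc f hf (v 0) (v 1) (v 2)
    have E2 := CupB_coc f hf (v 1) (v 2) (v 3)
    have F1 := CupB_coc g hg (v 0) (v 1) (v 2 * v 3)
    have F2 := CupB_coc g hg (v 0) (v 1 * v 2) (v 3)
    have F3 := CupB_coc g hg (v 0 * v 1) (v 2) (v 3)
    simp only [mul_assoc] at E1 E2 F1 F2 F3 ⊢
    change CupB_c f (v 2) (v 3) * CupB_c g (v 0) (v 1) - CupB_c g (v 2) (v 3) * CupB_c f (v 0) (v 1)
      = _
    linear_combination CupB_c g (v 0 * (v 1 * v 2)) (v 3) * E1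
      + CupB_c g (v 0) (v 1 * (v 2 * v 3)) * E2 - CupB_c f (v 2) (v 3) * F1
      + CupB_c f (v 1) (v 2) * F2 - CupB_c f (v 0) (v 1) * F3
  exact h1

end Pool.Agent.H5.CP
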