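import Mathlib

/-!
MP_37b730_gt (class CP), helper5: definitions.
Everything lives in universe 0: groups `G : Type`, coefficient rings `k : Type`.
-/

namespace Pool.Agent.H5.CP

open CategoryTheory CategoryTheory.Abelian CategoryTheory.Limits

noncomputable instance instHasExtRep (k G : Type) [CommRing k] [Group G] :
    HasExt.{0} (Rep.{0} k G) :=
  hasExt_of_enoughProjectives _

/-- `H^j(G;A) = 0` for all `k[G]`-modules `A` and all `j ≥ n`, that is `cd_k G < n`. -/
def CD (k G : Type) [CommRing k] [Group G] (n : ℕ) : Prop :=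
  ∀ (A : Rep.{0} k G) (j : ℕ), n ≤ j → IsZero (groupCohomology A j)

/-- the cohomological dimension of `G` over `k` is finite -/
def CDfin (k G : Type) [CommRing k] [Group G] : Prop := ∃ n, CD k G n

/-- `M` is of type `FP_n` over `k[G]` (partial resolutions by finitely generated free modules). -/
def FPm (k G : Type) [CommRing k] [Group G] : ℕ → Rep.{0} k G → Prop
  | 0, M => ∃ (m : ℕ) (f : Rep.free k G (Fin m) ⟶ M), Epi f
  | n + 1, M => ∃ (m : ℕ) (f : Rep.free k G (Fin m) ⟶ M), Epi f ∧ FPm k G n (kernel f)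

/-- `G` is of type `FP`: the trivial module `ℤ` has a resolution of finite length by finitely
generated projective `ℤ[G]`-modules. -/
def IsTypeFP (G : Type) [Group G] : Prop :=
  ∃ P : ProjectiveResolution (Rep.trivial ℤ G ℤ),
    (∀ n, ∃ (m : ℕ) (f : Rep.free ℤ G (Fin m) ⟶ P.complex.X n), Epi f) ∧
    ∃ d, ∀ n, d < n → IsZero (P.complex.X n)

/-- `cd_ℚ^tr(G) < ∞` -/
def RatTrFin (G : Type) [Group G] : Prop :=
  ∃ N, ∀ n, N ≤ n → IsZero (groupCohomology (Rep.trivial ℚ G ℚ) n)

/-- the class `CP` -/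
def InCP (G : Type) [Group G] : Prop :=
  CDfin ℚ G ∧ RatTrFin (G ⧸ Subgroup.center G)

/-- the inhomogeneous coboundary, written with integer coefficients (independent of `k`) -/
def dd {k G : Type} [CommRing k] [Group G] (A : Rep.{0} k G) (n : ℕ)
    (f : (Fin n → G) → A) : (Fin (n + 1) → G) → A :=
  fun g => A.ρ (g 0) (f fun i => g i.succ) +
    ∑ j : Fin (n + 1), ((-1 : ℤ) ^ ((j : ℕ) + 1)) • f (Fin.contractNth j (· * ·) g)

/-- the `ℤ`-linear representation underlying a `k`-linear one -/
def resZ {k G : Type} [CommRing k] [Group G] (A : Rep.{0} k G) : Rep.{0} ℤ G :=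
  Rep.of (X := A.V)
    ({ toFun := fun g => (A.ρ g).toAddMonoidHom.toIntLinearMap
       map_one' := by ext x; simp
       map_mul' := by intro g h; ext x; simp } : Representation ℤ G A.V)

/-- `t - 1` is injective on `M` -/
def TReg {k G : Type} [CommRing k] [Group G] (t : G) (M : Rep.{0} k G) : Prop :=
  ∀ x : M, M.ρ t x = x → x = 0

/-- all elements of `H^j(G;A)` are killed by `s`, for all `A` and `j ≥ n` (over `ℤ`) -/
def BE (G : Type) [Group G] : Prop :=
  ∃ (s : ℕ) (n : ℕ), 0 < s ∧ ∀ (A : Rep.{0} ℤ G) (j : ℕ), n ≤ j →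
    ∀ x : groupCohomology A j, (s : ℤ) • x = 0

end Pool.Agent.H5.CP
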