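import Pool.Agent.H7.LG.Defs
import Pool.Agent.H67.GT.MERT

/-!
# Presieve with a cluster (MP_028722, chains of large gaps): definitions

The modulus is the product of the primes `p ≤ z` except one prime `P` and the primes of the set `B` (dropped primes, all in `(w, z]`).
-/

set_option autoImplicit false

namespace H5CP

open Finset

/-- the primes `p ≤ z` except `P` and the elements of `B` -/
noncomputable def PP (z P : ℕ) (B : Finset ℕ) : Finset ℕ := by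
  classical exact (Icc 1 z).filter (fun p : ℕ => p.Prime ∧ p ≠ P ∧ p ∉ B)

lemma mem_PP {z P p : ℕ} {B : Finset ℕ} : p ∈ PP z P B ↔ (1 ≤ p ∧ p ≤ z) ∧ p.Prime ∧ p ≠ P ∧ p ∉ B := by
  classical
  unfold PP
  rw [mem_filter, mem_Icc]

/-- the modulus -/
noncomputable def WW (z P : ℕ) (B : Finset ℕ) : ℕ := ∏ p ∈ PP z P B, p

/-- the integers of `[1, N]` outside the classes `r p`, `p ∈ PP z P B` -/
noncomputable def SS (r : ℕ → ℕ) (N z P : ℕ) (B : Finset ℕ) : Finset ℕ := by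
  classical exact (Icc 1 N).filter (fun k : ℕ => ∀ p ∈ PP z P B, ¬ k ≡ r p [MOD p])

lemma mem_SS {r : ℕ → ℕ} {N z P k : ℕ} {B : Finset ℕ} :
    k ∈ SS r N z P B ↔ (1 ≤ k ∧ k ≤ N) ∧ ∀ p ∈ PP z P B, ¬ k ≡ r p [MOD p] := by
  classical
  unfold SS
  rw [mem_filter, mem_Icc]

/-- the integers of `[1, N]` all whose prime factors lie in `(w0, w]`, in `(z, N]`, in `B` or are equal to `P` -/
noncomputable def S0 (N w0 w z P : ℕ) (B : Finset ℕ) : Finset ℕ := by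
  classical exact (Icc 1 N).filter (fun k : ℕ => ∀ p : ℕ, p.Prime → p ∣ k →
    (w0 < p ∧ p ≤ w) ∨ z < p ∨ p = P ∨ p ∈ B)

lemma mem_S0 {N w0 w z P k : ℕ} {B : Finset ℕ} :
    k ∈ S0 N w0 w z P B ↔ (1 ≤ k ∧ k ≤ N) ∧ ∀ p : ℕ, p.Prime → p ∣ k →
      (w0 < p ∧ p ≤ w) ∨ z < p ∨ p = P ∨ p ∈ B := by
  classical
  unfold S0
  rw [mem_filter, mem_Icc]

/-- the primes of `(w0, w]` except `P` -/
noncomputable def QQ (w0 w P : ℕ) : Finset ℕ := by
  classical exact (Icc 1 w).filter (fun p : ℕ => p.Prime ∧ w0 < p ∧ p ≠ P)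

lemma mem_QQ {w0 w P p : ℕ} : p ∈ QQ w0 w P ↔ (1 ≤ p ∧ p ≤ w) ∧ p.Prime ∧ w0 < p ∧ p ≠ P := by
  classical
  unfold QQ
  rw [mem_filter, mem_Icc]

end H5CP
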