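import Pool.Agent.H5.CP.EDef

/-!
ROW DivA (200 lines).  `t` central of infinite order in `H`, `S = ⟨t⟩`, `G = H/S`; `H₂ ≤ H` with `t ∈ H₂` and a character `χ : H₂ → ℤ/a` with `χ(t) = 1`; `G₂` = image of `H₂` in `G`.  Then the restriction of `e` to `G₂` is divisible by `a`.
Write `F` for the restriction functor to `G₂`, `π : ℤ → ZMod a`.
(1) There is a function `χ̃ : H → ZMod a` with `χ̃(1) = 0`, `χ̃(g h) = χ(g) + χ̃(h)` for `g ∈ H₂`, `h ∈ H` (choose representatives of the right cosets `H₂ h`, with 1 for the trivial coset: `h = g r(h)`, `χ̃(h) = χ(g)`).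
(2) Let `(a) 0 → ℤ → E → J → 0` be the sequence in `he`, `E = I_S`.  Define `ρ : F(E) → ZMod a` by `[u] ↦ L(u)`, where `L : ℤ[H] → ZMod a` is the additive map `h ↦ χ̃(h)`: for `g ∈ H₂`, `L(g y) = L(y) + aug(y) χ(g)`, so on `I`
 `L` is invariant under `H₂`; in particular it kills `(t - 1)u`; so it defines a morphism of `G₂`-modules to the trivial module.  `ρ(ι(1)) = L(t - 1) = χ(t) = 1` (`IsAB.hι`), so `F(ι) ≫ ρ = tmap π`.
(3) So `F(α).comp (mk₀ π) = F(α).comp (mk₀ F(ι)).comp (mk₀ ρ) = 0` (`extClass_comp`), and `F(e).comp (mk₀ π) = F(β).comp F(α).comp (mk₀ π) = 0`.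
(4) `0 → ℤ → ℤ → ZMod a → 0` (multiplication by `a`, `a > 0`) is a short exact sequence of trivial `G₂`-modules; `Ext.covariant_sequence_exact₂` gives `e₂` with `F(e) = e₂.comp (mk₀ (a • 𝟙)) = a • e₂`.
-/

namespace Pool.Agent.H5.CP

open CategoryTheory CategoryTheory.Abelian CategoryTheory.Limits

/-- the function `χ̃` -/
theorem divA_chi {H : Type} [Group H] (a : ℕ) (H₂ : Subgroup H)
    (χ : H₂ →* Multiplicative (ZMod a)) :
    ∃ c : H → ZMod a, ∀ (g : H₂) (h : H), c (g.1 * h) = Multiplicative.toAdd (χ g) + c h := by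
  classical
  have hq : ∀ h : H, h * (Quotient.out (Quotient.mk (QuotientGroup.rightRel H₂) h))⁻¹ ∈ H₂ := by
    intro h
    have h1 : (QuotientGroup.rightRel H₂)
        (Quotient.out (Quotient.mk (QuotientGroup.rightRel H₂) h)) h := Quotient.mk_out h
    exact QuotientGroup.rightRel_apply.1 h1
  have hr : ∀ (g : H₂) (h : H), Quotient.mk (QuotientGroup.rightRel H₂) (g.1 * h) =
      Quotient.mk (QuotientGroup.rightRel H₂) h := by
    intro g h
    refine Quotient.sound ?_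
    show (QuotientGroup.rightRel H₂) (g.1 * h) h
    rw [QuotientGroup.rightRel_apply, mul_inv_rev, mul_inv_cancel_left]
    exact H₂.inv_mem g.2
  refine ⟨fun h => Multiplicative.toAdd
    (χ ⟨h * (Quotient.out (Quotient.mk (QuotientGroup.rightRel H₂) h))⁻¹, hq h⟩), ?_⟩
  intro g h
  have h1 : (⟨g.1 * h * (Quotient.out (Quotient.mk (QuotientGroup.rightRel H₂) (g.1 * h)))⁻¹,
      hq (g.1 * h)⟩ : H₂) =
      g * ⟨h * (Quotient.out (Quotient.mk (QuotientGroup.rightRel H₂) h))⁻¹, hq h⟩ := by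
    refine Subtype.ext ?_
    show g.1 * h * (Quotient.out (Quotient.mk (QuotientGroup.rightRel H₂) (g.1 * h)))⁻¹ =
      g.1 * (h * (Quotient.out (Quotient.mk (QuotientGroup.rightRel H₂) h))⁻¹)
    rw [hr g h, mul_assoc]
  show Multiplicative.toAdd (χ ⟨g.1 * h *
    (Quotient.out (Quotient.mk (QuotientGroup.rightRel H₂) (g.1 * h)))⁻¹, hq (g.1 * h)⟩) = _
  rw [h1, map_mul, toAdd_mul]

/-- the additive map `L` -/
noncomputable def divA_L {k H W : Type} [CommRing k] [Group H] [AddCommGroup W] [Module k W]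
    (c : H → W) : MonoidAlgebra k H →ₗ[k] W :=
  (Finsupp.lift W k H c) ∘ₗ (MonoidAlgebra.coeffLinearEquiv k).toLinearMap

theorem divA_L_single {k H W : Type} [CommRing k] [Group H] [AddCommGroup W] [Module k W]
    (c : H → W) (h : H) (n : k) :
    divA_L c (MonoidAlgebra.single h n) = n • c h := by
  simp [divA_L]

theorem divA_L_ρ {k H W : Type} [CommRing k] [Group H] [AddCommGroup W] [Module k W]
    (c : H → W) (g : H) (x : W)
    (hc : ∀ h, c (g * h) = x + c h) (y : MonoidAlgebra k H) :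
    divA_L c ((Rep.leftRegular k H).ρ g y) = divA_L c y + ((aug k H).hom y : k) • x := by
  induction y using MonoidAlgebra.induction_linear with
  | zero =>
    rw [map_zero]
    have h1 : (aug k H).hom (0 : MonoidAlgebra k H) = (0 : k) := map_zero (aug k H).hom
    rw [h1, zero_smul, add_zero]
  | add u v hu hv =>
    have h1 : (aug k H).hom (u + v : MonoidAlgebra k H) =
      ((aug k H).hom u + (aug k H).hom v : k) := map_add (aug k H).hom u v
    have h2 : (Rep.leftRegular k H).ρ g (u + v : MonoidAlgebra k H) =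
      ((Rep.leftRegular k H).ρ g u + (Rep.leftRegular k H).ρ g v : MonoidAlgebra k H) :=
      map_add _ u v
    rw [h1, h2, map_add, map_add, hu, hv, add_smul]
    exact add_add_add_comm _ _ _ _
  | single h n =>
    rw [ABs_ρ_single, divA_L_single, divA_L_single, ABs_aug_single, hc, smul_add]
    exact add_comm _ _

/-- invariance on the augmentation ideal -/
theorem divA_inv {k H W : Type} [CommRing k] [Group H] [AddCommGroup W] [Module k W]
    (c : H → W) (g : H) (x : W)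
    (hc : ∀ h, c (g * h) = x + c h) (u : (kernel (aug k H)).V) :
    divA_L (k := k) c ((kernel.ι (aug k H)).hom ((kernel (aug k H)).ρ g u)) =
      divA_L (k := k) c ((kernel.ι (aug k H)).hom u) := by
  rw [Rep.hom_comm_apply, divA_L_ρ c g x hc, ABs_aug_ι]
  have h1 : ((0 : (Rep.trivial k H k).V) : k) • x = 0 := zero_smul k x
  rw [h1, add_zero]

/-- the morphism `ρ` -/
noncomputable def divA_rho (k : Type) {H W : Type} [CommRing k] [Group H] [AddCommGroup W]
    [Module k W] (S : Subgroup H) [S.Normal]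
    (H₂ : Subgroup H) (hS : S ≤ H₂) (c : H → W) (χ : H → W)
    (hc : ∀ g ∈ H₂, ∀ h, c (g * h) = χ g + c h) :
    (Rep.resFunctor (H₂.map (QuotientGroup.mk' S)).subtype).obj
      ((QF k S).obj (kernel (aug k H))) ⟶
      Rep.trivial k (H₂.map (QuotientGroup.mk' S)) W :=
  Rep.ofHom ⟨Representation.Coinvariants.lift _
    (divA_L c ∘ₗ (kernel.ι (aug k H)).hom.toLinearMap) (fun s => by
      refine LinearMap.ext fun x => ?_
      exact divA_inv c s.1 (χ s.1) (hc s.1 (hS s.2)) x), fun q => by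
      obtain ⟨q, hq⟩ := q
      obtain ⟨g, hg, rfl⟩ := hq
      refine Representation.Coinvariants.hom_ext ?_
      refine LinearMap.ext fun x => ?_
      exact divA_inv c g (χ g) (hc g hg) x⟩

theorem divA_rho_apply {k H W : Type} [CommRing k] [Group H] [AddCommGroup W]
    [Module k W] (S : Subgroup H) [S.Normal]
    (H₂ : Subgroup H) (hS : S ≤ H₂) (c : H → W) (χ : H → W)
    (hc : ∀ g ∈ H₂, ∀ h, c (g * h) = χ g + c h) (u : (kernel (aug k H)).V) :
    (divA_rho k S H₂ hS c χ hc).hom (qmk S (kernel (aug k H)) u) =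
      divA_L c ((kernel.ι (aug k H)).hom u) := rfl

/-- the sequence `0 → ℤ → ℤ → ZMod a → 0` of trivial modules -/
theorem divA_seq (G : Type) [Group G] (a : ℕ) (ha : 0 < a) :
    ∃ w : tmap G (AddMonoidHom.mulLeft (a : ℤ)) ≫ tmap G (Int.castAddHom (ZMod a)) = 0,
      (ShortComplex.mk (tmap G (AddMonoidHom.mulLeft (a : ℤ)))
        (tmap G (Int.castAddHom (ZMod a))) w).ShortExact := by
  have w : tmap G (AddMonoidHom.mulLeft (a : ℤ)) ≫ tmap G (Int.castAddHom (ZMod a)) = 0 := by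
    refine Rep.hom_ext ?_
    refine DFunLike.ext _ _ fun x => ?_
    show (((a : ℤ) * (x : ℤ) : ℤ) : ZMod a) = 0
    push_cast
    rw [ZMod.natCast_self, zero_mul]
  refine ⟨w, ABs_shortExact _ ?_ ?_ ?_⟩
  · intro x y hxy
    have h1 : (a : ℤ) * (x : ℤ) = (a : ℤ) * (y : ℤ) := hxy
    have h2 : (a : ℤ) ≠ 0 := by
      have : a ≠ 0 := by omega
      exact_mod_cast this
    exact mul_left_cancel₀ h2 h1
  · intro y
    obtain ⟨x, hx⟩ := ZMod.intCast_surjective (n := a) y
    exact ⟨x, hx⟩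
  · intro x hx
    have h1 : ((x : ℤ) : ZMod a) = 0 := hx
    rw [ZMod.intCast_zmod_eq_zero_iff_dvd] at h1
    obtain ⟨y, hy⟩ := h1
    exact ⟨y, hy.symm⟩

theorem divA_nsmul {C : Type*} [Category* C] [Abelian C] [HasExt.{0} C] {X Y : C} {n : ℕ}
    (x : Ext X Y n) (a : ℕ) : x.comp (Ext.mk₀ (a • 𝟙 Y)) (add_zero n) = a • x := by
  induction a with
  | zero => rw [zero_smul, zero_smul, Ext.mk₀_zero, Ext.comp_zero]
  | succ a ih => rw [succ_nsmul, succ_nsmul, Ext.mk₀_add, Ext.comp_add, ih, Ext.comp_mk₀_id]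

theorem divA_comp {C : Type*} [Category* C] [Abelian C] [HasExt.{0} C] {X Y Z T : C}
    {n m p : ℕ} (x : Ext X Y n) (y : Ext Y Z m) (f : Z ⟶ T) (h : n + m = p)
    (hy : y.comp (Ext.mk₀ f) (add_zero m) = 0) :
    (x.comp y h).comp (Ext.mk₀ f) (add_zero p) = 0 := by
  rw [Ext.comp_assoc_of_third_deg_zero, hy, Ext.comp_zero]

theorem divA_mul (G : Type) [Group G] (a : ℕ) :
    tmap G (AddMonoidHom.mulLeft (a : ℤ)) = a • 𝟙 (tz G) := by
  induction a with
  | zero =>
    rw [zero_smul]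
    refine Rep.hom_ext ?_
    refine DFunLike.ext _ _ fun x => ?_
    show ((0 : ℕ) : ℤ) * (x : ℤ) = 0
    rw [Nat.cast_zero, zero_mul]
  | succ a ih =>
    rw [succ_nsmul, ← ih]
    refine Rep.hom_ext ?_
    refine DFunLike.ext _ _ fun x => ?_
    show ((a + 1 : ℕ) : ℤ) * (x : ℤ) = (a : ℤ) * (x : ℤ) + (x : ℤ)
    push_cast
    ring

theorem DivA_main {H : Type} [Group H] (t : H) (hc : t ∈ Subgroup.center H)
    (ht : ∀ n : ℤ, t ^ n = 1 → n = 0) [(Subgroup.zpowers t).Normal] (a : ℕ) (ha : 0 < a)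
    (H₂ : Subgroup H) (hH₂ : t ∈ H₂) (χ : H₂ →* Multiplicative (ZMod a))
    (hχ : χ ⟨t, hH₂⟩ = Multiplicative.ofAdd 1)
    (e : Ext (tz (H ⧸ Subgroup.zpowers t)) (tz (H ⧸ Subgroup.zpowers t)) 2)
    (he : IsEul (Subgroup.zpowers t) (zpowersHom H t) e) :
    ∃ e₂ : Ext (tz (H₂.map (QuotientGroup.mk' (Subgroup.zpowers t))))
        (tz (H₂.map (QuotientGroup.mk' (Subgroup.zpowers t)))) 2,
      e.mapExactFunctor (Rep.resFunctor
        (H₂.map (QuotientGroup.mk' (Subgroup.zpowers t))).subtype) = a • e₂ := by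
  classical
  obtain ⟨ι, α, w, hS, hAB, rfl⟩ := he
  obtain ⟨c, hcc⟩ := divA_chi a H₂ χ
  have hSle : Subgroup.zpowers t ≤ H₂ := (Subgroup.zpowers_le).2 hH₂
  let χ' : H → ZMod a := fun g => if h : g ∈ H₂ then Multiplicative.toAdd (χ ⟨g, h⟩) else 0
  have hc' : ∀ g ∈ H₂, ∀ h, c (g * h) = χ' g + c h := by
    intro g hg h
    have h1 : χ' g = Multiplicative.toAdd (χ ⟨g, hg⟩) := dif_pos hg
    rw [h1]
    exact hcc ⟨g, hg⟩ h
  have hχt : χ' t = 1 := by
    have h1 : χ' t = Multiplicative.toAdd (χ ⟨t, hH₂⟩) := dif_pos hH₂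
    rw [h1, hχ]
    rfl
  set F := Rep.resFunctor (k := ℤ)
    (H₂.map (QuotientGroup.mk' (Subgroup.zpowers t))).subtype with hF
  -- the composite `F(ι) ≫ ρ`
  obtain ⟨u, hu⟩ : ∃ u : (kernel (aug ℤ H)).V, (kernel.ι (aug ℤ H)).hom u =
      (MonoidAlgebra.single (zpowersHom H t (Multiplicative.ofAdd 1)) 1 -
        MonoidAlgebra.single 1 1 : MonoidAlgebra ℤ H) := by
    refine ABs_lift _ ?_
    refine (map_sub (aug ℤ H).hom _ _).trans ?_
    rw [ABs_aug_single, ABs_aug_single, sub_self]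
  have hι1 : ι.hom (1 : ℤ) = qmk (Subgroup.zpowers t) (kernel (aug ℤ H)) u := hAB.hι 1 u hu
  have hcomp : F.map ι ≫ divA_rho ℤ (Subgroup.zpowers t) H₂ hSle c χ' hc' =
      tmap (H₂.map (QuotientGroup.mk' (Subgroup.zpowers t))) (Int.castAddHom (ZMod a)) := by
    refine Rep.hom_ext ?_
    have hlin : ∀ f g : ℤ →ₗ[ℤ] ZMod a, f 1 = g 1 → ∀ x, f x = g x := fun f g h x => by
      rw [LinearMap.ext_ring h]
    refine DFunLike.ext _ _ fun x => ?_
    refine hlin (F.map ι ≫ divA_rho ℤ (Subgroup.zpowers t) H₂ hSle c χ' hc').hom.toLinearMap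
      (tmap (H₂.map (QuotientGroup.mk' (Subgroup.zpowers t)))
        (Int.castAddHom (ZMod a))).hom.toLinearMap ?_ x
    show (divA_rho ℤ (Subgroup.zpowers t) H₂ hSle c χ' hc').hom (ι.hom (1 : ℤ)) =
      ((1 : ℤ) : ZMod a)
    rw [hι1, divA_rho_apply, hu, map_sub, divA_L_single, divA_L_single, one_smul, one_smul,
      zpowersHom_apply, toAdd_ofAdd, zpow_one, Int.cast_one]
    have h2 := hc' t hH₂ 1
    rw [mul_one, hχt] at h2
    rw [h2]
    exact add_sub_cancel_right _ _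
  have h0 : (hS.extClass.mapExactFunctor F).comp (Ext.mk₀
      (tmap (H₂.map (QuotientGroup.mk' (Subgroup.zpowers t))) (Int.castAddHom (ZMod a))))
      (add_zero 1) = 0 := by
    have h1 := congrArg (fun x => Ext.mapExactFunctor F x) hS.extClass_comp
    simp only [] at h1
    rw [Ext.mapExactFunctor_comp, Ext.mapExactFunctor_mk₀, Ext.mapExactFunctor_zero] at h1
    rw [← hcomp, ← Ext.mk₀_comp_mk₀, ← Ext.comp_assoc_of_third_deg_zero]
    have h2 : (hS.extClass.mapExactFunctor F).comp (Ext.mk₀ (F.map ι)) (add_zero 1) = 0 := h1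
    rw [h2, Ext.zero_comp]
  obtain ⟨w', hS'⟩ := divA_seq (H₂.map (QuotientGroup.mk' (Subgroup.zpowers t))) a ha
  have h3 : (((AugE_exact ℤ (H ⧸ Subgroup.zpowers t)).extClass.comp hS.extClass rfl).mapExactFunctor
      F).comp (Ext.mk₀ (tmap (H₂.map (QuotientGroup.mk' (Subgroup.zpowers t)))
        (Int.castAddHom (ZMod a)))) (add_zero 2) = 0 := by
    rw [Ext.mapExactFunctor_comp]
    exact divA_comp _ _ _ rfl h0
  obtain ⟨e₂, he₂⟩ := Ext.covariant_sequence_exact₂ _ hS'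
    (((AugE_exact ℤ (H ⧸ Subgroup.zpowers t)).extClass.comp hS.extClass rfl).mapExactFunctor F) h3
  refine ⟨e₂, he₂.symm.trans ?_⟩
  refine Eq.trans ?_ (divA_nsmul e₂ a)
  exact congrArg (fun z => Ext.comp e₂ (Ext.mk₀ z) (add_zero 2)) (divA_mul _ a)

end Pool.Agent.H5.CP
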