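import Pool.Agent.H5.CP.EDef

/-!
ROW EulN (200 lines).  Naturality of the Euler class.  `θ : Γ → Γ'`, `θ(S) ≤ S'`, `θ ∘ j = j' ∘ f`, `θ̄ : Γ/S → Γ'/S'`.
-/

namespace Pool.Agent.H5.CP

open CategoryTheory CategoryTheory.Abelian CategoryTheory.Limits

/-- `k[G] → k[H]` -/
noncomputable def EulN_m (k : Type) {G H : Type} [CommRing k] [Group G] [Group H] (φ : G →* H) :
    MonoidAlgebra k G →ₗ[k] MonoidAlgebra k H :=
  (MonoidAlgebra.coeffLinearEquiv k).symm.toLinearMap ∘ₗ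
    Finsupp.lmapDomain k k (φ : G → H) ∘ₗ
      (MonoidAlgebra.coeffLinearEquiv k).toLinearMap

theorem EulN_m_single {k G H : Type} [CommRing k] [Group G] [Group H] (φ : G →* H) (g : G)
    (r : k) : EulN_m k φ (MonoidAlgebra.single g r) = MonoidAlgebra.single (φ g) r := by
  simp [EulN_m]

theorem EulN_m_ρ {k G H : Type} [CommRing k] [Group G] [Group H] (φ : G →* H) (g : G)
    (x : MonoidAlgebra k G) :
    EulN_m k φ ((Rep.leftRegular k G).ρ g x) = (Rep.leftRegular k H).ρ (φ g) (EulN_m k φ x) := by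
  have h : EulN_m k φ ∘ₗ (Representation.ofMulAction k G G g) =
    (Representation.ofMulAction k H H (φ g)) ∘ₗ EulN_m k φ := by
    refine MonoidAlgebra.lhom_ext' fun a => ?_
    ext
    simp [EulN_m_single]
  exact congrArg (fun f => f x) h

theorem EulN_m_aug {k G H : Type} [CommRing k] [Group G] [Group H] (φ : G →* H)
    (x : MonoidAlgebra k G) : (aug k H).hom (EulN_m k φ x) = (aug k G).hom x := by
  have h : (aug k H).hom.toLinearMap ∘ₗ EulN_m k φ = (aug k G).hom.toLinearMap := by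
    refine MonoidAlgebra.lhom_ext' fun a => ?_
    ext
    show (aug k H).hom (EulN_m k φ (MonoidAlgebra.single a 1)) =
      (aug k G).hom (MonoidAlgebra.single a 1 : MonoidAlgebra k G)
    rw [EulN_m_single, ABs_aug_single, ABs_aug_single]
  exact congrArg (fun f => f x) h

theorem EulN_m_π {k G H : Type} [CommRing k] [Group G] [Group H] (φ : G →* H)
    (S : Subgroup G) [S.Normal] (T : Subgroup H) [T.Normal] (hφ : S ≤ T.comap φ)
    (x : MonoidAlgebra k G) :
    EulN_m k (QuotientGroup.map S T φ hφ) (ABs_π k S x) = ABs_π k T (EulN_m k φ x) := by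
  have h : EulN_m k (QuotientGroup.map S T φ hφ) ∘ₗ ABs_π k S = ABs_π k T ∘ₗ EulN_m k φ := by
    refine MonoidAlgebra.lhom_ext' fun a => ?_
    refine LinearMap.ext fun r => ?_
    show EulN_m k (QuotientGroup.map S T φ hφ) (ABs_π k S (MonoidAlgebra.single a r)) =
      ABs_π k T (EulN_m k φ (MonoidAlgebra.single a r))
    rw [EulN_m_single, ABs_π_single, ABs_π_single, EulN_m_single]
    rfl
  exact congrArg (fun f => f x) h

/-- `k[G] → k[H]` as a morphism -/
noncomputable def EulN_r (k : Type) {G H : Type} [CommRing k] [Group G] [Group H] (φ : G →* H) :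
    Rep.leftRegular k G ⟶ (Rep.resFunctor φ).obj (Rep.leftRegular k H) :=
  Rep.ofHom ⟨EulN_m k φ, fun g => LinearMap.ext fun x => EulN_m_ρ φ g x⟩

theorem EulN_r_apply {k G H : Type} [CommRing k] [Group G] [Group H] (φ : G →* H)
    (x : MonoidAlgebra k G) : (EulN_r k φ).hom x = EulN_m k φ x := rfl

/-- the identity of `k` -/
noncomputable def EulN_t (k : Type) {G H : Type} [CommRing k] [Group G] [Group H] (φ : G →* H) :
    Rep.trivial k G k ⟶ (Rep.resFunctor φ).obj (Rep.trivial k H k) :=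
  𝟙 (Rep.trivial k G k)

theorem EulN_rt {k G H : Type} [CommRing k] [Group G] [Group H] (φ : G →* H) :
    EulN_r k φ ≫ (Rep.resFunctor φ).map (aug k H) = aug k G ≫ EulN_t k φ := by
  refine Rep.hom_ext ?_
  refine DFunLike.ext _ _ fun x => ?_
  show (aug k H).hom (EulN_m k φ x) = (aug k G).hom x
  exact EulN_m_aug φ x

theorem EulN_exact {k : Type} (G H : Type) [CommRing k] [Group G] [Group H] (φ : G →* H) :
    ((augSC k H).map (Rep.resFunctor φ)).ShortExact :=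
  (AugE_exact k H).map_of_exact (Rep.resFunctor φ)

theorem EulN_zero {k G H : Type} [CommRing k] [Group G] [Group H] (φ : G →* H) :
    (kernel.ι (aug k G) ≫ EulN_r k φ) ≫ ((augSC k H).map (Rep.resFunctor φ)).g = 0 := by
  show (kernel.ι (aug k G) ≫ EulN_r k φ) ≫ (Rep.resFunctor φ).map (aug k H) = 0
  rw [Category.assoc, EulN_rt, ← Category.assoc, kernel.condition, zero_comp]

/-- `I_G → I_H` -/
noncomputable def EulN_k (k : Type) {G H : Type} [CommRing k] [Group G] [Group H] (φ : G →* H) :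
    kernel (aug k G) ⟶ (Rep.resFunctor φ).obj (kernel (aug k H)) :=
  haveI : Mono ((augSC k H).map (Rep.resFunctor φ)).f := (EulN_exact G H φ).mono_f
  (EulN_exact G H φ).exact.lift (kernel.ι (aug k G) ≫ EulN_r k φ) (EulN_zero φ)

theorem EulN_k_ι {k G H : Type} [CommRing k] [Group G] [Group H] (φ : G →* H) :
    EulN_k k φ ≫ (Rep.resFunctor φ).map (kernel.ι (aug k H)) =
      kernel.ι (aug k G) ≫ EulN_r k φ :=
  haveI : Mono ((augSC k H).map (Rep.resFunctor φ)).f := (EulN_exact G H φ).mono_f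
  (EulN_exact G H φ).exact.lift_f (kernel.ι (aug k G) ≫ EulN_r k φ) (EulN_zero φ)

theorem EulN_k_apply {k G H : Type} [CommRing k] [Group G] [Group H] (φ : G →* H)
    (u : (kernel (aug k G)).V) :
    (kernel.ι (aug k H)).hom ((EulN_k k φ).hom u) = EulN_m k φ ((kernel.ι (aug k G)).hom u) := by
  have h := congrArg (fun f => f.hom u) (EulN_k_ι (k := k) φ)
  exact h

theorem EulN_qmk_ρ {k G H : Type} [CommRing k] [Group G] [Group H] (φ : G →* H)
    (T : Subgroup H) [T.Normal] (g : G) (u : (kernel (aug k G)).V) :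
    (EulN_k k φ).hom ((kernel (aug k G)).ρ g u) =
      (kernel (aug k H)).ρ (φ g) ((EulN_k k φ).hom u) :=
  Rep.hom_comm_apply (EulN_k k φ) g u

/-- `(I_G)_S → (I_H)_T` -/
noncomputable def EulN_q (k : Type) {G H : Type} [CommRing k] [Group G] [Group H] (φ : G →* H)
    (S : Subgroup G) [S.Normal] (T : Subgroup H) [T.Normal] (hφ : S ≤ T.comap φ) :
    (QF k S).obj (kernel (aug k G)) ⟶
      (Rep.resFunctor (QuotientGroup.map S T φ hφ)).obj ((QF k T).obj (kernel (aug k H))) :=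
  Rep.ofHom ⟨Representation.Coinvariants.lift _
    (qmk T (kernel (aug k H)) ∘ₗ (EulN_k k φ).hom.toLinearMap) (fun s => by
      refine LinearMap.ext fun x => ?_
      show qmk T (kernel (aug k H)) ((EulN_k k φ).hom ((kernel (aug k G)).ρ s.1 x)) =
        qmk T (kernel (aug k H)) ((EulN_k k φ).hom x)
      rw [EulN_qmk_ρ φ T, ABs_qmk_ρ T _ _ (hφ s.2)]), fun q => by
      obtain ⟨g, rfl⟩ := QuotientGroup.mk_surjective q
      refine Representation.Coinvariants.hom_ext ?_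
      refine LinearMap.ext fun x => ?_
      show qmk T (kernel (aug k H)) ((EulN_k k φ).hom ((kernel (aug k G)).ρ g x)) =
        ((QF k T).obj (kernel (aug k H))).ρ (QuotientGroup.mk (φ g))
          (qmk T (kernel (aug k H)) ((EulN_k k φ).hom x))
      rw [EulN_qmk_ρ φ T, QF_rho_qmk]⟩

theorem EulN_q_apply {k G H : Type} [CommRing k] [Group G] [Group H] (φ : G →* H)
    (S : Subgroup G) [S.Normal] (T : Subgroup H) [T.Normal] (hφ : S ≤ T.comap φ)
    (u : (kernel (aug k G)).V) :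
    (EulN_q k φ S T hφ).hom (qmk S (kernel (aug k G)) u) =
      qmk T (kernel (aug k H)) ((EulN_k k φ).hom u) :=
  rfl

theorem EulN_abs {C D : Type*} [Category* C] [Category* D] [Abelian C] [Abelian D]
    [HasExt.{0} C] [HasExt.{0} D] (F : D ⥤ C) [F.Additive] [PreservesFiniteLimits F]
    [PreservesFiniteColimits F] {X₃ X₁ A : C} {X₃' X₁' A' : D} (β : Ext.{0} X₃ X₁ 1)
    (α : Ext.{0} X₁ A 1) (β' : Ext.{0} X₃' X₁' 1) (α' : Ext.{0} X₁' A' 1) (f : A ⟶ F.obj A')
    (κ : X₁ ⟶ F.obj X₁') (t : X₃ ⟶ F.obj X₃')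
    (h1 : β.comp (Ext.mk₀ κ) (add_zero 1) = (Ext.mk₀ t).comp (β'.mapExactFunctor F) (zero_add 1))
    (h2 : α.comp (Ext.mk₀ f) (add_zero 1) = (Ext.mk₀ κ).comp (α'.mapExactFunctor F) (zero_add 1)) :
    (β.comp α (show 1 + 1 = 2 from rfl)).comp (Ext.mk₀ f) (add_zero 2) =
      (Ext.mk₀ t).comp ((β'.comp α' (show 1 + 1 = 2 from rfl)).mapExactFunctor F)
        (zero_add 2) := by
  rw [Ext.mapExactFunctor_comp, Ext.comp_assoc_of_third_deg_zero, h2,
    ← Ext.comp_assoc_of_second_deg_zero, h1]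
  exact Ext.comp_assoc _ _ _ _ _ rfl

theorem EulN_id {G H B : Type} [Group G] [Group H] [AddCommGroup B] (φ : G →* H) (n : ℕ)
    (y : Ext ((Rep.resFunctor φ).obj (Rep.trivial ℤ H ℤ))
      ((Rep.resFunctor φ).obj (Rep.trivial ℤ H B)) n) :
    (Ext.mk₀ (EulN_t ℤ φ)).comp y (zero_add n) = y :=
  Ext.mk₀_id_comp y

theorem EulN_main {Γ A Γ' A' : Type} [Group Γ] [AddCommGroup A] [Group Γ'] [AddCommGroup A']
    (S : Subgroup Γ) [S.Normal] (S' : Subgroup Γ') [S'.Normal] (j : Multiplicative A →* Γ)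
    (j' : Multiplicative A' →* Γ') (θ : Γ →* Γ') (hθ : S ≤ S'.comap θ) (f : A →+ A')
    (hf : ∀ a, θ (j (Multiplicative.ofAdd a)) = j' (Multiplicative.ofAdd (f a)))
    (e : Ext (tz (Γ ⧸ S)) (Rep.trivial ℤ (Γ ⧸ S) A) 2) (he : IsEul S j e)
    (e' : Ext (tz (Γ' ⧸ S')) (Rep.trivial ℤ (Γ' ⧸ S') A') 2) (he' : IsEul S' j' e') :
    e.comp (Ext.mk₀ (tmap (Γ ⧸ S) f)) (add_zero 2) =
      e'.mapExactFunctor (Rep.resFunctor (QuotientGroup.map S S' θ hθ)) := by
  obtain ⟨ι, a, w, hS, hAB, rfl⟩ := he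
  obtain ⟨ι', a', w', hS', hAB', rfl⟩ := he'
  let F := Rep.resFunctor.{0} (k := ℤ) (QuotientGroup.map S S' θ hθ)
  -- first morphism of short exact sequences
  let m1 : augSC ℤ (Γ ⧸ S) ⟶ (augSC ℤ (Γ' ⧸ S')).map F :=
    { τ₁ := EulN_k ℤ (QuotientGroup.map S S' θ hθ)
      τ₂ := EulN_r ℤ (QuotientGroup.map S S' θ hθ)
      τ₃ := EulN_t ℤ (QuotientGroup.map S S' θ hθ)
      comm₁₂ := EulN_k_ι _
      comm₂₃ := EulN_rt _ }
  have hc1 : ι ≫ EulN_q ℤ θ S S' hθ = tmap (Γ ⧸ S) f ≫ F.map ι' := by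
    refine Rep.hom_ext ?_
    refine DFunLike.ext _ _ fun x => ?_
    show (EulN_q ℤ θ S S' hθ).hom (ι.hom x) = ι'.hom (f x)
    obtain ⟨u, hu⟩ := ABs_lift (k := ℤ)
      (MonoidAlgebra.single (j (Multiplicative.ofAdd x)) 1 - MonoidAlgebra.single 1 1 :
        MonoidAlgebra ℤ Γ) (by
      refine (map_sub (aug ℤ Γ).hom _ _).trans ?_
      rw [ABs_aug_single, ABs_aug_single, sub_self])
    rw [hAB.hι x u hu, EulN_q_apply]
    refine (hAB'.hι (f x) _ ?_).symm
    rw [EulN_k_apply, hu, map_sub, EulN_m_single, EulN_m_single, hf, map_one]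
  have hc2 : a ≫ EulN_k ℤ (QuotientGroup.map S S' θ hθ) = EulN_q ℤ θ S S' hθ ≫ F.map a' := by
    refine Rep.hom_ext ?_
    refine DFunLike.ext _ _ fun x => ?_
    obtain ⟨u, rfl⟩ := qmk_surjective S _ x
    show (EulN_k ℤ (QuotientGroup.map S S' θ hθ)).hom (a.hom (qmk S _ u)) =
      a'.hom ((EulN_q ℤ θ S S' hθ).hom (qmk S _ u))
    rw [EulN_q_apply]
    refine ABs_ι_inj _ _ ?_
    rw [EulN_k_apply, hAB.ha, hAB'.ha, EulN_k_apply, EulN_m_π]
  let m2 : ShortComplex.mk ι a w ⟶ (ShortComplex.mk ι' a' w').map F :=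
    { τ₁ := tmap (Γ ⧸ S) f
      τ₂ := EulN_q ℤ θ S S' hθ
      τ₃ := EulN_k ℤ (QuotientGroup.map S S' θ hθ)
      comm₁₂ := hc1.symm
      comm₂₃ := hc2.symm }
  have n1 := ShortComplex.ShortExact.extClass_naturality (AugE_exact ℤ (Γ ⧸ S))
    ((AugE_exact ℤ (Γ' ⧸ S')).map_of_exact F) m1
  have n2 := ShortComplex.ShortExact.extClass_naturality hS (hS'.map_of_exact F) m2
  have k1 := Ext.mapExactFunctor_extClass F (AugE_exact ℤ (Γ' ⧸ S'))
  have k2 := Ext.mapExactFunctor_extClass F hS'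
  rw [← k1] at n1
  rw [← k2] at n2
  exact (EulN_abs F _ _ _ _ _ _ _ n1 n2).trans (EulN_id _ 2 _)

end Pool.Agent.H5.CP
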