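import Pool.Agent.H5.CP.DivH
import Pool.Agent.H5.CP.ABg
import Pool.Agent.H5.CP.EulN

/-!
ROW DivD (120 lines).  Transport of `DivH_main` as in `GysD`: `K = j(ker f)` (a central, hence normal, subgroup of `Γ`), `H = Γ/K`, `t` = class of `j(a₁)` (central, infinite order), `S' = ⟨t⟩`, `θ = mk' K`, `θ(j(a)) = t^{f(a)}`, `θ̄ : Γ/S → H/S'` bijective, `F(e') = e.comp (mk₀ f)`
(`ABg_main`, `EulN_main`).  `H₂ = Γ₂.map (mk' K)` has finite index and contains `t`; `χ` kills `K` (`hχ`: `f(a) = 0`), and `K ≤ S ≤ Γ₂`, so it descends to `χ' : H₂ → Multiplicative (ZMod b)` with `χ'(t) = f(a₁) = 1`.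
`DivH_main`, `ResE_Div`.
-/

namespace Pool.Agent.H5.CP

open CategoryTheory CategoryTheory.Abelian CategoryTheory.Limits

lemma DivD_normal {Γ : Type} [Group Γ] (K : Subgroup Γ) (h : K ≤ Subgroup.center Γ) :
    K.Normal := by
  refine ⟨fun n hn g => ?_⟩
  have h1 : g * n = n * g := Subgroup.mem_center_iff.1 (h hn) g
  rw [h1, mul_assoc, mul_inv_cancel, mul_one]
  exact hn

theorem DivD_main {Γ A : Type} [Group Γ] [AddCommGroup A] (S : Subgroup Γ) [S.Normal]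
    (hc : S ≤ Subgroup.center Γ) (j : Multiplicative A →* Γ) (hj : Function.Injective j)
    (hS : ∀ x, x ∈ S ↔ ∃ a, j (Multiplicative.ofAdd a) = x) (f : A →+ ℤ) (a₁ : A)
    (hf : f a₁ = 1) (b : ℕ) (hb : 0 < b) (Γ₂ : Subgroup Γ) [Γ₂.FiniteIndex] (hΓ₂ : S ≤ Γ₂)
    (χ : Γ₂ →* Multiplicative (ZMod b))
    (hχ : ∀ (a : A) (h : j (Multiplicative.ofAdd a) ∈ Γ₂),
      χ ⟨j (Multiplicative.ofAdd a), h⟩ = Multiplicative.ofAdd ((f a : ℤ) : ZMod b))
    (e : Ext (tz (Γ ⧸ S)) (Rep.trivial ℤ (Γ ⧸ S) A) 2) (he : IsEul S j e) :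
    DivP (Γ ⧸ S) (e.comp (Ext.mk₀ (tmap (Γ ⧸ S) f)) (add_zero 2)) b := by
  obtain ⟨K, hK⟩ : ∃ K : Subgroup Γ,
      ∀ x, x ∈ K ↔ ∃ a, f a = 0 ∧ j (Multiplicative.ofAdd a) = x := by
    refine ⟨(MonoidHom.ker (AddMonoidHom.toMultiplicative f)).map j, fun x => ?_⟩
    rw [Subgroup.mem_map]
    constructor
    · rintro ⟨a, ha, rfl⟩
      exact ⟨Multiplicative.toAdd a, by simpa [MonoidHom.mem_ker] using ha, rfl⟩
    · rintro ⟨a, ha, rfl⟩
      exact ⟨Multiplicative.ofAdd a, by simp [ha], rfl⟩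
  have hKS : K ≤ S := by
    intro x hx
    obtain ⟨a, -, rfl⟩ := (hK x).1 hx
    exact (hS _).2 ⟨a, rfl⟩
  have hKn : K.Normal := DivD_normal K (hKS.trans hc)
  obtain ⟨t, ht0⟩ : ∃ t : Γ ⧸ K, t = QuotientGroup.mk' K (j (Multiplicative.ofAdd a₁)) := ⟨_, rfl⟩
  have key : ∀ a : A, QuotientGroup.mk' K (j (Multiplicative.ofAdd a)) = t ^ (f a) := by
    intro a
    rw [ht0, ← map_zpow, ← map_zpow, ← ofAdd_zsmul]
    refine (QuotientGroup.mk'_eq_mk' K).2 ⟨j (Multiplicative.ofAdd (-a + f a • a₁)), ?_, ?_⟩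
    · refine (hK _).2 ⟨_, ?_, rfl⟩
      rw [map_add, map_neg, map_zsmul, hf]
      simp
    · rw [← map_mul, ← ofAdd_add, ← add_assoc, add_neg_cancel, zero_add]
  have htc : t ∈ Subgroup.center (Γ ⧸ K) := by
    rw [Subgroup.mem_center_iff]
    intro g
    obtain ⟨g, rfl⟩ := QuotientGroup.mk'_surjective K g
    rw [ht0, ← map_mul, ← map_mul]
    have h1 := Subgroup.mem_center_iff.1 (hc ((hS _).2 ⟨a₁, rfl⟩)) g
    rw [h1]
  have hti : ∀ n : ℤ, t ^ n = 1 → n = 0 := by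
    intro n hn
    have h1 : QuotientGroup.mk' K (j (Multiplicative.ofAdd (n • a₁))) = 1 := by
      rw [key, map_zsmul, hf]
      simpa using hn
    have h2 : j (Multiplicative.ofAdd (n • a₁)) ∈ K := by
      rw [← MonoidHom.mem_ker, QuotientGroup.ker_mk'] at h1
      exact h1
    obtain ⟨a, ha, ha2⟩ := (hK _).1 h2
    have h3 : a = n • a₁ := by
      exact Multiplicative.ofAdd.injective (hj ha2)
    rw [h3, map_zsmul, hf] at ha
    simpa using ha
  have hSn : (Subgroup.zpowers t).Normal := by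
    refine DivD_normal _ ?_
    rw [Subgroup.zpowers_le]
    exact htc
  have hθ : S ≤ (Subgroup.zpowers t).comap (QuotientGroup.mk' K) := by
    intro x hx
    obtain ⟨a, rfl⟩ := (hS x).1 hx
    rw [Subgroup.mem_comap, key]
    exact Subgroup.zpow_mem_zpowers t _
  have hbij : Function.Bijective (QuotientGroup.map S (Subgroup.zpowers t)
      (QuotientGroup.mk' K) hθ) := by
    constructor
    · rw [injective_iff_map_eq_one]
      intro g hg
      obtain ⟨g, rfl⟩ := QuotientGroup.mk'_surjective S g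
      have h1 : QuotientGroup.mk' K g ∈ Subgroup.zpowers t := by
        rw [← QuotientGroup.ker_mk' (Subgroup.zpowers t), MonoidHom.mem_ker]
        exact hg
      obtain ⟨n, hn⟩ := Subgroup.mem_zpowers_iff.1 h1
      have h2 : QuotientGroup.mk' K (j (Multiplicative.ofAdd (n • a₁))) =
          QuotientGroup.mk' K g := by
        rw [key, map_zsmul, hf, ← hn]
        simp
      obtain ⟨z, hz, hz2⟩ := (QuotientGroup.mk'_eq_mk' K).1 h2
      rw [← MonoidHom.mem_ker, QuotientGroup.ker_mk', ← hz2]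
      exact S.mul_mem ((hS _).2 ⟨_, rfl⟩) (hKS hz)
    · intro g
      obtain ⟨g, rfl⟩ := QuotientGroup.mk'_surjective (Subgroup.zpowers t) g
      obtain ⟨g, rfl⟩ := QuotientGroup.mk'_surjective K g
      exact ⟨QuotientGroup.mk' S g, rfl⟩
  obtain ⟨e', he'⟩ := ABg_main (A := ℤ) (Subgroup.zpowers t)
    (by rw [Subgroup.zpowers_le]; exact htc) (zpowersHom (Γ ⧸ K) t)
    (by
      rw [injective_iff_map_eq_one]
      intro n hn
      rw [zpowersHom_apply] at hn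
      exact hti _ hn)
    (by
      intro x
      rw [Subgroup.mem_zpowers_iff]
      rfl)
  have hE := EulN_main S (Subgroup.zpowers t) j (zpowersHom (Γ ⧸ K) t) (QuotientGroup.mk' K) hθ f
    (fun a => by rw [key, zpowersHom_apply]; rfl) e he e' he'
  rw [hE]
  refine ResE_Div _ hbij e' b ?_
  have hsurj : Function.Surjective ((QuotientGroup.mk' K).subgroupMap Γ₂) :=
    (QuotientGroup.mk' K).subgroupMap_surjective Γ₂
  have hker : ((QuotientGroup.mk' K).subgroupMap Γ₂).ker ≤ χ.ker := by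
    rintro ⟨x, hx⟩ hx2
    rw [MonoidHom.mem_ker] at hx2 ⊢
    have h1 : QuotientGroup.mk' K x = 1 := congrArg Subtype.val hx2
    rw [← MonoidHom.mem_ker, QuotientGroup.ker_mk'] at h1
    obtain ⟨a, ha, rfl⟩ := (hK x).1 h1
    rw [hχ a hx, ha]
    simp
  have hfi : (Γ₂.map (QuotientGroup.mk' K)).FiniteIndex := by
    refine ⟨fun h0 => ?_⟩
    have h1 := Γ₂.index_map_dvd (QuotientGroup.mk'_surjective K)
    rw [h0, zero_dvd_iff] at h1
    exact Subgroup.FiniteIndex.index_ne_zero h1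
  have htH : t ∈ Γ₂.map (QuotientGroup.mk' K) := by
    rw [ht0]
    exact Subgroup.mem_map_of_mem _ (hΓ₂ ((hS _).2 ⟨a₁, rfl⟩))
  refine DivH_main t htc hti b hb (Γ₂.map (QuotientGroup.mk' K)) htH
    (((QuotientGroup.mk' K).subgroupMap Γ₂).liftOfSurjective hsurj ⟨χ, hker⟩) ?_ e' he'
  have h1 : (⟨t, htH⟩ : Γ₂.map (QuotientGroup.mk' K)) = (QuotientGroup.mk' K).subgroupMap Γ₂
      ⟨j (Multiplicative.ofAdd a₁), hΓ₂ ((hS _).2 ⟨a₁, rfl⟩)⟩ := by
    apply Subtype.ext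
    exact ht0
  rw [h1]
  have h2 := MonoidHom.liftOfRightInverse_comp_apply ((QuotientGroup.mk' K).subgroupMap Γ₂) _
    (Function.rightInverse_surjInv hsurj) ⟨χ, hker⟩
    ⟨j (Multiplicative.ofAdd a₁), hΓ₂ ((hS _).2 ⟨a₁, rfl⟩)⟩
  refine h2.trans ?_
  change χ _ = _
  rw [hχ, hf]
  simp

end Pool.Agent.H5.CP
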