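import Pool.Agent.H5.CP.EDef

/-!
ROW ResE (150 lines).  Transport along an isomorphism `φ : G → G'` of groups (given as a bijective homomorphism).  `F = Rep.resFunctor φ` is fully faithful (`Rep.full_res`), essentially surjective
(`A` = `F` of `Rep.res φ⁻¹ A`), preserves projectives (adjunction `Rep.resCoindAdjunction`, `preservesProjectiveObjects_of_adjunction_of_preservesEpimorphisms`: the right adjoint preserves epimorphisms;
or: `F` is an equivalence).  `ResE_bij`: `Functor.mapExt_bijective_of_preservesProjectiveObjects`.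
`ResE_Gys`: given `A : Rep ℤ G`, `A ≅ F A'`; compose with `mk₀` of the isomorphism to reduce to `F A'`; then every element of `Ext (tz G) (F A') n` is `F(x')` (`tz G = F (tz G')` by rfl), and
`F(s • y') = s • F(y')`, `F(e'.comp x') = F(e').comp F(x')` (`Ext.mapExactFunctor_comp`), `F` injective.
`ResE_Div`: the same with `epow` (`F (epow e' m k x) = epow (F e') m k (F x)` by induction on `k`).
-/

namespace Pool.Agent.H5.CP

open CategoryTheory CategoryTheory.Abelian CategoryTheory.Limits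

theorem ResE_obj {G G' : Type} [Group G] [Group G'] (φ : G →* G') (hφ : Function.Bijective φ)
    (A : Rep.{0} ℤ G) : ∃ A' : Rep.{0} ℤ G', Nonempty ((Rep.resFunctor φ).obj A' ≅ A) := by
  let e := MulEquiv.ofBijective φ hφ
  refine ⟨(Rep.resFunctor e.symm.toMonoidHom).obj A, ⟨eqToIso ?_⟩⟩
  have h : (A.ρ.comp e.symm.toMonoidHom).comp φ = A.ρ := by
    apply MonoidHom.ext
    intro g
    change A.ρ (e.symm (φ g)) = A.ρ g
    have h1 : e.symm (φ g) = g := e.symm_apply_apply g
    rw [h1]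
  exact congrArg (fun ρ => @Rep.of ℤ G _ _ A.V A.hV1 A.hV2 ρ) h

theorem ResE_bij {G G' : Type} [Group G] [Group G'] (φ : G →* G') (hφ : Function.Bijective φ)
    (X Y : Rep.{0} ℤ G') (n : ℕ) :
    Function.Bijective (Functor.mapExtAddHom (Rep.resFunctor φ) X Y n) := by
  have h1 : (Rep.resFunctor.{0} (k := ℤ) φ).Full := Rep.full_res φ hφ.2
  have h2 : (Rep.resFunctor.{0} (k := ℤ) φ).EssSurj := ⟨fun A => ResE_obj φ hφ A⟩
  have h3 : (Rep.resFunctor.{0} (k := ℤ) φ).IsEquivalence := {}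
  exact Functor.mapExt_bijective_of_preservesProjectiveObjects _ X Y n

theorem ResE_epow {G G' : Type} [Group G] [Group G'] (φ : G →* G')
    (e' : Ext (tz G') (tz G') 2) (m k : ℕ) (x : Ext (tz G') (tz G') m) :
    (epow e' m k x).mapExactFunctor (Rep.resFunctor φ) =
      epow (G := G) (A := tz G) (e'.mapExactFunctor (Rep.resFunctor φ)) m k
        (x.mapExactFunctor (Rep.resFunctor φ)) := by
  induction k with
  | zero => rfl
  | succ k ih =>
    have h1 : (epow e' m (k + 1) x).mapExactFunctor (Rep.resFunctor φ) =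
        (e'.mapExactFunctor (Rep.resFunctor φ)).comp
          ((epow e' m k x).mapExactFunctor (Rep.resFunctor φ)) (by omega) :=
      Ext.mapExactFunctor_comp (Rep.resFunctor φ) e' (epow e' m k x) (by omega)
    rw [h1, ih]
    rfl

private theorem ResE_gen {C D : Type*} [Category C] [Abelian C] [Category D] [Abelian D]
    [HasExt.{0} C] [HasExt.{0} D] (F : C ⥤ D) [F.Additive] [PreservesFiniteLimits F]
    [PreservesFiniteColimits F] {T A' : C} {A : D} (i : F.obj A' ≅ A) (e' : Ext.{0} T T 2)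
    (s n : ℕ) (hb : ∀ m, Function.Bijective (F.mapExtAddHom T A' m))
    (h : (∀ y : Ext.{0} T A' (n + 2), ∃ x : Ext.{0} T A' n, s • y = e'.comp x (add_comm 2 n)) ∧
      ∀ x : Ext.{0} T A' n, e'.comp x (add_comm 2 n) = 0 → s • x = 0) :
    (∀ y : Ext.{0} (F.obj T) A (n + 2), ∃ x : Ext.{0} (F.obj T) A n,
      s • y = (e'.mapExactFunctor F).comp x (add_comm 2 n)) ∧
      ∀ x : Ext.{0} (F.obj T) A n, (e'.mapExactFunctor F).comp x (add_comm 2 n) = 0 →
        s • x = 0 := by
  have hback : ∀ (m : ℕ) (y : Ext.{0} (F.obj T) A m),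
      (y.comp (Ext.mk₀ i.inv) (add_zero m)).comp (Ext.mk₀ i.hom) (add_zero m) = y := by
    intro m y
    rw [Ext.comp_assoc_of_third_deg_zero, Ext.mk₀_comp_mk₀, i.inv_hom_id, Ext.comp_mk₀_id]
  have hex : ∀ (m : ℕ) (y : Ext.{0} (F.obj T) A m), ∃ y' : Ext.{0} T A' m,
      y = (y'.mapExactFunctor F).comp (Ext.mk₀ i.hom) (add_zero m) ∧
      y.comp (Ext.mk₀ i.inv) (add_zero m) = y'.mapExactFunctor F := by
    intro m y
    obtain ⟨y', hy'⟩ := (hb m).2 (y.comp (Ext.mk₀ i.inv) (add_zero m))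
    rw [Functor.mapExtAddHom_apply] at hy'
    exact ⟨y', by rw [hy', hback], hy'.symm⟩
  have hsm : ∀ (m : ℕ) (y' : Ext.{0} T A' m),
      s • (y'.mapExactFunctor F).comp (Ext.mk₀ i.hom) (add_zero m) =
        ((s • y').mapExactFunctor F).comp (Ext.mk₀ i.hom) (add_zero m) := by
    intro m y'
    have h1 : (s • y').mapExactFunctor F = s • y'.mapExactFunctor F :=
      map_nsmul (F.mapExtAddHom T A' m) s y'
    rw [h1]
    exact (map_nsmul ((Ext.mk₀ i.hom).postcomp (F.obj T) (add_zero m)) s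
      (y'.mapExactFunctor F)).symm
  constructor
  · intro y
    obtain ⟨y', hy', -⟩ := hex _ y
    obtain ⟨x', hx'⟩ := h.1 y'
    refine ⟨(x'.mapExactFunctor F).comp (Ext.mk₀ i.hom) (add_zero n), ?_⟩
    rw [hy', hsm, hx', Ext.mapExactFunctor_comp, Ext.comp_assoc_of_third_deg_zero]
  · intro x hx
    obtain ⟨x', hx1, hx2⟩ := hex _ x
    rw [hx1, hsm]
    have h2 : e'.comp x' (add_comm 2 n) = 0 := by
      apply (hb (n + 2)).1
      rw [Functor.mapExtAddHom_apply, map_zero, Ext.mapExactFunctor_comp, ← hx2,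
        ← Ext.comp_assoc_of_third_deg_zero, hx, Ext.zero_comp]
    rw [h.2 x' h2, Ext.mapExactFunctor_zero, Ext.zero_comp]

theorem ResE_Gys {G G' : Type} [Group G] [Group G'] (φ : G →* G') (hφ : Function.Bijective φ)
    (e' : Ext (tz G') (tz G') 2) (h : GysP G' e') :
    GysP G (e'.mapExactFunctor (Rep.resFunctor φ)) := by
  obtain ⟨s, N, hs, h1⟩ := h
  refine ⟨s, N, hs, fun A n hn => ?_⟩
  obtain ⟨A', ⟨i⟩⟩ := ResE_obj φ hφ A
  exact ResE_gen (Rep.resFunctor φ) i e' s n (fun m => ResE_bij φ hφ _ _ m) (h1 A' n hn)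

theorem ResE_Div {G G' : Type} [Group G] [Group G'] (φ : G →* G') (hφ : Function.Bijective φ)
    (e' : Ext (tz G') (tz G') 2) (a : ℕ) (h : DivP G' e' a) :
    DivP G (e'.mapExactFunctor (Rep.resFunctor φ)) a := by
  obtain ⟨N, hN, h1⟩ := h
  refine ⟨N, hN, fun m k x => ?_⟩
  obtain ⟨x', hx'⟩ := (ResE_bij φ hφ (tz G') (tz G') m).2 x
  obtain ⟨y', hy'⟩ := h1 m k x'
  refine ⟨y'.mapExactFunctor (Rep.resFunctor φ), ?_⟩
  have h2 : N • (epow e' m k x').mapExactFunctor (Rep.resFunctor φ) =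
      a ^ k • y'.mapExactFunctor (Rep.resFunctor φ) := by
    have h3 := congrArg (Functor.mapExtAddHom (Rep.resFunctor φ) (tz G') (tz G') (m + 2 * k)) hy'
    rw [map_nsmul, map_nsmul] at h3
    exact h3
  rw [ResE_epow] at h2
  rw [← hx']
  exact h2

end Pool.Agent.H5.CP
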