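import Pool.Agent.H5.CP.EDef

/-!
ROW TrKer (150 lines).  The kernel of restriction to a subgroup `S` of finite index `N` is killed by `N`.  Induction on `n`, for all `X`.
`n = 0`: `Ext^0 = Hom` and restriction is faithful: `z = 0`.
Let `0 → K → P → X → 0` with `P` projective (`Projective.over X`).
`n = 1`: `z = δ.comp (mk₀ f)`, `f : K → Y` (`Ext¹(P,Y) = 0`).  `Res z = 0` means `f` extends to an `S`-linear map `h : P → Y` (`Ext.contravariant_sequence_exact₁` for the restricted sequence; `mapExactFunctor_extClass`,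
`mapExactFunctor_comp`, `mapExactFunctor_mk₀`).  `tr h = Σ_{g ∈ G/S} g h g⁻¹ : P → Y` is well defined, `G`-linear (sum over `G ⧸ S`, `Quotient.out`, or `Representation`/`Subgroup.leftTransversals`), and on `K` it is `N f`.  So `N • z = δ.comp (mk₀ (N f)) = 0`.
`n + 1`, `n ≥ 1`: `z = δ.comp z'`, `z' ∈ Ext^n(K,Y)`; `0 = Res z = Res δ .comp Res z'` and `Ext^n_S(Res P, Res Y) = 0` (`Res P` is projective: Mathlib instance `(Rep.resFunctor S.subtype).PreservesProjectiveObjects`), so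
`Res z' = 0`; induction.
-/

namespace Pool.Agent.H5.CP

open CategoryTheory CategoryTheory.Abelian CategoryTheory.Limits

/-- the conjugate `x ↦ g h(g⁻¹ x)` -/
noncomputable def TrKer_F {k G : Type} [CommRing k] [Group G] {P Y : Rep.{0} k G}
    (h : P.V →ₗ[k] Y.V) (g : G) : P.V →ₗ[k] Y.V :=
  (Y.ρ g) ∘ₗ h ∘ₗ (P.ρ g⁻¹)

theorem TrKer_F_apply {k G : Type} [CommRing k] [Group G] {P Y : Rep.{0} k G}
    (h : P.V →ₗ[k] Y.V) (g : G) (x : P.V) :
    TrKer_F (P := P) (Y := Y) h g x = Y.ρ g (h (P.ρ g⁻¹ x)) := rfl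

theorem TrKer_F_mul {k G : Type} [CommRing k] [Group G] {P Y : Rep.{0} k G}
    (h : P.V →ₗ[k] Y.V) (a g : G) (x : P.V) :
    TrKer_F (P := P) (Y := Y) h g (P.ρ a x) =
      Y.ρ a (TrKer_F (P := P) (Y := Y) h (a⁻¹ * g) x) := by
  rw [TrKer_F_apply, TrKer_F_apply, ← Module.End.mul_apply, ← Module.End.mul_apply, ← map_mul,
    ← map_mul, mul_inv_cancel_left, mul_inv_rev, inv_inv]

theorem TrKer_F_right {k G : Type} [CommRing k] [Group G] (S : Subgroup G) {P Y : Rep.{0} k G}
    (h : P.V →ₗ[k] Y.V) (hh : ∀ s ∈ S, ∀ x, h (P.ρ s x) = Y.ρ s (h x)) (a b : G)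
    (hab : a⁻¹ * b ∈ S) : TrKer_F (P := P) (Y := Y) h a = TrKer_F (P := P) (Y := Y) h b := by
  ext x
  rw [TrKer_F_apply, TrKer_F_apply]
  have h1 : P.ρ a⁻¹ x = P.ρ (a⁻¹ * b) (P.ρ b⁻¹ x) := by
    rw [← Module.End.mul_apply, ← map_mul, mul_assoc, mul_inv_cancel, mul_one]
  rw [h1, hh _ hab, ← Module.End.mul_apply, ← map_mul, mul_inv_cancel_left]

theorem TrKer_tr0 {k G : Type} [CommRing k] [Group G] (S : Subgroup G) [S.FiniteIndex]
    {P Y : Rep.{0} k G}
    (h : (Rep.resFunctor S.subtype).obj P ⟶ (Rep.resFunctor S.subtype).obj Y) :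
    ∃ t : P ⟶ Y, ∀ (K : Rep.{0} k G) (i : K ⟶ P) (f : K ⟶ Y),
      (Rep.resFunctor S.subtype).map i ≫ h = (Rep.resFunctor S.subtype).map f →
        ∀ x : K.V, (i ≫ t).hom x = S.index • f.hom x := by
  classical
  let h0 : P.V →ₗ[k] Y.V := h.hom.toLinearMap
  have hh : ∀ s ∈ S, ∀ x, h0 (P.ρ s x) = Y.ρ s (h0 x) := by
    intro s hs x
    exact LinearMap.congr_fun (h.hom.isIntertwining' ⟨s, hs⟩) x
  have : Fintype (G ⧸ S) := Subgroup.fintypeQuotientOfFiniteIndex
  let T : P.V →ₗ[k] Y.V := ∑ q : G ⧸ S, TrKer_F (P := P) (Y := Y) h0 q.out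
  have hT : ∀ x, T x = ∑ q : G ⧸ S, TrKer_F (P := P) (Y := Y) h0 q.out x := fun x =>
    LinearMap.sum_apply _ _ _
  have hTG : ∀ (a : G) (x : P.V), T (P.ρ a x) = Y.ρ a (T x) := by
    intro a x
    rw [hT, hT, map_sum]
    refine Fintype.sum_equiv (MulAction.toPerm a⁻¹) _ _ fun q => ?_
    rw [TrKer_F_mul]
    congr 1
    refine LinearMap.congr_fun (TrKer_F_right S h0 hh _ _ ?_) x
    have h1 : ((a⁻¹ * q.out : G) : G ⧸ S) = (((a⁻¹ • q : G ⧸ S)).out : G ⧸ S) := by
      rw [QuotientGroup.out_eq']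
      conv_rhs => rw [← QuotientGroup.out_eq' q]
      rfl
    exact QuotientGroup.eq.1 h1
  let t : P ⟶ Y := Rep.ofHom ⟨T, fun a => LinearMap.ext fun x => hTG a x⟩
  refine ⟨t, fun K i f hf => ?_⟩
  have hf' : ∀ x : K.V, h0 (i.hom x) = f.hom x := by
    intro x
    exact congrArg (fun u => u.hom x) hf
  have hi : ∀ (a : G) (x : K.V), i.hom (K.ρ a x) = P.ρ a (i.hom x) := fun a x =>
    LinearMap.congr_fun (i.hom.isIntertwining' a) x
  have hfe : ∀ (a : G) (x : K.V), f.hom (K.ρ a x) = Y.ρ a (f.hom x) := fun a x =>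
    LinearMap.congr_fun (f.hom.isIntertwining' a) x
  intro x
  change T (i.hom x) = S.index • f.hom x
  rw [hT]
  have h4 : ∀ q : G ⧸ S, TrKer_F (P := P) (Y := Y) h0 q.out (i.hom x) = f.hom x := by
    intro q
    rw [TrKer_F_apply, ← hi, hf', hfe, ← Module.End.mul_apply, ← map_mul, mul_inv_cancel, map_one]
    rfl
  rw [Finset.sum_congr rfl fun q _ => h4 q, Finset.sum_const, Finset.card_univ,
    Subgroup.index_eq_card, Nat.card_eq_fintype_card]

theorem TrKer_nsmul {k G : Type} [CommRing k] [Group G] {K Y : Rep.{0} k G} (f : K ⟶ Y) (n : ℕ)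
    (x : K.V) : (n • f).hom x = n • f.hom x := by
  induction n with
  | zero =>
    rw [zero_smul, zero_smul]
    rfl
  | succ n ih =>
    rw [succ_nsmul, succ_nsmul, ← ih]
    rfl

theorem TrKer_tr {k G : Type} [CommRing k] [Group G] (S : Subgroup G) [S.FiniteIndex]
    {P Y : Rep.{0} k G}
    (h : (Rep.resFunctor S.subtype).obj P ⟶ (Rep.resFunctor S.subtype).obj Y) :
    ∃ t : P ⟶ Y, ∀ (K : Rep.{0} k G) (i : K ⟶ P) (f : K ⟶ Y),
      (Rep.resFunctor S.subtype).map i ≫ h = (Rep.resFunctor S.subtype).map f →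
        i ≫ t = S.index • f := by
  obtain ⟨t, ht⟩ := TrKer_tr0 S h
  refine ⟨t, fun K i f hf => ?_⟩
  apply Rep.hom_ext
  apply Representation.IntertwiningMap.ext
  apply LinearMap.ext
  intro x
  exact (ht K i f hf x).trans (TrKer_nsmul f S.index x).symm

theorem TrKer_proj {G : Type} [Group G] (S : Subgroup G) (P : Rep.{0} ℤ G) (hP : Projective P) :
    Projective ((Rep.resFunctor S.subtype).obj P) :=
  Functor.projective_obj_of_projective _ hP

theorem TrKer_main {G : Type} [Group G] (S : Subgroup G) [S.FiniteIndex] (X Y : Rep.{0} ℤ G)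
    (n : ℕ) (z : Ext X Y n) (hz : z.mapExactFunctor (Rep.resFunctor S.subtype) = 0) :
    S.index • z = 0 := by
  induction n generalizing X with
  | zero =>
    obtain ⟨f, rfl⟩ := (Ext.mk₀_bijective X Y).2 z
    rw [Ext.mapExactFunctor_mk₀, ← Ext.mk₀_zero] at hz
    have h1 : (Rep.resFunctor S.subtype).map f = 0 := (Ext.mk₀_bijective _ _).1 hz
    have h2 : f = 0 := (Rep.resFunctor S.subtype).map_injective
      (h1.trans ((Rep.resFunctor S.subtype).map_zero X Y).symm)
    rw [h2, Ext.mk₀_zero, smul_zero]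
  | succ n ih =>
    let SES : ShortComplex (Rep.{0} ℤ G) :=
      ShortComplex.mk (kernel.ι (Projective.π X)) (Projective.π X) (kernel.condition _)
    have hS : SES.ShortExact :=
      { exact := ShortComplex.exact_kernel (Projective.π X)
        mono_f := inferInstanceAs (Mono (kernel.ι (Projective.π X)))
        epi_g := inferInstanceAs (Epi (Projective.π X)) }
    have hP : Projective SES.X₂ := inferInstanceAs (Projective (Projective.over X))
    have hP' : Projective (SES.map (Rep.resFunctor S.subtype)).X₂ := TrKer_proj S _ hP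
    obtain ⟨z', hz'⟩ := Ext.contravariant_sequence_exact₃ hS Y z
      (Ext.eq_zero_of_projective (P := SES.X₂) _) (add_comm 1 n)
    have h0 : ((hS.map_of_exact (Rep.resFunctor S.subtype)).extClass).comp
        (z'.mapExactFunctor (Rep.resFunctor S.subtype)) (add_comm 1 n) = 0 := by
      have e1 := Ext.mapExactFunctor_comp (Rep.resFunctor S.subtype) hS.extClass z' (add_comm 1 n)
      have e2 := Ext.mapExactFunctor_extClass (Rep.resFunctor S.subtype) hS
      rw [hz', hz] at e1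
      exact (congrArg (fun u => u.comp
        (z'.mapExactFunctor (Rep.resFunctor S.subtype)) (add_comm 1 n)) e2).symm.trans e1.symm
    obtain ⟨x2, hx2⟩ := Ext.contravariant_sequence_exact₁
      (hS.map_of_exact (Rep.resFunctor S.subtype)) _ _ (add_comm 1 n) h0
    have hsm : S.index • z = hS.extClass.comp (S.index • z') (add_comm 1 n) := by
      rw [← hz']
      exact (map_nsmul (hS.extClass.precomp Y (add_comm 1 n)) S.index z').symm
    rw [hsm]
    cases n with
    | zero =>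
      obtain ⟨f, rfl⟩ := (Ext.mk₀_bijective _ Y).2 z'
      obtain ⟨h, rfl⟩ := (Ext.mk₀_bijective _ _).2 x2
      rw [Ext.mk₀_comp_mk₀] at hx2
      have h1 : (SES.map (Rep.resFunctor S.subtype)).f ≫ h = (Rep.resFunctor S.subtype).map f :=
        (Ext.mk₀_bijective _ _).1 (hx2.trans (Ext.mapExactFunctor_mk₀ _ f))
      obtain ⟨t, ht⟩ := TrKer_tr S h
      have h2 := ht _ _ f h1
      have h3 : S.index • Ext.mk₀ f = Ext.mk₀ (S.index • f) :=
        (map_nsmul (Ext.addEquiv₀ (X := SES.X₁) (Y := Y)).symm S.index f).symm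
      rw [h3, ← h2, ← Ext.mk₀_comp_mk₀]
      exact hS.extClass_comp_assoc _
    | succ n =>
      have h1 : x2 = 0 := Ext.eq_zero_of_projective (P := (SES.map (Rep.resFunctor S.subtype)).X₂) _
      rw [h1, Ext.comp_zero] at hx2
      rw [ih _ z' hx2.symm, Ext.comp_zero]

end Pool.Agent.H5.CP
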