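import Pool.Agent.H5.CP.DivA
import Pool.Agent.H5.CP.TrKer
import Pool.Agent.H5.CP.ResE

/-!
ROW DivH (120 lines).  `DivP (H/⟨t⟩) e a` with `N` = index of `G₂ = H₂/⟨t⟩` in `G` (finite).  Let `F` = restriction to `G₂`, `F(e) = a • e₂` (`DivA_main`).  `F(epow e m k x) = epow (F e) m k (F x)` (`ResE_epow`) `= a^k • epow e₂ m k (F x)`
(induction on `k`).  Let `z = epow e m k x`, `q = a^k > 0` and `0 → ℤ → ℤ → ZMod q → 0` (multiplication by `q`).  `z̄ = z.comp (mk₀ (ℤ → ZMod q))`; `F(z̄) = q • (..).comp (mk₀ ..) = 0` since `q` kills `ZMod q` (`q • mk₀ π = mk₀ (q • π) = 0`).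
`TrKer_main`: `N • z̄ = 0`.  So `(N • z).comp (mk₀ π) = 0` and by `Ext.covariant_sequence_exact₂` `N • z = y.comp (mk₀ (q • 𝟙)) = q • y`.
-/

namespace Pool.Agent.H5.CP

open CategoryTheory CategoryTheory.Abelian CategoryTheory.Limits

lemma DivH_nsmul_comp {C : Type*} [Category* C] [Abelian C] [HasExt.{0} C] {X Y Z : C} {a b c : ℕ}
    (α : Ext X Y a) (β : Ext Y Z b) (h : a + b = c) (r : ℕ) :
    (r • α).comp β h = r • α.comp β h :=
  map_nsmul (Ext.postcomp β X h) r α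

lemma DivH_comp_nsmul {C : Type*} [Category* C] [Abelian C] [HasExt.{0} C] {X Y Z : C} {a b c : ℕ}
    (α : Ext X Y a) (β : Ext Y Z b) (h : a + b = c) (r : ℕ) :
    α.comp (r • β) h = r • α.comp β h :=
  map_nsmul (Ext.precomp α Z h) r β

lemma DivH_mk₀_nsmul {C : Type*} [Category* C] [Abelian C] [HasExt.{0} C] {X Y : C} (f : X ⟶ Y)
    (r : ℕ) : Ext.mk₀ (r • f) = r • Ext.mk₀ f :=
  map_nsmul Ext.addEquiv₀.symm r f

lemma DivH_epow {G : Type} [Group G] (e : Ext (tz G) (tz G) 2) (a m : ℕ)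
    (x : Ext (tz G) (tz G) m) (k : ℕ) :
    epow (a • e) m k x = a ^ k • epow e m k x := by
  induction k with
  | zero => rw [pow_zero, one_smul]; rfl
  | succ k ih =>
    show (a • e).comp (epow (a • e) m k x) _ = a ^ (k + 1) • e.comp (epow e m k x) _
    rw [ih, DivH_comp_nsmul, DivH_nsmul_comp, smul_smul, pow_succ]

lemma DivH_tmap (G : Type) [Group G] (q : ℕ) :
    tmap G (AddMonoidHom.mulLeft (q : ℤ)) = q • 𝟙 (tz G) := by
  induction q with
  | zero =>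
    rw [zero_smul]
    ext
    simp [tmap]
  | succ q ih =>
    rw [succ_nsmul, ← ih]
    ext
    show (((q + 1 : ℕ) : ℤ)) * 1 = (q : ℤ) * 1 + 1
    push_cast
    ring

lemma DivH_w (G : Type) [Group G] (q : ℕ) :
    tmap G (AddMonoidHom.mulLeft (q : ℤ)) ≫ tmap G (Int.castAddHom (ZMod q)) = 0 := by
  ext
  simp [tmap]

lemma DivH_se (G : Type) [Group G] (q : ℕ) (hq : 0 < q) :
    (ShortComplex.mk (tmap G (AddMonoidHom.mulLeft (q : ℤ))) (tmap G (Int.castAddHom (ZMod q)))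
      (DivH_w G q)).ShortExact := by
  have hq' : (q : ℤ) ≠ 0 := by exact_mod_cast hq.ne'
  refine ABs_shortExact _ ?_ ?_ ?_
  · intro x y h
    have h2 : (q : ℤ) * (x : ℤ) = (q : ℤ) * (y : ℤ) := h
    exact mul_left_cancel₀ hq' h2
  · intro x
    obtain ⟨y, hy⟩ := ZMod.intCast_surjective (n := q) x
    exact ⟨y, hy⟩
  · intro x hx
    have h2 : ((x : ℤ) : ZMod q) = 0 := hx
    obtain ⟨c, hc⟩ := (ZMod.intCast_zmod_eq_zero_iff_dvd x q).1 h2
    exact ⟨c, hc.symm⟩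

lemma DivH_res {C D : Type*} [Category* C] [Category* D] [Abelian C] [Abelian D] [HasExt.{0} C]
    [HasExt.{0} D] (F : C ⥤ D) [F.Additive] [PreservesFiniteLimits F] [PreservesFiniteColimits F]
    {X Y Z : C} {n : ℕ} (z : Ext X Y n) (q : ℕ) (w : Ext (F.obj X) (F.obj Y) n)
    (hw : z.mapExactFunctor F = q • w) (p : Y ⟶ Z) (hp : q • p = 0) :
    (z.comp (Ext.mk₀ p) (add_zero _)).mapExactFunctor F = 0 := by
  rw [Ext.mapExactFunctor_comp, Ext.mapExactFunctor_mk₀, hw, DivH_nsmul_comp,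
    ← DivH_comp_nsmul, ← DivH_mk₀_nsmul, ← Functor.map_nsmul, hp, Functor.map_zero,
    Ext.mk₀_zero, Ext.comp_zero]

lemma DivH_core {G : Type} [Group G] (S : Subgroup G) [S.FiniteIndex] (a : ℕ) (ha : 0 < a)
    (e : Ext (tz G) (tz G) 2) (e₂ : Ext (tz S) (tz S) 2)
    (h2 : e.mapExactFunctor (Rep.resFunctor S.subtype) = a • e₂) : DivP G e a := by
  refine ⟨S.index, Nat.pos_of_ne_zero Subgroup.FiniteIndex.index_ne_zero, fun m k x => ?_⟩
  have hq0 : 0 < a ^ k := pow_pos ha k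
  have hFz : (epow e m k x).mapExactFunctor (Rep.resFunctor S.subtype) =
      a ^ k • epow (G := S) (A := tz S) e₂ m k (x.mapExactFunctor (Rep.resFunctor S.subtype)) := by
    refine (ResE_epow S.subtype e m k x).trans ?_
    refine Eq.trans ?_ (DivH_epow (G := S) e₂ a m
      (x.mapExactFunctor (Rep.resFunctor S.subtype)) k)
    exact congrArg (fun u => epow (G := S) (A := tz S) u m k
      (x.mapExactFunctor (Rep.resFunctor S.subtype))) h2
  have hπ : a ^ k • tmap G (Int.castAddHom (ZMod (a ^ k))) = 0 := by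
    have h3 := DivH_w G (a ^ k)
    rw [DivH_tmap, Preadditive.nsmul_comp, Category.id_comp] at h3
    exact h3
  have hres := DivH_res (Rep.resFunctor S.subtype) (epow e m k x) (a ^ k)
    (epow (G := S) (A := tz S) e₂ m k (x.mapExactFunctor (Rep.resFunctor S.subtype))) hFz
    (tmap G (Int.castAddHom (ZMod (a ^ k)))) hπ
  have h4 := TrKer_main S _ _ _ _ hres
  rw [← DivH_nsmul_comp] at h4
  obtain ⟨y, hy⟩ := Ext.covariant_sequence_exact₂ _ (DivH_se G (a ^ k) hq0)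
    (S.index • epow e m k x) h4
  have h5 : ∀ y : Ext (tz G) (tz G) (m + 2 * k),
      y.comp (Ext.mk₀ (tmap G (AddMonoidHom.mulLeft ((a ^ k : ℕ) : ℤ)))) (add_zero _) =
      a ^ k • y := by
    intro y
    rw [DivH_tmap, DivH_mk₀_nsmul, DivH_comp_nsmul, Ext.comp_mk₀_id]
  exact ⟨y, hy.symm.trans (h5 y)⟩

theorem DivH_main {H : Type} [Group H] (t : H) (hc : t ∈ Subgroup.center H)
    (ht : ∀ n : ℤ, t ^ n = 1 → n = 0) [(Subgroup.zpowers t).Normal] (a : ℕ) (ha : 0 < a)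
    (H₂ : Subgroup H) [H₂.FiniteIndex] (hH₂ : t ∈ H₂) (χ : H₂ →* Multiplicative (ZMod a))
    (hχ : χ ⟨t, hH₂⟩ = Multiplicative.ofAdd 1)
    (e : Ext (tz (H ⧸ Subgroup.zpowers t)) (tz (H ⧸ Subgroup.zpowers t)) 2)
    (he : IsEul (Subgroup.zpowers t) (zpowersHom H t) e) :
    DivP (H ⧸ Subgroup.zpowers t) e a := by
  obtain ⟨e₂, h2⟩ := DivA_main t hc ht a ha H₂ hH₂ χ hχ e he
  have : (H₂.map (QuotientGroup.mk' (Subgroup.zpowers t))).FiniteIndex := by
    refine ⟨fun h0 => ?_⟩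
    have h1 : (H₂.map (QuotientGroup.mk' (Subgroup.zpowers t))).index ∣ H₂.index :=
      H₂.index_map_dvd (QuotientGroup.mk'_surjective (Subgroup.zpowers t))
    rw [h0, zero_dvd_iff] at h1
    exact Subgroup.FiniteIndex.index_ne_zero h1
  exact DivH_core (H₂.map (QuotientGroup.mk' (Subgroup.zpowers t))) a ha e e₂ h2

end Pool.Agent.H5.CP
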