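import Pool.Agent.H5.CP.ABs
import Pool.Agent.H5.CP.ExB
import Pool.Agent.H5.CP.GDef

/-!
Definitions for block 4 (Euler classes of central extensions, residually finite case).
-/

namespace Pool.Agent.H5.CP

open CategoryTheory CategoryTheory.Abelian CategoryTheory.Limits

/-- the trivial module `ℤ` -/
noncomputable abbrev tz (G : Type) [Group G] : Rep.{0} ℤ G := Rep.trivial ℤ G ℤ

/-- a homomorphism of abelian groups as a morphism of trivial modules -/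
noncomputable def tmap (G : Type) [Group G] {A B : Type} [AddCommGroup A] [AddCommGroup B]
    (f : A →+ B) : Rep.trivial ℤ G A ⟶ Rep.trivial ℤ G B :=
  Rep.ofHom ⟨f.toIntLinearMap, fun _ => rfl⟩

lemma tmap_apply (G : Type) [Group G] {A B : Type} [AddCommGroup A] [AddCommGroup B]
    (f : A →+ B) (x : A) : (tmap G f).hom x = f x := rfl

/-- explicit description of the maps in `0 → A → (I_Γ)_S → I_{Γ/S} → 0`: `x ↦ [j(x) - 1]` and the map induced by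
`ℤ[Γ] → ℤ[Γ/S]` -/
structure IsAB {Γ A : Type} [Group Γ] [AddCommGroup A] (S : Subgroup Γ) [S.Normal]
    (j : Multiplicative A →* Γ)
    (ι : Rep.trivial ℤ (Γ ⧸ S) A ⟶ (QF ℤ S).obj (kernel (aug ℤ Γ)))
    (a : (QF ℤ S).obj (kernel (aug ℤ Γ)) ⟶ kernel (aug ℤ (Γ ⧸ S))) : Prop where
  hι : ∀ (x : A) (u : (kernel (aug ℤ Γ)).V), (kernel.ι (aug ℤ Γ)).hom u =
    (MonoidAlgebra.single (j (Multiplicative.ofAdd x)) 1 - MonoidAlgebra.single 1 1 :
      MonoidAlgebra ℤ Γ) → ι.hom x = qmk S (kernel (aug ℤ Γ)) u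
  ha : ∀ u : (kernel (aug ℤ Γ)).V, (kernel.ι (aug ℤ (Γ ⧸ S))).hom
    (a.hom (qmk S (kernel (aug ℤ Γ)) u)) = ABs_π ℤ S ((kernel.ι (aug ℤ Γ)).hom u)

/-- `e` is the (Euler) class in `Ext²(ℤ,A)` of the central extension `A → Γ → Γ/S` -/
def IsEul {Γ A : Type} [Group Γ] [AddCommGroup A] (S : Subgroup Γ) [S.Normal]
    (j : Multiplicative A →* Γ) (e : Ext (tz (Γ ⧸ S)) (Rep.trivial ℤ (Γ ⧸ S) A) 2) : Prop :=
  ∃ (ι : Rep.trivial ℤ (Γ ⧸ S) A ⟶ (QF ℤ S).obj (kernel (aug ℤ Γ)))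
    (a : (QF ℤ S).obj (kernel (aug ℤ Γ)) ⟶ kernel (aug ℤ (Γ ⧸ S)))
    (w : ι ≫ a = 0) (hS : (ShortComplex.mk ι a w).ShortExact),
    IsAB S j ι a ∧ e = (AugE_exact ℤ (Γ ⧸ S)).extClass.comp hS.extClass rfl

/-- multiplication by `e^k` -/
noncomputable def epow {G : Type} [Group G] (e : Ext (tz G) (tz G) 2) {A : Rep.{0} ℤ G} (m : ℕ) :
    (k : ℕ) → Ext (tz G) A m → Ext (tz G) A (m + 2 * k)
  | 0, x => x
  | k + 1, x => e.comp (epow e m k x) (by omega)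

/-- multiplication by `e` is an isomorphism up to bounded exponent in large degrees -/
def GysP (G : Type) [Group G] (e : Ext (tz G) (tz G) 2) : Prop :=
  ∃ s N : ℕ, 0 < s ∧ ∀ (A : Rep.{0} ℤ G) (n : ℕ), N ≤ n →
    (∀ y : Ext (tz G) A (n + 2), ∃ x : Ext (tz G) A n, s • y = e.comp x (add_comm 2 n)) ∧
    ∀ x : Ext (tz G) A n, e.comp x (add_comm 2 n) = 0 → s • x = 0

/-- `e^k x` is divisible by `a^k` up to a factor independent of `k` -/
def DivP (G : Type) [Group G] (e : Ext (tz G) (tz G) 2) (a : ℕ) : Prop :=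
  ∃ N : ℕ, 0 < N ∧ ∀ (m k : ℕ) (x : Ext (tz G) (tz G) m),
    ∃ y : Ext (tz G) (tz G) (m + 2 * k), N • epow e m k x = a ^ k • y

end Pool.Agent.H5.CP
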