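import Pool.Agent.H5.CP.Defs

/-!
ROW ExA (100 lines).  `Ext^n(k, A) = H^n(G; A)` for Mathlib's `CategoryTheory.Abelian.Ext` in `Rep k G`.
Take any projective resolution `P` of `Rep.trivial k G k` (`ProjectiveResolution.of _` or
`Rep.barResolution k G`).  `groupCohomologyIso A n P : groupCohomology A n ≅ (P.complex.linearYonedaObj k A).homology n`
and `P.extAddEquivCohomologyClass`, `P.extMk`, `P.extMk_surjective`, `P.extMk_eq_zero_iff`, `add_extMk`
(Mathlib.CategoryTheory.Abelian.Projective.Ext).  Both sides are (cocycles `f : P.complex.X n ⟶ A`,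
`P.complex.d (n+1) n ≫ f = 0`) modulo (`P.complex.d n (n-1) ≫ g`).  For `n = 0` use
`Ext.homEquiv₀`/`Ext.addEquiv₀` and `H^0`, or treat all `n` at once by defining the additive map
cocycles -> Ext, computing its kernel (for `n = 0` the kernel is zero since `P_0 -> k` is an epimorphism with
kernel the image of `d`; `extMk` for n = 0 is `mk₀` of the induced map).  If `n = 0` is painful, first prove the
case `n+1` and do `n = 0` separately through `Hom(k,A) = A^G` (`groupCohomology.H0Iso`).
-/

namespace Pool.Agent.H5.CP

open CategoryTheory CategoryTheory.Abelian CategoryTheory.Limits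

theorem ExA_extMk_zero_inj {k G : Type} [CommRing k] [Group G] (A : Rep.{0} k G)
    (P : ProjectiveResolution (Rep.trivial k G k)) (f : P.complex.X 0 ⟶ A)
    (hf : P.complex.d 1 0 ≫ f = 0) (h : P.extMk f 1 rfl hf = 0) : f = 0 := by
  have h1 := congrArg P.extEquivCohomologyClass h
  rw [P.extEquivCohomologyClass_extMk, P.extEquivCohomologyClass_zero,
    CochainComplex.HomComplex.CohomologyClass.mk_eq_zero_iff,
    CochainComplex.HomComplex.Cocycle.toSingleMk_mem_coboundaries_iff _ _ _ _ _ 1 (by simp)] at h1
  obtain ⟨g, hg⟩ := h1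
  have hz : IsZero (P.cochainComplex.X 1) :=
    CochainComplex.isZero_of_isStrictlyLE _ 0 1 (by simp)
  rw [hz.eq_of_src g 0, comp_zero] at hg
  have := (cancel_epi (P.cochainComplexXIso (-((0 : ℕ) : ℤ)) 0 rfl).hom).1 (hg.symm.trans comp_zero.symm)
  exact this

theorem ExA_addEquiv_of_ker {Z H E : Type} [AddCommGroup Z] [AddCommGroup H] [AddCommGroup E]
    (f : Z →+ H) (g : Z →+ E) (hf : Function.Surjective f) (hg : Function.Surjective g)
    (h : g.ker = f.ker) : Nonempty (E ≃+ H) :=
  ⟨(QuotientAddGroup.quotientKerEquivOfSurjective g hg).symm.trans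
    ((QuotientAddGroup.quotientAddEquivOfEq h).trans
      (QuotientAddGroup.quotientKerEquivOfSurjective f hf))⟩

theorem ExA_equiv {k G : Type} [CommRing k] [Group G] (A : Rep.{0} k G) (n : ℕ) :
    Nonempty (Ext (Rep.trivial k G k) A n ≃+ groupCohomology A n) := by
  classical
  let P : ProjectiveResolution (Rep.trivial k G k) := ProjectiveResolution.of _
  let K := P.complex.linearYonedaObj k A
  have hcyc : ∀ z : K.cycles n,
      P.complex.d (n + 1) n ≫ ((K.iCycles n).hom z : P.complex.X n ⟶ A) = 0 := by
    intro z
    have h := K.iCycles_d n (n+1)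
    exact congrArg (fun f => f.hom z) h
  let E : K.cycles n →+ Ext (Rep.trivial k G k) A n :=
    { toFun := fun z => P.extMk ((K.iCycles n).hom z : P.complex.X n ⟶ A) (n+1) rfl (hcyc z)
      map_zero' := by
        have h0 : ((K.iCycles n).hom 0 : P.complex.X n ⟶ A) = 0 := map_zero (K.iCycles n).hom
        simp only [h0]
        exact P.extMk_zero _ _
      map_add' := by
        intro x y
        have h0 : ((K.iCycles n).hom (x + y) : P.complex.X n ⟶ A)
          = ((K.iCycles n).hom x : P.complex.X n ⟶ A) + ((K.iCycles n).hom y : P.complex.X n ⟶ A) :=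
          map_add (K.iCycles n).hom x y
        simp only [h0]
        exact (P.add_extMk _ _ _ _ (hcyc x) (hcyc y)).symm }
  have hEs : Function.Surjective E := by
    intro α
    obtain ⟨f, hf, hα⟩ := P.extMk_surjective α (n+1) rfl
    have hex := ShortComplex.exact_of_f_is_kernel
      (ShortComplex.mk (K.iCycles n) (K.d n (n+1)) (K.iCycles_d n (n+1)))
      (K.cyclesIsKernel n (n+1) (by simp))
    obtain ⟨z, hz⟩ := (ShortComplex.moduleCat_exact_iff _).1 hex (f : K.X n) hf
    refine ⟨z, ?_⟩
    have hz' : ((K.iCycles n).hom z : P.complex.X n ⟶ A) = f := hz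
    change P.extMk ((K.iCycles n).hom z : P.complex.X n ⟶ A) (n+1) rfl (hcyc z) = α
    simp only [hz']
    exact hα
  have hπs : Function.Surjective (K.homologyπ n).hom :=
    (ModuleCat.epi_iff_surjective (K.homologyπ n)).1 inferInstance
  have hinj : Function.Injective (K.iCycles n).hom :=
    (ModuleCat.mono_iff_injective (K.iCycles n)).1 inferInstance
  have hker : E.ker = ((K.homologyπ n).hom.toAddMonoidHom).ker := by
    ext z
    rw [AddMonoidHom.mem_ker, AddMonoidHom.mem_ker]
    constructor
    · intro hz
      change P.extMk ((K.iCycles n).hom z : P.complex.X n ⟶ A) (n+1) rfl (hcyc z) = 0 at hz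
      change (K.homologyπ n).hom z = 0
      cases n with
      | zero =>
        have h0 := ExA_extMk_zero_inj A P _ _ hz
        have : z = 0 := hinj (h0.trans (map_zero (K.iCycles 0).hom).symm)
        rw [this, map_zero]
      | succ p =>
        obtain ⟨g, hg⟩ := (P.extMk_eq_zero_iff _ _ _ _ p rfl).1 hz
        have h1 : z = (K.toCycles p (p+1)).hom (g : K.X p) := by
          apply hinj
          have h2 := K.toCycles_i p (p+1)
          have h3 : (K.iCycles (p+1)).hom ((K.toCycles p (p+1)).hom (g : K.X p))
            = (K.d p (p+1)).hom (g : K.X p) := congrArg (fun f => f.hom (g : K.X p)) h2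
          rw [h3]
          exact hg.symm
        rw [h1]
        have h4 := K.toCycles_comp_homologyπ p (p+1)
        exact congrArg (fun f => f.hom (g : K.X p)) h4
    · intro hz
      change (K.homologyπ n).hom z = 0 at hz
      change P.extMk ((K.iCycles n).hom z : P.complex.X n ⟶ A) (n+1) rfl (hcyc z) = 0
      cases n with
      | zero =>
        have hex2 := ShortComplex.exact_of_g_is_cokernel
          (ShortComplex.mk (K.toCycles ((ComplexShape.up ℕ).prev 0) 0) (K.homologyπ 0)
            (K.toCycles_comp_homologyπ _ 0))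
          (K.homologyIsCokernel ((ComplexShape.up ℕ).prev 0) 0 rfl)
        obtain ⟨g, hg⟩ := (ShortComplex.moduleCat_exact_iff _).1 hex2 z hz
        have hg' : (K.toCycles ((ComplexShape.up ℕ).prev 0) 0).hom g = z := hg
        have h3 : (K.iCycles 0).hom z = (K.d ((ComplexShape.up ℕ).prev 0) 0).hom g := by
          rw [← hg']
          exact congrArg (fun f => f.hom g) (K.toCycles_i ((ComplexShape.up ℕ).prev 0) 0)
        have h4 : K.d ((ComplexShape.up ℕ).prev 0) 0 = 0 := by
          apply K.shape
          simp
        have h5 : ((K.iCycles 0).hom z : P.complex.X 0 ⟶ A) = 0 := by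
          rw [h4] at h3
          exact h3
        simp only [h5]
        exact P.extMk_zero _ _
      | succ p =>
        have hex2 := ShortComplex.exact_of_g_is_cokernel
          (ShortComplex.mk (K.toCycles p (p+1)) (K.homologyπ (p+1))
            (K.toCycles_comp_homologyπ _ (p+1)))
          (K.homologyIsCokernel p (p+1) (by simp))
        obtain ⟨g, hg⟩ := (ShortComplex.moduleCat_exact_iff _).1 hex2 z hz
        have hg' : (K.toCycles p (p+1)).hom g = z := hg
        have h3 : (K.iCycles (p+1)).hom z = (K.d p (p+1)).hom g := by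
          rw [← hg']
          exact congrArg (fun f => f.hom g) (K.toCycles_i p (p+1))
        exact (P.extMk_eq_zero_iff _ _ _ _ p rfl).2 ⟨(g : P.complex.X p ⟶ A), h3.symm⟩
  obtain ⟨e⟩ := ExA_addEquiv_of_ker (K.homologyπ n).hom.toAddMonoidHom E hπs hEs hker
  exact ⟨e.trans (groupCohomologyIso A n P).symm.toLinearEquiv.toAddEquiv⟩

end Pool.Agent.H5.CP
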