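import Pool.Agent.H5.CP.SyzA
import Pool.Agent.H5.CP.BarE

/-!
ROW ExCo (30 lines).  `Ext²(ℤ,ℤ)` is commutative: `SyzA_main` with `BarE`, `CupB_main`; `ExCo_act`: by associativity (`Ext.comp_assoc`).
-/

namespace Pool.Agent.H5.CP

open CategoryTheory CategoryTheory.Abelian CategoryTheory.Limits

theorem ExCo_main {G : Type} [Group G] (x y : Ext (tz G) (tz G) 2) :
    x.comp y (rfl : 2 + 2 = 4) = y.comp x (rfl : 2 + 2 = 4) :=
  SyzA_main (barε G) (Rep.barComplex.d ℤ G 0) (Rep.barComplex.d ℤ G 1)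
    (Rep.barComplex.d ℤ G 2) (Rep.barComplex.d ℤ G 3) (BarE_surj G) (BarE_0 G) (BarE_n G 0)
    (BarE_n G 1) (BarE_n G 2) (fun f g hf hg => CupB_main f g hf hg) x y

theorem ExCo_act {G : Type} [Group G] (x y : Ext (tz G) (tz G) 2) {A : Rep.{0} ℤ G} (n m l : ℕ)
    (h1 : 2 + n = m) (h2 : 2 + m = l) (z : Ext (tz G) A n) :
    x.comp (y.comp z h1) h2 = y.comp (x.comp z h1) h2 := by
  rw [← Ext.comp_assoc x y z (rfl : 2 + 2 = 4) h1 (by omega),
    ← Ext.comp_assoc y x z (rfl : 2 + 2 = 4) h1 (by omega), ExCo_main]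

end Pool.Agent.H5.CP
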