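import Pool.Agent.H5.CP.Defs

/-!
ROW FPa (150 lines).  Closure properties of `FPm` (Defs).
`FPa_free`: free modules on `Fin m` are `FPm n` for all `n` (kernel of the identity is 0 = quotient of the free module on `Fin 0`).
`FPa_iso`: isomorphic modules (transport the epimorphism; the kernels are isomorphic).
`FPa_mk`: `0 → X₁ → X₂ → X₃ → 0` exact with `X₂ ≅ Rep.free k G (Fin m)`, `X₁` is `FP_n` ⟹ `X₃` is `FP_{n+1}`.
`FPa_mono`: `FP_{n+1}` ⟹ `FP_n` (induction).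
`FPa_ext`: X₁, X₃ `FP_n` ⟹ X₂ `FP_n`: horseshoe: `F₁ → X₁`, `F₃ → X₃` lift `F₃ → X₂` (free), `F₁ ⊕ F₃ → X₂` onto, kernels form an exact sequence
  (`F₁ ⊕ F₃` is free on `Fin (m₁+m₃)`).
`FPa_coker`: X₁ `FP_n`, X₂ `FP_{n+1}` ⟹ X₃ `FP_{n+1}`: `F → X₂` with kernel `K` in `FP_n`; `F → X₃` has kernel `K''` with `0 → K → K'' → X₁ → 0`
  exact, so `K''` is `FP_n` by `FPa_ext`.
-/

namespace Pool.Agent.H5.CP

open CategoryTheory CategoryTheory.Abelian CategoryTheory.Limits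

section Abelian

universe v u
variable {C : Type u} [Category.{v} C] [Abelian C]

/-- kernels of an epimorphism-on-the-left of short exact sequences form a short exact sequence -/
theorem FPa_kerSeq {S₁ S₂ : ShortComplex C} (φ : S₁ ⟶ S₂) (h₁ : S₁.ShortExact)
    (h₂ : S₂.ShortExact) (h : Epi φ.τ₁) :
    ∃ Y : ShortComplex C, Y.ShortExact ∧ Y.X₁ = kernel φ.τ₁ ∧ Y.X₂ = kernel φ.τ₂ ∧
      Y.X₃ = kernel φ.τ₃ := by
  have hm₁ := h₁.mono_f
  have he₁ := h₁.epi_g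
  have hm₂ := h₂.mono_f
  let a : kernel φ.τ₁ ⟶ kernel φ.τ₂ := kernel.map φ.τ₁ φ.τ₂ S₁.f S₂.f φ.comm₁₂
  let b : kernel φ.τ₂ ⟶ kernel φ.τ₃ := kernel.map φ.τ₂ φ.τ₃ S₁.g S₂.g φ.comm₂₃
  have ha : a ≫ kernel.ι φ.τ₂ = kernel.ι φ.τ₁ ≫ S₁.f := by simp [a]
  have hb : b ≫ kernel.ι φ.τ₃ = kernel.ι φ.τ₂ ≫ S₁.g := by simp [b]
  have w : a ≫ b = 0 := by
    rw [← cancel_mono (kernel.ι φ.τ₃), Category.assoc, hb, reassoc_of% ha, S₁.zero]
    simp
  have hma : Mono a := by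
    have : Mono (a ≫ kernel.ι φ.τ₂) := by rw [ha]; infer_instance
    exact mono_of_mono a (kernel.ι φ.τ₂)
  refine ⟨ShortComplex.mk a b w, { exact := ?_, mono_f := hma, epi_g := ?_ }, rfl, rfl, rfl⟩
  · refine ShortComplex.exact_of_f_is_kernel _ ?_
    refine KernelFork.IsLimit.ofι' a w (fun {A} x hx => ?_)
    have h0 : (x ≫ kernel.ι φ.τ₂) ≫ S₁.g = 0 := by
      rw [Category.assoc, ← hb, reassoc_of% hx, zero_comp]
    have h3 : h₁.exact.lift (x ≫ kernel.ι φ.τ₂) h0 ≫ φ.τ₁ = 0 := by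
      rw [← cancel_mono S₂.f, Category.assoc, φ.comm₁₂, ShortComplex.Exact.lift_f_assoc]
      simp
    refine ⟨kernel.lift φ.τ₁ (h₁.exact.lift (x ≫ kernel.ι φ.τ₂) h0) h3, ?_⟩
    rw [← cancel_mono (kernel.ι φ.τ₂), Category.assoc, ha, kernel.lift_ι_assoc,
      ShortComplex.Exact.lift_f]
  · dsimp
    rw [epi_iff_surjective_up_to_refinements]
    intro A y
    obtain ⟨A', π, hπ, x, hx⟩ := surjective_up_to_refinements_of_epi S₁.g (y ≫ kernel.ι φ.τ₃)
    have h0 : (x ≫ φ.τ₂) ≫ S₂.g = 0 := by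
      rw [Category.assoc, φ.comm₂₃, ← Category.assoc, ← hx]
      simp
    obtain ⟨A'', π', hπ', z, hz⟩ := surjective_up_to_refinements_of_epi φ.τ₁
      (h₂.exact.lift (x ≫ φ.τ₂) h0)
    have h1 : (π' ≫ x - z ≫ S₁.f) ≫ φ.τ₂ = 0 := by
      rw [Preadditive.sub_comp, Category.assoc, Category.assoc, ← φ.comm₁₂, ← reassoc_of% hz,
        ShortComplex.Exact.lift_f, sub_self]
    refine ⟨A'', π' ≫ π, inferInstance, kernel.lift _ _ h1, ?_⟩
    rw [← cancel_mono (kernel.ι φ.τ₃), Category.assoc, Category.assoc, hx, Category.assoc, hb,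
      kernel.lift_ι_assoc, Preadditive.sub_comp, Category.assoc, Category.assoc, S₁.zero,
      comp_zero, sub_zero]

theorem FPa_kerComp (S : ShortComplex C) (hS : S.ShortExact) {F : C} (f : F ⟶ S.X₂) (hf : Epi f) :
    ∃ Y : ShortComplex C, Y.ShortExact ∧ Y.X₁ = kernel f ∧ Y.X₂ = kernel (f ≫ S.g) ∧
      Y.X₃ = S.X₁ := by
  have hm := hS.mono_f
  let a : kernel f ⟶ kernel (f ≫ S.g) := kernel.lift (f ≫ S.g) (kernel.ι f) (by simp)
  let b : kernel (f ≫ S.g) ⟶ S.X₁ := hS.exact.lift (kernel.ι (f ≫ S.g) ≫ f) (by simp)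
  have ha : a ≫ kernel.ι (f ≫ S.g) = kernel.ι f := by simp [a]
  have hb : b ≫ S.f = kernel.ι (f ≫ S.g) ≫ f := ShortComplex.Exact.lift_f _ _ _
  have w : a ≫ b = 0 := by
    rw [← cancel_mono S.f, Category.assoc, hb, reassoc_of% ha]
    simp
  have hma : Mono a := by
    have : Mono (a ≫ kernel.ι (f ≫ S.g)) := by rw [ha]; infer_instance
    exact mono_of_mono a (kernel.ι (f ≫ S.g))
  refine ⟨ShortComplex.mk a b w, { exact := ?_, mono_f := hma, epi_g := ?_ }, rfl, rfl, rfl⟩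
  · refine ShortComplex.exact_of_f_is_kernel _ ?_
    refine KernelFork.IsLimit.ofι' a w (fun {A} x hx => ?_)
    have h0 : (x ≫ kernel.ι (f ≫ S.g)) ≫ f = 0 := by
      rw [Category.assoc, ← hb, reassoc_of% hx, zero_comp]
    refine ⟨kernel.lift f _ h0, ?_⟩
    rw [← cancel_mono (kernel.ι (f ≫ S.g)), Category.assoc, ha, kernel.lift_ι]
  · dsimp
    rw [epi_iff_surjective_up_to_refinements]
    intro A y
    obtain ⟨A', π, hπ, x, hx⟩ := surjective_up_to_refinements_of_epi f (y ≫ S.f)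
    have h0 : x ≫ f ≫ S.g = 0 := by
      rw [← reassoc_of% hx, S.zero]; simp
    refine ⟨A', π, hπ, kernel.lift _ x h0, ?_⟩
    rw [← cancel_mono S.f, Category.assoc, hx, Category.assoc, hb, kernel.lift_ι_assoc]

end Abelian

theorem FPa_succ {k G : Type} [CommRing k] [Group G] (M : Rep.{0} k G) (n : ℕ) :
    FPm k G (n + 1) M ↔ ∃ (m : ℕ) (f : Rep.free k G (Fin m) ⟶ M), Epi f ∧
      FPm k G n (kernel f) := Iff.rfl

theorem FPa_iso {k G : Type} [CommRing k] [Group G] {M N : Rep.{0} k G} (e : Nonempty (M ≅ N))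
    (n : ℕ) (h : FPm k G n M) : FPm k G n N := by
  obtain ⟨e⟩ := e
  induction n generalizing M N with
  | zero =>
    obtain ⟨m, f, hf⟩ := h
    exact ⟨m, f ≫ e.hom, inferInstance⟩
  | succ n ih =>
    obtain ⟨m, f, hf, hk⟩ := h
    exact ⟨m, f ≫ e.hom, inferInstance, ih hk (kernelCompMono f e.hom).symm⟩

theorem FPa_isZero_free {k G : Type} [CommRing k] [Group G] :
    IsZero (Rep.free k G (Fin 0)) := by
  rw [IsZero.iff_id_eq_zero]
  apply Rep.free_ext
  intro i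
  exact i.elim0

theorem FPa_zero {k G : Type} [CommRing k] [Group G] {M : Rep.{0} k G} (hM : IsZero M)
    (n : ℕ) : FPm k G n M := by
  have h0 : Epi (0 : Rep.free k G (Fin 0) ⟶ M) := by
    constructor
    intro Z g h _
    exact hM.eq_of_src g h
  induction n generalizing M with
  | zero => exact ⟨0, 0, h0⟩
  | succ n ih =>
    have hz : IsZero (kernel (0 : Rep.free k G (Fin 0) ⟶ M)) :=
      IsZero.of_mono (kernel.ι _) FPa_isZero_free
    refine ⟨0, 0, h0, ih hz ?_⟩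
    constructor
    intro Z g h _
    exact hz.eq_of_src g h

theorem FPa_free {k G : Type} [CommRing k] [Group G] (m n : ℕ) :
    FPm k G n (Rep.free k G (Fin m)) := by
  cases n with
  | zero => exact ⟨m, 𝟙 _, inferInstance⟩
  | succ n =>
    refine ⟨m, 𝟙 _, inferInstance, FPa_zero ?_ n⟩
    rw [IsZero.iff_id_eq_zero, ← cancel_mono (kernel.ι _)]
    have := kernel.condition (𝟙 (Rep.free k G (Fin m)))
    rw [Category.comp_id] at this
    rw [this]; simp

theorem FPa_mk {k G : Type} [CommRing k] [Group G] (X : ShortComplex (Rep.{0} k G))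
    (hX : X.ShortExact) (m n : ℕ) (e : Nonempty (X.X₂ ≅ Rep.free k G (Fin m)))
    (h : FPm k G n X.X₁) : FPm k G (n + 1) X.X₃ := by
  obtain ⟨e⟩ := e
  have hm := hX.mono_f
  have he := hX.epi_g
  refine ⟨m, e.inv ≫ X.g, inferInstance, FPa_iso ⟨?_⟩ n h⟩
  exact (IsLimit.conePointUniqueUpToIso hX.fIsKernel (kernelIsKernel X.g)) ≪≫
    (kernelIsIsoComp e.inv X.g).symm

theorem FPa_mono {k G : Type} [CommRing k] [Group G] (M : Rep.{0} k G) (n : ℕ)
    (h : FPm k G (n + 1) M) : FPm k G n M := by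
  induction n generalizing M with
  | zero =>
    obtain ⟨m, f, hf, _⟩ := h
    exact ⟨m, f, hf⟩
  | succ n ih =>
    obtain ⟨m, f, hf, hk⟩ := h
    exact ⟨m, f, hf, ih _ hk⟩

/-- `free m₁ ⊞ free m₃ ≅ free (m₁ + m₃)` -/
theorem FPa_biprod {k G : Type} [CommRing k] [Group G] (a b : ℕ) :
    Nonempty ((Rep.free k G (Fin a) ⊞ Rep.free k G (Fin b)) ≅ Rep.free k G (Fin (a + b))) := by
  let s : (i : Fin a) → Rep.free k G (Fin (a + b)) := fun i =>
    Finsupp.single (Fin.castAdd b i) (.single 1 1)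
  let t : (i : Fin b) → Rep.free k G (Fin (a + b)) := fun i =>
    Finsupp.single (Fin.natAdd a i) (.single 1 1)
  let p : Rep.free k G (Fin (a + b)) ⟶ (Rep.free k G (Fin a) ⊞ Rep.free k G (Fin b) : Rep k G) :=
    Rep.freeLift k G _ (Fin.addCases
      (fun i => (biprod.inl : Rep.free k G (Fin a) ⟶ _ ⊞ Rep.free k G (Fin b)).hom (Finsupp.single i (.single 1 1)))
      (fun i => (biprod.inr : Rep.free k G (Fin b) ⟶ Rep.free k G (Fin a) ⊞ _).hom (Finsupp.single i (.single 1 1))))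
  refine ⟨⟨biprod.desc (Rep.freeLift k G _ s) (Rep.freeLift k G _ t), p, ?_, ?_⟩⟩
  · apply biprod.hom_ext'
    · rw [biprod.inl_desc_assoc, Category.comp_id]
      apply Rep.free_ext
      intro i
      simp [p, s]
    · rw [biprod.inr_desc_assoc, Category.comp_id]
      apply Rep.free_ext
      intro i
      simp [p, t]
  · apply Rep.free_ext
    intro i
    refine Fin.addCases (fun j => ?_) (fun j => ?_) i
    · have h := congrArg (fun u => u.hom (Finsupp.single j (.single 1 1)))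
        (biprod.inl_desc (Rep.freeLift k G _ s) (Rep.freeLift k G _ t))
      have h' : (Rep.freeLift k G _ s).hom (Finsupp.single j (.single 1 1)) = s j := by simp
      simp only [Rep.hom_comp, Representation.IntertwiningMap.comp_apply] at h
      have hp : p.hom (Finsupp.single (Fin.castAdd b j) (.single 1 1)) =
        (biprod.inl : Rep.free k G (Fin a) ⟶ _ ⊞ Rep.free k G (Fin b)).hom
          (Finsupp.single j (.single 1 1)) := by simp [p]
      simp only [Rep.hom_comp, Representation.IntertwiningMap.comp_apply, hp]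
      rw [h, h']
      simp [s]
    · have h := congrArg (fun u => u.hom (Finsupp.single j (.single 1 1)))
        (biprod.inr_desc (Rep.freeLift k G _ s) (Rep.freeLift k G _ t))
      have h' : (Rep.freeLift k G _ t).hom (Finsupp.single j (.single 1 1)) = t j := by simp
      simp only [Rep.hom_comp, Representation.IntertwiningMap.comp_apply] at h
      have hp : p.hom (Finsupp.single (Fin.natAdd a j) (.single 1 1)) =
        (biprod.inr : Rep.free k G (Fin b) ⟶ Rep.free k G (Fin a) ⊞ _).hom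
          (Finsupp.single j (.single 1 1)) := by simp [p]
      simp only [Rep.hom_comp, Representation.IntertwiningMap.comp_apply, hp]
      rw [h, h']
      simp [t]

theorem FPa_horse {k G : Type} [CommRing k] [Group G] (X : ShortComplex (Rep.{0} k G))
    (hX : X.ShortExact) {m₁ m₃ : ℕ} (f₁ : Rep.free k G (Fin m₁) ⟶ X.X₁)
    (f₃ : Rep.free k G (Fin m₃) ⟶ X.X₃) (h₁ : Epi f₁) (h₃ : Epi f₃) :
    ∃ (f₂ : Rep.free k G (Fin (m₁ + m₃)) ⟶ X.X₂), Epi f₂ ∧
      ∃ Y : ShortComplex (Rep.{0} k G), Y.ShortExact ∧ Y.X₁ = kernel f₁ ∧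
        Nonempty (Y.X₂ ≅ kernel f₂) ∧ Y.X₃ = kernel f₃ := by
  have hm := hX.mono_f
  have he := hX.epi_g
  obtain ⟨e⟩ := FPa_biprod (k := k) (G := G) m₁ m₃
  let s : Rep.free k G (Fin m₃) ⟶ X.X₂ := Projective.factorThru f₃ X.g
  have hs : s ≫ X.g = f₃ := Projective.factorThru_comp _ _
  let S : ShortComplex (Rep.{0} k G) := ShortComplex.mk
    (biprod.inl : Rep.free k G (Fin m₁) ⟶ Rep.free k G (Fin m₁) ⊞ Rep.free k G (Fin m₃))
    (biprod.snd : Rep.free k G (Fin m₁) ⊞ Rep.free k G (Fin m₃) ⟶ Rep.free k G (Fin m₃))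
    (by simp)
  have hS : S.ShortExact := (ShortComplex.Splitting.ofHasBinaryBiproduct _ _).shortExact
  let φ : S ⟶ X :=
    { τ₁ := f₁
      τ₂ := biprod.desc (f₁ ≫ X.f) s
      τ₃ := f₃
      comm₁₂ := by simp [S]
      comm₂₃ := by
        apply biprod.hom_ext'
        · simp [S]
        · simp [S, hs] }
  have e1 : Epi S.g := hS.epi_g
  have e2 : Epi φ.τ₁ := h₁
  have e3 : Epi φ.τ₃ := h₃
  have hepi : Epi φ.τ₂ := ShortComplex.epi_τ₂_of_exact_of_epi φ hX.exact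
  obtain ⟨Y, hY, y1, y2, y3⟩ := FPa_kerSeq φ hS hX h₁
  refine ⟨e.inv ≫ φ.τ₂, inferInstance, Y, hY, y1, ⟨?_⟩, y3⟩
  exact eqToIso y2 ≪≫ (kernelIsIsoComp e.inv φ.τ₂).symm

theorem FPa_ext {k G : Type} [CommRing k] [Group G] (X : ShortComplex (Rep.{0} k G))
    (hX : X.ShortExact) (n : ℕ) (h1 : FPm k G n X.X₁) (h3 : FPm k G n X.X₃) :
    FPm k G n X.X₂ := by
  induction n generalizing X with
  | zero =>
    obtain ⟨m₁, f₁, hf₁⟩ := h1
    obtain ⟨m₃, f₃, hf₃⟩ := h3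
    obtain ⟨f₂, hf₂, _⟩ := FPa_horse X hX f₁ f₃ hf₁ hf₃
    exact ⟨_, f₂, hf₂⟩
  | succ n ih =>
    obtain ⟨m₁, f₁, hf₁, hk₁⟩ := h1
    obtain ⟨m₃, f₃, hf₃, hk₃⟩ := h3
    obtain ⟨f₂, hf₂, Y, hY, y1, y2, y3⟩ := FPa_horse X hX f₁ f₃ hf₁ hf₃
    refine ⟨_, f₂, hf₂, FPa_iso y2 n (ih Y hY ?_ ?_)⟩
    · rw [y1]; exact hk₁
    · rw [y3]; exact hk₃

theorem FPa_coker {k G : Type} [CommRing k] [Group G] (X : ShortComplex (Rep.{0} k G))
    (hX : X.ShortExact) (n : ℕ) (h1 : FPm k G n X.X₁) (h2 : FPm k G (n + 1) X.X₂) :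
    FPm k G (n + 1) X.X₃ := by
  obtain ⟨m, f, hf, hk⟩ := h2
  have he := hX.epi_g
  obtain ⟨Y, hY, e1, e2, e3⟩ := FPa_kerComp X hX f hf
  refine ⟨m, f ≫ X.g, inferInstance, ?_⟩
  rw [← e2]
  apply FPa_ext Y hY n
  · rw [e1]; exact hk
  · rw [e3]; exact h1

end Pool.Agent.H5.CP
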