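import Pool.Agent.H5.CP.FPa

/-!
ROW FPb (120 lines).  `FPb_ker`: X₂ `FP_n`, X₃ `FP_{n+1}` ⟹ X₁ `FP_n`.
Schanuel (`FPb_schanuel`): if `M` is `FP_{n+1}` and `F' → M` is onto with `F' ≅ Rep.free k G (Fin m)`, then its kernel `K'` is `FP_n`: let `F → M` with
kernel `K` in `FP_n`, `Y` = pullback: `0 → K → Y → F' → 0`, `0 → K' → Y → F → 0`.  `Y` is `FP_n` (`FPa_ext`, `FPa_free`).  The second sequence splits
(`F` projective): `Y ≅ K' ⊕ F`, so `0 → F → Y → K' → 0` is exact and `K'` is `FP_n`: for `n = 0` a quotient of `Y`; for `n ≥ 1` `FPa_coker`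
(`F` is `FP_{n-1}`).
`FPb_ker`: let `F → X₂` be onto, `F` free of finite rank, kernel `K₂` (FP_{n-1} if n ≥ 1); `F → X₃` is onto with kernel `K₃`, `FP_n` by Schanuel; `0 → K₂ → K₃ → X₁ → 0` is
exact; `n = 0`: `X₁` is a quotient of `K₃`; `n ≥ 1`: `FPa_coker`.
-/

namespace Pool.Agent.H5.CP

open CategoryTheory CategoryTheory.Abelian CategoryTheory.Limits

theorem FPb_pull1 {C : Type*} [Category C] [Abelian C] {F F' M : C} (f : F ⟶ M) (g : F' ⟶ M)
    [Epi f] :
    (ShortComplex.mk (pullback.lift (kernel.ι f) 0 (by simp) : kernel f ⟶ pullback f g)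
      (pullback.snd f g) (pullback.lift_snd _ _ _)).ShortExact := by
  have hm : Mono (pullback.lift (kernel.ι f) 0 (by simp) : kernel f ⟶ pullback f g) := by
    exact mono_of_mono_fac (pullback.lift_fst _ _ _)
  have he : Epi (pullback.snd f g) := inferInstance
  refine { exact := ?_, mono_f := hm, epi_g := he }
  rw [ShortComplex.exact_iff_exact_up_to_refinements]
  intro A x hx
  simp only at x hx
  refine ⟨A, 𝟙 A, inferInstance, kernel.lift f (x ≫ pullback.fst f g) ?_, ?_⟩
  · rw [Category.assoc, pullback.condition, ← Category.assoc, hx, zero_comp]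
  · have e1 : (pullback.lift (kernel.ι f) 0 (by simp) : kernel f ⟶ pullback f g) ≫
        pullback.fst f g = kernel.ι f := pullback.lift_fst _ _ _
    have e2 : (pullback.lift (kernel.ι f) 0 (by simp) : kernel f ⟶ pullback f g) ≫
        pullback.snd f g = 0 := pullback.lift_snd _ _ _
    apply pullback.hom_ext
    · simp only [Category.id_comp, Category.assoc]
      erw [e1]
      simp
    · simp only [Category.id_comp, Category.assoc, hx]
      erw [e2]
      simp

theorem FPb_pull2 {C : Type*} [Category C] [Abelian C] {F : C} (X : ShortComplex C)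
    (hX : X.ShortExact) (f : F ⟶ X.X₃) :
    (ShortComplex.mk (pullback.lift 0 X.f (by simp) : X.X₁ ⟶ pullback f X.g)
      (pullback.fst f X.g) (pullback.lift_fst _ _ _)).ShortExact := by
  have := hX.mono_f
  have := hX.epi_g
  have hm : Mono (pullback.lift 0 X.f (by simp) : X.X₁ ⟶ pullback f X.g) := by
    exact mono_of_mono_fac (pullback.lift_snd _ _ _)
  have he : Epi (pullback.fst f X.g) := inferInstance
  refine { exact := ?_, mono_f := hm, epi_g := he }
  rw [ShortComplex.exact_iff_exact_up_to_refinements]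
  intro A x hx
  simp only at x hx
  refine ⟨A, 𝟙 A, inferInstance, hX.exact.lift (x ≫ pullback.snd f X.g) ?_, ?_⟩
  · rw [Category.assoc, ← pullback.condition, ← Category.assoc, hx, zero_comp]
  · have e1 : (pullback.lift 0 X.f (by simp) : X.X₁ ⟶ pullback f X.g) ≫
        pullback.fst f X.g = 0 := pullback.lift_fst _ _ _
    have e2 : (pullback.lift 0 X.f (by simp) : X.X₁ ⟶ pullback f X.g) ≫
        pullback.snd f X.g = X.f := pullback.lift_snd _ _ _
    apply pullback.hom_ext
    · simp only [Category.id_comp, Category.assoc, hx]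
      erw [e1]
      simp
    · simp only [Category.id_comp, Category.assoc]
      erw [e2]
      simp

theorem FPb_ker_seq {C : Type*} [Category C] [Abelian C] {F : C} (X : ShortComplex C)
    (hX : X.ShortExact) (f : F ⟶ X.X₂) [Epi f] :
    ∃ (a : kernel f ⟶ kernel (f ≫ X.g)) (b : kernel (f ≫ X.g) ⟶ X.X₁) (w : a ≫ b = 0),
      (ShortComplex.mk a b w).ShortExact := by
  have := hX.mono_f
  have := hX.epi_g
  let a : kernel f ⟶ kernel (f ≫ X.g) := kernel.lift (f ≫ X.g) (kernel.ι f) (by simp)
  let b : kernel (f ≫ X.g) ⟶ X.X₁ :=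
    hX.exact.lift (kernel.ι (f ≫ X.g) ≫ f) (by rw [Category.assoc]; exact kernel.condition _)
  have hb : b ≫ X.f = kernel.ι (f ≫ X.g) ≫ f := hX.exact.lift_f _ _
  have ha : a ≫ kernel.ι (f ≫ X.g) = kernel.ι f := by simp [a]
  have w : a ≫ b = 0 := by
    rw [← cancel_mono X.f, Category.assoc, hb, ← Category.assoc, ha]
    simp
  refine ⟨a, b, w, ?_⟩
  have hm : Mono a := mono_of_mono_fac ha
  have he : Epi b := by
    rw [epi_iff_surjective_up_to_refinements]
    intro A y
    obtain ⟨A', π, hπ, z, hz⟩ := surjective_up_to_refinements_of_epi f (y ≫ X.f)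
    refine ⟨A', π, hπ, kernel.lift (f ≫ X.g) z ?_, ?_⟩
    · rw [← Category.assoc, ← hz]; simp
    · rw [← cancel_mono X.f, Category.assoc, Category.assoc, hb, kernel.lift_ι_assoc]
      exact hz
  refine { exact := ?_, mono_f := hm, epi_g := he }
  rw [ShortComplex.exact_iff_exact_up_to_refinements]
  intro A x hx
  simp only at x hx
  refine ⟨A, 𝟙 A, inferInstance, kernel.lift f (x ≫ kernel.ι (f ≫ X.g)) ?_, ?_⟩
  · rw [Category.assoc, ← hb, ← Category.assoc, hx, zero_comp]
  · simp only [Category.id_comp]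
    rw [← cancel_mono (kernel.ι (f ≫ X.g)), Category.assoc, ha]
    simp

theorem FPb_zero_epi {k G : Type} [CommRing k] [Group G] {M N : Rep.{0} k G} (f : M ⟶ N) [Epi f]
    (h : FPm k G 0 M) : FPm k G 0 N := by
  obtain ⟨m, g, hg⟩ := h
  exact ⟨m, g ≫ f, inferInstance⟩

theorem FPb_schanuel {k G : Type} [CommRing k] [Group G] (X : ShortComplex (Rep.{0} k G))
    (hX : X.ShortExact) (m n : ℕ) (e : Nonempty (X.X₂ ≅ Rep.free k G (Fin m)))
    (h : FPm k G (n + 1) X.X₃) : FPm k G n X.X₁ := by
  obtain ⟨m', f, hf, hK⟩ := h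
  have hF' : FPm k G n X.X₂ := by
    obtain ⟨e⟩ := e
    exact FPa_iso ⟨e.symm⟩ n (FPa_free m n)
  have hY : FPm k G n (pullback f X.g) := FPa_ext _ (FPb_pull1 f X.g) n hK hF'
  have h2 := FPb_pull2 X hX f
  obtain ⟨s, hs⟩ : ∃ s : Rep.free k G (Fin m') ⟶ pullback f X.g, s ≫ pullback.fst f X.g = 𝟙 _ := by
    have := h2.epi_g
    exact ⟨Projective.factorThru (𝟙 _) (pullback.fst f X.g), Projective.factorThru_comp _ _⟩
  have := h2.mono_f
  let sp := ShortComplex.Splitting.ofExactOfSection _ h2.exact s hs h2.mono_f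
  have hrs : s ≫ sp.r = 0 := sp.s_r
  have hsp : (ShortComplex.mk s sp.r hrs).ShortExact := by
    apply ShortComplex.Splitting.shortExact
    exact
      { r := pullback.fst f X.g
        s := pullback.lift 0 X.f (by simp)
        f_r := hs
        s_g := sp.f_r
        id := by
          have := sp.id
          rw [add_comm] at this
          exact this }
  cases n with
  | zero =>
    have := hsp.epi_g
    exact FPb_zero_epi sp.r hY
  | succ n => exact FPa_coker _ hsp n (FPa_free m' n) hY

theorem FPb_ker {k G : Type} [CommRing k] [Group G] (X : ShortComplex (Rep.{0} k G))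
    (hX : X.ShortExact) (n : ℕ) (h2 : FPm k G n X.X₂) (h3 : FPm k G (n + 1) X.X₃) :
    FPm k G n X.X₁ := by
  have hg := hX.epi_g
  cases n with
  | zero =>
    obtain ⟨m, f, hf⟩ := h2
    obtain ⟨a, b, w, hs⟩ := FPb_ker_seq X hX f
    have := hs.epi_g
    have hK : FPm k G 0 (kernel (f ≫ X.g)) := by
      refine FPb_schanuel (ShortComplex.mk (kernel.ι (f ≫ X.g)) (f ≫ X.g) (kernel.condition _))
        ?_ m 0 ⟨Iso.refl _⟩ h3
      exact { exact := ShortComplex.exact_of_f_is_kernel _ (kernelIsKernel _)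
              mono_f := inferInstance, epi_g := inferInstance }
    exact FPb_zero_epi b hK
  | succ n =>
    obtain ⟨m, f, hf, hk⟩ := h2
    obtain ⟨a, b, w, hs⟩ := FPb_ker_seq X hX f
    have hK : FPm k G (n + 1) (kernel (f ≫ X.g)) := by
      refine FPb_schanuel (ShortComplex.mk (kernel.ι (f ≫ X.g)) (f ≫ X.g) (kernel.condition _))
        ?_ m (n + 1) ⟨Iso.refl _⟩ h3
      exact { exact := ShortComplex.exact_of_f_is_kernel _ (kernelIsKernel _)
              mono_f := inferInstance, epi_g := inferInstance }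
    exact FPa_coker _ hs n hk hK

end Pool.Agent.H5.CP
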