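import Pool.Agent.H5.CP.IsoI
import Pool.Agent.H5.CP.EDef
import Pool.Agent.H5.CP.FinA

/-!
ROW FinC (120 lines).  Converse of FinB.  `FinC_0`: `M` of type `FP_{n+1}`, every `x ∈ Ext^{n+1}(M,ℤ)` torsion ⟹ `Ext^{n+1}(M,ℚ) = 0`.  `n = 0`: `0 → K → F → M → 0`, `F = Rep.free ℤ G (Fin m)`, `K` finitely generated; a class comes from `f : K → ℚ`; `m f` is integral
for some `m > 0` (finitely many generators, trivial action); the class of `m f : K → ℤ` is killed by some `s > 0`, i.e. `s m f` extends to `F → ℤ`, so `f` extends to `F → ℚ`.  Dimension shifting as in FinA/FinB.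
`FinC_main`: with `IsoI_Ext` (positive degrees).
-/

namespace Pool.Agent.H5.CP

open CategoryTheory CategoryTheory.Abelian CategoryTheory.Limits

/-- Clearing denominators on a finitely generated module. -/
theorem FinC_clear {G : Type} [Group G] {l : ℕ} {K : Rep.{0} ℤ G}
    (q : Rep.free ℤ G (Fin l) ⟶ K) [Epi q] (f : K ⟶ Rep.trivial ℤ G ℚ) :
    ∃ (D : ℕ) (y : K ⟶ Rep.trivial ℤ G ℤ), 0 < D ∧
      ∀ x : K.V, (D : ℚ) * f.hom x = ((y.hom x : ℤ) : ℚ) := by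
  obtain ⟨D, hD0, hD⟩ : ∃ D : ℕ, D ≠ 0 ∧ ∀ j : Fin l, ∃ z : ℤ,
      (D : ℚ) * Rep.freeLiftLEquiv ℤ G (Fin l) (Rep.trivial ℤ G ℚ) (q ≫ f) j = z := by
    refine ⟨∏ j : Fin l, (Rep.freeLiftLEquiv ℤ G (Fin l) (Rep.trivial ℤ G ℚ) (q ≫ f) j : ℚ).den,
      Finset.prod_ne_zero_iff.2 fun j _ => Rat.den_nz _, fun j => ?_⟩
    set a : ℚ := Rep.freeLiftLEquiv ℤ G (Fin l) (Rep.trivial ℤ G ℚ) (q ≫ f) j with ha
    obtain ⟨t, ht⟩ := Finset.dvd_prod_of_mem
      (fun j : Fin l => (Rep.freeLiftLEquiv ℤ G (Fin l) (Rep.trivial ℤ G ℚ) (q ≫ f) j : ℚ).den)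
      (Finset.mem_univ j)
    refine ⟨t * a.num, ?_⟩
    rw [ht]
    have h1 : (a.den : ℚ) * a = a.num := by
      rw [mul_comm]
      exact Rat.mul_den_eq_num a
    push_cast
    calc ((a.den : ℚ) * t) * a = t * ((a.den : ℚ) * a) := by ring
      _ = _ := by rw [h1]
  choose z hz using hD
  let ι : Rep.trivial ℤ G ℤ ⟶ Rep.trivial ℤ G ℚ :=
    FinA_mk (Rep.trivial ℤ G ℤ) (fun z : ℤ => (z : ℚ)) (by intro x y; push_cast; rfl)
      (by intro g x; rfl)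
  have hι : ∀ z : ℤ, ι.hom z = (z : ℚ) := fun z => rfl
  let w : Rep.free ℤ G (Fin l) ⟶ Rep.trivial ℤ G ℤ :=
    (Rep.freeLiftLEquiv ℤ G (Fin l) (Rep.trivial ℤ G ℤ)).symm z
  have hw : w ≫ ι = (D : ℤ) • (q ≫ f) := by
    apply (Rep.freeLiftLEquiv ℤ G (Fin l) (Rep.trivial ℤ G ℚ)).injective
    funext j
    have h1 : Rep.freeLiftLEquiv ℤ G (Fin l) (Rep.trivial ℤ G ℚ) (w ≫ ι) j =
        ι.hom (Rep.freeLiftLEquiv ℤ G (Fin l) (Rep.trivial ℤ G ℤ) w j) := rfl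
    have h2 : Rep.freeLiftLEquiv ℤ G (Fin l) (Rep.trivial ℤ G ℤ) w j = z j := by
      simp only [w, LinearEquiv.apply_symm_apply]
    rw [h1, h2, hι, map_zsmul, Pi.smul_apply, ← hz j]
    exact (zsmul_eq_mul _ _).symm
  have hint : ∀ x : K.V, ∃ y : ℤ, (D : ℚ) * f.hom x = y := by
    intro x
    obtain ⟨x', rfl⟩ := (Rep.epi_iff_surjective q).1 inferInstance x
    refine ⟨w.hom x', ?_⟩
    have h1 : (w ≫ ι).hom x' = ((D : ℤ) • (q ≫ f)).hom x' := by rw [hw]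
    have h2 : (w ≫ ι).hom x' = ((w.hom x' : ℤ) : ℚ) := rfl
    rw [← h2, h1]
    exact (zsmul_eq_mul (f.hom (q.hom x') : ℚ) (D : ℤ)).symm
  choose y hy using hint
  have hyadd : ∀ a b, y (a + b) = y a + y b := by
    intro a b
    have h1 := hy (a + b)
    have h2 : f.hom (a + b) = f.hom a + f.hom b := map_add _ _ _
    have h3 : ((y (a + b) : ℤ) : ℚ) = ((y a + y b : ℤ) : ℚ) := by
      rw [← h1, h2]
      push_cast
      rw [← hy a, ← hy b]
      exact mul_add _ _ _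
    exact_mod_cast h3
  have hyinv : ∀ g x, y (K.ρ g x) = y x := by
    intro g x
    have h1 : ((y (K.ρ g x) : ℤ) : ℚ) = ((y x : ℤ) : ℚ) := by
      rw [← hy, ← hy, FinA_inv]
    exact_mod_cast h1
  exact ⟨D, FinA_mk K y hyadd hyinv, Nat.pos_of_ne_zero hD0, hy⟩

theorem FinC_nsmul {G : Type} [Group G] {X Y Z : Rep.{0} ℤ G} {a b c : ℕ}
    (α : Ext X Y a) (β : Ext Y Z b) (h : a + b = c) (s : ℕ) :
    s • α.comp β h = α.comp (s • β) h := by
  induction s with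
  | zero => simp
  | succ s ih => rw [succ_nsmul, succ_nsmul, Ext.comp_add, ih]

theorem FinC_mk₀ {G : Type} [Group G] {X Y : Rep.{0} ℤ G} (f : X ⟶ Y) (s : ℕ) :
    s • Ext.mk₀ f = Ext.mk₀ (s • f) := by
  induction s with
  | zero => simp
  | succ s ih => rw [succ_nsmul, succ_nsmul, Ext.mk₀_add, ih]

theorem FinC_one {G : Type} [Group G] (M : Rep.{0} ℤ G) (hM : FPm ℤ G 1 M)
    (h : ∀ x : Ext M (Rep.trivial ℤ G ℤ) 1, ∃ s : ℕ, 0 < s ∧ s • x = 0) :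
    ∀ e : Ext M (Rep.trivial ℤ G ℚ) 1, e = 0 := by
  obtain ⟨m, f, hf, l, q, hq⟩ := hM
  let S : ShortComplex (Rep.{0} ℤ G) := ShortComplex.mk (kernel.ι f) f (kernel.condition f)
  have hS : S.ShortExact := { exact := ShortComplex.exact_of_f_is_kernel _ (kernelIsKernel f) }
  intro e
  have he : (Ext.mk₀ S.g).comp e (zero_add 1) = 0 := Ext.eq_zero_of_projective _
  obtain ⟨x, rfl⟩ := Ext.contravariant_sequence_exact₃ hS _ e he (add_zero 1)
  obtain ⟨g, rfl⟩ := (Ext.mk₀_bijective _ _).2 x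
  obtain ⟨D, y, hD, hy⟩ := FinC_clear q g
  obtain ⟨s, hs, h1⟩ := h (hS.extClass.comp (Ext.mk₀ y) (add_zero 1))
  rw [FinC_nsmul, FinC_mk₀] at h1
  obtain ⟨x2, hx2⟩ := Ext.contravariant_sequence_exact₁ hS _ (Ext.mk₀ (s • y)) (add_zero 1) h1
  obtain ⟨ψ, rfl⟩ := (Ext.mk₀_bijective _ _).2 x2
  rw [Ext.mk₀_comp_mk₀] at hx2
  have hψ : kernel.ι f ≫ ψ = s • y := (Ext.mk₀_bijective _ _).1 hx2
  have hψx : ∀ x, ψ.hom ((kernel.ι f).hom x) = s * y.hom x := by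
    intro x
    have h1 : (kernel.ι f ≫ ψ).hom x = (s • y).hom x := by rw [hψ]
    refine h1.trans ?_
    exact nsmul_eq_mul s (y.hom x : ℤ)
  have key : kernel.ι f ≫ FinA_mk _ (fun x => ((ψ.hom x : ℤ) : ℚ) / (s * D)) (by
      intro a b
      rw [map_add]
      push_cast
      exact add_div _ _ _) (by
      intro g x
      rw [FinA_inv]) = g := by
    apply Rep.hom_ext
    apply DFunLike.ext
    intro x
    change ((ψ.hom ((kernel.ι f).hom x) : ℤ) : ℚ) / (s * D) = g.hom x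
    rw [hψx]
    push_cast
    rw [← hy x]
    have h1 : (s : ℚ) ≠ 0 := by exact_mod_cast hs.ne'
    have h2 : (D : ℚ) ≠ 0 := by exact_mod_cast hD.ne'
    field_simp
  rw [← key, ← Ext.mk₀_comp_mk₀]
  exact hS.extClass_comp_assoc _

theorem FinC_0 {G : Type} [Group G] (n : ℕ) (M : Rep.{0} ℤ G) (hM : FPm ℤ G (n + 1) M)
    (h : ∀ x : Ext M (Rep.trivial ℤ G ℤ) (n + 1), ∃ s : ℕ, 0 < s ∧ s • x = 0) :
    ∀ e : Ext M (Rep.trivial ℤ G ℚ) (n + 1), e = 0 := by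
  induction n generalizing M with
  | zero => exact FinC_one M hM h
  | succ n ih =>
    obtain ⟨m, f, hf, hK⟩ := hM
    let S : ShortComplex (Rep.{0} ℤ G) := ShortComplex.mk (kernel.ι f) f (kernel.condition f)
    have hS : S.ShortExact := { exact := ShortComplex.exact_of_f_is_kernel _ (kernelIsKernel f) }
    have hK' := ih (kernel f) hK (by
      intro x
      obtain ⟨s, hs, h1⟩ := h (hS.extClass.comp x (by omega))
      refine ⟨s, hs, ?_⟩
      rw [FinC_nsmul] at h1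
      obtain ⟨y, hy⟩ := Ext.contravariant_sequence_exact₁ hS _ (s • x) (by omega) h1
      rw [← hy, Ext.eq_zero_of_projective y, Ext.comp_zero])
    intro e
    have he : (Ext.mk₀ S.g).comp e (zero_add (n + 1 + 1)) = 0 := Ext.eq_zero_of_projective _
    obtain ⟨x, rfl⟩ := Ext.contravariant_sequence_exact₃ hS _ e he
      (show 1 + (n + 1) = n + 1 + 1 by omega)
    rw [hK' x, Ext.comp_zero]

theorem FinC_main {G : Type} [Group G] (hF : FPinf G) (N : ℕ)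
    (h : ∀ n, N ≤ n → ∀ x : Ext (tz G) (tz G) n, ∃ s : ℕ, 0 < s ∧ s • x = 0) : RatTrFin G := by
  rw [IsoI_Ext]
  refine ⟨N + 1, fun n hn => ?_⟩
  obtain ⟨m, rfl⟩ : ∃ m, n = m + 1 := ⟨n - 1, by omega⟩
  exact FinC_0 m _ (hF (m + 1)) (h (m + 1) (by omega))

end Pool.Agent.H5.CP
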