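import Pool.Agent.H5.CP.EDef

/-!
ROW FinD (100 lines).  `M` of type `FP_n` ⟹ `Ext^n(M,ℤ)` is a finitely generated abelian group.  `n = 0`: `Hom(M,ℤ)` embeds in `ℤ^m` by the values on the images of the generators of `Rep.free ℤ G (Fin m)`.  `n = 1`: `Ext¹(M,ℤ)` is a quotient of `Hom(K,ℤ)`, `K` finitely generated.
`n + 1`, `n ≥ 1`: `Ext^{n+1}(M,ℤ)` is a quotient of `Ext^n(K,ℤ)` (`Ext^{n+1}(F,ℤ) = 0`), `K` of type `FP_n`.
-/

namespace Pool.Agent.H5.CP

open CategoryTheory CategoryTheory.Abelian CategoryTheory.Limits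

theorem FinD_main {G : Type} [Group G] (n : ℕ) (M : Rep.{0} ℤ G) (hM : FPm ℤ G n M) :
    AddGroup.FG (Ext M (Rep.trivial ℤ G ℤ) n) := by
  rw [← Module.Finite.iff_addGroup_fg]
  induction n generalizing M with
  | zero =>
    obtain ⟨m, q, hq⟩ := hM
    let e : Ext M (Rep.trivial ℤ G ℤ) 0 →+ (Fin m → ℤ) :=
      { toFun := fun x => Rep.freeLiftLEquiv ℤ G (Fin m) (Rep.trivial ℤ G ℤ)
          (q ≫ Ext.addEquiv₀ x)
        map_zero' := by rw [map_zero, comp_zero, map_zero]
        map_add' := fun φ ψ => by rw [map_add, Preadditive.comp_add, map_add] }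
    have he : Function.Injective e := by
      intro φ ψ hφ
      have h1 : q ≫ Ext.addEquiv₀ φ = q ≫ Ext.addEquiv₀ ψ :=
        (Rep.freeLiftLEquiv ℤ G (Fin m) (Rep.trivial ℤ G ℤ)).injective hφ
      exact Ext.addEquiv₀.injective ((cancel_epi q).1 h1)
    exact Module.Finite.of_injective e.toIntLinearMap he
  | succ n ih =>
    obtain ⟨m, f, hf, hK⟩ := hM
    let S : ShortComplex (Rep.{0} ℤ G) := ShortComplex.mk (kernel.ι f) f (kernel.condition f)
    have hS : S.ShortExact := { exact := ShortComplex.exact_of_f_is_kernel _ (kernelIsKernel f) }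
    have hK' := ih (kernel f) hK
    let c : Ext (kernel f) (Rep.trivial ℤ G ℤ) n →+ Ext M (Rep.trivial ℤ G ℤ) (n + 1) :=
      { toFun := fun x => hS.extClass.comp x (by omega)
        map_zero' := Ext.comp_zero _ _ _ _ _
        map_add' := fun φ ψ => Ext.comp_add _ _ _ _ }
    refine Module.Finite.of_surjective c.toIntLinearMap fun e => ?_
    have he : (Ext.mk₀ S.g).comp e (zero_add (n + 1)) = 0 := Ext.eq_zero_of_projective _
    obtain ⟨x, rfl⟩ := Ext.contravariant_sequence_exact₃ hS _ e he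
      (show 1 + n = n + 1 by omega)
    exact ⟨x, rfl⟩

end Pool.Agent.H5.CP
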