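import Pool.Agent.H5.CP.GysH
import Pool.Agent.H5.CP.ABg
import Pool.Agent.H5.CP.EulN
import Pool.Agent.H5.CP.ResE

/-!
ROW GysD (120 lines).  The Gysin property for `e(f) = e.comp (mk₀ f)`, `f : A → ℤ` with `f(a₁) = 1`, `K = j(ker f)`.  `H = Γ/K`, `t` = class of `j(a₁)`: central; of infinite order (`t^n = 1`: `j(n a₁) ∈ K`, so `n a₁ ∈ ker f` by injectivity of
`j`, `n = f(n a₁) = 0`).  `S' = ⟨t⟩`, `θ = QuotientGroup.mk' K`, `θ(j(a)) = t^{f(a)}` (`a - f(a) a₁ ∈ ker f`).  `θ̄ : Γ/S → H/S'` is bijective.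
`ABg_main` gives `e'` for `(H, S', zpowersHom H t)`; `EulN_main` with `A' = ℤ`: `e.comp (mk₀ (tmap f)) = F(e')`; `GysH_main`, `ResE_Gys`.
-/

namespace Pool.Agent.H5.CP

open CategoryTheory CategoryTheory.Abelian CategoryTheory.Limits

theorem GysD_center {Γ : Type} [Group Γ] (K : Subgroup Γ) [K.Normal] (x : Γ)
    (hx : x ∈ Subgroup.center Γ) : (QuotientGroup.mk x : Γ ⧸ K) ∈ Subgroup.center (Γ ⧸ K) := by
  rw [Subgroup.mem_center_iff]
  intro g
  obtain ⟨g, rfl⟩ := QuotientGroup.mk_surjective g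
  rw [← QuotientGroup.mk_mul, ← QuotientGroup.mk_mul, Subgroup.mem_center_iff.mp hx g]

theorem GysD_zpow {Γ A : Type} [Group Γ] [AddCommGroup A] (j : Multiplicative A →* Γ)
    (K : Subgroup Γ) [K.Normal] (a₁ : A) (n : ℤ) :
    (QuotientGroup.mk (j (Multiplicative.ofAdd a₁)) : Γ ⧸ K) ^ n
      = QuotientGroup.mk (j (Multiplicative.ofAdd (n • a₁))) := by
  rw [← QuotientGroup.mk_zpow, ← map_zpow, ofAdd_zsmul]

theorem GysD_key {Γ A : Type} [Group Γ] [AddCommGroup A] (j : Multiplicative A →* Γ)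
    (f : A →+ ℤ) (a₁ : A) (hf : f a₁ = 1) (K : Subgroup Γ) [K.Normal]
    (hK : ∀ x, x ∈ K ↔ ∃ a, f a = 0 ∧ j (Multiplicative.ofAdd a) = x) (a : A) :
    (QuotientGroup.mk (j (Multiplicative.ofAdd a)) : Γ ⧸ K)
      = (QuotientGroup.mk (j (Multiplicative.ofAdd a₁)) : Γ ⧸ K) ^ (f a) := by
  rw [GysD_zpow, QuotientGroup.eq, hK]
  refine ⟨-a + f a • a₁, ?_, ?_⟩
  · rw [map_add, map_neg, map_zsmul, hf]
    simp
  · rw [ofAdd_add, ofAdd_neg, map_mul, map_inv]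

theorem GysD_main {Γ A : Type} [Group Γ] [AddCommGroup A] (S : Subgroup Γ) [S.Normal]
    (hc : S ≤ Subgroup.center Γ) (j : Multiplicative A →* Γ) (hj : Function.Injective j)
    (hS : ∀ x, x ∈ S ↔ ∃ a, j (Multiplicative.ofAdd a) = x) (f : A →+ ℤ) (a₁ : A)
    (hf : f a₁ = 1) (K : Subgroup Γ) [K.Normal]
    (hK : ∀ x, x ∈ K ↔ ∃ a, f a = 0 ∧ j (Multiplicative.ofAdd a) = x) (hB : BE (Γ ⧸ K))
    (e : Ext (tz (Γ ⧸ S)) (Rep.trivial ℤ (Γ ⧸ S) A) 2) (he : IsEul S j e) :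
    GysP (Γ ⧸ S) (e.comp (Ext.mk₀ (tmap (Γ ⧸ S) f)) (add_zero 2)) := by
  set t : Γ ⧸ K := QuotientGroup.mk (j (Multiplicative.ofAdd a₁)) with htd
  have hjS : j (Multiplicative.ofAdd a₁) ∈ Subgroup.center Γ := hc ((hS _).mpr ⟨a₁, rfl⟩)
  have hct : t ∈ Subgroup.center (Γ ⧸ K) := GysD_center K _ hjS
  have ht : ∀ n : ℤ, t ^ n = 1 → n = 0 := by
    intro n hn
    rw [htd, GysD_zpow, QuotientGroup.eq_one_iff, hK] at hn
    obtain ⟨a, ha, hja⟩ := hn
    have h1 : a = n • a₁ := Multiplicative.ofAdd.injective (hj hja)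
    rw [h1, map_zsmul, hf] at ha
    simpa using ha
  have hnorm : (Subgroup.zpowers t).Normal := zpowers_normal t hct
  have key := GysD_key j f a₁ hf K hK
  have hθ : S ≤ (Subgroup.zpowers t).comap (QuotientGroup.mk' K) := by
    intro x hx
    obtain ⟨a, rfl⟩ := (hS x).mp hx
    rw [Subgroup.mem_comap]
    change (QuotientGroup.mk (j (Multiplicative.ofAdd a)) : Γ ⧸ K) ∈ Subgroup.zpowers t
    rw [key a]
    exact Subgroup.zpow_mem_zpowers t (f a)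
  have hinj : Function.Injective (zpowersHom (Γ ⧸ K) t) := by
    rw [injective_iff_map_eq_one]
    intro n hn
    rw [zpowersHom_apply] at hn
    have := ht _ hn
    exact Multiplicative.toAdd.injective this
  have hS' : ∀ x, x ∈ Subgroup.zpowers t ↔
      ∃ a : ℤ, zpowersHom (Γ ⧸ K) t (Multiplicative.ofAdd a) = x := by
    intro x
    rw [Subgroup.mem_zpowers_iff]
    rfl
  obtain ⟨e', he'⟩ := ABg_main (Subgroup.zpowers t) ((Subgroup.zpowers_le).2 hct)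
    (zpowersHom (Γ ⧸ K) t) hinj hS'
  have hG := GysH_main t hct ht hB e' he'
  have hE := EulN_main S (Subgroup.zpowers t) j (zpowersHom (Γ ⧸ K) t) (QuotientGroup.mk' K) hθ f
    (fun a => key a) e he e' he'
  rw [hE]
  refine ResE_Gys _ ⟨?_, ?_⟩ e' hG
  · rw [injective_iff_map_eq_one]
    intro x hx
    obtain ⟨x, rfl⟩ := QuotientGroup.mk_surjective x
    have h1 : (QuotientGroup.mk (QuotientGroup.mk' K x) : (Γ ⧸ K) ⧸ Subgroup.zpowers t) = 1 := hx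
    rw [QuotientGroup.eq_one_iff, Subgroup.mem_zpowers_iff] at h1
    obtain ⟨n, hn⟩ := h1
    rw [htd, GysD_zpow] at hn
    have h2 : (QuotientGroup.mk (j (Multiplicative.ofAdd (n • a₁))) : Γ ⧸ K)
      = QuotientGroup.mk x := hn
    rw [QuotientGroup.eq, hK] at h2
    obtain ⟨b, -, hb⟩ := h2
    rw [QuotientGroup.eq_one_iff, hS]
    refine ⟨n • a₁ + b, ?_⟩
    rw [ofAdd_add, map_mul, hb, mul_inv_cancel_left]
  · intro y
    obtain ⟨y, rfl⟩ := QuotientGroup.mk_surjective y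
    obtain ⟨y, rfl⟩ := QuotientGroup.mk_surjective y
    exact ⟨QuotientGroup.mk y, rfl⟩

end Pool.Agent.H5.CP
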