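import Pool.Agent.H5.CP.EDef
import Pool.Agent.H5.CP.QRes
import Pool.Agent.H5.CP.BEs

/-!
ROW GysH (120 lines).  The Gysin property for `t` central of infinite order in `H`, `S = ⟨t⟩`, `G = H/S`: `BE H` (`s` kills `H^j(H;A)`, `j ≥ j₀`) implies `GysP G e`.  Same computation as in `BEs_main` (copy its steps (1),(2)):
`he` gives `(a) 0 → ℤ → E → J → 0` with class `α` and `e = β.comp α`, `β` the class of `augSC ℤ G`.
(1) for `j ≥ j₀ + 1`: `s` kills `Ext^j_G(E,A)`: `QRes_main` (class `TRegC_main`, `AugE_ker`) and `Ext^j_H(I,B) ≅ Ext^{j+1}_H(ℤ,B)` (`augSC ℤ H`), `ExB_smul`.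
(2) `y ∈ Ext^{n+2}(ℤ,A)`: `y = β.comp y'`, `y' ∈ Ext^{n+1}(J,A)` (`ℤ[G]` projective); `s • y' = α.comp x` since the restriction of `y'` to `E` is killed by `s`; so `s • y = e.comp x`.
(3) `x ∈ Ext^n(ℤ,A)` with `e.comp x = 0`, `n ≥ 1`: `β.comp (α.comp x) = 0` implies `α.comp x = 0` (`Ext^{n+1}(ℤ[G],A) = 0`: `Ext.contravariant_sequence_exact₁`: `α.comp x` comes from
 `Ext^{n+1}(ℤ[G],A) = 0`), hence `x` is the restriction along `ι` of an element of `Ext^n(E,A)` (`Ext.contravariant_sequence_exact₁`), which is killed by `s` for `n ≥ j₀ + 1`.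
-/

namespace Pool.Agent.H5.CP

open CategoryTheory CategoryTheory.Abelian CategoryTheory.Limits

section GysHAbs

universe w v u

variable {C : Type u} [Category.{v} C] [Abelian C] [HasExt.{w} C]

theorem GysH_abs {Z J E P : C} [Projective P] {f1 : Z ⟶ E} {g1 : E ⟶ J} {w1 : f1 ≫ g1 = 0}
    (h1 : (ShortComplex.mk f1 g1 w1).ShortExact) {f2 : J ⟶ P} {g2 : P ⟶ Z} {w2 : f2 ≫ g2 = 0}
    (h2 : (ShortComplex.mk f2 g2 w2).ShortExact) (s i0 : ℕ)
    (hs : ∀ (A : C) (i : ℕ) (_ : i0 ≤ i) (x : Ext.{w} E A (i + 1)), s • x = 0)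
    (A : C) (n : ℕ) (hn : i0 + 1 ≤ n) :
    (∀ y : Ext.{w} Z A (n + 2), ∃ x : Ext.{w} Z A n, s • y =
      ((h2.extClass : Ext.{w} Z J 1).comp (h1.extClass : Ext.{w} J Z 1)
        (show 1 + 1 = 2 from rfl)).comp x (add_comm 2 n)) ∧
    ∀ x : Ext.{w} Z A n, ((h2.extClass : Ext.{w} Z J 1).comp (h1.extClass : Ext.{w} J Z 1)
        (show 1 + 1 = 2 from rfl)).comp x (add_comm 2 n) = 0 → s • x = 0 := by
  constructor
  · intro y
    obtain ⟨y', hy'⟩ := Ext.contravariant_sequence_exact₃ h2 A y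
      (Ext.eq_zero_of_projective (P := P) _) (n₀ := n + 1) (by omega)
    have h3 : (Ext.mk₀ g1).comp (s • (y' : Ext.{w} J A (n + 1))) (zero_add (n + 1)) = 0 := by
      rw [BEs_comp_nsmul]
      exact hs A n (by omega) _
    obtain ⟨z, hz⟩ := Ext.contravariant_sequence_exact₃ h1 A (s • (y' : Ext.{w} J A (n + 1))) h3
      (n₀ := n) (by omega)
    refine ⟨z, ?_⟩
    rw [← hy', ← BEs_comp_nsmul]
    have h4 : (s • y' : Ext.{w} J A (n + 1)) = (h1.extClass : Ext.{w} J Z 1).comp z (by omega) :=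
      hz.symm
    have h5 := Ext.comp_assoc (h2.extClass : Ext.{w} Z J 1) (h1.extClass : Ext.{w} J Z 1) z
      (a₁₂ := 2) (a₂₃ := n + 1) (a := n + 2) rfl (by omega) (by omega)
    rw [h5, ← h4]
  · intro x hx
    have h5 := Ext.comp_assoc (h2.extClass : Ext.{w} Z J 1) (h1.extClass : Ext.{w} J Z 1) x
      (a₁₂ := 2) (a₂₃ := n + 1) (a := n + 2) rfl (by omega) (by omega)
    rw [h5] at hx
    obtain ⟨y, hy⟩ := Ext.contravariant_sequence_exact₁ h2 A
      ((h1.extClass : Ext.{w} J Z 1).comp x (show 1 + n = n + 1 by omega))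
      (n₁ := n + 2) (by omega) hx
    have hy0 : (y : Ext.{w} P A (n + 1)) = 0 := Ext.eq_zero_of_projective _
    have h6 : (h1.extClass : Ext.{w} J Z 1).comp x (show 1 + n = n + 1 by omega) = 0 := by
      rw [← hy, hy0]
      exact Ext.comp_zero _ _ _ _ _
    obtain ⟨y2, hy2⟩ := Ext.contravariant_sequence_exact₁ h1 A x (n₁ := n + 1) (by omega) h6
    obtain ⟨i, rfl⟩ : ∃ i, n = i + 1 := ⟨n - 1, by omega⟩
    have h7 : s • (y2 : Ext.{w} E A (i + 1)) = 0 := hs A i (by omega) y2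
    rw [← hy2, ← BEs_comp_nsmul, h7]
    exact Ext.comp_zero _ _ _ _ _

end GysHAbs

theorem GysH_main {H : Type} [Group H] (t : H) (hc : t ∈ Subgroup.center H)
    (ht : ∀ n : ℤ, t ^ n = 1 → n = 0) [(Subgroup.zpowers t).Normal] (hB : BE H)
    (e : Ext (tz (H ⧸ Subgroup.zpowers t)) (tz (H ⧸ Subgroup.zpowers t)) 2)
    (he : IsEul (Subgroup.zpowers t) (zpowersHom H t) e) :
    GysP (H ⧸ Subgroup.zpowers t) e := by
  obtain ⟨s, n, hs, hB⟩ := hB
  obtain ⟨ι, a, w, hS, -, rfl⟩ := he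
  obtain ⟨C, hC⟩ := TRegC_main ℤ t hc ht
  have hker : C.P (kernel (aug ℤ H)) := (hC _).2 (AugE_ker t ht)
  have hG : (ShortComplex.mk (kernel.ι (aug ℤ H)) (aug ℤ H) (kernel.condition _)).ShortExact :=
    AugE_exact ℤ H
  have hQ : (ShortComplex.mk (kernel.ι (aug ℤ (H ⧸ Subgroup.zpowers t)))
      (aug ℤ (H ⧸ Subgroup.zpowers t)) (kernel.condition _)).ShortExact :=
    AugE_exact ℤ (H ⧸ Subgroup.zpowers t)
  have e1 : ∀ (A : Rep.{0} ℤ H) (j : ℕ), n ≤ j → ∀ e : Ext (Rep.trivial ℤ H ℤ) A j, s • e = 0 := by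
    intro A j hj
    refine (ExB_smul A j s).1 fun x => ?_
    exact (natCast_zsmul x s).symm.trans (hB A j hj x)
  have e2 : ∀ (A : Rep.{0} ℤ H) (j : ℕ), n ≤ j → ∀ e : Ext (kernel (aug ℤ H)) A (j + 1),
      s • e = 0 := by
    intro A j hj e
    exact BEs_ker hG s j A (e1 A (j + 2) (by omega)) e
  have e3 : ∀ (A : Rep.{0} ℤ (H ⧸ Subgroup.zpowers t)) (j : ℕ), n ≤ j →
      ∀ e : Ext ((QF ℤ (Subgroup.zpowers t)).obj (kernel (aug ℤ H))) A (j + 1), s • e = 0 := by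
    intro A j hj
    exact (QRes_main C (kernel (aug ℤ H)) hker A (j + 1) s).1 (e2 _ j hj)
  exact ⟨s, n + 1, hs, fun A j hj => GysH_abs hS hQ s n e3 A j hj⟩

end Pool.Agent.H5.CP
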