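import Pool.Agent.H5.CP.Defs

/-!
ROW LesA (60 lines).  Vanishing consequences of the long exact sequence of group cohomology
(Mathlib.RepresentationTheory.Homological.GroupCohomology.LongExactSequence), invariance under isomorphism and
retracts (`groupCohomology.functor k G n` is an additive functor), and Shapiro's lemma
(`groupCohomology.coindIso`).
-/

namespace Pool.Agent.H5.CP

open CategoryTheory CategoryTheory.Abelian CategoryTheory.Limits

theorem LesA_1 {k G : Type} [CommRing k] [Group G] {S : ShortComplex (Rep.{0} k G)}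
    (hS : S.ShortExact) (j : ℕ) (h3 : IsZero (groupCohomology S.X₃ j))
    (h2 : IsZero (groupCohomology S.X₂ (j + 1))) : IsZero (groupCohomology S.X₁ (j + 1)) :=
  (groupCohomology.mapShortComplex₁_exact hS (rfl : j + 1 = j + 1)).isZero_of_both_zeros
    (h3.eq_of_src _ _) (h2.eq_of_tgt _ _)

theorem LesA_2 {k G : Type} [CommRing k] [Group G] {S : ShortComplex (Rep.{0} k G)}
    (hS : S.ShortExact) (j : ℕ) (h1 : IsZero (groupCohomology S.X₁ j))
    (h3 : IsZero (groupCohomology S.X₃ j)) : IsZero (groupCohomology S.X₂ j) :=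
  (groupCohomology.mapShortComplex₂_exact hS j).isZero_of_both_zeros
    (h1.eq_of_src _ _) (h3.eq_of_tgt _ _)

theorem LesA_3 {k G : Type} [CommRing k] [Group G] {S : ShortComplex (Rep.{0} k G)}
    (hS : S.ShortExact) (j : ℕ) (h2 : IsZero (groupCohomology S.X₂ j))
    (h1 : IsZero (groupCohomology S.X₁ (j + 1))) : IsZero (groupCohomology S.X₃ j) :=
  (groupCohomology.mapShortComplex₃_exact hS (rfl : j + 1 = j + 1)).isZero_of_both_zeros
    (h2.eq_of_src _ _) (h1.eq_of_tgt _ _)

theorem LesA_iso {k G : Type} [CommRing k] [Group G] {A B : Rep.{0} k G} (e : Nonempty (A ≅ B))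
    (j : ℕ) (h : IsZero (groupCohomology B j)) : IsZero (groupCohomology A j) :=
  h.of_iso ((groupCohomology.functor k G j).mapIso e.some)

theorem LesA_ret {k G : Type} [CommRing k] [Group G] {A B : Rep.{0} k G} (r : Retract A B)
    (j : ℕ) (h : IsZero (groupCohomology B j)) : IsZero (groupCohomology A j) := by
  let r' := r.map (groupCohomology.functor k G j)
  have h' : IsZero ((groupCohomology.functor k G j).obj B) := h
  have h0 : 𝟙 ((groupCohomology.functor k G j).obj A) = 0 := by
    rw [← r'.retract, h'.eq_of_tgt r'.i 0, zero_comp]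
  exact (IsZero.iff_id_eq_zero _).2 h0

theorem LesA_coind {k G : Type} [CommRing k] [Group G] (S : Subgroup G) (A : Rep.{0} k S)
    (j : ℕ) : IsZero (groupCohomology (Rep.coind S.subtype A) j) ↔
      IsZero (groupCohomology A j) :=
  (groupCohomology.coindIso A j).isZero_iff

end Pool.Agent.H5.CP
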