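import Pool.Agent.H5.CP.WDef
import Pool.Agent.H5.CP.LesA

/-!
ROW HigA (100 lines).  Higman's criterion for `N = ker π` of index `p` in `G` (`D : PData G p`).
`L` is a retract of `coind_N^G (res L)` (Mathlib: `Rep.coind D.π.ker.subtype (Rep.res D.π.ker.subtype L)`, functions
`Φ : G → L` with `Φ(n g) = n Φ(g)`, action `(h Φ)(g) = Φ(g h)`):
  `α(x)(g) = e(g x)`   (in the coinduced module because `e` is `N`-linear),
  `β(Φ) = Σ_{c : ZMod p} σ(c)⁻¹ Φ(σ(c))`.
`β` is `G`-linear: `σ(c) h = c(c,h) σ(c + deg h)` with `c(c,h) ∈ N` (`PData.c`), so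
`σ(c)⁻¹ Φ(σ(c) h) = σ(c)⁻¹ c(c,h) Φ(σ(c + deg h)) = h σ(c + deg h)⁻¹ Φ(σ(c + deg h))`, and sum over `c`
(reindex by `c ↦ c + deg h`).  `β(α(x)) = Σ σ(c)⁻¹ e(σ(c) x) = x` by hypothesis.
Then `LesA_ret` and `LesA_coind`.  (`p` is prime, so `ZMod p` is a Fintype.)
-/

namespace Pool.Agent.H5.CP

open CategoryTheory CategoryTheory.Abelian CategoryTheory.Limits

/-- the map `x ↦ (g ↦ e (g x))` -/
noncomputable def HigA_alpha {k G : Type} [CommRing k] [Group G] {p : ℕ} (D : PData G p)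
    (L : Rep.{0} k G) (e : L.V →ₗ[k] L.V)
    (he : ∀ n : G, D.π n = 1 → ∀ x, e (L.ρ n x) = L.ρ n (e x)) :
    L ⟶ Rep.coind D.π.ker.subtype (Rep.res D.π.ker.subtype L) :=
  Rep.ofHom
    ⟨{ toFun := fun x => ⟨fun g => e (L.ρ g x), by
        intro n g
        change e (L.ρ (n.1 * g) x) = L.ρ n.1 (e (L.ρ g x))
        rw [← he n.1 n.2]
        simp⟩
       map_add' := by intro x y; apply Subtype.ext; funext g; simp
       map_smul' := by intro r x; apply Subtype.ext; funext g; simp }, by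
      intro h
      apply LinearMap.ext
      intro x
      apply Subtype.ext
      funext g
      change e (L.ρ g (L.ρ h x)) = e (L.ρ (g * h) x)
      simp⟩

/-- the map `Φ ↦ Σ σ(c)⁻¹ Φ(σ(c))` -/
noncomputable def HigA_beta {k G : Type} [CommRing k] [Group G] {p : ℕ} [Fact p.Prime]
    (D : PData G p) (L : Rep.{0} k G) :
    Rep.coind D.π.ker.subtype (Rep.res D.π.ker.subtype L) ⟶ L :=
  Rep.ofHom
    ⟨{ toFun := fun Φ => ∑ c : ZMod p, L.ρ (D.σ c)⁻¹ (Φ.1 (D.σ c))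
       map_add' := by
        intro Φ Ψ
        rw [← Finset.sum_add_distrib]
        refine Finset.sum_congr rfl fun c _ => ?_
        exact map_add (L.ρ (D.σ c)⁻¹) _ _
       map_smul' := by
        intro r Φ
        rw [RingHom.id_apply, Finset.smul_sum]
        refine Finset.sum_congr rfl fun c _ => ?_
        exact map_smul (L.ρ (D.σ c)⁻¹) _ _ }, by
      intro h
      apply LinearMap.ext
      intro Φ
      change ∑ c : ZMod p, L.ρ (D.σ c)⁻¹ (Φ.1 (D.σ c * h)) =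
        L.ρ h (∑ c : ZMod p, L.ρ (D.σ c)⁻¹ (Φ.1 (D.σ c)))
      rw [map_sum, ← Equiv.sum_comp (Equiv.addRight (D.deg h))
        (fun c => L.ρ h (L.ρ (D.σ c)⁻¹ (Φ.1 (D.σ c))))]
      refine Finset.sum_congr rfl fun c _ => ?_
      simp only [Equiv.coe_addRight]
      have h1 : D.σ c * h = (D.c c h).1 * D.σ (c + D.deg h) := by
        simp [PData.c]
      have h2 : Φ.1 (D.σ c * h) = L.ρ (D.c c h).1 (Φ.1 (D.σ (c + D.deg h))) := by
        rw [h1]
        exact Φ.2 (D.c c h) (D.σ (c + D.deg h))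
      rw [h2, ← Module.End.mul_apply, ← Module.End.mul_apply, ← map_mul, ← map_mul]
      congr 2
      simp [PData.c, mul_assoc]⟩

theorem HigA_main {k G : Type} [CommRing k] [Group G] {p : ℕ} [Fact p.Prime] (D : PData G p)
    (L : Rep.{0} k G) (e : L.V →ₗ[k] L.V)
    (he : ∀ n : G, D.π n = 1 → ∀ x, e (L.ρ n x) = L.ρ n (e x))
    (htr : ∀ x : L.V, ∑ c : ZMod p, L.ρ (D.σ c)⁻¹ (e (L.ρ (D.σ c) x)) = x) (j : ℕ)
    (h : IsZero (groupCohomology (Rep.res D.π.ker.subtype L) j)) :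
    IsZero (groupCohomology L j) := by
  refine LesA_ret (B := Rep.coind D.π.ker.subtype (Rep.res D.π.ker.subtype L))
    ⟨HigA_alpha D L e he, HigA_beta D L, ?_⟩ j ?_
  · ext x
    exact htr x
  · exact (LesA_coind D.π.ker (Rep.res D.π.ker.subtype L) j).2 h

end Pool.Agent.H5.CP
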