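import Pool.Agent.H5.CP.VDef

/-!
ROW SQe.  The short complex `SQ A U U'` (VDef) is short exact: `f` is the inclusion (injective), `g` is the
quotient map (surjective), and the kernel of `g` is `U`.
-/

namespace Pool.Agent.H5.CP

open CategoryTheory CategoryTheory.Abelian CategoryTheory.Limits

theorem SQe_main {k G : Type} [CommRing k] [Group G] (A : Rep.{0} k G) (U U' : Submodule k A.V)
    (hU : ∀ g, U ≤ U.comap (A.ρ g)) (hU' : ∀ g, U' ≤ U'.comap (A.ρ g)) (h : U ≤ U') :
    (SQ A U U' hU hU' h).ShortExact where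
  exact := (forget₂ (Rep.{0} k G) (ModuleCat k)).reflects_exact_of_faithful _ <|
    (ShortComplex.moduleCat_exact_iff _).2 fun x hx => by
      have hx' : (x : U') ∈ U.submoduleOf U' := (Submodule.Quotient.mk_eq_zero _).1 hx
      exact ⟨(⟨x.1, hx'⟩ : U), rfl⟩
  mono_f := (Rep.mono_iff_injective _).2 fun a b hab => by
    have := congrArg (fun z : U' => z.1) hab
    exact Subtype.ext this
  epi_g := (Rep.epi_iff_surjective _).2 <| Submodule.mkQ_surjective _

end Pool.Agent.H5.CP
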