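import Pool.Agent.H5.CP.HigA
import Pool.Agent.H5.CP.SQe

/-!
ROW HigQ (80 lines).  Higman's criterion on a subquotient `U'/U` of `A`, given by a linear endomorphism `e` of `A`
which preserves `U` and `U'`, is `N`-linear modulo `U` and has trace the identity modulo `U`.
Proof: `e` induces a `k`-linear endomorphism `ē` of `(SQ A U U' ..).X₃ = U'/U` (`Submodule.mapQ` of the restriction
of `e` to `U'`); apply `HigA_main` to `L = U'/U` and `ē`; the hypothesis `hN` gives the vanishing for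
`Rep.res D.π.ker.subtype L`.
-/

namespace Pool.Agent.H5.CP

open CategoryTheory CategoryTheory.Abelian CategoryTheory.Limits

theorem HigQ_main {k G : Type} [CommRing k] [Group G] {p : ℕ} [Fact p.Prime] (D : PData G p)
    (A : Rep.{0} k G) (U U' : Submodule k A.V)
    (hU : ∀ g, U ≤ U.comap (A.ρ g)) (hU' : ∀ g, U' ≤ U'.comap (A.ρ g)) (h : U ≤ U')
    (e : A.V →ₗ[k] A.V) (heU : ∀ x ∈ U, e x ∈ U) (heU' : ∀ x ∈ U', e x ∈ U')
    (he : ∀ n : G, D.π n = 1 → ∀ x ∈ U', e (A.ρ n x) - A.ρ n (e x) ∈ U)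
    (htr : ∀ x ∈ U', ∑ c : ZMod p, A.ρ (D.σ c)⁻¹ (e (A.ρ (D.σ c) x)) - x ∈ U) (j : ℕ)
    (hN : ∀ A' : Rep.{0} k D.π.ker, IsZero (groupCohomology A' j)) :
    IsZero (groupCohomology (SQ A U U' hU hU' h).X₃ j) := by
  set e' : U' →ₗ[k] U' := e.restrict heU' with he'
  have hle : U.submoduleOf U' ≤ (U.submoduleOf U').comap e' := by
    intro x hx
    exact heU x.1 hx
  set eb : (U' ⧸ U.submoduleOf U') →ₗ[k] (U' ⧸ U.submoduleOf U') :=
    (U.submoduleOf U').mapQ (U.submoduleOf U') e' hle with heb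
  have hmk : ∀ (g : G) (y : U'), (SQ A U U' hU hU' h).X₃.ρ g (Submodule.Quotient.mk y) =
      Submodule.Quotient.mk (⟨A.ρ g y.1, hU' g y.2⟩ : U') := fun g y => rfl
  have hebmk : ∀ y : U', eb (Submodule.Quotient.mk y) =
      Submodule.Quotient.mk (⟨e y.1, heU' _ y.2⟩ : U') := fun y => rfl
  refine HigA_main D (SQ A U U' hU hU' h).X₃ eb ?_ ?_ j (hN _)
  · intro n hn x
    obtain ⟨y, rfl⟩ := Submodule.Quotient.mk_surjective _ x
    rw [hmk]
    erw [hebmk, hebmk, hmk]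
    refine (Submodule.Quotient.eq _).2 ?_
    exact he n hn y.1 y.2
  · intro x
    obtain ⟨y, rfl⟩ := Submodule.Quotient.mk_surjective _ x
    have h1 : ∀ c : ZMod p, (SQ A U U' hU hU' h).X₃.ρ (D.σ c)⁻¹
        (eb ((SQ A U U' hU hU' h).X₃.ρ (D.σ c) (Submodule.Quotient.mk y))) =
        Submodule.Quotient.mk (⟨A.ρ (D.σ c)⁻¹ (e (A.ρ (D.σ c) y.1)),
          hU' _ (heU' _ (hU' _ y.2))⟩ : U') := fun c => rfl
    refine (Finset.sum_congr rfl (fun c _ => h1 c)).trans ?_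
    have h2 : ∑ c : ZMod p, (Submodule.Quotient.mk (⟨A.ρ (D.σ c)⁻¹ (e (A.ρ (D.σ c) y.1)),
          hU' _ (heU' _ (hU' _ y.2))⟩ : U') : U' ⧸ U.submoduleOf U') =
        Submodule.Quotient.mk (∑ c : ZMod p, (⟨A.ρ (D.σ c)⁻¹ (e (A.ρ (D.σ c) y.1)),
          hU' _ (heU' _ (hU' _ y.2))⟩ : U')) :=
      (map_sum (U.submoduleOf U').mkQ _ _).symm
    refine h2.trans ((Submodule.Quotient.eq _).2 ?_)
    show ((∑ c : ZMod p, (⟨A.ρ (D.σ c)⁻¹ (e (A.ρ (D.σ c) y.1)),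
          hU' _ (heU' _ (hU' _ y.2))⟩ : U') - y : U') : A.V) ∈ U
    rw [Submodule.coe_sub, Submodule.coe_sum]
    exact htr y.1 y.2

end Pool.Agent.H5.CP
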