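import Mathlib

/-!
# Hpr: a cluster of well separated primes (Bertrand's postulate)

`h i` = a prime in `(4^i G, 2 * 4^i G]` (`Nat.exists_prime_lt_and_le_two_mul`, `4^i G ≠ 0`); for `i < j`: `h j > 4^j G ≥ 4 * 4^i G ≥ h i + 2 * 4^i G > h i + G`.
-/

set_option autoImplicit false

namespace H5CP

theorem hpr (κ G : ℕ) (hG : 1 ≤ G) : ∃ h : ℕ → ℕ, (∀ i, i < κ → (h i).Prime ∧ G < h i ∧ h i + G ≤ 4 ^ κ * G) ∧
    ∀ i j, i < j → j < κ → h i + G < h j := by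
  have h0 : ∀ i : ℕ, ∃ p : ℕ, p.Prime ∧ 4 ^ i * G < p ∧ p ≤ 2 * (4 ^ i * G) := fun i =>
    Nat.exists_prime_lt_and_le_two_mul (4 ^ i * G) (by positivity)
  choose h h1 h2 h3 using h0
  have hp : ∀ i : ℕ, G ≤ 4 ^ i * G := fun i => Nat.le_mul_of_pos_left G (by positivity)
  refine ⟨h, fun i hi => ⟨h1 i, lt_of_le_of_lt (hp i) (h2 i), ?_⟩, fun i j hij hj => ?_⟩
  · have e1 : 4 ^ (i + 1) * G ≤ 4 ^ κ * G := Nat.mul_le_mul_right _ (Nat.pow_le_pow_right (by norm_num) hi)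
    have e2 := h3 i
    have e3 := hp i
    have e4 : 4 ^ (i + 1) * G = 4 * (4 ^ i * G) := by ring
    omega
  · have e1 : 4 ^ (i + 1) * G ≤ 4 ^ j * G := Nat.mul_le_mul_right _ (Nat.pow_le_pow_right (by norm_num) hij)
    have e2 := h3 i
    have e3 := hp i
    have e4 : 4 ^ (i + 1) * G = 4 * (4 ^ i * G) := by ring
    have e5 := h2 j
    omega

end H5CP
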