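import Mathlib

/-!
ROW LatS (80 lines).  `Λ` a subgroup of the finitely generated free abelian group `A`, `w ∈ A` with `M w ∉ Λ`.  Smith normal form (`Submodule.smithNormalForm`): a basis `b_i` of `A` and integers `c_i ≠ 0` such that `Λ` has the basis `c_i b_i`, `i` in a subset.
If for all `i` in the subset `c_i ∣ M` and the subset is everything then `M A ⊆ Λ`, contradiction.  So either some `i` is outside the subset: take `f = b_i^*` (coordinate), `a = M + 1` (f vanishes on Λ); or `c_i ∤ M` for some `i`: `f = b_i^*`,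
`a = |c_i|`.  `f(b_i) = 1`.
-/

namespace Pool.Agent.H5.CP

open CategoryTheory CategoryTheory.Abelian CategoryTheory.Limits

theorem LatS_main {A : Type} [AddCommGroup A] [Module.Free ℤ A] [Module.Finite ℤ A]
    (Λ : AddSubgroup A) (w : A) (M : ℕ) (hM : 0 < M) (h : M • w ∉ Λ) :
    ∃ (f : A →ₗ[ℤ] ℤ) (a₁ : A) (a : ℕ), f a₁ = 1 ∧ 0 < a ∧ ¬ a ∣ M ∧
      ∀ x ∈ Λ, (a : ℤ) ∣ f x := by
  classical
  let b := Module.Free.chooseBasis ℤ A
  obtain ⟨n, snf⟩ := Submodule.smithNormalForm b (AddSubgroup.toIntSubmodule Λ)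
  by_cases hr : ∃ i, i ∉ Set.range snf.f
  · obtain ⟨i, hi⟩ := hr
    refine ⟨snf.bM.coord i, snf.bM i, M + 1, ?_, by omega, ?_, ?_⟩
    · rw [Module.Basis.coord_apply, Module.Basis.repr_self, Finsupp.single_eq_same]
    · intro hd
      have := Nat.le_of_dvd hM hd
      omega
    · intro x hx
      have h1 : snf.bM.coord i x = 0 := snf.le_ker_coord_of_notMem_range hi hx
      rw [h1]
      exact dvd_zero _
  · push Not at hr
    have hex : ∃ i, ¬ (snf.a i ∣ (M : ℤ)) := by
      by_contra hcon
      push Not at hcon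
      apply h
      have hw : M • w ∈ AddSubgroup.toIntSubmodule Λ := by
        rw [← snf.bM.sum_repr w, Finset.smul_sum]
        refine Submodule.sum_mem _ fun j _ => ?_
        obtain ⟨i, rfl⟩ := hr j
        obtain ⟨c, hc⟩ := hcon i
        have e1 : M • (snf.bM.repr w (snf.f i) • snf.bM (snf.f i)) =
            (c * snf.bM.repr w (snf.f i)) • ((snf.bN i : AddSubgroup.toIntSubmodule Λ) : A) := by
          rw [snf.snf i, ← natCast_zsmul, smul_smul, smul_smul, hc]
          congr 1
          ring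
        rw [e1]
        exact Submodule.smul_mem _ _ (snf.bN i).2
      exact hw
    obtain ⟨i, hi⟩ := hex
    have ha0 : snf.a i ≠ 0 := by
      intro h0
      have h1 := snf.snf i
      rw [h0, zero_smul] at h1
      exact snf.bN.ne_zero i (Subtype.ext h1)
    refine ⟨snf.bM.coord (snf.f i), snf.bM (snf.f i), (snf.a i).natAbs, ?_,
      Int.natAbs_pos.2 ha0, ?_, ?_⟩
    · rw [Module.Basis.coord_apply, Module.Basis.repr_self, Finsupp.single_eq_same]
    · intro hd
      exact hi (Int.natAbs_dvd.1 (Int.natCast_dvd_natCast.2 hd))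
    · intro x hx
      have h1 : snf.bM.coord (snf.f i) x =
          snf.bN.repr (snf.a i • (⟨x, hx⟩ : AddSubgroup.toIntSubmodule Λ)) i :=
        snf.repr_apply_embedding_eq_repr_smul ⟨x, hx⟩
      rw [h1, map_smul, Finsupp.smul_apply, smul_eq_mul, Int.natAbs_dvd]
      exact dvd_mul_right _ _

end Pool.Agent.H5.CP
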