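import Pool.Agent.H5.CP.CenR

/-!
ROW MainB (40 lines).  THEOREM 1 (b).  `G` of type FP is in CP iff its centre is finitely generated and some prime is not the order of an element of `G/Z(G)`.
`CenR_center`, `MainA_iff` with `D = center`, `FPcd_fin ℚ`.
-/

namespace Pool.Agent.H5.CP

open CategoryTheory CategoryTheory.Abelian CategoryTheory.Limits

theorem MainB_iff {G : Type} [Group G] (h : IsTypeFP G) :
    InCP G ↔ (Subgroup.center G).FG ∧
      ∃ p : ℕ, p.Prime ∧ NoP p (G ⧸ Subgroup.center G) := by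
  constructor
  · rintro ⟨-, hr⟩
    have hf : (Subgroup.center G).FG := CenR_center h hr
    exact ⟨hf, (MainA_iff h (Subgroup.center G) le_rfl hf).1 hr⟩
  · rintro ⟨hf, hp⟩
    exact ⟨FPcd_fin ℚ h, (MainA_iff h (Subgroup.center G) le_rfl hf).2 hp⟩

end Pool.Agent.H5.CP
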