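import Pool.Agent.H5.CP.DefsCl

/-!
# Prd: the survival probability of an element outside of the cluster

`F = {p ∈ QQ w0 w P : k ≢ h mod p for all h ∈ H}`. The primes of `QQ` outside `F` divide `∏_{h ∈ H} |k - h|`, which is nonzero and at most `N^|H|`;
they are `> w0 ≥ 2`, so there are at most `|H| log N/log w0 ≤ 2 |H| log N` of them (`∏ p ≤ N^|H|`, `log w0 ≥ log 2 ≥ 1/2`), and
`(1 - 1/p)^(-1) ≤ exp(2/p) ≤ exp(2/w0)` (as `1 - t ≥ exp(-2t)` for `0 ≤ t ≤ 1/2`): they change the product by a factor of at most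
`exp(4 |H| log N/w0)`. The missing prime `P` changes it by a factor of at most `2`. The full product over the primes of `(w0, w]` is
`V univ w/V univ w0 ≤ (c/log w) (c log w0)` (`MERT.mert`, parts 4 and 5; `V` in H67/GT/Base.lean).
-/

set_option autoImplicit false

namespace H5CP

open Finset

/-- few primes divide a difference `k - h` -/
private theorem prd_card {N : ℕ} {H D : Finset ℕ} {k : ℕ} (hN : 1 ≤ N) (hH : ∀ h ∈ H, 1 ≤ h ∧ h ≤ N)
    (hk1 : 1 ≤ k) (hkN : k ≤ N) (hkH : k ∉ H) (hD : ∀ p ∈ D, p.Prime ∧ ∃ h ∈ H, k ≡ h [MOD p]) :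
    (D.card : ℝ) ≤ 2 * H.card * Real.log N := by
  set m : ℕ := ∏ h ∈ H, ((k : ℤ) - h).natAbs with hm
  have hne : ∀ h ∈ H, 1 ≤ ((k : ℤ) - h).natAbs ∧ ((k : ℤ) - h).natAbs ≤ N := by
    intro h hh
    have h1 := hH h hh
    have h2 : k ≠ h := fun e => hkH (e ▸ hh)
    omega
  have hm1 : m ≤ N ^ H.card := by
    rw [hm]
    exact Finset.prod_le_pow_card _ _ _ fun h hh => (hne h hh).2
  have hm0 : 0 < m := Finset.prod_pos fun h hh => (hne h hh).1
  have hdvd : ∏ p ∈ D, p ∣ m := by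
    refine Finset.prod_primes_dvd m (fun p hp => (hD p hp).1.prime) fun p hp => ?_
    obtain ⟨_, h, hh, hkh⟩ := hD p hp
    have h1 : (p : ℤ) ∣ (k : ℤ) - h := by
      have := (Nat.modEq_iff_dvd.1 hkh)
      rw [← dvd_neg]
      have e : -((k : ℤ) - h) = (h : ℤ) - k := by ring
      rw [e]
      exact this
    have h2 : p ∣ ((k : ℤ) - h).natAbs := Int.natCast_dvd.1 h1
    exact h2.trans (Finset.dvd_prod_of_mem (fun h : ℕ => ((k : ℤ) - h).natAbs) hh)
  have h2 : 2 ^ D.card ≤ ∏ p ∈ D, p := by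
    have := Finset.pow_card_le_prod D (fun p : ℕ => p) 2 fun p hp => (hD p hp).1.two_le
    exact this
  have h3 : 2 ^ D.card ≤ N ^ H.card := h2.trans ((Nat.le_of_dvd hm0 hdvd).trans hm1)
  have h4 : ((2 : ℝ)) ^ D.card ≤ (N : ℝ) ^ H.card := by exact_mod_cast h3
  have h5 := Real.log_le_log (by positivity) h4
  rw [Real.log_pow, Real.log_pow] at h5
  have h6 : (1 : ℝ) / 2 ≤ Real.log 2 := by
    have := Real.log_two_gt_d9
    linarith
  have h7 : (0 : ℝ) ≤ D.card := Nat.cast_nonneg _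
  nlinarith

private theorem prd_fac {p w0 : ℕ} (hp : p.Prime) (hw : 2 ≤ w0) (h : w0 < p) :
    Real.exp (-(2 / (w0 : ℝ))) ≤ 1 - 1 / (p : ℝ) ∧ (1 : ℝ) / 2 ≤ 1 - 1 / (p : ℝ) := by
  have hp2 : (2 : ℝ) ≤ p := by exact_mod_cast hp.two_le
  have hwr : (2 : ℝ) ≤ w0 := by exact_mod_cast hw
  have hwp : (w0 : ℝ) ≤ p := by exact_mod_cast h.le
  have h1 : (1 : ℝ) / p ≤ 1 / 2 := one_div_le_one_div_of_le (by norm_num) hp2
  have h0 : (0 : ℝ) < 1 / p := by positivity
  refine ⟨?_, by linarith⟩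
  have h2 : Real.exp (-(2 / (w0 : ℝ))) ≤ Real.exp (-(2 * (1 / (p : ℝ)))) := by
    apply Real.exp_le_exp.2
    have : 1 / (p : ℝ) ≤ 1 / w0 := one_div_le_one_div_of_le (by linarith) hwp
    have h3 : 2 / (w0 : ℝ) = 2 * (1 / w0) := by ring
    rw [h3]
    linarith
  refine h2.trans ?_
  set t : ℝ := 1 / (p : ℝ) with ht
  -- `exp(-2t) ≤ 1 - t` for `0 ≤ t ≤ 1/2`
  have h3 : (1 : ℝ) ≤ (1 - t) * Real.exp (2 * t) := by
    have h4 : 1 + 2 * t ≤ Real.exp (2 * t) := by linarith [Real.add_one_le_exp (2 * t)]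
    have h5 : (1 : ℝ) ≤ (1 - t) * (1 + 2 * t) := by nlinarith
    exact h5.trans (mul_le_mul_of_nonneg_left h4 (by linarith))
  have h6 : 0 < Real.exp (2 * t) := Real.exp_pos _
  rw [Real.exp_neg]
  rw [inv_le_iff_one_le_mul₀ h6]
  exact h3

open scoped Classical in
theorem prd : ∃ C : ℝ, 1 ≤ C ∧ ∀ (w0 w N P : ℕ) (H : Finset ℕ), 2 ≤ w0 → w0 ≤ w → 1 ≤ N → (∀ h ∈ H, 1 ≤ h ∧ h ≤ N) →
    ∀ k : ℕ, 1 ≤ k → k ≤ N → k ∉ H →
    ∏ p ∈ (QQ w0 w P).filter (fun p : ℕ => ∀ h ∈ H, ¬ k ≡ h [MOD p]), (1 - 1 / (p : ℝ)) ≤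
      C * Real.exp (4 * H.card * Real.log N / w0) * (Real.log w0 / Real.log w) := by
  obtain ⟨c, hc1, _, _, _, hlow, hup⟩ := Pool.Agent.H67.GT.MERT.mert
  refine ⟨2 * c ^ 2, by nlinarith, ?_⟩
  intro w0 w N P H hw0 hw hN hH k hk1 hkN hkH
  have hw2 : 2 ≤ w := hw0.trans hw
  have hw0r : (2 : ℝ) ≤ w0 := by exact_mod_cast hw0
  have hwr : (2 : ℝ) ≤ w := by exact_mod_cast hw2
  have hl0 : 0 < Real.log w0 := Real.log_pos (by linarith)
  have hl : 0 < Real.log w := Real.log_pos (by linarith)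
  set A : Finset ℕ := (Icc 1 w).filter (fun p : ℕ => p.Prime ∧ w0 < p) with hA
  set F : Finset ℕ := (QQ w0 w P).filter (fun p : ℕ => ∀ h ∈ H, ¬ k ≡ h [MOD p]) with hF
  set D : Finset ℕ := A.filter (fun p : ℕ => ∃ h ∈ H, k ≡ h [MOD p]) with hD
  have memA : ∀ p, p ∈ A ↔ (1 ≤ p ∧ p ≤ w) ∧ p.Prime ∧ w0 < p := by
    intro p
    rw [hA, mem_filter, mem_Icc]
  have hFA : F ⊆ A := by
    intro p hp
    rw [hF, mem_filter, mem_QQ] at hp
    rw [memA]
    exact ⟨hp.1.1, hp.1.2.1, hp.1.2.2.1⟩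
  have hpos : ∀ p ∈ A, (0 : ℝ) < 1 - 1 / (p : ℝ) := by
    intro p hp
    have := (prd_fac ((memA p).1 hp).2.1 hw0 ((memA p).1 hp).2.2).2
    linarith
  -- the full product
  have hfull : ∏ p ∈ A, (1 - 1 / (p : ℝ)) ≤ c ^ 2 * (Real.log w0 / Real.log w) := by
    have hsplit : Pool.Agent.H67.GT.V Set.univ w =
        Pool.Agent.H67.GT.V Set.univ w0 * ∏ p ∈ A, (1 - 1 / (p : ℝ)) := by
      unfold Pool.Agent.H67.GT.V
      rw [← Finset.prod_union]
      · refine Finset.prod_congr ?_ fun _ _ => rfl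
        ext p
        rw [mem_union, memA, Pool.Agent.H67.GT.MERT.mem_prs, Pool.Agent.H67.GT.MERT.mem_prs]
        constructor
        · rintro ⟨h1, h2, h3⟩
          by_cases h4 : p ≤ w0
          · exact Or.inl ⟨h4, h2, h3⟩
          · exact Or.inr ⟨⟨h2.one_lt.le, h1⟩, h2, by omega⟩
        · rintro (⟨h1, h2, h3⟩ | ⟨h1, h2, h3⟩)
          · exact ⟨h1.trans hw, h2, h3⟩
          · exact ⟨h1.2, h2, Set.mem_univ _⟩
      · rw [Finset.disjoint_left]
        intro p h1 h2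
        rw [Pool.Agent.H67.GT.MERT.mem_prs] at h1
        rw [memA] at h2
        omega
    have h1 := hlow Set.univ w0 hw0
    have h2 := hup w hw2
    have hPA : 0 < ∏ p ∈ A, (1 - 1 / (p : ℝ)) := Finset.prod_pos hpos
    rw [hsplit] at h2
    set X := ∏ p ∈ A, (1 - 1 / (p : ℝ)) with hX
    have hcl : 0 < c * Real.log w0 := by positivity
    have h3 : 1 ≤ c * Real.log w0 * Pool.Agent.H67.GT.V Set.univ w0 := by
      rw [div_le_iff₀ hcl] at h1
      linarith
    have h4 : X * Real.log w ≤ c ^ 2 * Real.log w0 := by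
      calc X * Real.log w = 1 * (X * Real.log w) := by ring
        _ ≤ (c * Real.log w0 * Pool.Agent.H67.GT.V Set.univ w0) * (X * Real.log w) :=
            mul_le_mul_of_nonneg_right h3 (by positivity)
        _ = (c * Real.log w0) * (Pool.Agent.H67.GT.V Set.univ w0 * X * Real.log w) := by ring
        _ ≤ (c * Real.log w0) * c := mul_le_mul_of_nonneg_left h2 hcl.le
        _ = c ^ 2 * Real.log w0 := by ring
    rw [← mul_div_assoc, le_div_iff₀ hl]
    exact h4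
  -- the missing factors
  have hDc : (D.card : ℝ) ≤ 2 * H.card * Real.log N := by
    refine prd_card hN hH hk1 hkN hkH fun p hp => ?_
    rw [hD, mem_filter, memA] at hp
    exact ⟨hp.1.2.1, hp.2⟩
  set e : ℝ := Real.exp (-(2 / (w0 : ℝ))) with he
  have he0 : 0 < e := Real.exp_pos _
  have he1 : e ≤ 1 := by
    rw [he, Real.exp_le_one_iff]
    have : (0 : ℝ) ≤ 2 / w0 := by positivity
    linarith
  have hmiss : 1 / 2 * e ^ D.card ≤ ∏ p ∈ A \ F, (1 - 1 / (p : ℝ)) := by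
    have h1 : ∏ p ∈ A \ F, ((if p = P then (1 : ℝ) / 2 else 1) * (if p ∈ D then e else 1)) ≤
        ∏ p ∈ A \ F, (1 - 1 / (p : ℝ)) := by
      refine Finset.prod_le_prod (fun p _ => ?_) fun p hp => ?_
      · split_ifs <;> positivity
      · have hpA := (mem_sdiff.1 hp).1
        have hpF := (mem_sdiff.1 hp).2
        have hb := prd_fac ((memA p).1 hpA).2.1 hw0 ((memA p).1 hpA).2.2
        by_cases h2 : p = P
        · rw [if_pos h2]
          split_ifs
          · nlinarith [hb.2]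
          · linarith [hb.2]
        · rw [if_neg h2, one_mul]
          have h3 : p ∈ D := by
            rw [hD, mem_filter]
            refine ⟨hpA, ?_⟩
            by_contra h4
            apply hpF
            rw [hF, mem_filter, mem_QQ]
            have h5 := (memA p).1 hpA
            exact ⟨⟨h5.1, h5.2.1, h5.2.2, h2⟩, fun h hh hk => h4 ⟨h, hh, hk⟩⟩
          rw [if_pos h3]
          exact hb.1
    refine le_trans ?_ h1
    rw [Finset.prod_mul_distrib]
    have h2 : (1 : ℝ) / 2 ≤ ∏ p ∈ A \ F, (if p = P then (1 : ℝ) / 2 else 1) := by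
      rw [Finset.prod_ite_eq']
      split_ifs <;> norm_num
    have h3 : e ^ D.card ≤ ∏ p ∈ A \ F, (if p ∈ D then e else 1) := by
      rw [← Finset.prod_filter, Finset.prod_const]
      refine pow_le_pow_of_le_one he0.le he1 (Finset.card_le_card fun p hp => ?_)
      exact (mem_filter.1 hp).2
    exact mul_le_mul h2 h3 (by positivity) ((by norm_num : (0 : ℝ) ≤ 1 / 2).trans h2)
  have hprod : (∏ p ∈ A \ F, (1 - 1 / (p : ℝ))) * ∏ p ∈ F, (1 - 1 / (p : ℝ)) = ∏ p ∈ A, (1 - 1 / (p : ℝ)) :=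
    Finset.prod_sdiff hFA
  have hFpos : 0 < ∏ p ∈ F, (1 - 1 / (p : ℝ)) := Finset.prod_pos fun p hp => hpos p (hFA hp)
  set Y := ∏ p ∈ F, (1 - 1 / (p : ℝ)) with hY
  have h5 : 1 / 2 * e ^ D.card * Y ≤ c ^ 2 * (Real.log w0 / Real.log w) :=
    (mul_le_mul_of_nonneg_right hmiss hFpos.le).trans (hprod.le.trans hfull)
  have h6 : e ^ D.card = Real.exp (-(2 / (w0 : ℝ) * D.card)) := by
    rw [he, ← Real.exp_nat_mul]
    congr 1
    ring
  have h7 : Real.exp (2 / (w0 : ℝ) * D.card) ≤ Real.exp (4 * H.card * Real.log N / w0) := by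
    apply Real.exp_le_exp.2
    have : 4 * (H.card : ℝ) * Real.log N / w0 = 2 / (w0 : ℝ) * (2 * H.card * Real.log N) := by ring
    rw [this]
    exact mul_le_mul_of_nonneg_left hDc (by positivity)
  have h8 : Y = 2 * Real.exp (2 / (w0 : ℝ) * D.card) * (1 / 2 * e ^ D.card * Y) := by
    rw [h6, Real.exp_neg]
    field_simp
  rw [h8]
  have h9 : 0 ≤ c ^ 2 * (Real.log w0 / Real.log w) := by positivity
  calc 2 * Real.exp (2 / (w0 : ℝ) * D.card) * (1 / 2 * e ^ D.card * Y)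
      ≤ 2 * Real.exp (2 / (w0 : ℝ) * D.card) * (c ^ 2 * (Real.log w0 / Real.log w)) :=
        mul_le_mul_of_nonneg_left h5 (by positivity)
    _ ≤ 2 * Real.exp (4 * H.card * Real.log N / w0) * (c ^ 2 * (Real.log w0 / Real.log w)) := by
        refine mul_le_mul_of_nonneg_right ?_ h9
        linarith
    _ = 2 * c ^ 2 * Real.exp (4 * H.card * Real.log N / w0) * (Real.log w0 / Real.log w) := by ring

end H5CP
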