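import Pool.Agent.H5.CP.CrW
import Pool.Agent.H5.CP.Cls
import Pool.Agent.H5.CP.Prd
import Pool.Agent.H5.CP.Cnt
import Pool.Agent.H5.CP.Hpr
import Pool.Agent.H7.LX.Par

/-!
# Presieve with a cluster: parameters and the final statement
-/

set_option autoImplicit false

namespace H5CP

open Finset Filter Pool.Agent.H7.LG Pool.Agent.H7.LX Pool.Agent.H67.GT

/-- residues: zero outside of `(w0, w]`, given classes inside -/
noncomputable def rr (w0 w : ℕ) (r : ℕ → ℕ) (p : ℕ) : ℕ := if w0 < p ∧ p ≤ w then r p else 0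

/-- the combinatorial part -/
theorem comb {w0 w z N P κ : ℕ} {B : Finset ℕ} (hw0 : κ ≤ w0) (hwz : w ≤ z)
    (hB : ∀ p ∈ B, w < p) (h : ℕ → ℕ)
    (hh : ∀ i, i < κ → (h i).Prime ∧ z < h i ∧ h i ≤ N) :
    ∃ b : ℕ, b < WW z P B ∧ (∀ i, i < κ → Nat.Coprime (b + h i) (WW z P B)) ∧
      (((Icc 1 N).filter (fun k : ℕ => Nat.Coprime (b + k) (WW z P B))).card : ℝ) ≤
        κ + ∑ k ∈ (S0 N w0 w z P B) \ ((range κ).image h), ∏ p ∈ (QQ w0 w P).filter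
          (fun p : ℕ => ∀ h' ∈ (range κ).image h, ¬ k ≡ h' [MOD p]), (1 - 1 / (p : ℝ)) := by
  classical
  have hHc : ((range κ).image h).card ≤ κ := card_image_le.trans (card_range κ).le
  obtain ⟨r, hr1, hr2⟩ := cls ((range κ).image h) (QQ w0 w P) (fun p hp => by
    rw [mem_QQ] at hp
    exact ⟨hp.2.1, by omega⟩) ((S0 N w0 w z P B) \ ((range κ).image h))
  obtain ⟨b, hb1, hb2⟩ := crW (rr w0 w r) z P B
  refine ⟨b, hb1, fun i hi => ?_, ?_⟩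
  · rw [coprime_iff hb2]
    intro p hp hcon
    rw [mem_PP] at hp
    obtain ⟨⟨hp1, hp2⟩, hp3, hp4, hp5⟩ := hp
    unfold rr at hcon
    split_ifs at hcon with hc
    · exact hr1 p (mem_QQ.2 ⟨⟨hp1, hc.2⟩, hp3, hc.1, hp4⟩) (h i)
        (mem_image_of_mem h (mem_range.2 hi)) hcon
    · have h1 : p ∣ h i := (Nat.modEq_zero_iff_dvd).1 hcon
      have h2 := (Nat.prime_dvd_prime_iff_eq hp3 (hh i hi).1).1 h1
      have := (hh i hi).2.1
      omega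
  · have hsub : (Icc 1 N).filter (fun k : ℕ => Nat.Coprime (b + k) (WW z P B)) ⊆
        ((range κ).image h) ∪ ((S0 N w0 w z P B) \ ((range κ).image h)).filter
          (fun k : ℕ => ∀ p ∈ QQ w0 w P, ¬ k ≡ r p [MOD p]) := by
      intro k hk
      rw [mem_filter, mem_Icc, coprime_iff hb2] at hk
      obtain ⟨hk1, hk2⟩ := hk
      rw [mem_union]
      by_cases hkH : k ∈ (range κ).image h
      · exact Or.inl hkH
      · right
        rw [mem_filter, Finset.mem_sdiff, mem_S0]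
        refine ⟨⟨⟨hk1, fun p hp hpk => ?_⟩, hkH⟩, fun p hp hcon => ?_⟩
        · by_contra hcon
          push Not at hcon
          obtain ⟨h1, h2, h3, h4⟩ := hcon
          apply hk2 p (mem_PP.2 ⟨⟨hp.one_le, h2⟩, hp, h3, h4⟩)
          unfold rr
          rw [if_neg (by rintro ⟨h5, h6⟩; have := h1 h5; omega)]
          exact (Nat.modEq_zero_iff_dvd).2 hpk
        · rw [mem_QQ] at hp
          obtain ⟨⟨hp1, hp2⟩, hp3, hp4, hp5⟩ := hp
          apply hk2 p (mem_PP.2 ⟨⟨hp1, hp2.trans hwz⟩, hp3, hp5, fun hpB => by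
            have := hB p hpB
            omega⟩)
          unfold rr
          rw [if_pos ⟨hp4, hp2⟩]
          exact hcon
    have h1 := card_le_card hsub
    have h2 := h1.trans (card_union_le _ _)
    have h3 : (((Icc 1 N).filter (fun k : ℕ => Nat.Coprime (b + k) (WW z P B))).card : ℝ) ≤
        (((range κ).image h).card : ℝ) + ((((S0 N w0 w z P B) \ ((range κ).image h)).filter
          (fun k : ℕ => ∀ p ∈ QQ w0 w P, ¬ k ≡ r p [MOD p])).card : ℝ) := by exact_mod_cast h2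
    have h4 : (((range κ).image h).card : ℝ) ≤ κ := by exact_mod_cast hHc
    linarith

/-- `par_z` for `z = ⌊y / 400⌋` -/
theorem par_z' {L1 L2 y K z : ℝ} (hy : 0 < y) (hL1y : L1 = Real.log y) (hL2 : L2 = Real.log L1) (h1 : 400 ≤ L1)
    (h2 : 400 ≤ L2) (hz : y / 800 ≤ z) (hK : 0 < K) (hKy : K ≤ y * L1 ^ 2) :
    L1 / 2 ≤ Real.log z ∧ Real.log (K / z) ≤ 3 * L2 := by
  have h10 : Real.log 800 ≤ 10 := by
    have e : (800 : ℝ) ≤ 2 ^ 10 := by norm_num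
    have h11 := Real.log_le_log (by norm_num) e
    rw [Real.log_pow] at h11
    have := Real.log_two_lt_d9
    push_cast at h11
    linarith
  have hzpos : 0 < z := lt_of_lt_of_le (by positivity) hz
  constructor
  · have h8 := Real.log_le_log (by positivity) hz
    rw [Real.log_div hy.ne' (by norm_num), ← hL1y] at h8
    linarith
  · have h8 : K / z ≤ 800 * L1 ^ 2 := by
      rw [div_le_iff₀ hzpos]
      calc K ≤ y * L1 ^ 2 := hKy
        _ = 800 * L1 ^ 2 * (y / 800) := by ring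
        _ ≤ 800 * L1 ^ 2 * z := mul_le_mul_of_nonneg_left hz (by positivity)
    have h9 := Real.log_le_log (by positivity) h8
    rw [Real.log_mul (by norm_num) (by positivity), Real.log_pow, ← hL2] at h9
    push_cast at h9
    linarith

theorem cp_ev (κ : ℕ) (ε : ℝ) (hε : 0 < ε) : ∃ y0 : ℝ, ∀ y : ℝ, y0 ≤ y → (κ : ℝ) ≤ Real.log y ∧ (κ : ℝ) ≤ ε * y / 2 ∧
    1000000 * Real.log y ^ 2 ≤ y ∧ 1 ≤ y := by
  have e0 : ∀ᶠ y : ℝ in atTop, 1000000 * Real.log y ^ 2 ≤ y := by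
    have h := (isLittleO_log_rpow_atTop (r := 1 / 2) (by norm_num)).bound
      (show (0 : ℝ) < 1 / 1000 by norm_num)
    filter_upwards [h, eventually_ge_atTop (1 : ℝ)] with y h1 hy
    have h2 : 0 ≤ Real.log y := Real.log_nonneg hy
    rw [Real.norm_of_nonneg h2, Real.norm_of_nonneg (by positivity)] at h1
    have h3 : (y ^ (1 / 2 : ℝ)) ^ 2 = y := by
      rw [← Real.rpow_natCast, ← Real.rpow_mul (by linarith)]; norm_num
    have h4 : (1000 * Real.log y) ^ 2 ≤ (y ^ (1 / 2 : ℝ)) ^ 2 := pow_le_pow_left₀ (by positivity) (by linarith) 2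
    rw [h3] at h4
    linarith
  have h1 := Real.tendsto_log_atTop.eventually_ge_atTop (κ : ℝ)
  have h2 := eventually_ge_atTop (2 * κ / ε : ℝ)
  obtain ⟨y0, hy0⟩ := eventually_atTop.1 (h1.and (h2.and (e0.and (eventually_ge_atTop (1 : ℝ)))))
  refine ⟨y0, fun y hy => ?_⟩
  obtain ⟨a1, a2, a3, a4⟩ := hy0 y hy
  refine ⟨a1, ?_, a3, a4⟩
  rw [div_le_iff₀ hε] at a2
  linarith

/-- the numerical part -/
theorem num {κ : ℕ} {ε C C1 C2 D c y L1 L2 L3 f lw l0 s NN : ℝ} (hε : 0 < ε) (hC : 1 ≤ C) (hC1 : 1 ≤ C1) (hC2 : 1 ≤ C2)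
    (hD : D = 64 * (2 * C + 2 + 4 * C2) * C1 * Real.exp (8 * κ) * 4 ^ κ) (hc0 : 0 < c) (hc2 : 2 * (D * c) ≤ ε) (hy : 0 < y)
    (hL1 : 0 < L1) (hL2 : 0 < L2) (hL3 : 0 < L3) (hf : f = c * y * L1 ^ 2 * L3 / L2 ^ 2)
    (hlw : L1 * L3 / (4 * L2) / 2 ≤ lw) (hl0 : l0 ≤ 2 * L2) (hl00 : 0 ≤ l0) (hs0 : 0 ≤ s) (hs : s * (L1 / 2) ≤ (2 * C + 2 + 4 * C2) * NN)
    (hN : NN ≤ 4 ^ κ * (2 * f)) (hκ : (κ : ℝ) ≤ ε * y / 2) :
    κ + s * (C1 * Real.exp (8 * κ) * (l0 / lw)) ≤ ε * y := by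
  obtain ⟨A, hA⟩ : ∃ A : ℝ, A = 2 * C + 2 + 4 * C2 := ⟨_, rfl⟩
  rw [← hA] at hs hD
  have hA0 : 0 < A := by rw [hA]; linarith
  obtain ⟨E, hE⟩ : ∃ E : ℝ, E = Real.exp (8 * κ) := ⟨_, rfl⟩
  rw [← hE] at hD ⊢
  have hE0 : 0 < E := by rw [hE]; positivity
  obtain ⟨F, hF⟩ : ∃ F : ℝ, F = (4 : ℝ) ^ κ := ⟨_, rfl⟩
  rw [← hF] at hD hN
  have hF0 : 0 < F := by rw [hF]; positivity
  have hω0 : 0 < L1 * L3 / (4 * L2) / 2 := by positivity
  have hlw0 : 0 < lw := lt_of_lt_of_le hω0 hlw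
  have h1 : l0 / lw ≤ 2 * L2 / (L1 * L3 / (4 * L2) / 2) := by
    apply div_le_div₀ (by positivity) hl0 hω0 hlw
  have h2 : s ≤ A * (F * (2 * f)) / (L1 / 2) := by
    rw [le_div_iff₀ (by positivity)]
    exact hs.trans (mul_le_mul_of_nonneg_left hN hA0.le)
  have h3 : s * (C1 * E * (l0 / lw)) ≤ (A * (F * (2 * f)) / (L1 / 2)) * (C1 * E * (2 * L2 / (L1 * L3 / (4 * L2) / 2))) := by
    apply mul_le_mul h2 _ (by positivity)
    · have : 0 ≤ f := by rw [hf]; positivity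
      positivity
    · exact mul_le_mul_of_nonneg_left h1 (by positivity)
  have h4 : (A * (F * (2 * f)) / (L1 / 2)) * (C1 * E * (2 * L2 / (L1 * L3 / (4 * L2) / 2))) = D * c * y := by
    rw [hf, hD]
    field_simp
    ring
  have h5 : D * c * y ≤ ε * y / 2 := by
    have := mul_le_mul_of_nonneg_right hc2 hy.le
    linarith
  linarith

/-- PRESIEVE WITH A CLUSTER, `z = ⌊y / q⌋`, `100 ≤ q ≤ 400` -/
theorem presieve_gen (κ : ℕ) (ε : ℝ) (hε : 0 < ε) : ∃ c : ℝ, 0 < c ∧ ∃ y0 : ℝ, ∀ y : ℝ, y0 ≤ y → ∀ q : ℝ, 100 ≤ q → q ≤ 400 →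
    ∃ w N G : ℕ, 2 ≤ w ∧ w ≤ ⌊y / q⌋₊ ∧ (w : ℝ) ≤ y ^ (1 / 100 : ℝ) ∧ y ≤ 800 * (⌊y / q⌋₊ : ℝ) ∧
    4 * (N : ℝ) ≤ y ^ 2 ∧
    c * y * Real.log y ^ 2 * Real.log (Real.log (Real.log y)) / Real.log (Real.log y) ^ 2 ≤ (G : ℝ) ∧
    ∀ (P : ℕ) (B : Finset ℕ), (P = 0 ∨ P.Prime) → (∀ p ∈ B, w < p) →
      ∑ p ∈ B, (1 : ℝ) / p ≤ 1 / Real.log y ^ 2 →
      ∃ (b : ℕ) (h : ℕ → ℕ), b < WW ⌊y / q⌋₊ P B ∧
        (∀ i, i < κ → G < h i ∧ h i + G ≤ N ∧ Nat.Coprime (b + h i) (WW ⌊y / q⌋₊ P B)) ∧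
        (∀ i j, i < j → j < κ → h i + G < h j) ∧
        (((Icc 1 N).filter (fun k : ℕ => Nat.Coprime (b + k) (WW ⌊y / q⌋₊ P B))).card : ℝ) ≤ ε * y := by
  obtain ⟨C, hC, hsmo⟩ := smo
  obtain ⟨C1, hC1, hprd⟩ := prd
  obtain ⟨C2, hC2, hcnt⟩ := cnt
  have h4κ : (1 : ℝ) ≤ 4 ^ κ := one_le_pow₀ (by norm_num)
  obtain ⟨D, hD⟩ : ∃ D : ℝ, D = 64 * (2 * C + 2 + 4 * C2) * C1 * Real.exp (8 * κ) * 4 ^ κ := ⟨_, rfl⟩
  have hD0 : 0 < D := by rw [hD]; positivity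
  obtain ⟨c, hc0, hc1, hc2⟩ : ∃ c : ℝ, 0 < c ∧ 4 ^ κ * c ≤ 1 / 4 ∧ 2 * (D * c) ≤ ε := by
    refine ⟨min (1 / (4 * 4 ^ κ)) (ε / (2 * D)), by positivity, ?_, ?_⟩
    · have h := min_le_left (1 / (4 * 4 ^ κ) : ℝ) (ε / (2 * D))
      have h2 := mul_le_mul_of_nonneg_left h (show (0 : ℝ) ≤ 4 ^ κ by positivity)
      refine h2.trans (le_of_eq ?_)
      field_simp
    · have h := min_le_right (1 / (4 * 4 ^ κ) : ℝ) (ε / (2 * D))
      rw [le_div_iff₀ (by positivity)] at h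
      linarith
  have hc12 : c ≤ 1 / 2 := by
    have := mul_le_mul_of_nonneg_right h4κ hc0.le
    linarith
  obtain ⟨y1, hy1⟩ := par_ev (max (max C (1 / c)) (2 * C + 400))
  obtain ⟨y2, hy2⟩ := cp_ev κ ε hε
  refine ⟨c, hc0, max y1 y2, fun y hyy q hq1 hq2 => ?_⟩
  obtain ⟨h1, h2, h3, h4, h5, h6, hy⟩ := hy1 y ((le_max_left _ _).trans hyy)
  obtain ⟨g1, g2, g3, g4⟩ := hy2 y ((le_max_right _ _).trans hyy)
  obtain ⟨L1, hL1⟩ : ∃ L1 : ℝ, L1 = Real.log y := ⟨_, rfl⟩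
  rw [← hL1] at h1 h2 h3 h4 h5 h6 g1 g3 ⊢
  obtain ⟨L2, hL2⟩ : ∃ L2 : ℝ, L2 = Real.log L1 := ⟨_, rfl⟩
  rw [← hL2] at h2 h3 h4 h5 ⊢
  obtain ⟨L3, hL3⟩ : ∃ L3 : ℝ, L3 = Real.log L2 := ⟨_, rfl⟩
  rw [← hL3] at h3 ⊢
  have b1 : C ≤ L3 := le_trans (le_trans (le_max_left _ _) (le_max_left _ _)) h3
  have b2 : 1 / c ≤ L1 := le_trans (le_trans (le_max_right _ _) (le_max_left _ _)) h1
  have b3 : 2 * C + 400 ≤ L2 := le_trans (le_max_right _ _) h2
  have b4 : 2 * C + 400 ≤ L3 := le_trans (le_max_right _ _) h3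
  have b5 : 2 * C + 400 ≤ L1 := le_trans (le_max_right _ _) h1
  clear h1 h2 h3 hy1 hy2
  have hL3p : 0 < L3 := by linarith
  have hL2p : 0 < L2 := by linarith
  have hL1p : 0 < L1 := by linarith
  have eL1 : Real.exp L1 = y := by rw [hL1, Real.exp_log hy]
  have eL2 : Real.exp L2 = L1 := by rw [hL2, Real.exp_log hL1p]
  have eL3 : Real.exp L3 = L2 := by rw [hL3, Real.exp_log hL2p]
  have hL32 : L3 ≤ L2 := by linarith [Real.add_one_le_exp L3]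
  have hL32' : 25 * L3 ≤ L2 := by
    have h9 := Real.quadratic_le_exp_of_nonneg hL3p.le
    have h10 := mul_le_mul_of_nonneg_right (show (50 : ℝ) ≤ L3 by linarith) hL3p.le
    rw [eL3] at h9
    linarith
  obtain ⟨hω1, hω2⟩ := par_om (by linarith) hL32 h5
  obtain ⟨hw2, hlw1, hlw2, hwy⟩ := par_w (ω := L1 * L3 / (4 * L2)) (L1 := L1) (y := y) (by linarith) hω1 eL1
  obtain ⟨hfy, hf2⟩ := par_f (c := c) hc0 hc12 hy b2 (by linarith) hL32 h4
  obtain ⟨ω, hω⟩ : ∃ ω : ℝ, ω = L1 * L3 / (4 * L2) := ⟨_, rfl⟩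
  have hω3 : ω ≤ L1 / 100 := by
    rw [hω, div_le_div_iff₀ (by positivity) (by norm_num)]
    have := mul_le_mul_of_nonneg_left hL32' hL1p.le
    linarith
  rw [← hω] at hω1 hω2 hw2 hlw1 hlw2 hwy
  obtain ⟨w, hw⟩ : ∃ w : ℕ, w = ⌊Real.exp ω⌋₊ := ⟨_, rfl⟩
  rw [← hw] at hw2 hlw1 hlw2 hwy
  obtain ⟨f, hf⟩ : ∃ f : ℝ, f = c * y * L1 ^ 2 * L3 / L2 ^ 2 := ⟨_, rfl⟩
  rw [← hf] at hfy hf2 ⊢
  have hlwp : 0 < Real.log w := by linarith
  have hf0 : 0 < f := by linarith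
  have hwpos : (0 : ℝ) < w := by
    have : (2 : ℝ) ≤ w := by exact_mod_cast hw2
    linarith
  -- `z`
  have hyL : 1600 * L1 ≤ y := by
    have h9 := mul_le_mul_of_nonneg_right (show (1 : ℝ) ≤ L1 by linarith) hL1p.le
    linarith [mul_pos hL1p hL1p]
  obtain ⟨z, hzdef⟩ : ∃ z : ℕ, z = ⌊y / q⌋₊ := ⟨_, rfl⟩
  have hq0 : 0 < q := by linarith
  have hyq1 : y / q ≤ y / 100 := div_le_div_of_nonneg_left hy.le (by norm_num) hq1
  have hyq2 : y / 400 ≤ y / q := div_le_div_of_nonneg_left hy.le hq0 hq2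
  have hzle : (z : ℝ) ≤ y / 100 := by
    rw [hzdef]
    exact (Nat.floor_le (by positivity)).trans hyq1
  have hzlt : y / 400 < z + 1 := by
    rw [hzdef]
    exact lt_of_le_of_lt hyq2 (Nat.lt_floor_add_one _)
  rw [← hzdef]
  clear hzdef
  have hz800 : y / 800 ≤ z := by linarith
  have hzpos : (0 : ℝ) < z := by linarith
  -- `w ≤ y^(1/100)`, `2 L1 ≤ w`, `w ≤ z`
  have hwexp : (w : ℝ) ≤ Real.exp ω := by rw [hw]; exact Nat.floor_le (Real.exp_pos _).le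
  have hwy2 : (w : ℝ) ≤ y ^ (1 / 100 : ℝ) := by
    refine hwexp.trans ?_
    rw [Real.rpow_def_of_pos hy, ← hL1]
    apply Real.exp_le_exp.2
    linarith
  have hwz : w ≤ z := by
    have h8 : (w : ℝ) < z + 1 := by linarith
    have h9 : w < z + 1 := by exact_mod_cast h8
    omega
  have hω4 : 2 * L2 ≤ ω / 2 := by
    have h9 : 16 * L2 ^ 2 ≤ L1 * L3 := by
      have h10 := mul_le_mul_of_nonneg_left (show (16 : ℝ) ≤ L3 by linarith) hL1p.le
      linarith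
    rw [hω, div_div, le_div_iff₀ (by positivity)]
    linarith
  have hwL : L1 ^ 2 ≤ (w : ℝ) := by
    rw [← Real.log_le_log_iff (by positivity) hwpos, Real.log_pow, ← hL2]
    push_cast
    linarith
  have hL1sq : L1 + 1 ≤ L1 ^ 2 := by
    have h9 := mul_le_mul_of_nonneg_right (show (2 : ℝ) ≤ L1 by linarith) hL1p.le
    rw [sq]
    linarith
  -- `w0`
  obtain ⟨w0, hw0a, hw0b⟩ : ∃ w0 : ℕ, L1 ≤ w0 ∧ (w0 : ℝ) < L1 + 1 := ⟨⌈L1⌉₊, Nat.le_ceil _, Nat.ceil_lt_add_one hL1p.le⟩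
  have hw0p : (0 : ℝ) < w0 := by linarith
  have hw02 : 2 ≤ w0 := by
    have : (2 : ℝ) ≤ w0 := by linarith
    exact_mod_cast this
  have hw0κ : κ ≤ w0 := by
    have : (κ : ℝ) ≤ w0 := by linarith
    exact_mod_cast this
  have hw0w : w0 ≤ w := by
    have : (w0 : ℝ) ≤ w := by linarith
    exact_mod_cast this
  have hlw0a : L2 ≤ Real.log w0 := by rw [hL2]; exact Real.log_le_log hL1p hw0a
  have hlw0b : Real.log w0 ≤ 2 * L2 := by
    have h9 := Real.log_le_log hw0p (show (w0 : ℝ) ≤ L1 ^ 2 by linarith)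
    rw [Real.log_pow, ← hL2] at h9
    push_cast at h9
    exact h9
  -- `G` and `N`
  obtain ⟨G, hfG, hGf⟩ : ∃ G : ℕ, f ≤ G ∧ (G : ℝ) < f + 1 := ⟨⌈f⌉₊, Nat.le_ceil _, Nat.ceil_lt_add_one hf0.le⟩
  have hy1 : 1 ≤ f := by linarith
  have hG2 : (G : ℝ) ≤ 2 * f := by linarith
  have hG1 : 1 ≤ G := by
    have : (1 : ℝ) ≤ G := by linarith
    exact_mod_cast this
  obtain ⟨N, hN⟩ : ∃ N : ℕ, N = 4 ^ κ * G := ⟨_, rfl⟩
  have hNr : (N : ℝ) = 4 ^ κ * G := by rw [hN]; push_cast; ring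
  have hNf : (N : ℝ) ≤ 4 ^ κ * (2 * f) := by
    rw [hNr]
    exact mul_le_mul_of_nonneg_left hG2 (by positivity)
  have hGN : G ≤ N := by rw [hN]; exact Nat.le_mul_of_pos_left G (by positivity)
  have hGNr : (G : ℝ) ≤ N := by exact_mod_cast hGN
  have hyN : y ≤ N := by linarith
  have hNpos : (0 : ℝ) < N := by linarith
  have hfL : 4 ^ κ * (2 * f) ≤ y * L1 ^ 2 / 2 := by
    have e1 : f * L2 ^ 2 = c * y * L1 ^ 2 * L3 := by
      rw [hf]; field_simp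
    have e2 : L3 ≤ L2 ^ 2 := by
      have h9 := mul_le_mul_of_nonneg_right (show (1 : ℝ) ≤ L2 by linarith) hL2p.le
      rw [sq]
      linarith
    have e3 : f ≤ c * (y * L1 ^ 2) := by
      have h9 : f * L2 ^ 2 ≤ (c * (y * L1 ^ 2)) * L2 ^ 2 := by
        rw [e1]
        calc c * y * L1 ^ 2 * L3 = (c * (y * L1 ^ 2)) * L3 := by ring
          _ ≤ (c * (y * L1 ^ 2)) * L2 ^ 2 := mul_le_mul_of_nonneg_left e2 (by positivity)
      exact le_of_mul_le_mul_right h9 (by positivity)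
    have e4 : 4 ^ κ * (2 * f) ≤ 2 * ((4 ^ κ * c) * (y * L1 ^ 2)) := by
      have := mul_le_mul_of_nonneg_left e3 (show (0 : ℝ) ≤ 2 * 4 ^ κ by positivity)
      linarith
    have e5 : (4 ^ κ * c) * (y * L1 ^ 2) ≤ 1 / 4 * (y * L1 ^ 2) :=
      mul_le_mul_of_nonneg_right hc1 (by positivity)
    linarith
  have hNy : (N : ℝ) ≤ y * L1 ^ 2 / 2 := hNf.trans hfL
  have hNy' : (N : ℝ) ≤ y * L1 ^ 2 := by
    have : 0 ≤ y * L1 ^ 2 := by positivity
    linarith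
  have hyy' : y * (1000000 * L1 ^ 2) ≤ y * y := mul_le_mul_of_nonneg_left g3 hy.le
  have hyL0 : 0 < y * L1 ^ 2 := by positivity
  have hzG : (z : ℝ) < G := by linarith
  have hzN : z ≤ N := by
    have : (z : ℝ) ≤ N := by linarith
    exact_mod_cast this
  have hNz2 : N < z ^ 2 := by
    have h9 : (N : ℝ) < (z : ℝ) ^ 2 := by
      have h10 : (y / 800) ^ 2 ≤ (z : ℝ) ^ 2 := pow_le_pow_left₀ (by positivity) hz800 2
      have h11 : (y / 800) ^ 2 = y * y / 640000 := by ring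
      rw [h11] at h10
      linarith
    exact_mod_cast h9
  have hlNL : L1 ≤ Real.log N := by
    rw [hL1]
    exact Real.log_le_log hy hyN
  have hlN2 : Real.log N ≤ 2 * L1 := by
    have h9 : (N : ℝ) ≤ y ^ 2 := by
      have : y ^ 2 = y * y := by ring
      rw [this]
      linarith
    have h10 := Real.log_le_log hNpos h9
    rw [Real.log_pow, ← hL1] at h10
    push_cast at h10
    exact h10
  obtain ⟨hlz1, hlKz⟩ := par_z' (K := N) hy hL1 hL2 (by linarith) (by linarith) hz800 hNpos hNy'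
  have hlzN : Real.log z ≤ Real.log N := Real.log_le_log hzpos (by exact_mod_cast hzN)
  have hlzL : Real.log z ≤ L1 := by
    rw [hL1]
    exact Real.log_le_log hzpos (by linarith)
  -- smooth numbers
  obtain ⟨hκ1, hκ2, hE⟩ := par_k (lw := Real.log w) (lK := Real.log N) b1 (by linarith) hL32 eL3 eL2 hlwp
    (by rw [← hω]; exact hlw1) (by linarith) hlNL
  have hsm := hsmo N w (L3 - Real.log L3) (by omega) hw2 hκ1 (by linarith)
  have hsm2 : ((sm N w).card : ℝ) * Real.log N ≤ 2 * C * N := by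
    refine hsm.trans ?_
    have hCK : 0 ≤ C * (N : ℝ) := by positivity
    have := mul_le_mul_of_nonneg_left hE hCK
    linarith
  refine ⟨w, N, G, hw2, hwz, hwy2, by linarith, ?_, hfG, ?_⟩
  · have : y ^ 2 = y * y := by ring
    rw [this]
    linarith
  intro P B hP hB hBs
  obtain ⟨h, hh1, hh2⟩ := hpr κ G hG1
  have hh : ∀ i, i < κ → (h i).Prime ∧ z < h i ∧ h i ≤ N := by
    intro i hi
    obtain ⟨a1, a2, a3⟩ := hh1 i hi
    rw [← hN] at a3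
    have a4 : (G : ℝ) < h i := by exact_mod_cast a2
    have a5 : (z : ℝ) < h i := by linarith
    exact ⟨a1, by exact_mod_cast a5, by omega⟩
  obtain ⟨b, hb1, hb2, hb3⟩ := comb (N := N) (P := P) (w0 := w0) hw0κ hwz hB h hh
  refine ⟨b, h, hb1, fun i hi => ⟨(hh1 i hi).2.1, by rw [hN]; exact (hh1 i hi).2.2, hb2 i hi⟩, hh2, hb3.trans ?_⟩
  have hcn := hcnt N w0 w z P B hw02 hw0w hwz hzN hNz2 hP
  have hs0 : (0 : ℝ) ≤ (S0 N w0 w z P B).card := Nat.cast_nonneg _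
  have hs : ((S0 N w0 w z P B).card : ℝ) * (L1 / 2) ≤ (2 * C + 2 + 4 * C2) * N := by
    have e1 := mul_le_mul_of_nonneg_left hlz1 hs0
    have e2 := mul_le_mul_of_nonneg_left hlzN (Nat.cast_nonneg (sm N w).card : (0 : ℝ) ≤ _)
    have e3 : (∑ p ∈ B, (1 : ℝ) / p + 1 / w) * N * Real.log z ≤ 2 * N := by
      have e4 : ∑ p ∈ B, (1 : ℝ) / p + 1 / w ≤ 2 / L1 ^ 2 := by
        have e5 : (1 : ℝ) / w ≤ 1 / L1 ^ 2 := one_div_le_one_div_of_le (by positivity) hwL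
        have e6 : (2 : ℝ) / L1 ^ 2 = 1 / L1 ^ 2 + 1 / L1 ^ 2 := by ring
        linarith
      have e7 : (∑ p ∈ B, (1 : ℝ) / p + 1 / w) * Real.log z ≤ 2 / L1 ^ 2 * L1 := by
        apply mul_le_mul e4 hlzL (by linarith) (by positivity)
      have e8 : 2 / L1 ^ 2 * L1 ≤ 2 := by
        have : 2 / L1 ^ 2 * L1 = 2 / L1 := by field_simp
        rw [this, div_le_iff₀ hL1p]
        linarith
      have e9 := mul_le_mul_of_nonneg_right (e7.trans e8) hNpos.le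
      linarith
    have e4 : C2 * N * (1 + Real.log ((N : ℝ) / z) / Real.log w0) ≤ 4 * C2 * N := by
      have e5 : Real.log ((N : ℝ) / z) / Real.log w0 ≤ 3 := by
        rw [div_le_iff₀ (by linarith)]
        linarith
      have e6 := mul_le_mul_of_nonneg_left e5 (show 0 ≤ C2 * (N : ℝ) by positivity)
      linarith
    linarith
  have hsum : ∑ k ∈ (S0 N w0 w z P B) \ ((range κ).image h), ∏ p ∈ (QQ w0 w P).filter
      (fun p : ℕ => ∀ h' ∈ (range κ).image h, ¬ k ≡ h' [MOD p]), (1 - 1 / (p : ℝ)) ≤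
      (S0 N w0 w z P B).card * (C1 * Real.exp (8 * κ) * (Real.log w0 / Real.log w)) := by
    have hpos : 0 ≤ C1 * Real.exp (8 * κ) * (Real.log w0 / Real.log w) := by
      have : 0 ≤ Real.log w0 := by linarith
      positivity
    have e1 : ∀ k ∈ (S0 N w0 w z P B) \ ((range κ).image h), ∏ p ∈ (QQ w0 w P).filter
      (fun p : ℕ => ∀ h' ∈ (range κ).image h, ¬ k ≡ h' [MOD p]), (1 - 1 / (p : ℝ)) ≤
        C1 * Real.exp (8 * κ) * (Real.log w0 / Real.log w) := by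
      intro k hk
      rw [Finset.mem_sdiff, mem_S0] at hk
      obtain ⟨⟨hk1, hk2⟩, hk3⟩ := hk
      have e2 := hprd w0 w N P ((range κ).image h) hw02 hw0w (by omega) (fun h' hh' => by
        rw [mem_image] at hh'
        obtain ⟨i, hi, rfl⟩ := hh'
        have := hh i (mem_range.1 hi)
        omega) k hk1.1 hk1.2 hk3
      refine e2.trans ?_
      apply mul_le_mul_of_nonneg_right _ (by
        have : 0 ≤ Real.log w0 := by linarith
        positivity)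
      apply mul_le_mul_of_nonneg_left _ (by linarith)
      apply Real.exp_le_exp.2
      have e3 : (((range κ).image h).card : ℝ) ≤ κ := by
        exact_mod_cast card_image_le.trans (card_range κ).le
      rw [div_le_iff₀ hw0p]
      have e4 : (((range κ).image h).card : ℝ) * Real.log N ≤ κ * (2 * L1) :=
        mul_le_mul e3 hlN2 (by linarith) (by positivity)
      have e5 : (κ : ℝ) * L1 ≤ κ * w0 := mul_le_mul_of_nonneg_left hw0a (by positivity)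
      linarith
    refine (Finset.sum_le_sum e1).trans ?_
    rw [Finset.sum_const, nsmul_eq_mul]
    apply mul_le_mul_of_nonneg_right _ hpos
    exact_mod_cast card_le_card Finset.sdiff_subset
  have hfin := num (s := (S0 N w0 w z P B).card) (NN := N) (lw := Real.log w) (l0 := Real.log w0) (κ := κ) hε hC hC1 hC2
    hD hc0 hc2 hy hL1p hL2p hL3p hf (by rw [← hω]; exact hlw2) hlw0b (by linarith) hs0 hs hNf g2
  linarith

/-- PRESIEVE WITH A CLUSTER -/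
theorem presieve (κ : ℕ) (ε : ℝ) (hε : 0 < ε) : ∃ c : ℝ, 0 < c ∧ ∃ y0 : ℝ, ∀ y : ℝ, y0 ≤ y → ∃ w z N G : ℕ,
    2 ≤ w ∧ w ≤ z ∧ (w : ℝ) ≤ y ^ (1 / 100 : ℝ) ∧ 400 * (z : ℝ) ≤ y ∧ y ≤ 800 * (z : ℝ) ∧ 4 * (N : ℝ) ≤ y ^ 2 ∧
    c * y * Real.log y ^ 2 * Real.log (Real.log (Real.log y)) / Real.log (Real.log y) ^ 2 ≤ (G : ℝ) ∧
    ∀ (P : ℕ) (B : Finset ℕ), (P = 0 ∨ P.Prime) → (∀ p ∈ B, p.Prime ∧ w < p ∧ p ≤ z) →
      ∑ p ∈ B, (1 : ℝ) / p ≤ 1 / Real.log y ^ 2 →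
      ∃ (b : ℕ) (h : ℕ → ℕ), b < WW z P B ∧
        (∀ i, i < κ → G < h i ∧ h i + G ≤ N ∧ Nat.Coprime (b + h i) (WW z P B)) ∧
        (∀ i j, i < j → j < κ → h i + G < h j) ∧
        (((Icc 1 N).filter (fun k : ℕ => Nat.Coprime (b + k) (WW z P B))).card : ℝ) ≤ ε * y := by
  obtain ⟨c, hc, y0, h⟩ := presieve_gen κ ε hε
  refine ⟨c, hc, max y0 1, fun y hy => ?_⟩
  obtain ⟨w, N, G, h1, h2, h3, h4, h5, h6, h7⟩ := h y ((le_max_left _ _).trans hy) 400 (by norm_num) (by norm_num)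
  have hy1 : 1 ≤ y := (le_max_right _ _).trans hy
  refine ⟨w, ⌊y / 400⌋₊, N, G, h1, h2, h3, ?_, h4, h5, h6, fun P B hP hB hBs => h7 P B hP (fun p hp => (hB p hp).2.1) hBs⟩
  have := Nat.floor_le (show 0 ≤ y / 400 by positivity)
  linarith

end H5CP
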