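import Pool.Agent.H5.CP.Par
import Pool.Agent.H91.UX.Df

/-!
# The presieve interface of the chains project
-/

set_option autoImplicit false

namespace H5CP

open Finset Filter

theorem WW_eq_WB (P : ℕ) (B : Finset ℕ) (z : ℕ) : WW z P B = H91UX.WB P B z := by
  unfold WW H91UX.WB
  apply Finset.prod_congr _ (fun _ _ => rfl)
  ext p
  rw [mem_PP, Finset.mem_sdiff, UC.mem_PKe]
  constructor
  · rintro ⟨⟨h1, h2⟩, h3, h4, h5⟩
    exact ⟨⟨h4, by omega, h2, h3⟩, h5⟩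
  · rintro ⟨⟨h1, h2, h3, h4⟩, h5⟩
    exact ⟨⟨by omega, h3⟩, h4, h1, h5⟩

theorem prep : H91UX.PreP := by
  intro K c0 hc0
  obtain ⟨c, hc, y0, hp⟩ := presieve_gen K c0 hc0
  obtain ⟨x1, hx1⟩ : ∃ x1 : ℝ, ∀ x : ℝ, x1 ≤ x → max y0 1 ≤ Real.log x :=
    eventually_atTop.1 (Real.tendsto_log_atTop.eventually_ge_atTop (max y0 1))
  refine ⟨c, x1, hc, fun x hx P B hP hB hBs => ?_⟩
  have hxx := hx1 x hx
  have hL1 : 1 ≤ Real.log x := (le_max_right _ _).trans hxx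
  obtain ⟨w, N, G, -, -, hw, -, h1, h2, h3⟩ := hp (Real.log x) ((le_max_left _ _).trans hxx) 100 le_rfl (by norm_num)
  obtain ⟨b, h, h4, h5, h6, h7⟩ := h3 P B (Or.inr hP) (fun p hp => by
    have h8 : (w : ℝ) < p := lt_of_le_of_lt (hw.trans
      (Real.rpow_le_rpow_of_exponent_le hL1 (by norm_num))) (hB p hp).2
    exact_mod_cast h8) hBs
  rw [WW_eq_WB] at h4 h5 h7
  refine ⟨b, G, N, h, ?_, ?_, fun i hi => ⟨?_, ?_, ?_⟩, fun i hi => h6 i (i + 1) (by omega) hi, h7⟩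
  · refine le_trans (le_of_eq ?_) h2
    unfold H91UX.sz
    ring
  · nlinarith [Nat.cast_nonneg (α := ℝ) N]
  · have := (h5 i hi).1
    omega
  · have := (h5 i hi).2.1
    omega
  · exact (h5 i hi).2.2

end H5CP
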