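import Pool.Agent.H5.CP.LesA

/-!
ROW PtA (80 lines).  The pointwise Higman criterion for the trivial subgroup.  Hypotheses: a `k`-linear map
`R : (G → L) → L` with `R(g ↦ g x) = x` and `R(g ↦ Φ(g h)) = h R(Φ)`.
Then `L` is a retract of `coind_⊥^G (res L) = (G → L)` (all functions; `Rep.coind (⊥ : Subgroup G).subtype _`,
the equivariance condition for the trivial group is automatic), by `x ↦ (g ↦ g x)` and `R`.
By `LesA_ret`, `LesA_coind` and `isZero_groupCohomology_succ_of_subsingleton` (the group `⊥` is a
subsingleton) the cohomology of `L` vanishes in degrees `j + 1`.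
-/

namespace Pool.Agent.H5.CP

open CategoryTheory CategoryTheory.Abelian CategoryTheory.Limits

private noncomputable def PtA_i {k G : Type} [CommRing k] [Group G] (L : Rep.{0} k G) :
    L ⟶ Rep.coind (⊥ : Subgroup G).subtype (Rep.res (⊥ : Subgroup G).subtype L) :=
  Rep.ofHom
    { toFun := fun x => ⟨fun g => L.ρ g x, fun s h => by
        have hs : (s : G) = 1 := Subgroup.mem_bot.1 s.2
        simp [hs]⟩
      map_add' := fun x y => by ext g; simp
      map_smul' := fun c x => by ext g; simp
      isIntertwining' := fun g => by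
        ext x h
        have : L.ρ h (L.ρ g x) = L.ρ (h * g) x := by simp
        exact this }

private noncomputable def PtA_r {k G : Type} [CommRing k] [Group G] (L : Rep.{0} k G)
    (R : (G → L.V) →ₗ[k] L.V)
    (h2 : ∀ (Φ : G → L.V) (h : G), R (fun g => Φ (g * h)) = L.ρ h (R Φ)) :
    Rep.coind (⊥ : Subgroup G).subtype (Rep.res (⊥ : Subgroup G).subtype L) ⟶ L :=
  Rep.ofHom
    { toFun := fun Φ => R Φ.1
      map_add' := fun x y => map_add R x.1 y.1
      map_smul' := fun c x => map_smul R c x.1
      isIntertwining' := fun g => by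
        ext x
        exact h2 x.1 g }

theorem PtA_main {k G : Type} [CommRing k] [Group G] (L : Rep.{0} k G)
    (R : (G → L.V) →ₗ[k] L.V) (h1 : ∀ x, R (fun g => L.ρ g x) = x)
    (h2 : ∀ (Φ : G → L.V) (h : G), R (fun g => Φ (g * h)) = L.ρ h (R Φ)) (j : ℕ) :
    IsZero (groupCohomology L (j + 1)) := by
  refine LesA_ret (B := Rep.coind (⊥ : Subgroup G).subtype (Rep.res (⊥ : Subgroup G).subtype L))
    ⟨PtA_i L, PtA_r L R h2, ?_⟩ (j + 1) ?_
  · apply Rep.hom_ext
    ext x
    exact h1 x
  · rw [LesA_coind]
    exact isZero_groupCohomology_succ_of_subsingleton _ _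

end Pool.Agent.H5.CP
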