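import Pool.Agent.H5.CP.QDef

/-!
ROW QAdj (60 lines).  The coinvariants functor is left adjoint to inflation: `Hom_{G/S}(M_S, N) = Hom_G(M, Infl N)`.
A `G`-map `f : M → Infl N` kills `ρ(s)x - x` (`s ∈ S`), so it factors through `qmk S M : M → M_S` (QDef;
`Representation.Coinvariants.lift`).  Unit `M → Infl(M_S)` is `qmk`; counit `(Infl N)_S → N` is induced by the identity.
(`Adjunction.mkOfHomEquiv` or `Adjunction.mkOfUnitCounit`; compare `Rep.coinvariantsAdjunction`.)
`QAdj_proj`: a left adjoint of a functor preserving epimorphisms preserves projective objects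
(`Adjunction.map_projective`).
-/

namespace Pool.Agent.H5.CP

open CategoryTheory CategoryTheory.Abelian CategoryTheory.Limits

noncomputable def QAdj_unit {k : Type} {G : Type} [CommRing k] [Group G] (S : Subgroup G)
    [S.Normal] (M : Rep.{0} k G) : M ⟶ (Infl k S).obj ((QF k S).obj M) :=
  Rep.ofHom ⟨qmk S M, fun g => by ext x; exact (QF_rho_qmk S M g x).symm⟩

noncomputable def QAdj_counit {k : Type} {G : Type} [CommRing k] [Group G] (S : Subgroup G)
    [S.Normal] (N : Rep.{0} k (G ⧸ S)) : (QF k S).obj ((Infl k S).obj N) ⟶ N :=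
  Rep.ofHom ⟨Representation.Coinvariants.lift _ (LinearMap.id : N.V →ₗ[k] N.V) (by
    intro s
    ext x
    have h : (QuotientGroup.mk' S) (s : G) = 1 := (QuotientGroup.eq_one_iff (s : G)).mpr s.2
    show N.ρ ((QuotientGroup.mk' S) (s : G)) x = x
    rw [h, map_one]
    rfl), by
    intro g
    induction g using QuotientGroup.induction_on with
    | H g =>
      apply LinearMap.ext
      intro y
      obtain ⟨x, rfl⟩ := qmk_surjective S ((Infl k S).obj N) y
      rfl⟩

theorem QAdj_main (k : Type) {G : Type} [CommRing k] [Group G] (S : Subgroup G) [S.Normal] :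
    Nonempty (QF k S ⊣ Infl k S) := by
  refine ⟨Adjunction.mkOfUnitCounit
    { unit := { app := fun M => QAdj_unit S M, naturality := ?_ }
      counit := { app := fun N => QAdj_counit S N, naturality := ?_ }
      left_triangle := ?_
      right_triangle := ?_ }⟩
  · intro M N f
    ext x
    rfl
  · intro M N f
    ext y
    obtain ⟨x, rfl⟩ := qmk_surjective S ((Infl k S).obj M) y
    rfl
  · ext M y
    obtain ⟨x, rfl⟩ := qmk_surjective S M y
    rfl
  · ext N x
    rfl

theorem QAdj_proj {k : Type} {G : Type} [CommRing k] [Group G] (S : Subgroup G) [S.Normal]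
    (M : Rep.{0} k G) [Projective M] : Projective ((QF k S).obj M) := by
  have : (Infl k S).PreservesEpimorphisms := by
    constructor
    intro X Y f hf
    rw [Rep.epi_iff_surjective] at hf ⊢
    exact hf
  exact (QAdj_main k S).some.map_projective M inferInstance

theorem QAdj_epi {k : Type} {G : Type} [CommRing k] [Group G] (S : Subgroup G) [S.Normal]
    {M N : Rep.{0} k G} (f : M ⟶ N) [Epi f] : Epi ((QF k S).map f) := by
  have := (QAdj_main k S).some.isLeftAdjoint
  infer_instance

end Pool.Agent.H5.CP
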