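import Pool.Agent.H5.CP.Defs

/-!
Coinvariants under a normal subgroup `S` of `G` as a functor `Rep k G ⥤ Rep k (G ⧸ S)`, inflation, and the classes of
modules on which coinvariants are exact.
-/

namespace Pool.Agent.H5.CP

open CategoryTheory CategoryTheory.Abelian CategoryTheory.Limits

/-- coinvariants functor `M ↦ M_S` -/
noncomputable abbrev QF (k : Type) {G : Type} [CommRing k] [Group G] (S : Subgroup G)
    [S.Normal] : Rep.{0} k G ⥤ Rep.{0} k (G ⧸ S) :=
  Rep.quotientToCoinvariantsFunctor k S

/-- the class in `M_S` of an element of `M` -/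
noncomputable def qmk {k : Type} {G : Type} [CommRing k] [Group G] (S : Subgroup G)
    [S.Normal] (M : Rep.{0} k G) : M.V →ₗ[k] ((QF k S).obj M).V :=
  Representation.Coinvariants.mk (M.ρ.comp S.subtype)

lemma qmk_surjective {k : Type} {G : Type} [CommRing k] [Group G] (S : Subgroup G)
    [S.Normal] (M : Rep.{0} k G) : Function.Surjective (qmk S M) :=
  Representation.Coinvariants.mk_surjective _

lemma QF_map_qmk {k : Type} {G : Type} [CommRing k] [Group G] (S : Subgroup G)
    [S.Normal] {M N : Rep.{0} k G} (f : M ⟶ N) (x : M.V) :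
    ((QF k S).map f).hom (qmk S M x) = qmk S N (f.hom x) := rfl

lemma QF_rho_qmk {k : Type} {G : Type} [CommRing k] [Group G] (S : Subgroup G)
    [S.Normal] (M : Rep.{0} k G) (g : G) (x : M.V) :
    ((QF k S).obj M).ρ (QuotientGroup.mk g) (qmk S M x) = qmk S M (M.ρ g x) := rfl

instance QF_additive (k : Type) {G : Type} [CommRing k] [Group G] (S : Subgroup G)
    [S.Normal] : (QF k S).Additive where
  map_add {X Y} f g := by
    ext x
    obtain ⟨y, rfl⟩ := qmk_surjective S X x
    change qmk S Y ((f + g).hom y) = qmk S Y (f.hom y) + qmk S Y (g.hom y)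
    rw [← map_add]
    rfl

/-- inflation functor -/
noncomputable abbrev Infl (k : Type) {G : Type} [CommRing k] [Group G] (S : Subgroup G)
    [S.Normal] : Rep.{0} k (G ⧸ S) ⥤ Rep.{0} k G :=
  Rep.resFunctor (QuotientGroup.mk' S)

/-- A class of `k[G]`-modules on which the coinvariants functor `QF k S` is exact and which is stable
under taking kernels of epimorphisms from projective modules. -/
structure QClass (k : Type) {G : Type} [CommRing k] [Group G] (S : Subgroup G) [S.Normal] where
  P : Rep.{0} k G → Prop
  mono : ∀ X : ShortComplex (Rep.{0} k G), X.ShortExact → P X.X₃ → Mono ((QF k S).map X.f)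
  ker : ∀ X : ShortComplex (Rep.{0} k G), X.ShortExact → Projective X.X₂ → P X.X₃ → P X.X₁

/-- the augmentation `k[G] → k` -/
noncomputable def aug (k G : Type) [CommRing k] [Group G] :
    Rep.leftRegular k G ⟶ Rep.trivial k G k :=
  Rep.leftRegularHom (Rep.trivial k G k) (1 : k)

/-- the augmentation ideal as a short complex `I_G → k[G] → k` -/
noncomputable def augSC (k G : Type) [CommRing k] [Group G] : ShortComplex (Rep.{0} k G) :=
  ShortComplex.mk (kernel.ι (aug k G)) (aug k G) (kernel.condition _)

end Pool.Agent.H5.CP
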