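import Pool.Agent.H5.CP.QRes

/-!
ROW QPd (20 lines).  Projective dimension: from `QRes_main` with `s = 1` (`hasProjectiveDimensionLT_iff`).
-/

namespace Pool.Agent.H5.CP

open CategoryTheory CategoryTheory.Abelian CategoryTheory.Limits

theorem QPd_main {k : Type} {G : Type} [CommRing k] [Group G] {S : Subgroup G} [S.Normal]
    (C : QClass k S) (M : Rep.{0} k G) (hM : C.P M) (n : ℕ)
    (h : HasProjectiveDimensionLT M n) : HasProjectiveDimensionLT ((QF k S).obj M) n := by
  rw [hasProjectiveDimensionLT_iff] at h ⊢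
  intro i hi Y e
  have h1 : ∀ e : Ext M ((Infl k S).obj Y) i, 1 • e = 0 := fun e => by
    rw [one_smul]; exact h i hi e
  have h2 := (QRes_main C M hM Y i 1).mp h1 e
  rwa [one_smul] at h2

end Pool.Agent.H5.CP
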