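import Pool.Agent.H5.CP.RFb
import Pool.Agent.H5.CP.GysD
import Pool.Agent.H5.CP.DivD
import Pool.Agent.H5.CP.ExCo
import Pool.Agent.H5.CP.FinC
import Pool.Agent.H5.CP.FinD
import Pool.Agent.H5.CP.AlgB

/-!
ROW RFa (200 lines).  THE MAIN STEP.  Suppose not `RatTrFin (Γ/S)`; `G = Γ/S`.  `e` from `ABg_main`; for `f : B = (A →ₗ[ℤ] ℤ)` put `e(f) = e.comp (mk₀ (tmap f))`, additive in `f`.
`A ≠ 0`, free: choose a primitive `g ∈ B` (a coordinate) with `g(a₀) = 1`.  `GysD_main` for `g` (with `K` = `j(ker g)`, a normal subgroup since central, `hB`) gives `s, N₀`.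
`FinC_main` (contrapositive, with `N = N₀`): there are `m₀ ≥ N₀` and a non-torsion `x₀ ∈ Ext^{m₀}(ℤ,ℤ)`.  `L k = Ext (tz G) (tz G) (m₀ + 2 * k)`, `E f k x = (e(f)).comp x`.
`AlgB_main`: `hadd` clear, `hcomm` = `ExCo_act`, `hfg` = `FinD_main`, `hg1`, `hg2` from `GysP` (in degrees `m₀ + 2k ≥ N₀`; `m₀ + 2*(k+1) = (m₀ + 2*k) + 2`), `hinj`: `f` primitive: a `φ : B → ℤ` with `φ f = 1` is evaluation at some `a₁ ∈ A`
(`Module.evalEquiv`/reflexivity, or: `f` is surjective since otherwise `f = c f'` with `|c| ≠ 1`), `GysD_main` for `f`.  Result: `M`.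
`RFb_main` with this `M` gives `f, a₁, b, Γ₂, χ` with `b ∤ M`; `DivD_main` gives `DivP G (e(f)) b`, i.e. `N` with `N • epow (e f) m₀ k x = b^k • y`, and `epow (e f) m₀ k = Eit E f k`.  So `b ∣ M`, contradiction.
-/

namespace Pool.Agent.H5.CP

open CategoryTheory CategoryTheory.Abelian CategoryTheory.Limits

/-- the class `e(f)` -/
noncomputable def RFa_ef {G A : Type} [Group G] [AddCommGroup A]
    (e : Ext (tz G) (Rep.trivial ℤ G A) 2) (f : A →ₗ[ℤ] ℤ) : Ext (tz G) (tz G) 2 :=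
  e.comp (Ext.mk₀ (tmap G f.toAddMonoidHom)) (add_zero 2)

theorem RFa_tmap_add {G A : Type} [Group G] [AddCommGroup A] (f g : A →ₗ[ℤ] ℤ) :
    tmap G (f + g).toAddMonoidHom = tmap G f.toAddMonoidHom + tmap G g.toAddMonoidHom := by
  ext x
  rfl

theorem RFa_ef_add {G A : Type} [Group G] [AddCommGroup A]
    (e : Ext (tz G) (Rep.trivial ℤ G A) 2) (f g : A →ₗ[ℤ] ℤ) :
    RFa_ef e (f + g) = RFa_ef e f + RFa_ef e g := by
  unfold RFa_ef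
  rw [RFa_tmap_add, Ext.mk₀_add, Ext.comp_add]

/-- the kernel of `f` as a subgroup -/
def RFa_K {Γ A : Type} [Group Γ] [AddCommGroup A] (j : Multiplicative A →* Γ) (f : A →ₗ[ℤ] ℤ) :
    Subgroup Γ where
  carrier := {x | ∃ a, f a = 0 ∧ j (Multiplicative.ofAdd a) = x}
  mul_mem' := by
    rintro _ _ ⟨a, ha, rfl⟩ ⟨b, hb, rfl⟩
    exact ⟨a + b, by rw [map_add, ha, hb, add_zero], by rw [ofAdd_add, map_mul]⟩
  one_mem' := ⟨0, map_zero f, by rw [ofAdd_zero, map_one]⟩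
  inv_mem' := by
    rintro _ ⟨a, ha, rfl⟩
    exact ⟨-a, by rw [map_neg, ha, neg_zero], by rw [ofAdd_neg, map_inv]⟩

theorem RFa_prim {A : Type} [AddCommGroup A] [Module.Free ℤ A] [Module.Finite ℤ A]
    (f : A →ₗ[ℤ] ℤ) (φ : (A →ₗ[ℤ] ℤ) →ₗ[ℤ] ℤ) (h : φ f = 1) : ∃ a₁ : A, f a₁ = 1 := by
  refine ⟨(Module.evalEquiv ℤ A).symm φ, ?_⟩
  rw [Module.apply_evalEquiv_symm_apply]
  exact h

theorem RFa_main {Γ A : Type} [Group Γ] [AddCommGroup A] [Module.Free ℤ A] [Module.Finite ℤ A]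
    [Nontrivial A] (S : Subgroup Γ) [S.Normal] (hc : S ≤ Subgroup.center Γ)
    (j : Multiplicative A →* Γ) (hj : Function.Injective j)
    (hS : ∀ x, x ∈ S ↔ ∃ a, j (Multiplicative.ofAdd a) = x)
    (hr : ∀ x ∈ S, x ≠ 1 → ∃ N : Subgroup Γ, N.Normal ∧ N.FiniteIndex ∧ x ∉ N)
    (hF : FPinf (Γ ⧸ S))
    (hB : ∀ (f : A →+ ℤ) (a₁ : A), f a₁ = 1 → ∀ (K : Subgroup Γ) [K.Normal],
      (∀ x, x ∈ K ↔ ∃ a, f a = 0 ∧ j (Multiplicative.ofAdd a) = x) → BE (Γ ⧸ K)) :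
    RatTrFin (Γ ⧸ S) := by
  by_contra hnot
  obtain ⟨e, he⟩ := ABg_main S hc j hj hS
  have hGys : ∀ (f : A →ₗ[ℤ] ℤ) (a₁ : A), f a₁ = 1 → GysP (Γ ⧸ S) (RFa_ef e f) := by
    intro f a₁ hf
    have hKc : RFa_K j f ≤ Subgroup.center Γ := by
      rintro _ ⟨a, _, rfl⟩
      exact hc ((hS _).2 ⟨a, rfl⟩)
    have hKn : (RFa_K j f).Normal := normal_of_le_center _ hKc
    have hK : ∀ x, x ∈ RFa_K j f ↔
        ∃ a, f.toAddMonoidHom a = 0 ∧ j (Multiplicative.ofAdd a) = x := fun x => Iff.rfl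
    exact GysD_main S hc j hj hS f.toAddMonoidHom a₁ hf (RFa_K j f) hK
      (hB f.toAddMonoidHom a₁ hf (RFa_K j f) hK) e he
  -- a coordinate
  obtain ⟨g, a₀, hg⟩ : ∃ (g : A →ₗ[ℤ] ℤ) (a₀ : A), g a₀ = 1 := by
    let b := Module.Free.chooseBasis ℤ A
    have hne : Nonempty (Module.Free.ChooseBasisIndex ℤ A) := b.index_nonempty
    obtain ⟨i⟩ := hne
    exact ⟨b.coord i, b i, by simp⟩
  obtain ⟨s, N₀, hs, hgy⟩ := hGys g a₀ hg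
  have hx : ∃ (m₀ : ℕ) (_ : N₀ ≤ m₀) (x₀ : Ext (tz (Γ ⧸ S)) (tz (Γ ⧸ S)) m₀),
      ∀ k : ℕ, 0 < k → k • x₀ ≠ 0 := by
    by_contra hcon
    apply hnot
    refine FinC_main hF N₀ fun n hn x => ?_
    by_contra hx
    apply hcon
    refine ⟨n, hn, x, fun k hk h0 => hx ⟨k, hk, h0⟩⟩
  obtain ⟨m₀, hm₀, x₀, hx₀⟩ := hx
  let L : ℕ → Type := fun k => Ext (tz (Γ ⧸ S)) (tz (Γ ⧸ S)) (m₀ + 2 * k)
  let E : (A →ₗ[ℤ] ℤ) → ∀ n, L n →+ L (n + 1) := fun f n =>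
    (RFa_ef e f).precomp (tz (Γ ⧸ S)) (by omega : 2 + (m₀ + 2 * n) = m₀ + 2 * (n + 1))
  have hE : ∀ f n (x : L n), E f n x
      = (RFa_ef e f).comp x (by omega : 2 + (m₀ + 2 * n) = m₀ + 2 * (n + 1)) :=
    fun _ _ _ => rfl
  have hadd : ∀ f g n x, E (f + g) n x = E f n x + E g n x := by
    intro f g n x
    rw [hE, hE, hE, RFa_ef_add, Ext.add_comp]
  have hcomm : ∀ f g n x, E f (n + 1) (E g n x) = E g (n + 1) (E f n x) := by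
    intro f g n x
    rw [hE, hE, hE, hE]
    exact ExCo_act (RFa_ef e f) (RFa_ef e g) (m₀ + 2 * n) _ _ _ _ x
  have hfg : AddGroup.FG (L 0) := FinD_main m₀ (tz (Γ ⧸ S)) (hF m₀)
  have hg1 : ∀ n (y : L (n + 1)), ∃ x : L n, E g n x = s • y := by
    intro n y
    obtain ⟨x, hx⟩ := (hgy (tz (Γ ⧸ S)) (m₀ + 2 * n) (by omega)).1 y
    exact ⟨x, hx.symm⟩
  have hg2 : ∀ n (x : L n), E g n x = 0 → s • x = 0 := by
    intro n x hx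
    exact (hgy (tz (Γ ⧸ S)) (m₀ + 2 * n) (by omega)).2 x hx
  have hinj : ∀ f : (A →ₗ[ℤ] ℤ), (∃ φ : (A →ₗ[ℤ] ℤ) →ₗ[ℤ] ℤ, φ f = 1) →
      ∃ s' n₀ : ℕ, 0 < s' ∧ ∀ n, n₀ ≤ n → ∀ x : L n, E f n x = 0 → s' • x = 0 := by
    rintro f ⟨φ, hφ⟩
    obtain ⟨a₁, ha₁⟩ := RFa_prim f φ hφ
    obtain ⟨s', N', hs', hgy'⟩ := hGys f a₁ ha₁
    exact ⟨s', N', hs', fun n hn x hx => (hgy' (tz (Γ ⧸ S)) (m₀ + 2 * n) (by omega)).2 x hx⟩
  obtain ⟨M, hM, hMb⟩ := AlgB_main E hadd hcomm hfg g s hs hg1 hg2 hinj (x₀ : L 0) hx₀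
  have ha₀ : a₀ ≠ 0 := by
    intro h
    rw [h, map_zero] at hg
    exact zero_ne_one hg
  obtain ⟨f, a₁, b, Γ₂, χ, hf1, hb, hnb, hfin, hle, hχ⟩ :=
    RFb_main S hc j hj hS hr a₀ ha₀ M hM
  apply hnb
  obtain ⟨N, hN, hdiv⟩ : DivP (Γ ⧸ S) (RFa_ef e f) b :=
    DivD_main S hc j hj hS f.toAddMonoidHom a₁ hf1 b hb Γ₂ hle χ hχ e he
  refine hMb f b hb ⟨Module.Dual.eval ℤ A a₁, hf1⟩ ⟨N, hN, fun k x => ?_⟩
  have hEit : ∀ k : ℕ, Eit E f k x = epow (RFa_ef e f) m₀ k (x : Ext (tz (Γ ⧸ S)) (tz (Γ ⧸ S)) m₀) := by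
    intro k
    induction k with
    | zero => rfl
    | succ k ih =>
      change E f k (Eit E f k x) = _
      rw [ih]
      rfl
  rw [hEit k]
  exact hdiv m₀ k x

end Pool.Agent.H5.CP
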