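import Pool.Agent.H5.CP.LatS
import Pool.Agent.H5.CP.GDef

/-!
ROW RFb (100 lines).  From residual finiteness to characters.  `0 ≠ w ∈ A`; `M w ≠ 0` (A is torsion-free), so there is a normal subgroup `N` of finite index with `j(M w) ∉ N`.  `Λ = {a : j(a) ∈ N}`; `LatS_main` gives `f`, `a₁`, `b`.  `Γ₂ = N ⊔ S` (`N` normal, `S` central);
every element of `Γ₂` is `ν j(x)`, `ν ∈ N`, and `χ(ν j(x)) = f(x) mod b` is well defined (`ν j(x) = ν' j(x')` implies `j(x - x') ∈ N`, `b ∣ f(x - x')`) and a homomorphism (S central).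
-/

namespace Pool.Agent.H5.CP

open CategoryTheory CategoryTheory.Abelian CategoryTheory.Limits

theorem RFb_main {Γ A : Type} [Group Γ] [AddCommGroup A] [Module.Free ℤ A] [Module.Finite ℤ A]
    (S : Subgroup Γ) [S.Normal] (hc : S ≤ Subgroup.center Γ) (j : Multiplicative A →* Γ)
    (hj : Function.Injective j) (hS : ∀ x, x ∈ S ↔ ∃ a, j (Multiplicative.ofAdd a) = x)
    (hr : ∀ x ∈ S, x ≠ 1 → ∃ N : Subgroup Γ, N.Normal ∧ N.FiniteIndex ∧ x ∉ N)
    (w : A) (hw : w ≠ 0) (M : ℕ) (hM : 0 < M) :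
    ∃ (f : A →ₗ[ℤ] ℤ) (a₁ : A) (b : ℕ) (Γ₂ : Subgroup Γ) (χ : Γ₂ →* Multiplicative (ZMod b)),
      f a₁ = 1 ∧ 0 < b ∧ ¬ b ∣ M ∧ Γ₂.FiniteIndex ∧ S ≤ Γ₂ ∧
      ∀ (a : A) (h : j (Multiplicative.ofAdd a) ∈ Γ₂),
        χ ⟨j (Multiplicative.ofAdd a), h⟩ = Multiplicative.ofAdd ((f a : ℤ) : ZMod b) := by
  have hMw : M • w ≠ 0 := by
    rw [← natCast_zsmul]
    exact smul_ne_zero (by exact_mod_cast hM.ne') hw
  have hjS : ∀ a : Multiplicative A, j a ∈ S := fun a => (hS _).2 ⟨Multiplicative.toAdd a, rfl⟩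
  have hx0 : j (Multiplicative.ofAdd (M • w)) ≠ 1 := by
    intro h0
    rw [← map_one j] at h0
    exact hMw (Multiplicative.ofAdd.injective (hj h0))
  obtain ⟨N, hN, hNf, hxN⟩ := hr _ (hjS _) hx0
  let Λ : AddSubgroup A :=
    { carrier := {a | j (Multiplicative.ofAdd a) ∈ N}
      zero_mem' := by
        show j (Multiplicative.ofAdd 0) ∈ N
        rw [ofAdd_zero, map_one]
        exact N.one_mem
      add_mem' := by
        intro a b ha hb
        show j (Multiplicative.ofAdd (a + b)) ∈ N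
        rw [ofAdd_add, map_mul]
        exact N.mul_mem ha hb
      neg_mem' := by
        intro a ha
        show j (Multiplicative.ofAdd (-a)) ∈ N
        rw [ofAdd_neg, map_inv]
        exact N.inv_mem ha }
  obtain ⟨f, a₁, b, hf, hb, hbM, hdiv⟩ := LatS_main Λ w M hM hxN
  have hcen : ∀ (a : Multiplicative A) (g : Γ), g * j a = j a * g := fun a g =>
    Subgroup.mem_center_iff.1 (hc (hjS a)) g
  let ψ : (N × Multiplicative A) →* (N ⊔ S : Subgroup Γ) :=
    { toFun := fun p => ⟨(p.1 : Γ) * j p.2, Subgroup.mul_mem_sup p.1.2 (hjS p.2)⟩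
      map_one' := by
        apply Subtype.ext
        simp
      map_mul' := by
        intro p q
        apply Subtype.ext
        show ((p.1 * q.1 : N) : Γ) * j (p.2 * q.2) = ((p.1 : Γ) * j p.2) * ((q.1 : Γ) * j q.2)
        rw [map_mul, Subgroup.coe_mul, mul_assoc, mul_assoc, ← mul_assoc (q.1 : Γ), hcen p.2 q.1,
          mul_assoc] }
  have hψ : Function.Surjective ψ := by
    rintro ⟨x, hx⟩
    have h1 : x ∈ ((N ⊔ S : Subgroup Γ) : Set Γ) := hx
    rw [Subgroup.normal_mul] at h1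
    obtain ⟨n, hn, s, hs, hns⟩ := Set.mem_mul.1 h1
    obtain ⟨a, ha⟩ := (hS s).1 hs
    refine ⟨(⟨n, hn⟩, Multiplicative.ofAdd a), ?_⟩
    apply Subtype.ext
    show n * j (Multiplicative.ofAdd a) = x
    rw [ha]
    exact hns
  let g : (N × Multiplicative A) →* Multiplicative (ZMod b) :=
    (AddMonoidHom.toMultiplicative ((Int.castAddHom (ZMod b)).comp f.toAddMonoidHom)).comp
      (MonoidHom.snd N (Multiplicative A))
  have hg : ∀ p, g p = Multiplicative.ofAdd ((f (Multiplicative.toAdd p.2) : ℤ) : ZMod b) :=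
    fun p => rfl
  have hker : ψ.ker ≤ g.ker := by
    intro p hp
    rw [MonoidHom.mem_ker] at hp ⊢
    have h1 : (p.1 : Γ) * j p.2 = 1 := congrArg Subtype.val hp
    have h2 : j p.2 = (p.1 : Γ)⁻¹ := eq_inv_of_mul_eq_one_right h1
    have h3 : Multiplicative.toAdd p.2 ∈ Λ := by
      show j (Multiplicative.ofAdd (Multiplicative.toAdd p.2)) ∈ N
      rw [ofAdd_toAdd, h2]
      exact N.inv_mem p.1.2
    have h4 := hdiv _ h3
    rw [hg, (ZMod.intCast_zmod_eq_zero_iff_dvd _ _).2 h4, ofAdd_zero]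
  refine ⟨f, a₁, b, N ⊔ S, ψ.liftOfSurjective hψ ⟨g, hker⟩, hf, hb, hbM,
    Subgroup.finiteIndex_of_le le_sup_left, le_sup_right, ?_⟩
  intro a h
  have h1 : (⟨j (Multiplicative.ofAdd a), h⟩ : (N ⊔ S : Subgroup Γ)) =
      ψ (1, Multiplicative.ofAdd a) := by
    apply Subtype.ext
    show j (Multiplicative.ofAdd a) = ((1 : N) : Γ) * j (Multiplicative.ofAdd a)
    rw [Subgroup.coe_one, one_mul]
  rw [h1]
  have h2 := MonoidHom.liftOfRightInverse_comp_apply ψ (Function.surjInv hψ)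
    (Function.rightInverse_surjInv hψ) ⟨g, hker⟩ (1, Multiplicative.ofAdd a)
  exact h2

end Pool.Agent.H5.CP
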