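import Pool.Agent.H5.CP.RFa
import Pool.Agent.H5.CP.TowC
import Pool.Agent.H5.CP.TowB

/-!
ROW RFc (120 lines).  Induction on the rank.  For all `r`: if `A` is free of rank `r` (`Module.finrank ℤ A = r`), `RatTrFin (Γ/S)`.  `r = 0`: `A` is trivial, `S = ⊥`, `Γ/S ≃* Γ`, `CDfin ℤ Γ` gives `RatTrFin Γ` (`CocB_CD`, `IsoI_RT`).
`r + 1`: `RFa_main` (`TowB_main` for `FPinf`; `S` is finitely generated, and torsion-free by `j` injective).  For `hB`: `K = j(ker f)`; `ker f` (a submodule of `A`) is free of rank `r` (`A = ker f ⊕ ℤ a₁`), `j` restricted to it; by induction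
`RatTrFin (Γ/K)`, and `TowC_main` (`IsoI_BE0`) gives `BE (Γ/K)`.
-/

namespace Pool.Agent.H5.CP

open CategoryTheory CategoryTheory.Abelian CategoryTheory.Limits

theorem RFc_fg {Γ A : Type} [Group Γ] [AddCommGroup A] [Module.Finite ℤ A]
    (S : Subgroup Γ) (j : Multiplicative A →* Γ)
    (hS : ∀ x, x ∈ S ↔ ∃ a, j (Multiplicative.ofAdd a) = x) : S.FG := by
  have h0 : j.range = S := by
    ext x
    rw [hS]
    constructor
    · rintro ⟨a, rfl⟩
      exact ⟨a.toAdd, rfl⟩
    · rintro ⟨a, rfl⟩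
      exact ⟨Multiplicative.ofAdd a, rfl⟩
  have h1 : Group.FG (Multiplicative A) := by
    rw [← AddGroup.fg_iff_mul_fg]
    exact Module.Finite.iff_addGroup_fg.1 inferInstance
  have h2 := Group.fg_range j
  rw [← h0]
  exact (Group.fg_iff_subgroup_fg _).1 h2

theorem RFc_tf {Γ A : Type} [Group Γ] [AddCommGroup A] [Module.Free ℤ A]
    (S : Subgroup Γ) (j : Multiplicative A →* Γ) (hj : Function.Injective j)
    (hS : ∀ x, x ∈ S ↔ ∃ a, j (Multiplicative.ofAdd a) = x) (x : Γ) (hx : x ∈ S)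
    (hf : IsOfFinOrder x) : x = 1 := by
  obtain ⟨a, rfl⟩ := (hS x).1 hx
  obtain ⟨m, hm, h1⟩ := isOfFinOrder_iff_pow_eq_one.1 hf
  rw [← map_pow, ← map_one j] at h1
  have h2 := hj h1
  have h3 : m • a = 0 := h2
  have h4 : a = 0 := by
    have h5 : (m : ℤ) • a = 0 := by rw [natCast_zsmul, h3]
    rcases smul_eq_zero.1 h5 with h | h
    · omega
    · exact h
  rw [h4]
  exact map_one j

theorem RFc_rank {A : Type} [AddCommGroup A] [Module.Free ℤ A] [Module.Finite ℤ A] (r : ℕ)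
    (hA : Module.finrank ℤ A = r + 1) (f : A →ₗ[ℤ] ℤ) (a₁ : A) (h : f a₁ = 1) :
    Module.finrank ℤ (LinearMap.ker f) = r := by
  have h1 := Submodule.finrank_quotient_add_finrank (R := ℤ) (LinearMap.ker f)
  have hs : Function.Surjective f := fun n => ⟨n • a₁, by rw [map_smul, h, smul_eq_mul, mul_one]⟩
  have h2 : Module.finrank ℤ (A ⧸ LinearMap.ker f) = 1 := by
    rw [LinearEquiv.finrank_eq (LinearMap.quotKerEquivOfSurjective f hs)]
    exact Module.finrank_self ℤ
  rw [h2, hA] at h1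
  omega

theorem RFc_main {Γ : Type} [Group Γ] (hcd : CDfin ℤ Γ) (hF : FPinf Γ) (r : ℕ) (A : Type)
    [AddCommGroup A] [Module.Free ℤ A] [Module.Finite ℤ A] (hA : Module.finrank ℤ A = r)
    (S : Subgroup Γ) [S.Normal] (hc : S ≤ Subgroup.center Γ)
    (j : Multiplicative A →* Γ) (hj : Function.Injective j)
    (hS : ∀ x, x ∈ S ↔ ∃ a, j (Multiplicative.ofAdd a) = x)
    (hr : ∀ x ∈ S, x ≠ 1 → ∃ N : Subgroup Γ, N.Normal ∧ N.FiniteIndex ∧ x ∉ N) :
    RatTrFin (Γ ⧸ S) := by
  induction r generalizing A S with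
  | zero =>
    have hsub : Subsingleton A := Module.finrank_zero_iff.1 hA
    have hb : S = ⊥ := by
      rw [eq_bot_iff]
      intro x hx
      obtain ⟨a, rfl⟩ := (hS x).1 hx
      rw [Subsingleton.elim a 0]
      exact map_one j
    obtain ⟨n, hn⟩ := hcd
    have h1 : RatTrFin Γ := ⟨n + 1, fun m hm => CocB_CD (k := ℚ) n hn _ m hm⟩
    exact IsoI_RT ((QuotientGroup.quotientMulEquivOfEq hb).trans QuotientGroup.quotientBot) h1
  | succ r ih =>
    have hnt : Nontrivial A := by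
      refine Module.nontrivial_of_finrank_pos (R := ℤ) ?_
      rw [hA]
      exact Nat.succ_pos r
    refine RFa_main S hc j hj hS hr
      (TowB_main S hc (RFc_fg S j hS) (fun x hx hxf => RFc_tf S j hj hS x hx hxf) hF) ?_
    intro f a₁ hf K _ hK
    let f' : A →ₗ[ℤ] ℤ := f.toIntLinearMap
    have hrk : Module.finrank ℤ (LinearMap.ker f') = r := RFc_rank r hA f' a₁ hf
    have hKS : K ≤ S := by
      intro x hx
      obtain ⟨a, _, rfl⟩ := (hK x).1 hx
      exact (hS _).2 ⟨a, rfl⟩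
    let j' : Multiplicative (LinearMap.ker f') →* Γ :=
      j.comp (AddMonoidHom.toMultiplicative (LinearMap.ker f').subtype.toAddMonoidHom)
    have hj' : Function.Injective j' := by
      intro x y hxy
      have h1 := hj hxy
      exact Subtype.ext h1
    have hK' : ∀ x, x ∈ K ↔ ∃ a : LinearMap.ker f', j' (Multiplicative.ofAdd a) = x := by
      intro x
      rw [hK]
      constructor
      · rintro ⟨a, ha, rfl⟩
        exact ⟨⟨a, ha⟩, rfl⟩
      · rintro ⟨a, rfl⟩
        exact ⟨a.1, a.2, rfl⟩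
    have hKc : K ≤ Subgroup.center Γ := hKS.trans hc
    have hRT : RatTrFin (Γ ⧸ K) :=
      ih (LinearMap.ker f') hrk K hKc j' hj' hK' fun x hx => hr x (hKS hx)
    exact TowC_main K hKc (RFc_fg K j' hK') (fun x hx hxf => RFc_tf K j' hj' hK' x hx hxf) hF
      (IsoI_BE0 hcd) hRT

end Pool.Agent.H5.CP
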