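import Pool.Agent.H5.CP.RFc
import Pool.Agent.H5.CP.CenR

/-!
ROW RFd (80 lines).  THEOREM 3.  `RFd_D`: `D` is finitely generated, central and torsion-free (`FPcd_tf`), so `A = Additive D` is free of finite rank (`D` is commutative: `AddCommGroup (Additive D)` from `open scoped IsMulCommutative` or by hand; or choose a basis and take `A = Fin r → ℤ`
with `j(a) = ∏ b_i^{a_i}`); `RFc_main` with `FPcd_CD`, `FPcd_inf`.
`RFd_CP`: `CenR_all` and `RFd_D` for `D = center`; `FPcd_fin ℚ`.
-/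

namespace Pool.Agent.H5.CP

open CategoryTheory CategoryTheory.Abelian CategoryTheory.Limits

theorem RFd_D {Γ : Type} [Group Γ] (h : IsTypeFP Γ) (D : Subgroup Γ) [D.Normal]
    (hD : D ≤ Subgroup.center Γ) (hf : D.FG)
    (hr : ∀ x ∈ D, x ≠ 1 → ∃ N : Subgroup Γ, N.Normal ∧ N.FiniteIndex ∧ x ∉ N) :
    RatTrFin (Γ ⧸ D) := by
  let hcomm : CommGroup D :=
    { (inferInstance : Group D) with
      mul_comm := fun a b => Subtype.ext (Subgroup.mem_center_iff.1 (hD b.2) a.1) }
  have hfg : Group.FG D := (Group.fg_iff_subgroup_fg D).2 hf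
  have hfg' : AddGroup.FG (Additive D) := GroupFG.iff_add_fg.1 hfg
  have hfin : Module.Finite ℤ (Additive D) := Module.Finite.iff_addGroup_fg.2 hfg'
  have htf : IsAddTorsionFree (Additive D) := by
    refine ⟨fun n hn a b hab => ?_⟩
    have h1 : n • (a - b) = 0 := by
      rw [nsmul_sub]
      exact sub_eq_zero.2 hab
    have h2 : (((a - b).toMul : D) : Γ) ^ n = 1 := by
      have h3 : ((a - b).toMul : D) ^ n = 1 := by
        have := congrArg Additive.toMul h1
        simpa using this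
      have := congrArg Subtype.val h3
      simpa using this
    have h4 : (((a - b).toMul : D) : Γ) = 1 :=
      FPcd_tf h _ (isOfFinOrder_iff_pow_eq_one.2 ⟨n, Nat.pos_of_ne_zero hn, h2⟩)
    have h5 : ((a - b).toMul : D) = 1 := Subtype.ext h4
    have h6 : a - b = 0 := by
      apply Additive.toMul.injective
      exact h5
    exact sub_eq_zero.1 h6
  have hfree : Module.Free ℤ (Additive D) := inferInstance
  exact RFc_main (FPcd_CD h) (FPcd_inf h) _ (Additive D) rfl D hD
    { toFun := fun a => ((Additive.toMul (Multiplicative.toAdd a) : D) : Γ)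
      map_one' := rfl
      map_mul' := fun _ _ => rfl }
    (fun a b hab => Subtype.ext hab)
    (fun x => ⟨fun hx => ⟨Additive.ofMul ⟨x, hx⟩, rfl⟩, fun ⟨a, ha⟩ => ha ▸ (a.toMul).2⟩) hr

theorem RFd_CP {Γ : Type} [Group Γ] (h : IsTypeFP Γ)
    (hr : ∀ x ∈ Subgroup.center Γ, x ≠ 1 → ∃ N : Subgroup Γ, N.Normal ∧ N.FiniteIndex ∧ x ∉ N) :
    (Subgroup.center Γ).FG ∧ InCP Γ := by
  have hr' : ∀ (D : Subgroup Γ) [D.Normal], D ≤ Subgroup.center Γ → D.FG → RatTrFin (Γ ⧸ D) :=
    fun D _ hD hf => RFd_D h D hD hf fun x hx hne => hr x (hD hx) hne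
  have hfg := CenR_all h hr'
  exact ⟨hfg, FPcd_fin ℚ h, hr' _ le_rfl hfg⟩

end Pool.Agent.H5.CP
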