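import Pool.Agent.H5.CP.RetB
import Pool.Agent.H5.CP.QPd
import Pool.Agent.H5.CP.ExB

/-!
ROW ROne (40 lines).  `t` central of infinite order, `χ(t) = 1`: `cd_k(G/⟨t⟩) ≤ cd_k(G) - 1` (in the form `< n+2 ⟹ < n+1`).
`CD k G (n+2)` = `HasProjectiveDimensionLT (Rep.trivial k G k) (n+2)` (`ExB_pd`).  From `augSC` (`AugE_exact`), `k[G]` projective:
`HasProjectiveDimensionLT (kernel (aug k G)) (n+1)` (`ShortExact.hasProjectiveDimensionLT_X₁`).  `QPd_main` for the class `TRegC_main`
(`AugE_ker`), then `RetB_main` and `Retract.hasProjectiveDimensionLT`, `ExB_pd`.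
(`Rep.leftRegular k G` is projective: e.g. `Rep.free k G Unit`, or `leftRegularHom`; Mathlib has an instance or `Rep.leftRegular_projective`.)
-/

namespace Pool.Agent.H5.CP

open CategoryTheory CategoryTheory.Abelian CategoryTheory.Limits

theorem ROne_main {k G : Type} [CommRing k] [Group G] (t : G) (hc : t ∈ Subgroup.center G)
    (ht : ∀ n : ℤ, t ^ n = 1 → n = 0) [(Subgroup.zpowers t).Normal] (χ : G →* Multiplicative k)
    (hχ : χ t = Multiplicative.ofAdd 1) (n : ℕ) (h : CD k G (n + 2)) :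
    CD k (G ⧸ Subgroup.zpowers t) (n + 1) := by
  rw [ExB_pd] at h ⊢
  have hproj : Projective (augSC k G).X₂ := by
    change Projective (Rep.leftRegular k G)
    infer_instance
  have h1 : HasProjectiveDimensionLT (kernel (aug k G)) (n + 1) :=
    ((AugE_exact k G).hasProjectiveDimensionLT_X₃_iff n hproj).1 h
  obtain ⟨C, hC⟩ := TRegC_main k t hc ht
  have h2 := QPd_main C (kernel (aug k G)) ((hC _).2 (AugE_ker t ht)) (n + 1) h1
  obtain ⟨r⟩ := RetB_main t hc χ hχ
  exact r.hasProjectiveDimensionLT (n + 1)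

theorem ROne_fin {k G : Type} [CommRing k] [Group G] (t : G) (hc : t ∈ Subgroup.center G)
    (ht : ∀ n : ℤ, t ^ n = 1 → n = 0) [(Subgroup.zpowers t).Normal] (χ : G →* Multiplicative k)
    (hχ : χ t = Multiplicative.ofAdd 1) (h : CDfin k G) :
    CDfin k (G ⧸ Subgroup.zpowers t) := by
  obtain ⟨n, hn⟩ := h
  exact ⟨n + 1, ROne_main t hc ht χ hχ n fun A j hj => hn A j (by omega)⟩

end Pool.Agent.H5.CP
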