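import Pool.Agent.H5.CP.TRegC

/-!
ROW RetB (80 lines).  THE RETRACT.  `t` central, `S = ⟨t⟩`, `χ : G → (k,+)` a homomorphism with `χ(t) = 1`.
`I = kernel (aug k G)`: its elements are the `y ∈ k[G]` with `aug y = 0`; spanned by `g - 1`.
`ι : k → I_S`, `1 ↦ qmk(t - 1)`; it is `G/S`-linear: `g(t-1) - (t-1) = (t-1)(g-1)` (t central) `= ρ(t)(g-1) - (g-1)`, `g - 1 ∈ I`, is in
the kernel of `qmk`.
`r : I_S → k`: the `k`-linear map `L : k[G] → k`, `g ↦ χ(g)`, satisfies `L(g y) = L(y) + aug(y) χ(g)`, hence on `I` it is invariant, so it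
factors through `I_S` and is a morphism to the trivial module.  `r(ι(1)) = L(t) - L(1) = χ(t) = 1`.
-/

namespace Pool.Agent.H5.CP

open CategoryTheory CategoryTheory.Abelian CategoryTheory.Limits

theorem retb_lift {k G : Type} [CommRing k] [Group G] (x : (Rep.leftRegular k G).V)
    (hx : (aug k G).hom x = 0) :
    ∃ u : (kernel (aug k G)).V, (kernel.ι (aug k G)).hom u = x := by
  have h1 := (AugE_exact k G).exact
  rw [← ShortComplex.exact_map_iff_of_faithful (augSC k G)
    (forget₂ (Rep.{0} k G) (ModuleCat.{0} k)), ShortComplex.moduleCat_exact_iff] at h1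
  exact h1 x hx

theorem retb_inj {k G : Type} [CommRing k] [Group G] :
    Function.Injective (kernel.ι (aug k G)).hom :=
  (Rep.mono_iff_injective _).1 inferInstance

theorem retb_aug_single {k G : Type} [CommRing k] [Group G] (g : G) (a : k) :
    (aug k G).hom (MonoidAlgebra.single g a : MonoidAlgebra k G) = a := by
  refine (Rep.leftRegularHom_hom_single (A := Rep.trivial k G k) g (1 : k) a).trans ?_
  change a • (1 : k) = a
  rw [smul_eq_mul, mul_one]

theorem retb_aug_ker {k G : Type} [CommRing k] [Group G] (u : (kernel (aug k G)).V) :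
    (aug k G).hom ((kernel.ι (aug k G)).hom u) = 0 := by
  have h := congrArg (fun f => f.hom u) (kernel.condition (aug k G))
  exact h

theorem retb_diff {k G : Type} [CommRing k] [Group G] (g : G) :
    ∃ u : (kernel (aug k G)).V, (kernel.ι (aug k G)).hom u =
      ((MonoidAlgebra.single g 1 - MonoidAlgebra.single 1 1 : MonoidAlgebra k G) :
        (Rep.leftRegular k G).V) := by
  apply retb_lift
  have h := map_sub (aug k G).hom (MonoidAlgebra.single g 1 : MonoidAlgebra k G)
    (MonoidAlgebra.single 1 1 : MonoidAlgebra k G)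
  refine h.trans ?_
  rw [retb_aug_single, retb_aug_single, sub_self]

/-- the linear extension of `χ` -/
noncomputable def retb_L {k G : Type} [CommRing k] [Group G] (χ : G →* Multiplicative k) :
    MonoidAlgebra k G →ₗ[k] k :=
  Finsupp.linearCombination k (fun g => Multiplicative.toAdd (χ g)) ∘ₗ
    (MonoidAlgebra.coeffLinearEquiv k).toLinearMap

theorem retb_L_single {k G : Type} [CommRing k] [Group G] (χ : G →* Multiplicative k) (g : G)
    (a : k) : retb_L χ (MonoidAlgebra.single g a) = a * Multiplicative.toAdd (χ g) := by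
  change Finsupp.linearCombination k (fun g => Multiplicative.toAdd (χ g)) (Finsupp.single g a) = _
  rw [Finsupp.linearCombination_single, smul_eq_mul]

theorem retb_L_rho {k G : Type} [CommRing k] [Group G] (χ : G →* Multiplicative k) (g : G)
    (x : MonoidAlgebra k G) :
    retb_L χ ((Rep.leftRegular k G).ρ g x) =
      retb_L χ x + ((aug k G).hom x : k) * Multiplicative.toAdd (χ g) := by
  induction x using MonoidAlgebra.induction_linear with
  | zero =>
    have h1 : (Rep.leftRegular k G).ρ g (0 : MonoidAlgebra k G) = (0 : MonoidAlgebra k G) :=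
      map_zero _
    have h2 : ((aug k G).hom (0 : MonoidAlgebra k G) : k) = 0 := map_zero (aug k G).hom
    rw [h1, h2, map_zero, zero_mul, add_zero]
  | add x y hx hy =>
    have h1 : (Rep.leftRegular k G).ρ g (x + y : MonoidAlgebra k G) =
        ((Rep.leftRegular k G).ρ g x + (Rep.leftRegular k G).ρ g y : MonoidAlgebra k G) :=
      map_add _ _ _
    have h2 : ((aug k G).hom (x + y : MonoidAlgebra k G) : k) =
        ((aug k G).hom x : k) + ((aug k G).hom y : k) := map_add (aug k G).hom x y
    rw [h1, h2, map_add, map_add, hx, hy]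
    ring
  | single h a =>
    have e : (Rep.leftRegular k G).ρ g (MonoidAlgebra.single h a : MonoidAlgebra k G) =
        (MonoidAlgebra.single (g * h) a : MonoidAlgebra k G) :=
      Representation.ofMulAction_single g h a
    rw [e, retb_aug_single, retb_L_single, retb_L_single, map_mul, toAdd_mul]
    ring

theorem RetB_main {k G : Type} [CommRing k] [Group G] (t : G) (hc : t ∈ Subgroup.center G)
    [(Subgroup.zpowers t).Normal] (χ : G →* Multiplicative k)
    (hχ : χ t = Multiplicative.ofAdd 1) :
    Nonempty (Retract (Rep.trivial k (G ⧸ Subgroup.zpowers t) k)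
      ((QF k (Subgroup.zpowers t)).obj (kernel (aug k G)))) := by
  obtain ⟨u, hu⟩ := retb_diff (k := k) t
  have hinv : ∀ g : G, qmk (Subgroup.zpowers t) (kernel (aug k G))
      ((kernel (aug k G)).ρ g u) = qmk (Subgroup.zpowers t) (kernel (aug k G)) u := by
    intro g
    obtain ⟨w, hw⟩ := retb_diff (k := k) g
    rw [← sub_eq_zero, ← map_sub, TRegC_qmk]
    refine ⟨w, retb_inj ?_⟩
    rw [map_sub, map_sub, Rep.hom_comm_apply, Rep.hom_comm_apply, hu, hw]
    have hgt : t * g = g * t := (Subgroup.mem_center_iff.1 hc g).symm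
    have e : ∀ a b : G, (Rep.leftRegular k G).ρ a
        ((MonoidAlgebra.single b 1 - MonoidAlgebra.single 1 1 : MonoidAlgebra k G) :
          (Rep.leftRegular k G).V) =
        (MonoidAlgebra.single (a * b) 1 - MonoidAlgebra.single a 1 : MonoidAlgebra k G) := by
      intro a b
      have h0 : (Rep.leftRegular k G).ρ a
        ((MonoidAlgebra.single b 1 - MonoidAlgebra.single 1 1 : MonoidAlgebra k G) :
          (Rep.leftRegular k G).V) = (Rep.leftRegular k G).ρ a
            (MonoidAlgebra.single b 1 : MonoidAlgebra k G) - (Rep.leftRegular k G).ρ a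
            (MonoidAlgebra.single 1 1 : MonoidAlgebra k G) := map_sub _ _ _
      rw [h0]
      have h1 : (Rep.leftRegular k G).ρ a (MonoidAlgebra.single b 1 : MonoidAlgebra k G) =
        (MonoidAlgebra.single (a * b) 1 : MonoidAlgebra k G) :=
        Representation.ofMulAction_single a b 1
      have h2 : (Rep.leftRegular k G).ρ a (MonoidAlgebra.single 1 1 : MonoidAlgebra k G) =
        (MonoidAlgebra.single (a * 1) 1 : MonoidAlgebra k G) :=
        Representation.ofMulAction_single a 1 1
      rw [h1, h2, mul_one]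
    rw [e, e, hgt]
    change (MonoidAlgebra.single (g * t) 1 - MonoidAlgebra.single t 1 : MonoidAlgebra k G) -
      (MonoidAlgebra.single g 1 - MonoidAlgebra.single 1 1 : MonoidAlgebra k G) =
      (MonoidAlgebra.single (g * t) 1 - MonoidAlgebra.single g 1 : MonoidAlgebra k G) -
      (MonoidAlgebra.single t 1 - MonoidAlgebra.single 1 1 : MonoidAlgebra k G)
    abel
  let I := kernel (aug k G)
  let ι : I.V →ₗ[k] MonoidAlgebra k G := (kernel.ι (aug k G)).hom.toLinearMap
  have hL : ∀ (g : G) (y : I.V), retb_L χ (ι (I.ρ g y)) = retb_L χ (ι y) := by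
    intro g y
    have e1 : ι (I.ρ g y) = (Rep.leftRegular k G).ρ g (ι y) :=
      Rep.hom_comm_apply (kernel.ι (aug k G)) g y
    have e2 : ((aug k G).hom (ι y) : k) = 0 := retb_aug_ker y
    rw [e1, retb_L_rho, e2, zero_mul, add_zero]
  have hS : ∀ s : Subgroup.zpowers t,
      (retb_L χ ∘ₗ ι) ∘ₗ (MonoidHom.comp I.ρ (Subgroup.zpowers t).subtype) s = retb_L χ ∘ₗ ι := by
    intro s
    ext y
    exact hL s y
  refine ⟨⟨Rep.ofHom ⟨LinearMap.toSpanSingleton k _ (qmk (Subgroup.zpowers t) I u), ?_⟩,
    Rep.ofHom ⟨Representation.Coinvariants.lift (I.ρ.comp (Subgroup.zpowers t).subtype)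
      (retb_L χ ∘ₗ ι) hS, ?_⟩, ?_⟩⟩
  · intro g
    induction g using QuotientGroup.induction_on with
    | H g =>
      ext
      change (1 : k) • qmk (Subgroup.zpowers t) I u =
        ((QF k (Subgroup.zpowers t)).obj I).ρ (QuotientGroup.mk g)
          ((1 : k) • qmk (Subgroup.zpowers t) I u)
      rw [one_smul, QF_rho_qmk]
      exact (hinv g).symm
  · intro g
    induction g using QuotientGroup.induction_on with
    | H g =>
      apply LinearMap.ext
      intro y
      obtain ⟨x, rfl⟩ := qmk_surjective (Subgroup.zpowers t) I y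
      exact hL g x
  · ext
    change Representation.Coinvariants.lift (I.ρ.comp (Subgroup.zpowers t).subtype)
      (retb_L χ ∘ₗ ι) hS ((1 : k) • qmk (Subgroup.zpowers t) I u) = 1
    rw [one_smul]
    change retb_L χ (ι u) = 1
    have e3 : ι u = (MonoidAlgebra.single t 1 - MonoidAlgebra.single 1 1 : MonoidAlgebra k G) := hu
    rw [e3, map_sub, retb_L_single, retb_L_single, hχ, χ.map_one, toAdd_one, toAdd_ofAdd,
      mul_zero, sub_zero, mul_one]

end Pool.Agent.H5.CP
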