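import Pool.Agent.H5.CP.GDef

/-!
ROW Root (180 lines).  THE ROOT TRICK (pure group theory).  `z` central of infinite order in `G`, `G/⟨z⟩` has no element of order `p`.
`G' = (G × Multiplicative ℤ) ⧸ ⟨(z, ofAdd (-p))⟩` (a central cyclic subgroup), `t = [(1, ofAdd 1)]`, `χ [(g, n)] = n mod p`.
 * `t` is central; `t^n = 1` means `(1,n) = (z^a, -pa)`, so `a = 0`, `n = 0`.
 * `χ` is well defined (`-p ↦ 0`), `χ(t) = 1`.
 * no element of order `p`: `[(g,n)]^p = 1` means `g^p = z^a`, `pn = -pa`: `n = -a`.  In `G/⟨z⟩` `ḡ^p = 1` so `ḡ = 1`, `g = z^b`; then `z^{pb} = z^a`, `a = pb`,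
   so `(g,n) = (z^b, -pb)` is trivial in `G'`.
 * `G → ker χ`, `g ↦ [(g,0)]` is an isomorphism: injective since `(g,0) = (z^a,-pa)` gives `a = 0`; onto: `χ[(g,n)] = 0` means `n = pm`, and
   `(g,pm) = (g z^m, 0)(z^{-m}, pm)`.
 * `G' → G/⟨z⟩`, `[(g,n)] ↦ ḡ`, is onto with kernel `⟨t⟩`: `g = z^a` gives `(z^a,n) = (z^a,-pa)(1,n+pa)`.
-/

namespace Pool.Agent.H5.CP

open CategoryTheory CategoryTheory.Abelian CategoryTheory.Limits

/-- the central element -/
def Root_c {G : Type} [Group G] (p : ℕ) (z : G) : G × Multiplicative ℤ :=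
  (z, Multiplicative.ofAdd (-(p : ℤ)))

theorem Root_c_zpow {G : Type} [Group G] (p : ℕ) (z : G) (a : ℤ) :
    Root_c p z ^ a = (z ^ a, Multiplicative.ofAdd (-(p : ℤ) * a)) := by
  unfold Root_c
  rw [Prod.pow_mk]
  congr 1
  rw [← ofAdd_zsmul, smul_eq_mul, mul_comm]

theorem Root_c_center {G : Type} [Group G] (p : ℕ) (z : G) (hc : z ∈ Subgroup.center G) :
    Root_c p z ∈ Subgroup.center (G × Multiplicative ℤ) := by
  rw [Subgroup.mem_center_iff] at hc ⊢
  intro g
  exact Prod.ext (hc g.1) (mul_comm _ _)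

theorem Root_mk {G : Type} [Group G] (p : ℕ) (z : G)
    [(Subgroup.zpowers (Root_c p z)).Normal] (g : G) (n : ℤ) :
    (QuotientGroup.mk (g, Multiplicative.ofAdd n) :
      (G × Multiplicative ℤ) ⧸ Subgroup.zpowers (Root_c p z)) = 1 ↔
      ∃ a : ℤ, z ^ a = g ∧ -(p : ℤ) * a = n := by
  rw [QuotientGroup.eq_one_iff, Subgroup.mem_zpowers_iff]
  constructor
  · rintro ⟨a, ha⟩
    rw [Root_c_zpow] at ha
    have h1 := congrArg Prod.fst ha
    have h2 := congrArg Prod.snd ha
    exact ⟨a, h1, Multiplicative.ofAdd.injective h2⟩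
  · rintro ⟨a, h1, h2⟩
    refine ⟨a, ?_⟩
    rw [Root_c_zpow, h1, h2]

/-- the character on the product -/
def Root_chi0 (p : ℕ) (G : Type) [Group G] : G × Multiplicative ℤ →* Multiplicative (ZMod p) :=
  (AddMonoidHom.toMultiplicative (Int.castAddHom (ZMod p))).comp
    (MonoidHom.snd G (Multiplicative ℤ))

theorem Root_chi0_apply (p : ℕ) (G : Type) [Group G] (g : G) (n : ℤ) :
    Root_chi0 p G (g, Multiplicative.ofAdd n) = Multiplicative.ofAdd (n : ZMod p) := rfl

theorem Root_main {G : Type} [Group G] (p : ℕ) [Fact p.Prime] (z : G)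
    (hc : z ∈ Subgroup.center G) (ht : ∀ n : ℤ, z ^ n = 1 → n = 0)
    [(Subgroup.zpowers z).Normal] (hp : NoP p (G ⧸ Subgroup.zpowers z)) :
    ∃ (G' : Type) (_ : Group G') (χ : G' →* Multiplicative (ZMod p)) (t : G'),
      t ∈ Subgroup.center G' ∧ (∀ n : ℤ, t ^ n = 1 → n = 0) ∧
      χ t = Multiplicative.ofAdd 1 ∧ NoP p G' ∧ Nonempty (χ.ker ≃* G) ∧
      ∀ [(Subgroup.zpowers t).Normal],
        Nonempty ((G ⧸ Subgroup.zpowers z) ≃* (G' ⧸ Subgroup.zpowers t)) := by
  have hp0 : (p : ℤ) ≠ 0 := by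
    exact_mod_cast (Fact.out : p.Prime).ne_zero
  have hN : (Subgroup.zpowers (Root_c p z)).Normal :=
    zpowers_normal _ (Root_c_center p z hc)
  have hker : ∀ x ∈ Subgroup.zpowers (Root_c p z), Root_chi0 p G x = 1 := by
    intro x hx
    rw [Subgroup.mem_zpowers_iff] at hx
    obtain ⟨a, rfl⟩ := hx
    rw [Root_c_zpow, Root_chi0_apply]
    push_cast
    simp
  have hker2 : ∀ x ∈ Subgroup.zpowers (Root_c p z),
      ((QuotientGroup.mk' (Subgroup.zpowers z)).comp (MonoidHom.fst G (Multiplicative ℤ))) x =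
        1 := by
    intro x hx
    rw [Subgroup.mem_zpowers_iff] at hx
    obtain ⟨a, rfl⟩ := hx
    rw [Root_c_zpow]
    simp only [MonoidHom.comp_apply, MonoidHom.coe_fst, QuotientGroup.mk'_apply]
    rw [QuotientGroup.eq_one_iff]
    exact Subgroup.zpow_mem_zpowers z a
  let χ : ((G × Multiplicative ℤ) ⧸ Subgroup.zpowers (Root_c p z)) →* Multiplicative (ZMod p) :=
    QuotientGroup.lift _ (Root_chi0 p G) hker
  let ψ : ((G × Multiplicative ℤ) ⧸ Subgroup.zpowers (Root_c p z)) →* G ⧸ Subgroup.zpowers z :=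
    QuotientGroup.lift _ _ hker2
  let t : (G × Multiplicative ℤ) ⧸ Subgroup.zpowers (Root_c p z) :=
    QuotientGroup.mk (1, Multiplicative.ofAdd (1 : ℤ))
  have htz : ∀ n : ℤ, t ^ n = QuotientGroup.mk (1, Multiplicative.ofAdd n) := by
    intro n
    have h1 : t ^ n = QuotientGroup.mk ((1, Multiplicative.ofAdd (1 : ℤ)) ^ n) :=
      (QuotientGroup.mk_zpow _ _ _).symm
    rw [h1, Prod.pow_mk, one_zpow]
    congr 2
    rw [← ofAdd_zsmul, smul_eq_mul, mul_one]
  have hsurj : ∀ x : (G × Multiplicative ℤ) ⧸ Subgroup.zpowers (Root_c p z),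
      ∃ (g : G) (n : ℤ), x = QuotientGroup.mk (g, Multiplicative.ofAdd n) := by
    intro x
    obtain ⟨y, rfl⟩ := QuotientGroup.mk_surjective x
    exact ⟨y.1, Multiplicative.toAdd y.2, rfl⟩
  have hχ : ∀ (g : G) (n : ℤ), χ (QuotientGroup.mk (g, Multiplicative.ofAdd n)) =
      Multiplicative.ofAdd (n : ZMod p) := fun g n => rfl
  have hψ : ∀ (g : G) (n : ℤ), ψ (QuotientGroup.mk (g, Multiplicative.ofAdd n)) =
      QuotientGroup.mk g := fun g n => rfl
  refine ⟨(G × Multiplicative ℤ) ⧸ Subgroup.zpowers (Root_c p z), inferInstance, χ, t,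
    ?_, ?_, ?_, ?_, ?_, ?_⟩
  · rw [Subgroup.mem_center_iff]
    intro x
    obtain ⟨g, n, rfl⟩ := hsurj x
    change (QuotientGroup.mk _ : _ ⧸ Subgroup.zpowers (Root_c p z)) = QuotientGroup.mk _
    congr 1
    refine Prod.ext ?_ (mul_comm _ _)
    change g * 1 = 1 * g
    rw [mul_one, one_mul]
  · intro n hn
    rw [htz, Root_mk] at hn
    obtain ⟨a, h1, h2⟩ := hn
    rw [ht a h1] at h2
    linarith
  · change χ (QuotientGroup.mk (1, Multiplicative.ofAdd (1 : ℤ))) = _
    rw [hχ]
    simp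
  · intro x hx
    obtain ⟨g, n, rfl⟩ := hsurj x
    have h1 : (QuotientGroup.mk (g ^ p, Multiplicative.ofAdd ((p : ℤ) * n)) :
        (G × Multiplicative ℤ) ⧸ Subgroup.zpowers (Root_c p z)) = 1 := by
      rw [← hx]
      change _ = QuotientGroup.mk ((g, Multiplicative.ofAdd n) ^ p)
      rw [Prod.pow_mk]
      congr 2
    rw [Root_mk] at h1
    obtain ⟨a, ha1, ha2⟩ := h1
    have hn : n = -a := by
      have : (p : ℤ) * n = (p : ℤ) * (-a) := by linarith
      exact mul_left_cancel₀ hp0 this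
    have h2 : (QuotientGroup.mk g : G ⧸ Subgroup.zpowers z) = 1 := by
      apply hp
      rw [← QuotientGroup.mk_pow, QuotientGroup.eq_one_iff, ← ha1]
      exact Subgroup.zpow_mem_zpowers z a
    rw [QuotientGroup.eq_one_iff, Subgroup.mem_zpowers_iff] at h2
    obtain ⟨b, hb⟩ := h2
    have h3 : z ^ (b * p - a) = 1 := by
      rw [zpow_sub, zpow_mul, hb, zpow_natCast, ← ha1, mul_inv_cancel]
    have h4 := ht _ h3
    rw [Root_mk]
    refine ⟨b, hb, ?_⟩
    rw [hn]
    linarith
  · let i0 : G →* (G × Multiplicative ℤ) ⧸ Subgroup.zpowers (Root_c p z) :=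
      (QuotientGroup.mk' _).comp (MonoidHom.inl G (Multiplicative ℤ))
    have hi0 : ∀ g, i0 g = QuotientGroup.mk (g, Multiplicative.ofAdd (0 : ℤ)) := fun g => rfl
    have hmem : ∀ g, i0 g ∈ χ.ker := by
      intro g
      rw [MonoidHom.mem_ker, hi0, hχ]
      simp
    let i1 : G →* χ.ker := i0.codRestrict χ.ker hmem
    have hi1 : ∀ g, ((i1 g : χ.ker) : (G × Multiplicative ℤ) ⧸ Subgroup.zpowers (Root_c p z)) =
        QuotientGroup.mk (g, Multiplicative.ofAdd (0 : ℤ)) := fun g => rfl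
    have hbij : Function.Bijective i1 := by
      constructor
      · rw [injective_iff_map_eq_one]
        intro g hg
        have h1 : (QuotientGroup.mk (g, Multiplicative.ofAdd (0 : ℤ)) :
          (G × Multiplicative ℤ) ⧸ Subgroup.zpowers (Root_c p z)) = 1 := by
          rw [← hi1, hg]
          rfl
        rw [Root_mk] at h1
        obtain ⟨a, ha1, ha2⟩ := h1
        have ha : a = 0 := by
          rcases mul_eq_zero.1 ha2 with h | h
          · exact absurd (neg_eq_zero.1 h) hp0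
          · exact h
        rw [← ha1, ha, zpow_zero]
      · rintro ⟨x, hx⟩
        obtain ⟨g, n, rfl⟩ := hsurj x
        rw [MonoidHom.mem_ker, hχ] at hx
        have h1 : ((n : ℤ) : ZMod p) = 0 := by
          have := congrArg Multiplicative.toAdd hx
          simpa using this
        rw [ZMod.intCast_zmod_eq_zero_iff_dvd] at h1
        obtain ⟨m, hm⟩ := h1
        refine ⟨g * z ^ m, ?_⟩
        apply Subtype.ext
        rw [hi1]
        have h2 : (QuotientGroup.mk (z ^ (-m), Multiplicative.ofAdd ((p : ℤ) * m)) :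
          (G × Multiplicative ℤ) ⧸ Subgroup.zpowers (Root_c p z)) = 1 := by
          rw [Root_mk]
          exact ⟨-m, rfl, by ring⟩
        have h3 : (QuotientGroup.mk (g, Multiplicative.ofAdd n) :
            (G × Multiplicative ℤ) ⧸ Subgroup.zpowers (Root_c p z)) =
            QuotientGroup.mk (g * z ^ m, Multiplicative.ofAdd (0 : ℤ)) *
              QuotientGroup.mk (z ^ (-m), Multiplicative.ofAdd ((p : ℤ) * m)) := by
          rw [← QuotientGroup.mk_mul]
          congr 1
          refine Prod.ext ?_ ?_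
          · change g = g * z ^ m * z ^ (-m)
            rw [mul_assoc, ← zpow_add, add_neg_cancel, zpow_zero, mul_one]
          · change Multiplicative.ofAdd n =
              Multiplicative.ofAdd (0 : ℤ) * Multiplicative.ofAdd ((p : ℤ) * m)
            rw [← ofAdd_add, zero_add, hm]
        change _ = (QuotientGroup.mk (g, Multiplicative.ofAdd n) :
            (G × Multiplicative ℤ) ⧸ Subgroup.zpowers (Root_c p z))
        rw [h3, h2, mul_one]
    exact ⟨(MulEquiv.ofBijective i1 hbij).symm⟩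
  · intro hnt
    have hkerψ : ψ.ker = Subgroup.zpowers t := by
      ext x
      obtain ⟨g, n, rfl⟩ := hsurj x
      rw [MonoidHom.mem_ker, hψ, QuotientGroup.eq_one_iff, Subgroup.mem_zpowers_iff,
        Subgroup.mem_zpowers_iff]
      constructor
      · rintro ⟨a, ha⟩
        refine ⟨n + p * a, ?_⟩
        rw [htz, ← mul_inv_eq_one]
        change (QuotientGroup.mk ((1, Multiplicative.ofAdd (n + p * a)) *
          (g, Multiplicative.ofAdd n)⁻¹) : _ ⧸ Subgroup.zpowers (Root_c p z)) = 1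
        have h1 : ((1 : G), Multiplicative.ofAdd (n + p * a)) *
            (g, Multiplicative.ofAdd n)⁻¹ = (z ^ (-a), Multiplicative.ofAdd ((p : ℤ) * a)) := by
          refine Prod.ext ?_ ?_
          · change 1 * g⁻¹ = z ^ (-a)
            rw [one_mul, zpow_neg, ha]
          · change Multiplicative.ofAdd (n + p * a) * (Multiplicative.ofAdd n)⁻¹ = _
            rw [← ofAdd_neg, ← ofAdd_add]
            congr 1
            ring
        rw [h1, Root_mk]
        exact ⟨-a, rfl, by ring⟩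
      · rintro ⟨a, ha⟩
        rw [htz] at ha
        have h2 := congrArg ψ ha
        rw [hψ, hψ] at h2
        have h3 : (QuotientGroup.mk g : G ⧸ Subgroup.zpowers z) = 1 := h2.symm
        rw [QuotientGroup.eq_one_iff, Subgroup.mem_zpowers_iff] at h3
        exact h3
    have hψs : Function.Surjective ψ := by
      intro y
      obtain ⟨g, rfl⟩ := QuotientGroup.mk_surjective y
      exact ⟨QuotientGroup.mk (g, Multiplicative.ofAdd (0 : ℤ)), rfl⟩
    exact ⟨(QuotientGroup.quotientKerEquivOfSurjective ψ hψs).symm.trans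
      (QuotientGroup.quotientMulEquivOfEq hkerψ)⟩

end Pool.Agent.H5.CP
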