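import Pool.Agent.H5.CP.VDef

/-!
ROW VBot (80 lines).  `k` a field.  The bottom of the filtration: for a surjection `f : P ⟶ M` in `Rep k N` with kernel `K`,
`W(M;B) ≅ V_1 = {F ∈ W(P;B) : F(m) = 0 if some m_j ∈ K}` by `F ↦ F ∘ f^{ZMod p}` (`Wmap D f B`).
Injective since `f` is onto.  Surjective: choose a `k`-linear section `s` of `f` (`LinearMap.exists_rightInverse_of_surjective`);
for `F ∈ V_1` put `F'(m) = F(s m_0, …)`; `F'(f m) = F(s f m) = F(m)`: change the entries one at a time, the difference
`s f x - x` lies in `K` (e.g. by `Finset` induction with `Function.update` / `MultilinearMap.map_update_add`).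
`{j | m j ∈ K}.ncard ≥ 1` iff some `m j ∈ K`.
-/

namespace Pool.Agent.H5.CP

open CategoryTheory CategoryTheory.Abelian CategoryTheory.Limits

theorem VBot_mem {k G : Type} [Field k] [Group G] {p : ℕ} [Fact p.Prime] (D : PData G p)
    (P : Rep.{0} k D.π.ker) (K : Submodule k P.V) (B : Rep.{0} k G)
    (F : MultilinearMap k (fun _ : ZMod p => P.V) B.V) :
    F ∈ V D P K B 1 ↔ ∀ m : ZMod p → P.V, (∃ j, m j ∈ K) → F m = 0 := by
  have : NeZero p := ⟨(Fact.out : p.Prime).ne_zero⟩
  constructor
  · rintro hF m ⟨j, hj⟩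
    refine hF m ?_
    exact (Set.ncard_pos (Set.toFinite _)).2 ⟨j, hj⟩
  · intro hF m hm
    have h1 : {j : ZMod p | m j ∈ K}.Nonempty :=
      Set.nonempty_of_ncard_ne_zero (by omega)
    obtain ⟨j, hj⟩ := h1
    exact hF m ⟨j, hj⟩

theorem VBot_congr {k : Type} [Field k] {p : ℕ} [Fact p.Prime] {A C : Type}
    [AddCommGroup A] [Module k A] [AddCommGroup C] [Module k C] (K : Submodule k A)
    (F : MultilinearMap k (fun _ : ZMod p => A) C)
    (hF : ∀ m : ZMod p → A, (∃ j, m j ∈ K) → F m = 0) (m m' : ZMod p → A)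
    (h : ∀ j, m' j - m j ∈ K) : F m' = F m := by
  classical
  have : NeZero p := ⟨(Fact.out : p.Prime).ne_zero⟩
  have key : ∀ T : Finset (ZMod p), F (T.piecewise m' m) = F m := by
    intro T
    induction T using Finset.induction_on with
    | empty => simp
    | insert j T hj ih =>
      rw [Finset.piecewise_insert]
      have h1 : F (Function.update (T.piecewise m' m) j (m' j)) -
          F (Function.update (T.piecewise m' m) j (m j)) = 0 := by
        rw [← MultilinearMap.map_update_sub]
        exact hF _ ⟨j, by simpa using h j⟩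
      have h2 : Function.update (T.piecewise m' m) j (m j) = T.piecewise m' m := by
        have : m j = (T.piecewise m' m) j := by simp [hj]
        rw [this, Function.update_eq_self]
      rw [h2, ih] at h1
      exact sub_eq_zero.1 h1
  have := key Finset.univ
  rwa [Finset.piecewise_univ] at this

theorem VBot_main {k G : Type} [Field k] [Group G] {p : ℕ} [Fact p.Prime] (D : PData G p)
    (P M : Rep.{0} k D.π.ker) (f : P ⟶ M) (hf : Function.Surjective f.hom)
    (K : Submodule k P.V) (hKf : ∀ x, x ∈ K ↔ f.hom x = 0) (hK : ∀ n, K ≤ K.comap (P.ρ n))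
    (B : Rep.{0} k G) :
    Nonempty (W D M B ≅ (W D P B).subrepresentation (V D P K B 1) (V_stable D P K hK B 1)) := by
  have hmem : ∀ F : MultilinearMap k (fun _ : ZMod p => M.V) B.V,
      ((F.compLinearMap (fun _ => (f.hom.toLinearMap : P.V →ₗ[k] M.V)) :
        MultilinearMap k (fun _ : ZMod p => P.V) B.V)) ∈ V D P K B 1 := by
    intro F
    rw [VBot_mem]
    rintro m ⟨j, hj⟩
    rw [MultilinearMap.compLinearMap_apply]
    exact F.map_coord_zero j ((hKf _).1 hj)
  let φ : W D M B ⟶ (W D P B).subrepresentation (V D P K B 1) (V_stable D P K hK B 1) :=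
    Rep.ofHom ⟨LinearMap.codRestrict (V D P K B 1) ((Wmap D f B).hom.toLinearMap) hmem, by
      intro g
      ext F : 1
      refine Subtype.ext ?_
      exact Rep.hom_comm_apply (Wmap D f B) g F⟩
  have hφ : ∀ (F : MultilinearMap k (fun _ : ZMod p => M.V) B.V),
      Subtype.val (p := fun x => x ∈ V D P K B 1) (φ.hom F) =
        F.compLinearMap (fun _ => (f.hom.toLinearMap : P.V →ₗ[k] M.V)) := fun F => rfl
  have hinj : Function.Injective φ.hom := by
    intro F F' hFF
    have h1 : (F : MultilinearMap k (fun _ : ZMod p => M.V) B.V).compLinearMap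
        (fun _ => (f.hom.toLinearMap : P.V →ₗ[k] M.V)) =
        (F' : MultilinearMap k (fun _ : ZMod p => M.V) B.V).compLinearMap
        (fun _ => (f.hom.toLinearMap : P.V →ₗ[k] M.V)) := congrArg Subtype.val hFF
    refine MultilinearMap.ext fun m => ?_
    choose m' hm' using fun j => hf (m j)
    have h2 := congrArg (fun T : MultilinearMap k (fun _ : ZMod p => P.V) B.V => T m') h1
    simp only [MultilinearMap.compLinearMap_apply] at h2
    have h3 : (fun j => (f.hom.toLinearMap : P.V →ₗ[k] M.V) (m' j)) = m := funext hm'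
    rwa [h3] at h2
  have key : ∀ F : MultilinearMap k (fun _ : ZMod p => P.V) B.V, F ∈ V D P K B 1 →
      ∃ F' : MultilinearMap k (fun _ : ZMod p => M.V) B.V,
        F'.compLinearMap (fun _ => (f.hom.toLinearMap : P.V →ₗ[k] M.V)) = F := by
    intro F hF
    rw [VBot_mem] at hF
    obtain ⟨s, hs⟩ := (f.hom.toLinearMap : P.V →ₗ[k] M.V).exists_rightInverse_of_surjective
      (LinearMap.range_eq_top.2 hf)
    have hs' : ∀ x : M.V, f.hom (s x) = x := fun x =>
      congrArg (fun T : M.V →ₗ[k] M.V => T x) hs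
    refine ⟨F.compLinearMap (fun _ => s), ?_⟩
    refine MultilinearMap.ext fun m => ?_
    rw [MultilinearMap.compLinearMap_apply, MultilinearMap.compLinearMap_apply]
    refine VBot_congr K F hF _ _ fun j => ?_
    rw [hKf]
    change f.hom (s (f.hom (m j)) - m j) = 0
    rw [map_sub, hs', sub_self]
  have hsurj : Function.Surjective φ.hom := by
    rintro ⟨F, hF⟩
    obtain ⟨F', hF'⟩ := key F hF
    exact ⟨F', Subtype.ext ((hφ F').trans hF')⟩
  have : Mono φ := (Rep.mono_iff_injective _).2 hinj
  have : Epi φ := (Rep.epi_iff_surjective _).2 hsurj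
  have : IsIso φ := isIso_of_mono_of_epi φ
  exact ⟨asIso φ⟩

end Pool.Agent.H5.CP
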