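import Pool.Agent.H5.CP.VDef
import Pool.Agent.H5.CP.LesA

/-!
ROW VTop (100 lines).  `k` a field.  The top of the filtration.
`0 → V_p → W(P;B) → W(K;B) → 0` is exact, where the second map is the restriction of multilinear maps to `K`
(`Wmap D ι B`, `ι : P.subrepresentation K hK ⟶ P` the inclusion `Rep.subtype`), its kernel is `V_p`
(all `p` entries in `K`: `{j | m j ∈ K}.ncard ≥ p` iff all `m j ∈ K`, `Nat.card (ZMod p) = p`), and it is onto: compose a
multilinear map on `K` with a `k`-linear projection `P → K` (`k` a field).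
Then `LesA_1`.
-/

namespace Pool.Agent.H5.CP

open CategoryTheory CategoryTheory.Abelian CategoryTheory.Limits

theorem VTop_shortExact {k G : Type} [CommRing k] [Group G] (S : ShortComplex (Rep.{0} k G))
    (hf : Function.Injective S.f.hom) (hg : Function.Surjective S.g.hom)
    (h : ∀ x₂ : S.X₂.V, S.g.hom x₂ = 0 → ∃ x₁ : S.X₁.V, S.f.hom x₁ = x₂) : S.ShortExact where
  exact := by
    rw [← ShortComplex.exact_map_iff_of_faithful S (forget₂ (Rep.{0} k G) (ModuleCat.{0} k)),
      ShortComplex.moduleCat_exact_iff]
    exact h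
  mono_f := (Rep.mono_iff_injective _).2 hf
  epi_g := (Rep.epi_iff_surjective _).2 hg

theorem VTop_mem {k G : Type} [Field k] [Group G] {p : ℕ} [Fact p.Prime] (D : PData G p)
    (P : Rep.{0} k D.π.ker) (K : Submodule k P.V) (B : Rep.{0} k G)
    (F : MultilinearMap k (fun _ : ZMod p => P.V) B.V) :
    F ∈ V D P K B p ↔ ∀ m : ZMod p → K, F (fun j => (m j).1) = 0 := by
  have hp : Nat.card (ZMod p) = p := Nat.card_zmod p
  have : NeZero p := ⟨(Fact.out : p.Prime).ne_zero⟩
  constructor
  · intro hF m
    refine hF _ ?_
    have : {j : ZMod p | (m j).1 ∈ K} = Set.univ := Set.eq_univ_of_forall fun j => (m j).2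
    rw [this, Set.ncard_univ, hp]
  · intro hF m hm
    have h1 : {j : ZMod p | m j ∈ K} = Set.univ := by
      refine Set.eq_of_subset_of_ncard_le (Set.subset_univ _) ?_ (Set.toFinite _)
      rw [Set.ncard_univ, hp]
      exact hm
    have h2 : ∀ j, m j ∈ K := fun j => by
      have : j ∈ {j : ZMod p | m j ∈ K} := by rw [h1]; trivial
      exact this
    exact hF (fun j => ⟨m j, h2 j⟩)

theorem VTop_main {k G : Type} [Field k] [Group G] {p : ℕ} [Fact p.Prime] (D : PData G p)
    (P : Rep.{0} k D.π.ker) (K : Submodule k P.V) (hK : ∀ n, K ≤ K.comap (P.ρ n))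
    (B : Rep.{0} k G) (j : ℕ)
    (h3 : IsZero (groupCohomology (W D (P.subrepresentation K hK) B) j))
    (h2 : IsZero (groupCohomology (W D P B) (j + 1))) :
    IsZero (groupCohomology ((W D P B).subrepresentation (V D P K B p)
      (V_stable D P K hK B p)) (j + 1)) := by
  let S : ShortComplex (Rep.{0} k G) :=
    { X₁ := (W D P B).subrepresentation (V D P K B p) (V_stable D P K hK B p)
      X₂ := W D P B
      X₃ := W D (P.subrepresentation K hK) B
      f := Rep.subtype _ _ _
      g := Wmap D (Rep.subtype P K hK) B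
      zero := by
        refine Rep.hom_ext ?_
        ext x
        refine MultilinearMap.ext fun m => ?_
        exact (VTop_mem D P K B x.1).1 x.2 m }
  have hS : S.ShortExact := by
    refine VTop_shortExact S ?_ ?_ ?_
    · intro x y hxy
      exact Subtype.ext hxy
    · intro F'
      obtain ⟨r, hr⟩ := K.subtype.exists_leftInverse_of_injective
        (LinearMap.ker_eq_bot.2 Subtype.val_injective)
      have hr' : ∀ x : K, r x.1 = x := fun x => by
        have := congrArg (fun T : K →ₗ[k] K => T x) hr
        simpa using this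
      have key : ∀ F'' : MultilinearMap k (fun _ : ZMod p => K) B.V,
          ∃ F : MultilinearMap k (fun _ : ZMod p => P.V) B.V,
            ∀ m : ZMod p → K, F (fun j => (m j).1) = F'' m := by
        intro F''
        refine ⟨F''.compLinearMap (fun _ => r), fun m => ?_⟩
        rw [MultilinearMap.compLinearMap_apply]
        congr 1
        funext j
        exact hr' (m j)
      obtain ⟨F, hF⟩ := key F'
      exact ⟨F, MultilinearMap.ext hF⟩
    · intro F hF
      refine ⟨⟨F, (VTop_mem D P K B F).2 fun m => ?_⟩, rfl⟩
      have := congrArg (fun F' : MultilinearMap k (fun _ : ZMod p => K) B.V => F' m) hF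
      exact this
  exact LesA_1 hS j h3 h2

end Pool.Agent.H5.CP
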