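import Pool.Agent.H5.CP.VHig
import Pool.Agent.H5.CP.VTop
import Pool.Agent.H5.CP.VBot
import Pool.Agent.H5.CP.SQe

/-!
ROW SerA (60 lines).  One step: `f : P ⟶ M` onto with kernel `K`, `W(P;-)` acyclic in positive degrees, `N`-cohomology vanishes in
degrees `≥ n`, `H^j(G;W(K;B)) = 0` for `j ≥ b`, with `n ≤ b`.  Then `H^j(G;W(M;B)) = 0` for `j ≥ b + 1`.
For `j + 1 ≥ b + 1`: `V_p` has `H^{j+1} = 0` (`VTop_main`, `h3` from `hK'`, `h2` from `hP`).  Then for `i = p-1, …, 1`: the short exact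
sequence `SQ (W D P B) V_i V_{i+1}` (`SQe_main`), `H^j(V_{i+1}/V_i) = 0` (`VHig_main`, `j ≥ n`), `LesA_1` give `H^{j+1}(V_i) = 0`.
Downward induction (`Nat.decreasingInduction` or induction on `p - i`).  Finally `V_1 ≅ W(M;B)` (`VBot_main`, `LesA_iso`).
-/

namespace Pool.Agent.H5.CP

open CategoryTheory CategoryTheory.Abelian CategoryTheory.Limits

theorem SerA_main {k G : Type} [Field k] [Group G] {p : ℕ} [Fact p.Prime] (D : PData G p)
    (P M : Rep.{0} k D.π.ker) (f : P ⟶ M) (hf : Function.Surjective f.hom)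
    (K : Submodule k P.V) (hKf : ∀ x, x ∈ K ↔ f.hom x = 0) (hK : ∀ n, K ≤ K.comap (P.ρ n))
    (hP : ∀ (B : Rep.{0} k G) (j : ℕ), IsZero (groupCohomology (W D P B) (j + 1)))
    (n b : ℕ) (hnb : n ≤ b) (hN : CD k D.π.ker n)
    (hK' : ∀ (B : Rep.{0} k G) (j : ℕ), b ≤ j →
      IsZero (groupCohomology (W D (P.subrepresentation K hK) B) j))
    (B : Rep.{0} k G) (j : ℕ) (hj : b + 1 ≤ j) : IsZero (groupCohomology (W D M B) j) := by
  obtain ⟨j', rfl⟩ : ∃ j', j = j' + 1 := ⟨j - 1, by omega⟩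
  have hj' : b ≤ j' := by omega
  have key : ∀ (d i : ℕ), 1 ≤ i → i + d = p →
      IsZero (groupCohomology ((W D P B).subrepresentation (V D P K B i)
        (V_stable D P K hK B i)) (j' + 1)) := by
    intro d
    induction d with
    | zero =>
      intro i _ hi
      rw [add_zero] at hi
      subst hi
      exact VTop_main D P K hK B j' (hK' B j' hj') (hP B j')
    | succ d ih =>
      intro i hi1 hi
      have h2 := ih (i + 1) (by omega) (by omega)
      have h3 := VHig_main D P K hK B i hi1 (by omega) j' (fun A' => hN A' j' (hnb.trans hj'))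
      exact LesA_1 (SQe_main (W D P B) (V D P K B i) (V D P K B (i + 1))
        (V_stable D P K hK B i) (V_stable D P K hK B (i + 1))
        (V_mono D P K B (Nat.le_succ i))) j' h3 h2
  have hp : 1 ≤ p := (Fact.out : p.Prime).one_lt.le
  exact LesA_iso (VBot_main D P M f hf K hKf hK B) (j' + 1) (key (p - 1) 1 le_rfl (by omega))

end Pool.Agent.H5.CP
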