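import Pool.Agent.H5.CP.WFree
import Pool.Agent.H5.CP.LesA

/-!
ROW WProj (40 lines).  The same for projective `M`: `M` is a retract of a free module (the epimorphism
`Rep.freeLift k G (id : M → M) : Rep.free k N M.V ⟶ M` splits), `W` is a functor (`Wmap`, `Wmap_id`, `Wmap_comp` in
WDef), so `W D M B` is a retract of `W D (free) B`; use `LesA_ret`.
-/

namespace Pool.Agent.H5.CP

open CategoryTheory CategoryTheory.Abelian CategoryTheory.Limits

theorem WProj_main {k G : Type} [CommRing k] [Group G] {p : ℕ} [Fact p.Prime] (D : PData G p)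
    (hG : ∀ g : G, g ^ p = 1 → g = 1) (M : Rep.{0} k D.π.ker) [Projective M] (B : Rep.{0} k G)
    (j : ℕ) : IsZero (groupCohomology (W D M B) (j + 1)) := by
  let f : Rep.free k D.π.ker M.V ⟶ M := Rep.freeLift k D.π.ker (A := M) (fun x : M.V => x)
  haveI : Epi f := by
    rw [Rep.epi_iff_surjective]
    intro x
    refine ⟨Finsupp.single x (MonoidAlgebra.single 1 1), ?_⟩
    change Representation.freeLift M.ρ (fun x : M.V => x) _ = x
    rw [Representation.freeLift_single_single]
    simp
  let s : M ⟶ Rep.free k D.π.ker M.V := Projective.factorThru (𝟙 M) f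
  have hs : s ≫ f = 𝟙 M := Projective.factorThru_comp _ _
  let r : Retract (W D M B) (W D (Rep.free k D.π.ker M.V) B) :=
    { i := Wmap D f B
      r := Wmap D s B
      retract := by rw [← Wmap_comp, hs, Wmap_id] }
  exact LesA_ret r (j + 1) (WFree_main D hG M.V B j)

end Pool.Agent.H5.CP
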