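import Pool.Agent.H5.CP.WDef

/-!
ROW WTriv (40 lines).  `W(k;B) ≅ B` for the trivial module `M = k`: `F ↦ F(1,…,1)`.  Equivariance:
`(g F)(1,…,1) = g F(g⁻¹(1,…,1)) = g F(1,…,1)` because `N` acts trivially on `k` (`tact D M g 1 = 1`).
Bijective: `F(m) = (Π m_i) F(1,…,1)`; inverse `b ↦ (m ↦ (Π_i m_i) • b)` (`MultilinearMap.mkPiRing`/`mkPiAlgebra`).
-/

namespace Pool.Agent.H5.CP

open CategoryTheory CategoryTheory.Abelian CategoryTheory.Limits

theorem WTriv_main {k G : Type} [CommRing k] [Group G] {p : ℕ} [Fact p.Prime] (D : PData G p)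
    (B : Rep.{0} k G) : Nonempty (W D (Rep.trivial k D.π.ker k) B ≅ B) := by
  refine ⟨Rep.mkIso (Representation.Equiv.mk
    (MultilinearMap.piRingEquiv (R := k) (ι := ZMod p) (M₂ := B.V)).symm ?_)⟩
  intro g
  ext F
  change (Wρ D (Rep.trivial k D.π.ker k) B g F) (fun _ => (1 : k)) = B.ρ g (F (fun _ => (1 : k)))
  rw [Wρ_apply]
  rfl

end Pool.Agent.H5.CP
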