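import Pool.Agent.H5.CP.SerA
import Pool.Agent.H5.CP.WProj
import Pool.Agent.H5.CP.WTriv
import Pool.Agent.H5.CP.ExB

/-!
ROW SerB (80 lines).  Serre's theorem for an extension of index `p`.  `k` a field, `G` has no element of order `p`.
Claim: for all `m` and all `M : Rep k N` with `HasProjectiveDimensionLT M (m+1)`: for all `B` and `j ≥ n + m + 1`,
`H^j(G;W(M;B)) = 0`, where `CD k N n`.  Induction on `m`.  `m = 0`: `M` is projective, `WProj_main` (j ≥ 1).
Step: take `P = Rep.free k N M.V → M` (`Rep.freeLift`, onto, projective), `K` its kernel (a submodule); the sequence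
`0 → P.subrepresentation K → P → M → 0` is short exact, so `HasProjectiveDimensionLT (P.subrepresentation K _) (m+1)`
(`ShortExact.hasProjectiveDimensionLT_X₁`); induction and `SerA_main` with `b = n + m + 1`, `hP = WProj_main`.
Apply the claim to `M = Rep.trivial k N k`: `CD k N n` gives `HasProjectiveDimensionLT M n` (`ExB_pd`), hence `LT (n+1)`;
`W(k;B) ≅ B` (`WTriv_main`).  So `CD k G (2n+1)`.
-/

set_option autoImplicit false

namespace Pool.Agent.H5.CP

open CategoryTheory CategoryTheory.Abelian CategoryTheory.Limits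

theorem SerB_claim {k G : Type} [Field k] [Group G] {p : ℕ} [Fact p.Prime] (D : PData G p)
    (hG : ∀ g : G, g ^ p = 1 → g = 1) (n : ℕ) (hN : CD k D.π.ker n) (m : ℕ) :
    ∀ (M : Rep.{0} k D.π.ker), HasProjectiveDimensionLT M (m + 1) →
      ∀ (B : Rep.{0} k G) (j : ℕ), n + m + 1 ≤ j → IsZero (groupCohomology (W D M B) j) := by
  induction m with
  | zero =>
    intro M hM B j hj
    have hP : Projective M := projective_iff_hasProjectiveDimensionLT_one.mpr hM
    obtain ⟨i, rfl⟩ : ∃ i, j = i + 1 := ⟨j - 1, by omega⟩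
    exact WProj_main D hG M B i
  | succ m ih =>
    intro M hM B j hj
    let P : Rep.{0} k D.π.ker := Rep.free k D.π.ker M.V
    let f : P ⟶ M := Rep.freeLift k D.π.ker (A := M) id
    have hf : Function.Surjective f.hom := by
      intro x
      refine ⟨Finsupp.single x (.single 1 1), ?_⟩
      have := Representation.freeLift_single_single (σ := M.ρ) (f := (id : M.V → M.V)) x 1 1
      rw [one_smul, map_one] at this
      exact this
    let K : Submodule k P.V := LinearMap.ker f.hom.toLinearMap
    have hKf : ∀ x, x ∈ K ↔ f.hom x = 0 := fun x => LinearMap.mem_ker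
    have hK : ∀ g, K ≤ K.comap (P.ρ g) := by
      intro g x hx
      rw [Submodule.mem_comap, hKf, Rep.hom_comm_apply, (hKf x).mp hx, map_zero]
    let S : ShortComplex (Rep.{0} k D.π.ker) :=
      { X₁ := P.subrepresentation K hK
        X₂ := P
        X₃ := M
        f := P.subtype K hK
        g := f
        zero := by
          ext x
          exact (hKf x.1).mp x.2 }
    have hS : S.ShortExact :=
      { exact := (forget₂ (Rep.{0} k D.π.ker) (ModuleCat k)).reflects_exact_of_faithful _ <|
          (ShortComplex.moduleCat_exact_iff _).2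
          fun x hx => ⟨(⟨x, (hKf x).mpr hx⟩ : K), rfl⟩
        mono_f := (Rep.mono_iff_injective _).2 fun _ _ h => Subtype.ext h
        epi_g := (Rep.epi_iff_surjective _).2 hf }
    have hPp : Projective P := inferInstanceAs (Projective (Rep.free k D.π.ker M.V))
    have h2 : HasProjectiveDimensionLT S.X₂ (m + 1) := by
      have : HasProjectiveDimensionLT P 1 := projective_iff_hasProjectiveDimensionLT_one.mp hPp
      exact hasProjectiveDimensionLT_of_ge P 1 (m + 1) (by omega)
    have h1 : HasProjectiveDimensionLT S.X₁ (m + 1) :=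
      hS.hasProjectiveDimensionLT_X₁ (m + 1) h2 hM
    exact SerA_main D P M f hf K hKf hK (fun B j => WProj_main D hG P B j) n (n + m + 1) (by omega)
      hN (fun B j hj => ih _ h1 B j hj) B j (by omega)

theorem SerB_main {k G : Type} [Field k] [Group G] {p : ℕ} [Fact p.Prime] (D : PData G p)
    (hG : ∀ g : G, g ^ p = 1 → g = 1) (h : CDfin k D.π.ker) : CDfin k G := by
  obtain ⟨n, hn⟩ := h
  have h1 : HasProjectiveDimensionLT (Rep.trivial k D.π.ker k) n := (ExB_pd n).mp hn
  have h2 : HasProjectiveDimensionLT (Rep.trivial k D.π.ker k) (n + 1) :=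
    hasProjectiveDimensionLT_of_ge _ n (n + 1) (by omega)
  refine ⟨n + n + 1, fun B j hj => ?_⟩
  have h3 := SerB_claim D hG n hn n _ h2 B j hj
  obtain ⟨e⟩ := WTriv_main D B
  exact LesA_iso ⟨e.symm⟩ j h3

end Pool.Agent.H5.CP
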