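import Pool.Agent.H5.CP.SerB
import Pool.Agent.H5.CP.CocC

/-!
ROW SerC (80 lines).  Serre's theorem for a finite `p`-group quotient.  Strong induction on `Nat.card (G ⧸ N)` (for all G).
If the quotient is trivial, `N = ⊤ ≅ G` (`CocC_CD`).  Otherwise `G ⧸ N` is a non-trivial finite `p`-group, so it has a
surjection onto `Multiplicative (ZMod p)` (a subgroup of index `p` exists and is normal: `Sylow.exists_subgroup_card_pow_prime`,
`Subgroup.normal_of_index_eq_minFac_card`, quotient of order `p` is cyclic, isomorphic to `Multiplicative (ZMod p)`; or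
`IsPGroup` nilpotent quotient).  Composite `π : G → Multiplicative (ZMod p)` onto, `N ≤ ker π`; choose a section `σ`, this
is a `PData G p`.  In `ker π` the subgroup `N.subgroupOf (ker π)` is normal, with quotient a p-group of smaller order
(embeds in G/N as a proper subgroup); `ker π` has no element of order p.  By induction `CDfin k (ker π)`
(`N.subgroupOf (ker π) ≃* N`, `Subgroup.subgroupOfEquivOfLe`, `CocC_CD`), then `SerB_main`.
-/

namespace Pool.Agent.H5.CP

open CategoryTheory CategoryTheory.Abelian CategoryTheory.Limits

theorem SerC_surj {p : ℕ} [Fact p.Prime] {Q : Type} [Group Q] [Finite Q] [Nontrivial Q]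
    (hQ : IsPGroup p Q) : ∃ φ : Q →* Multiplicative (ZMod p), Function.Surjective φ := by
  have hp : p.Prime := Fact.out
  obtain ⟨n, hn, hcard⟩ := hQ.nontrivial_iff_card.mp inferInstance
  obtain ⟨m, rfl⟩ : ∃ m, n = m + 1 := ⟨n - 1, by omega⟩
  obtain ⟨H, hH⟩ := Sylow.exists_subgroup_card_pow_prime (G := Q) p (n := m)
    (by rw [hcard]; exact pow_dvd_pow p (Nat.le_succ m))
  have hidx : H.index = p := by
    have h1 := H.card_mul_index
    rw [hH, hcard, pow_succ] at h1
    exact Nat.eq_of_mul_eq_mul_left (pow_pos hp.pos m) h1
  have hnorm : H.Normal := by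
    apply Subgroup.normal_of_index_eq_minFac_card
    rw [hidx, hcard, Nat.Prime.pow_minFac hp (Nat.succ_ne_zero m)]
  have hc1 : Nat.card (Q ⧸ H) = p := hidx
  have hc2 : Nat.card (Multiplicative (ZMod p)) = p := by
    rw [Nat.card_congr Multiplicative.toAdd, Nat.card_zmod]
  let e : (Q ⧸ H) ≃* Multiplicative (ZMod p) := mulEquivOfPrimeCardEq hc1 hc2
  exact ⟨e.toMonoidHom.comp (QuotientGroup.mk' H),
    e.surjective.comp (QuotientGroup.mk'_surjective H)⟩

theorem SerC_aux {k : Type} [Field k] {p : ℕ} [Fact p.Prime] (c : ℕ) :
    ∀ (G : Type) [Group G] (N : Subgroup G) [N.Normal] [Finite (G ⧸ N)],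
      Nat.card (G ⧸ N) = c → IsPGroup p (G ⧸ N) →
      (∀ g : G, g ^ p = 1 → g = 1) → CDfin k N → CDfin k G := by
  induction c using Nat.strong_induction_on with
  | _ c ih =>
    intro G _ N _ _ hc hp hG h
    rcases subsingleton_or_nontrivial (G ⧸ N) with hs | hs
    · have hN : N = ⊤ := by
        rw [eq_top_iff]
        intro g _
        rw [← QuotientGroup.eq_one_iff]
        exact Subsingleton.elim _ _
      subst hN
      obtain ⟨n, hn⟩ := h
      exact ⟨n + 1, CocC_CD (Subgroup.topEquiv (G := G)).symm n hn⟩
    · obtain ⟨φ, hφ⟩ := SerC_surj hp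
      have hpi : Function.Surjective (φ.comp (QuotientGroup.mk' N)) :=
        hφ.comp (QuotientGroup.mk'_surjective N)
      choose s hs' using hpi
      let D : PData G p :=
        { π := φ.comp (QuotientGroup.mk' N)
          σ := fun x => s (Multiplicative.ofAdd x)
          hσ := fun x => hs' _ }
      have hNK : N ≤ D.π.ker := by
        intro g hg
        rw [MonoidHom.mem_ker]
        change φ (QuotientGroup.mk' N g) = 1
        rw [QuotientGroup.mk'_apply, (QuotientGroup.eq_one_iff g).mpr hg, map_one]
      let K : Subgroup G := D.π.ker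
      let ι : (K ⧸ N.subgroupOf K) →* (G ⧸ N) :=
        QuotientGroup.map (N.subgroupOf K) N K.subtype (by
          intro x hx
          exact hx)
      have hι : Function.Injective ι := by
        rw [injective_iff_map_eq_one]
        intro x
        induction x using QuotientGroup.induction_on with
        | H z =>
          intro hz
          have h1 : ι (z : K ⧸ N.subgroupOf K) = ((z : G) : G ⧸ N) := rfl
          rw [h1, QuotientGroup.eq_one_iff] at hz
          rw [QuotientGroup.eq_one_iff]
          exact hz
      have hφι : ∀ x, φ (ι x) = 1 := by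
        intro x
        induction x using QuotientGroup.induction_on with
        | H z => exact z.2
      have hns : ¬ Function.Surjective ι := by
        intro hsur
        have hall : ∀ y : Multiplicative (ZMod p), y = 1 := by
          intro y
          obtain ⟨q, rfl⟩ := hφ y
          obtain ⟨x, rfl⟩ := hsur q
          exact hφι x
        have : (Multiplicative.ofAdd (1 : ZMod p)) = 1 := hall _
        have h2 : (1 : ZMod p) = 0 := Multiplicative.ofAdd.injective this
        exact one_ne_zero h2
      haveI : Finite (K ⧸ N.subgroupOf K) := Finite.of_injective ι hι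
      have hlt : Nat.card (K ⧸ N.subgroupOf K) < c := by
        rw [← hc]
        haveI := Fintype.ofFinite (K ⧸ N.subgroupOf K)
        haveI := Fintype.ofFinite (G ⧸ N)
        rw [Nat.card_eq_fintype_card, Nat.card_eq_fintype_card]
        exact Fintype.card_lt_of_injective_not_surjective ι hι hns
      have hGK : ∀ g : K, g ^ p = 1 → g = 1 := by
        intro g hg
        apply Subtype.ext
        apply hG
        have := congrArg (Subtype.val) hg
        simpa using this
      have hNN : CDfin k (N.subgroupOf K) := by
        obtain ⟨n, hn⟩ := h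
        exact ⟨n + 1, CocC_CD (Subgroup.subgroupOfEquivOfLe hNK) n hn⟩
      have hK : CDfin k K :=
        ih _ hlt K (N.subgroupOf K) rfl (hp.of_injective ι hι) hGK hNN
      exact SerB_main D hG hK

theorem SerC_main {k : Type} [Field k] {p : ℕ} [Fact p.Prime] (G : Type) [Group G]
    (N : Subgroup G) [N.Normal] [Finite (G ⧸ N)] (hp : IsPGroup p (G ⧸ N))
    (hG : ∀ g : G, g ^ p = 1 → g = 1) (h : CDfin k N) : CDfin k G :=
  SerC_aux (Nat.card (G ⧸ N)) G N rfl hp hG h

end Pool.Agent.H5.CP
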