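import Pool.Agent.H5.CP.Root
import Pool.Agent.H5.CP.SerB
import Pool.Agent.H5.CP.ROne
import Pool.Agent.H5.CP.CocC

/-!
ROW StepP (60 lines).  One step of Theorem 1 (ii) => (i): `z` central of infinite order, `G/⟨z⟩` without element of order `p`, `CDfin (ZMod p) G` implies `CDfin (ZMod p) (G/⟨z⟩)`.
Take `G'`, `χ`, `t` from `Root_main`.  `PData G' p` with `π = χ`, `σ c = t ^ (c.val)`.  `CDfin (ZMod p) χ.ker` by `CocC_CD`, so `CDfin (ZMod p) G'` by
`SerB_main`, `CDfin (ZMod p) (G'/⟨t⟩)` by `ROne_fin` (`zpowers_normal`), and `CocC_CD`.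
-/

namespace Pool.Agent.H5.CP

open CategoryTheory CategoryTheory.Abelian CategoryTheory.Limits

theorem StepP_main {G : Type} [Group G] (p : ℕ) [Fact p.Prime] (z : G)
    (hc : z ∈ Subgroup.center G) (ht : ∀ n : ℤ, z ^ n = 1 → n = 0)
    [(Subgroup.zpowers z).Normal] (hp : NoP p (G ⧸ Subgroup.zpowers z))
    (h : CDfin (ZMod p) G) : CDfin (ZMod p) (G ⧸ Subgroup.zpowers z) := by
  obtain ⟨G', iG, χ, t, htc, ht0, hχ, hnp, ⟨e⟩, he⟩ := Root_main p z hc ht hp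
  haveI := zpowers_normal t htc
  obtain ⟨e2⟩ := he
  obtain ⟨n, hn⟩ := h
  have hker : CDfin (ZMod p) χ.ker := ⟨n + 1, CocC_CD e n hn⟩
  let D : PData G' p :=
    { π := χ
      σ := fun c => t ^ (c.val)
      hσ := fun c => by
        rw [map_pow, hχ, ← ofAdd_nsmul]
        congr 1
        rw [nsmul_eq_mul, mul_one, ZMod.natCast_zmod_val] }
  have hG' : CDfin (ZMod p) G' := SerB_main D hnp hker
  obtain ⟨m, hm⟩ := ROne_fin t htc ht0 χ hχ hG'
  exact ⟨m + 1, CocC_CD e2 m hm⟩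

end Pool.Agent.H5.CP
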