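import Pool.Agent.H5.CP.GDef
import Pool.Agent.H5.CP.LesA

/-!
ROW SubC (40 lines).  `CD k G n` implies `CD k S n` for every subgroup `S` (`LesA_coind`: cohomology of `S` with coefficients `A` is that of `G` with coefficients the coinduced module).
-/

namespace Pool.Agent.H5.CP

open CategoryTheory CategoryTheory.Abelian CategoryTheory.Limits

theorem SubC_main {k G : Type} [CommRing k] [Group G] (n : ℕ) (h : CD k G n)
    (S : Subgroup G) : CD k S n := by
  intro A j hj
  exact (LesA_coind S A j).1 (h _ j hj)

end Pool.Agent.H5.CP
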