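import Pool.Agent.H5.CP.Defs

/-!
ROW SyzA (200 lines).  Commutativity of `Ext²(X,X)` from a criterion on a projective resolution.  `X₁ = ker ε`, `X₂ = ker d₁`, `X₃ = ker d₂`, `X₄ = ker d₃` and `P_i → X_i` onto (i = 1,..,4); short exact sequences `0 → X_{i+1} → P_i → X_i → 0` with classes `δ_i ∈ Ext¹(X_i, X_{i+1})` (`X₀ = X`).
(1) every `x ∈ Ext²(X,X)` is `δ₀.comp (δ₁.comp (mk₀ f̄))` with `f̄ : X₂ → X` (`P₀`, `P₁` projective).  Put `f = (P₂ → X₂) ≫ f̄`; `d₃ ≫ f = 0`.  Similarly `y`, `ḡ`, `g`.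
(2) from `l₀ ≫ ε = f` and `d₃ ≫ l₀ = l₁ ≫ d₁`: morphism of short exact sequences `(X₃ → P₂ → X₂) → (X₁ → P₀ → X)` with components `l̄ : X₃ → X₁`, `l₀`, `f̄`; `extClass_naturality`: `(mk₀ f̄).comp δ₀ = δ₂.comp (mk₀ l̄)`.
 Next `(X₄ → P₃ → X₃) → (X₂ → P₁ → X₁)` with components `l̄' : X₄ → X₂`, `l₁`, `l̄`: `(mk₀ l̄).comp δ₁ = δ₃.comp (mk₀ l̄')`, and `(P₄ → X₄) ≫ l̄' = l₂ ≫ (P₂ → X₂)` (compare after the mono `X₂ → P₁`).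
 So `x.comp y = ω.comp (mk₀ h)`, `ω = δ₀δ₁δ₂δ₃`, `h = l̄' ≫ ḡ : X₄ → X`, `(P₄ → X₄) ≫ h = l₂ ≫ g`.
(3) similarly `y.comp x = ω.comp (mk₀ h')` with `(P₄ → X₄) ≫ h' = m₂ ≫ f`.  By hypothesis `h - h' = (X₄ → P₃) ≫ u` (compare after the epi `P₄ → X₄`), and `δ₃.comp (mk₀ (X₄ → P₃)) = 0` (`extClass_comp`).  So the two products agree.
(Use kernels in the category or submodules; exactness is given elementwise; `Rep.mono_iff_injective`, `Rep.epi_iff_surjective`.)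
-/

namespace Pool.Agent.H5.CP

open CategoryTheory CategoryTheory.Abelian CategoryTheory.Limits

theorem SyzA_rep {C : Type*} [Category* C] [Abelian C] [HasExt C]
    {X0 X1 X2 P0 P1 Y : C} [Projective P0] [Projective P1]
    {i1 : X1 ⟶ P0} {p0 : P0 ⟶ X0} {w0 : i1 ≫ p0 = 0}
    (h0 : (ShortComplex.mk i1 p0 w0).ShortExact)
    {i2 : X2 ⟶ P1} {p1 : P1 ⟶ X1} {w1 : i2 ≫ p1 = 0}
    (h1 : (ShortComplex.mk i2 p1 w1).ShortExact) (x : Ext X0 Y 2) :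
    ∃ f : X2 ⟶ Y, x = h0.extClass.comp (h1.extClass.comp (Ext.mk₀ f) (add_zero 1))
      (rfl : 1 + 1 = 2) := by
  obtain ⟨x1, hx1⟩ := Ext.contravariant_sequence_exact₃ h0 Y x
    (Ext.eq_zero_of_projective _) (n₀ := 1) (rfl : 1 + 1 = 2)
  obtain ⟨x2, hx2⟩ := Ext.contravariant_sequence_exact₃ h1 Y x1
    (Ext.eq_zero_of_projective _) (n₀ := 0) (rfl : 1 + 0 = 1)
  obtain ⟨f, hf⟩ := (Ext.mk₀_bijective _ _).2 x2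
  refine ⟨f, ?_⟩
  rw [hf, hx2, hx1]

theorem SyzA_nat {C : Type*} [Category* C] [Abelian C] [HasExt C]
    {A1 A2 A3 B1 B2 B3 : C} {i : A1 ⟶ A2} {p : A2 ⟶ A3} {w : i ≫ p = 0}
    (h : (ShortComplex.mk i p w).ShortExact) {j : B1 ⟶ B2} {q : B2 ⟶ B3} {w' : j ≫ q = 0}
    (h' : (ShortComplex.mk j q w').ShortExact) (b : A2 ⟶ B2) (c : A3 ⟶ B3)
    (e2 : b ≫ q = p ≫ c) :
    ∃ a : A1 ⟶ B1, a ≫ j = i ≫ b ∧
      (Ext.mk₀ c).comp h'.extClass (zero_add 1) = h.extClass.comp (Ext.mk₀ a) (add_zero 1) := by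
  have : Mono j := h'.mono_f
  have e3 : (i ≫ b) ≫ q = 0 := by
    rw [Category.assoc, e2, reassoc_of% w, zero_comp]
  have e4 : h'.exact.lift (i ≫ b) e3 ≫ j = i ≫ b := h'.exact.lift_f (i ≫ b) e3
  refine ⟨h'.exact.lift (i ≫ b) e3, e4, ?_⟩
  exact (ShortComplex.ShortExact.extClass_naturality h h'
    { τ₁ := h'.exact.lift (i ≫ b) e3, τ₂ := b, τ₃ := c, comm₁₂ := e4, comm₂₃ := e2 }).symm

theorem SyzA_prod {C : Type*} [Category* C] [Abelian C] [HasExt C]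
    {X0 X1 X2 X3 X4 P0 P1 P2 P3 P4 Y : C}
    {i1 : X1 ⟶ P0} {p0 : P0 ⟶ X0} {w0 : i1 ≫ p0 = 0}
    (h0 : (ShortComplex.mk i1 p0 w0).ShortExact)
    {i2 : X2 ⟶ P1} {p1 : P1 ⟶ X1} {w1 : i2 ≫ p1 = 0}
    (h1 : (ShortComplex.mk i2 p1 w1).ShortExact)
    {i3 : X3 ⟶ P2} {p2 : P2 ⟶ X2} {w2 : i3 ≫ p2 = 0}
    (h2 : (ShortComplex.mk i3 p2 w2).ShortExact)
    {i4 : X4 ⟶ P3} {p3 : P3 ⟶ X3} {w3 : i4 ≫ p3 = 0}
    (h3 : (ShortComplex.mk i4 p3 w3).ShortExact)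
    (p4 : P4 ⟶ X4) (f : X2 ⟶ X0) (g : X2 ⟶ Y) (l0 : P2 ⟶ P0) (l1 : P3 ⟶ P1) (l2 : P4 ⟶ P2)
    (e0 : l0 ≫ p0 = p2 ≫ f) (e1 : (p3 ≫ i3) ≫ l0 = l1 ≫ p1 ≫ i1)
    (e2 : (p4 ≫ i4) ≫ l1 = l2 ≫ p2 ≫ i2) :
    ∃ h : X4 ⟶ Y, p4 ≫ h = l2 ≫ p2 ≫ g ∧
      (h0.extClass.comp (h1.extClass.comp (Ext.mk₀ f) (add_zero 1)) (rfl : 1 + 1 = 2)).comp
        (h0.extClass.comp (h1.extClass.comp (Ext.mk₀ g) (add_zero 1)) (rfl : 1 + 1 = 2))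
        (rfl : 2 + 2 = 4) =
      h0.extClass.comp (h1.extClass.comp (h2.extClass.comp (h3.extClass.comp (Ext.mk₀ h)
        (add_zero 1)) (rfl : 1 + 1 = 2)) (rfl : 1 + 2 = 3)) (rfl : 1 + 3 = 4) := by
  have m1 : Mono i1 := h0.mono_f
  have m2 : Mono i2 := h1.mono_f
  obtain ⟨a, ha, na⟩ := SyzA_nat h2 h0 l0 f e0
  have e3 : l1 ≫ p1 = p3 ≫ a := by
    rw [← cancel_mono i1, Category.assoc, Category.assoc, ha, ← e1, Category.assoc]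
  obtain ⟨a', ha', na'⟩ := SyzA_nat h3 h1 l1 a e3
  have e4 : p4 ≫ a' = l2 ≫ p2 := by
    rw [← cancel_mono i2, Category.assoc, Category.assoc, ha', ← e2, Category.assoc]
  refine ⟨a' ≫ g, by rw [reassoc_of% e4], ?_⟩
  rw [Ext.comp_assoc _ _ _ (rfl : 1 + 1 = 2) (rfl : 1 + 2 = 3) (rfl : 1 + 1 + 2 = 4)]
  congr 1
  rw [Ext.comp_assoc _ _ _ (rfl : 1 + 0 = 1) (rfl : 0 + 2 = 2) (rfl : 1 + 0 + 2 = 3)]
  congr 1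
  rw [← Ext.comp_assoc _ _ _ (rfl : 0 + 1 = 1) (rfl : 1 + 1 = 2) (rfl : 0 + 1 + 1 = 2), na,
    Ext.comp_assoc _ _ _ (rfl : 1 + 0 = 1) (rfl : 0 + 1 = 1) (rfl : 1 + 0 + 1 = 2)]
  congr 1
  rw [← Ext.comp_assoc _ _ _ (rfl : 0 + 1 = 1) (rfl : 1 + 0 = 1) (rfl : 0 + 1 + 0 = 1), na',
    Ext.comp_assoc _ _ _ (rfl : 1 + 0 = 1) (rfl : 0 + 0 = 0) (rfl : 1 + 0 + 0 = 1)]
  congr 1
  exact Ext.mk₀_comp_mk₀ _ _

theorem SyzA_abs {C : Type*} [Category* C] [Abelian C] [HasExt C]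
    {X0 X1 X2 X3 X4 P0 P1 P2 P3 P4 : C} [Projective P0] [Projective P1]
    {i1 : X1 ⟶ P0} {p0 : P0 ⟶ X0} {w0 : i1 ≫ p0 = 0}
    (h0 : (ShortComplex.mk i1 p0 w0).ShortExact)
    {i2 : X2 ⟶ P1} {p1 : P1 ⟶ X1} {w1 : i2 ≫ p1 = 0}
    (h1 : (ShortComplex.mk i2 p1 w1).ShortExact)
    {i3 : X3 ⟶ P2} {p2 : P2 ⟶ X2} {w2 : i3 ≫ p2 = 0}
    (h2 : (ShortComplex.mk i3 p2 w2).ShortExact)
    {i4 : X4 ⟶ P3} {p3 : P3 ⟶ X3} {w3 : i4 ≫ p3 = 0}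
    (h3 : (ShortComplex.mk i4 p3 w3).ShortExact)
    (p4 : P4 ⟶ X4) [Epi p4]
    (H : ∀ f g : P2 ⟶ X0, (p3 ≫ i3) ≫ f = 0 → (p3 ≫ i3) ≫ g = 0 →
      ∃ (l0 m0 : P2 ⟶ P0) (l1 m1 : P3 ⟶ P1) (l2 m2 : P4 ⟶ P2) (u : P3 ⟶ X0),
        l0 ≫ p0 = f ∧ (p3 ≫ i3) ≫ l0 = l1 ≫ p1 ≫ i1 ∧ (p4 ≫ i4) ≫ l1 = l2 ≫ p2 ≫ i2 ∧
        m0 ≫ p0 = g ∧ (p3 ≫ i3) ≫ m0 = m1 ≫ p1 ≫ i1 ∧ (p4 ≫ i4) ≫ m1 = m2 ≫ p2 ≫ i2 ∧
        l2 ≫ g - m2 ≫ f = (p4 ≫ i4) ≫ u)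
    (x y : Ext X0 X0 2) : x.comp y (rfl : 2 + 2 = 4) = y.comp x (rfl : 2 + 2 = 4) := by
  obtain ⟨f, hf⟩ := SyzA_rep h0 h1 x
  obtain ⟨g, hg⟩ := SyzA_rep h0 h1 y
  have z : ∀ t : X2 ⟶ X0, (p3 ≫ i3) ≫ p2 ≫ t = 0 := by
    intro t
    rw [Category.assoc, reassoc_of% w2, zero_comp, comp_zero]
  obtain ⟨l0, m0, l1, m1, l2, m2, u, a0, a1, a2, b0, b1, b2, hu⟩ :=
    H (p2 ≫ f) (p2 ≫ g) (z f) (z g)
  obtain ⟨s, hs, es⟩ := SyzA_prod h0 h1 h2 h3 p4 f g l0 l1 l2 a0 a1 a2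
  obtain ⟨t, ht, et⟩ := SyzA_prod h0 h1 h2 h3 p4 g f m0 m1 m2 b0 b1 b2
  have e5 : s = t + i4 ≫ u := by
    rw [← cancel_epi p4, Preadditive.comp_add, hs, ht, ← Category.assoc p4 i4 u, ← hu]
    abel
  have e6 : h3.extClass.comp (Ext.mk₀ s) (add_zero 1) =
      h3.extClass.comp (Ext.mk₀ t) (add_zero 1) := by
    have e7 : h3.extClass.comp (Ext.mk₀ (i4 ≫ u)) (add_zero 1) = 0 := by
      rw [← Ext.mk₀_comp_mk₀]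
      exact h3.extClass_comp_assoc (Ext.mk₀ u)
    rw [e5, Ext.mk₀_add, Ext.comp_add, e7, add_zero]
  rw [hf, hg, es, et, e6]

theorem SyzA_ex {k G : Type} [CommRing k] [Group G] {A B D : Rep.{0} k G} (a : A ⟶ B)
    (b : B ⟶ D) (h : Function.Exact a.hom b.hom) :
    ∃ w : a ≫ b = 0, (ShortComplex.mk a b w).Exact := by
  have w : a ≫ b = 0 := by
    apply Rep.hom_ext
    apply Representation.IntertwiningMap.ext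
    apply LinearMap.ext
    intro x
    exact (h (a.hom x)).2 ⟨x, rfl⟩
  refine ⟨w, ?_⟩
  exact (forget₂ (Rep.{0} k G) (ModuleCat k)).reflects_exact_of_faithful _ <|
    (ShortComplex.moduleCat_exact_iff _).2 fun x hx => (h x).1 hx

theorem SyzA_ses {C : Type*} [Category* C] [Abelian C] {A B D : C} (a : A ⟶ B) (b : B ⟶ D)
    (w : a ≫ b = 0) (h : (ShortComplex.mk a b w).Exact) :
    Epi (kernel.lift b a w) ∧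
      ∃ w' : kernel.ι a ≫ kernel.lift b a w = 0,
        (ShortComplex.mk (kernel.ι a) (kernel.lift b a w) w').ShortExact := by
  have h1 : Epi (kernel.lift b a w) := (ShortComplex.exact_iff_epi_kernel_lift _).1 h
  have w' : kernel.ι a ≫ kernel.lift b a w = 0 := by
    rw [← cancel_mono (kernel.ι b), Category.assoc, kernel.lift_ι, kernel.condition, zero_comp]
  refine ⟨h1, w', ?_⟩
  have h2 : (ShortComplex.mk (kernel.ι a) (kernel.lift b a w) w').Exact := by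
    exact (ShortComplex.exact_iff_of_epi_of_isIso_of_mono
      (S₁ := ShortComplex.mk (kernel.ι a) (kernel.lift b a w) w')
      (S₂ := ShortComplex.mk (kernel.ι a) a (kernel.condition a))
      { τ₁ := 𝟙 _, τ₂ := 𝟙 _, τ₃ := kernel.ι b }).2 (ShortComplex.exact_kernel a)
  exact { exact := h2, mono_f := inferInstanceAs (Mono (kernel.ι a)), epi_g := h1 }

theorem SyzA_main {G : Type} [Group G] {X P0 P1 P2 P3 P4 : Rep.{0} ℤ G} [Projective P0]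
    [Projective P1] (ε : P0 ⟶ X) (d1 : P1 ⟶ P0) (d2 : P2 ⟶ P1) (d3 : P3 ⟶ P2) (d4 : P4 ⟶ P3)
    (hε : Function.Surjective ε.hom) (h1 : Function.Exact d1.hom ε.hom)
    (h2 : Function.Exact d2.hom d1.hom) (h3 : Function.Exact d3.hom d2.hom)
    (h4 : Function.Exact d4.hom d3.hom)
    (H : ∀ f g : P2 ⟶ X, d3 ≫ f = 0 → d3 ≫ g = 0 →
      ∃ (l0 m0 : P2 ⟶ P0) (l1 m1 : P3 ⟶ P1) (l2 m2 : P4 ⟶ P2) (u : P3 ⟶ X),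
        l0 ≫ ε = f ∧ d3 ≫ l0 = l1 ≫ d1 ∧ d4 ≫ l1 = l2 ≫ d2 ∧
        m0 ≫ ε = g ∧ d3 ≫ m0 = m1 ≫ d1 ∧ d4 ≫ m1 = m2 ≫ d2 ∧
        l2 ≫ g - m2 ≫ f = d4 ≫ u)
    (x y : Ext X X 2) : x.comp y (rfl : 2 + 2 = 4) = y.comp x (rfl : 2 + 2 = 4) := by
  obtain ⟨w1, x1⟩ := SyzA_ex _ _ h1
  obtain ⟨w2, x2⟩ := SyzA_ex _ _ h2
  obtain ⟨w3, x3⟩ := SyzA_ex _ _ h3
  obtain ⟨w4, x4⟩ := SyzA_ex _ _ h4
  have eε : Epi ε := (Rep.epi_iff_surjective ε).2 hε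
  have s0 : (ShortComplex.mk (kernel.ι ε) ε (kernel.condition ε)).ShortExact :=
    { exact := ShortComplex.exact_kernel ε
      mono_f := inferInstanceAs (Mono (kernel.ι ε))
      epi_g := eε }
  obtain ⟨_, v1, s1⟩ := SyzA_ses _ _ w1 x1
  obtain ⟨_, v2, s2⟩ := SyzA_ses _ _ w2 x2
  obtain ⟨_, v3, s3⟩ := SyzA_ses _ _ w3 x3
  obtain ⟨_, v4, s4⟩ := SyzA_ses _ _ w4 x4
  refine SyzA_abs s0 s1 s2 s3 (kernel.lift d3 d4 w4) ?_ x y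
  simpa only [kernel.lift_ι] using H

end Pool.Agent.H5.CP
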