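import Pool.Agent.H5.CP.AugE

/-!
ROW TRegC (80 lines).  `t` central of infinite order, `S = ⟨t⟩`: the `t`-regular modules form a `QClass`.
`mono`: the kernel of `qmk S M : M → M_S` is `{ρ(t)y - y}` (the span of `ρ(s)y - y`, `s = t^n`: `t^n - 1 = (t - 1)(...)`
also for negative `n`, and `{ρ(t)y - y}` is a submodule).  If `x ∈ X₁` and `f(x) = ρ(t)y - y` with `y ∈ X₂`, then the image
`ȳ ∈ X₃` satisfies `ρ(t)ȳ = ȳ`, so `ȳ = 0`, `y = f(y')`, and `x = ρ(t)y' - y'` (f injective).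
`ker`: `X₁ ⟶ X₂` mono with `X₂` projective: `AugE_proj`, `AugE_sub`.
-/

namespace Pool.Agent.H5.CP

open CategoryTheory CategoryTheory.Abelian CategoryTheory.Limits

private lemma TRegC_npow {k G : Type} [CommRing k] [Group G] (t : G) (M : Rep.{0} k G) (n : ℕ)
    (x : M.V) : ∃ y, M.ρ t y - y = M.ρ (t ^ n) x - x := by
  induction n with
  | zero => exact ⟨0, by simp⟩
  | succ n ih =>
    obtain ⟨y, hy⟩ := ih
    refine ⟨M.ρ (t ^ n) x + y, ?_⟩
    have h1 : M.ρ t (M.ρ (t ^ n) x) = M.ρ (t ^ (n + 1)) x := by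
      rw [pow_succ', map_mul]; rfl
    rw [map_add, h1]
    have h2 : M.ρ (t ^ (n + 1)) x + (M.ρ t) y - (M.ρ (t ^ n) x + y)
        = M.ρ (t ^ (n + 1)) x - M.ρ (t ^ n) x + (M.ρ t y - y) := by abel
    rw [h2, hy]
    abel

theorem TRegC_qmk {k G : Type} [CommRing k] [Group G] (t : G) [(Subgroup.zpowers t).Normal]
    (M : Rep.{0} k G) (x : M.V) : qmk (Subgroup.zpowers t) M x = 0 ↔ ∃ y, M.ρ t y - y = x := by
  refine (Representation.Coinvariants.mk_eq_zero
    (M.ρ.comp (Subgroup.zpowers t).subtype)).trans ?_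
  constructor
  · intro hx
    have key : Representation.Coinvariants.ker (M.ρ.comp (Subgroup.zpowers t).subtype)
        ≤ LinearMap.range (M.ρ t - LinearMap.id) := by
      refine Submodule.span_le.2 ?_
      rintro _ ⟨⟨⟨s, hs⟩, v⟩, rfl⟩
      obtain ⟨n, rfl⟩ := Subgroup.mem_zpowers_iff.1 hs
      change M.ρ (t ^ n) v - v ∈ LinearMap.range (M.ρ t - LinearMap.id)
      obtain ⟨m, rfl | rfl⟩ := n.eq_nat_or_neg
      · obtain ⟨y, hy⟩ := TRegC_npow t M m v
        refine ⟨y, ?_⟩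
        rw [zpow_natCast, ← hy]; rfl
      · obtain ⟨y, hy⟩ := TRegC_npow t M m (M.ρ (t ^ (-(m : ℤ))) v)
        refine ⟨-y, ?_⟩
        have h1 : M.ρ (t ^ m) (M.ρ (t ^ (-(m : ℤ))) v) = v := by
          rw [← Module.End.mul_apply, ← map_mul, zpow_neg, zpow_natCast, mul_inv_cancel, map_one]
          rfl
        rw [h1] at hy
        rw [map_neg]
        change -(M.ρ t y - y) = _
        rw [hy]; abel
    obtain ⟨y, hy⟩ := key hx
    exact ⟨y, hy⟩
  · rintro ⟨y, rfl⟩
    exact Representation.Coinvariants.mem_ker_of_eq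
      (ρ := M.ρ.comp (Subgroup.zpowers t).subtype)
      (⟨t, Subgroup.mem_zpowers t⟩ : Subgroup.zpowers t) y _ rfl

theorem TRegC_main (k : Type) {G : Type} [CommRing k] [Group G] (t : G)
    (hc : t ∈ Subgroup.center G) (ht : ∀ n : ℤ, t ^ n = 1 → n = 0)
    [(Subgroup.zpowers t).Normal] :
    ∃ C : QClass k (Subgroup.zpowers t), ∀ M : Rep.{0} k G, C.P M ↔ TReg t M := by
  refine ⟨⟨fun M => TReg t M, ?_, ?_⟩, fun M => Iff.rfl⟩
  · intro X hX h3
    have hinj : Function.Injective X.f.hom := (Rep.mono_iff_injective _).1 hX.mono_f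
    have hex : ∀ y : X.X₂.V, X.g.hom y = 0 → ∃ x : X.X₁.V, X.f.hom x = y := by
      have h := hX.exact.map (forget₂ (Rep.{0} k G) (ModuleCat k))
      rw [ShortComplex.moduleCat_exact_iff] at h
      exact h
    rw [Rep.mono_iff_injective]
    refine (injective_iff_map_eq_zero ((QF k (Subgroup.zpowers t)).map X.f).hom).2 ?_
    intro a ha
    obtain ⟨x, rfl⟩ := qmk_surjective _ _ a
    rw [QF_map_qmk, TRegC_qmk] at ha
    obtain ⟨y, hy⟩ := ha
    have hgf : X.g.hom (X.f.hom x) = 0 := by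
      have := congrArg (fun φ => φ.hom x) X.zero
      exact this
    have h4 : X.g.hom y = 0 := by
      refine h3 _ ?_
      have h5 : X.g.hom (X.X₂.ρ t y - y) = 0 := by rw [hy, hgf]
      rw [map_sub, Rep.hom_comm_apply] at h5
      exact sub_eq_zero.1 h5
    obtain ⟨y', hy'⟩ := hex y h4
    rw [TRegC_qmk]
    refine ⟨y', hinj ?_⟩
    rw [map_sub, Rep.hom_comm_apply, hy', hy]
  · intro X hX hP _
    have := hX.mono_f
    have := hP
    exact AugE_sub t X.f (AugE_proj t ht X.X₂)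

end Pool.Agent.H5.CP
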