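import Pool.Agent.H5.CP.QDef

/-!
ROW TorC (80 lines).  `T` a central torsion subgroup, coefficients `ℚ`: all modules form a `QClass` (coinvariants are exact).
`mono`: let `x ∈ X₁` with `f(x)` in the kernel of `qmk T X₂`, i.e. `f(x) = Σ_i (ρ(τ_i) y_i - y_i)`, a finite sum, `τ_i ∈ T`.  The
subgroup `T₀` generated by the finitely many central elements `τ_i` of finite order is finite (finitely generated torsion abelian group).
Then `Σ_{τ ∈ T₀} ρ(τ) f(x) = 0`, so by injectivity `Σ_{τ ∈ T₀} ρ(τ) x = 0` and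
`x = -(1/|T₀|) Σ_{τ ∈ T₀} (ρ(τ) x - x)` is in the kernel of `qmk T X₁`.
-/

namespace Pool.Agent.H5.CP

open CategoryTheory CategoryTheory.Abelian CategoryTheory.Limits

/-- the averaging operator of an element of finite order -/
noncomputable def TorC_e {G : Type} [Group G] (M : Rep.{0} ℚ G) (τ : G) : Module.End ℚ M.V :=
  ((orderOf τ : ℚ)⁻¹) • ∑ j ∈ Finset.range (orderOf τ), (M.ρ τ) ^ j

/-- products of averaging operators -/
noncomputable def TorC_E {G : Type} [Group G] (M : Rep.{0} ℚ G) (l : List G) :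
    Module.End ℚ M.V :=
  (l.map (TorC_e M)).prod

theorem TorC_comm {G : Type} [Group G] (M : Rep.{0} ℚ G) (a b : G) (h : Commute a b) :
    Commute (TorC_e M a) (TorC_e M b) := by
  have h1 : Commute (M.ρ a) (M.ρ b) := h.map M.ρ
  unfold TorC_e
  refine Commute.smul_left (Commute.smul_right ?_ _) _
  exact Commute.sum_left _ _ _ fun i _ => Commute.sum_right _ _ _ fun j _ => h1.pow_pow i j

theorem TorC_Ecomm {G : Type} [Group G] (M : Rep.{0} ℚ G) (l l' : List G)
    (h : ∀ a ∈ l, ∀ b ∈ l', Commute a b) : Commute (TorC_E M l) (TorC_E M l') := by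
  unfold TorC_E
  refine Commute.list_prod_right _ _ fun x hx => ?_
  obtain ⟨b, hb, rfl⟩ := List.mem_map.1 hx
  refine Commute.list_prod_left _ _ fun y hy => ?_
  obtain ⟨a, ha, rfl⟩ := List.mem_map.1 hy
  exact TorC_comm M a b (h a ha b hb)

theorem TorC_kill {G : Type} [Group G] (M : Rep.{0} ℚ G) (τ : G) (y : M.V) :
    TorC_e M τ (M.ρ τ y - y) = 0 := by
  have h1 : TorC_e M τ * (M.ρ τ - 1) = 0 := by
    unfold TorC_e
    rw [smul_mul_assoc, geom_sum_mul, ← map_pow, pow_orderOf_eq_one, map_one, sub_self, smul_zero]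
  have h2 := congrArg (fun A : Module.End ℚ M.V => A y) h1
  exact h2

theorem TorC_nat {G : Type} [Group G] {M M' : Rep.{0} ℚ G} (f : M ⟶ M') (τ : G) (x : M.V) :
    f.hom (TorC_e M τ x) = TorC_e M' τ (f.hom x) := by
  unfold TorC_e
  have h1 : ∀ (L : Rep.{0} ℚ G) (z : L.V), (((orderOf τ : ℚ)⁻¹) •
      ∑ j ∈ Finset.range (orderOf τ), (L.ρ τ) ^ j : Module.End ℚ L.V) z =
      ((orderOf τ : ℚ)⁻¹) • ∑ j ∈ Finset.range (orderOf τ), L.ρ (τ ^ j) z := by
    intro L z
    rw [LinearMap.smul_apply, LinearMap.sum_apply]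
    congr 1
    refine Finset.sum_congr rfl fun j _ => ?_
    rw [map_pow]
  rw [h1, h1]
  have h2 : f.hom (((orderOf τ : ℚ)⁻¹) • ∑ j ∈ Finset.range (orderOf τ), M.ρ (τ ^ j) x) =
      ((orderOf τ : ℚ)⁻¹) • ∑ j ∈ Finset.range (orderOf τ), f.hom (M.ρ (τ ^ j) x) := by
    have h3 := map_smul f.hom.toLinearMap ((orderOf τ : ℚ)⁻¹)
      (∑ j ∈ Finset.range (orderOf τ), M.ρ (τ ^ j) x)
    rw [map_sum] at h3
    exact h3
  rw [h2]
  congr 1
  exact Finset.sum_congr rfl fun j _ => Rep.hom_comm_apply f _ _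

theorem TorC_Enat {G : Type} [Group G] {M M' : Rep.{0} ℚ G} (f : M ⟶ M') (l : List G) (x : M.V) :
    f.hom (TorC_E M l x) = TorC_E M' l (f.hom x) := by
  unfold TorC_E
  induction l with
  | nil => rfl
  | cons a l ih =>
    rw [List.map_cons, List.prod_cons, List.map_cons, List.prod_cons, Module.End.mul_apply,
      Module.End.mul_apply, TorC_nat, ih]

theorem TorC_ker {G : Type} [Group G] (T : Subgroup G) (M : Rep.{0} ℚ G) (τ : G) (hτ : τ ∈ T)
    (hfin : IsOfFinOrder τ) (y : M.V) :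
    y - TorC_e M τ y ∈ Representation.Coinvariants.ker (M.ρ.comp T.subtype) := by
  have hn : 0 < orderOf τ := hfin.orderOf_pos
  have hn' : (orderOf τ : ℚ) ≠ 0 := by
    have := hn.ne'
    exact_mod_cast this
  have h1 : y - TorC_e M τ y =
      -(((orderOf τ : ℚ)⁻¹) • ∑ j ∈ Finset.range (orderOf τ), (M.ρ (τ ^ j) y - y)) := by
    unfold TorC_e
    rw [LinearMap.smul_apply, LinearMap.sum_apply, Finset.sum_sub_distrib, smul_sub,
      Finset.sum_const, Finset.card_range, ← Nat.cast_smul_eq_nsmul ℚ, smul_smul,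
      inv_mul_cancel₀ hn', one_smul, neg_sub]
    congr 2
    refine Finset.sum_congr rfl fun j _ => ?_
    rw [map_pow]
  rw [h1]
  refine Submodule.neg_mem _ (Submodule.smul_mem _ _ (Submodule.sum_mem _ fun j _ => ?_))
  exact Representation.Coinvariants.sub_mem_ker (ρ := M.ρ.comp T.subtype)
    (⟨τ ^ j, T.pow_mem hτ j⟩ : T) y

theorem TorC_Eker {G : Type} [Group G] (T : Subgroup G) (ht : ∀ x ∈ T, IsOfFinOrder x)
    (M : Rep.{0} ℚ G) (l : List G) (hl : ∀ a ∈ l, a ∈ T) (y : M.V) :
    y - TorC_E M l y ∈ Representation.Coinvariants.ker (M.ρ.comp T.subtype) := by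
  unfold TorC_E
  induction l with
  | nil =>
    rw [List.map_nil, List.prod_nil]
    have : y - (1 : Module.End ℚ M.V) y = 0 := sub_self y
    rw [this]
    exact Submodule.zero_mem _
  | cons a l ih =>
    have h1 := ih (fun b hb => hl b (List.mem_cons_of_mem _ hb))
    have ha : a ∈ T := hl a List.mem_cons_self
    have h2 := TorC_ker T M a ha (ht a ha) (((l.map (TorC_e M)).prod) y)
    have h3 := Submodule.add_mem _ h1 h2
    rw [List.map_cons, List.prod_cons, Module.End.mul_apply]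
    rw [sub_add_sub_cancel] at h3
    exact h3

theorem TorC_exists {G : Type} [Group G] (T : Subgroup G) (hT : T ≤ Subgroup.center G)
    (M : Rep.{0} ℚ G) (v : M.V)
    (hv : v ∈ Representation.Coinvariants.ker (M.ρ.comp T.subtype)) :
    ∃ l : List G, (∀ a ∈ l, a ∈ T) ∧ TorC_E M l v = 0 := by
  unfold Representation.Coinvariants.ker at hv
  induction hv using Submodule.span_induction with
  | mem x hx =>
    obtain ⟨⟨t, y⟩, rfl⟩ := hx
    refine ⟨[t.1], ?_, ?_⟩
    · intro a ha
      rw [List.mem_singleton] at ha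
      rw [ha]
      exact t.2
    · unfold TorC_E
      rw [List.map_singleton, List.prod_singleton]
      exact TorC_kill M t.1 y
  | zero => exact ⟨[], by simp, map_zero _⟩
  | add x y _ _ hx hy =>
    obtain ⟨l, hl, hl2⟩ := hx
    obtain ⟨l', hl', hl2'⟩ := hy
    refine ⟨l ++ l', ?_, ?_⟩
    · intro a ha
      rcases List.mem_append.1 ha with h | h
      · exact hl a h
      · exact hl' a h
    · have hE : TorC_E M (l ++ l') = TorC_E M l * TorC_E M l' := by
        unfold TorC_E
        rw [List.map_append, List.prod_append]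
      have hc : TorC_E M l * TorC_E M l' = TorC_E M l' * TorC_E M l := by
        refine TorC_Ecomm M l l' fun a ha b hb => ?_
        exact ((Subgroup.mem_center_iff.1 (hT (hl a ha))) b).symm
      rw [map_add]
      have h1 : TorC_E M (l ++ l') x = 0 := by
        rw [hE, hc, Module.End.mul_apply, hl2, map_zero]
      have h2 : TorC_E M (l ++ l') y = 0 := by
        rw [hE, Module.End.mul_apply, hl2', map_zero]
      rw [h1, h2, add_zero]
  | smul r x _ hx =>
    obtain ⟨l, hl, hl2⟩ := hx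
    exact ⟨l, hl, by rw [map_smul, hl2, smul_zero]⟩

theorem TorC_main {G : Type} [Group G] (T : Subgroup G) [T.Normal]
    (hT : T ≤ Subgroup.center G) (ht : ∀ x ∈ T, IsOfFinOrder x) :
    ∃ C : QClass ℚ T, ∀ M : Rep.{0} ℚ G, C.P M := by
  refine ⟨⟨fun _ => True, ?_, fun _ _ _ _ => trivial⟩, fun _ => trivial⟩
  intro X hX _
  have hm : Mono X.f := hX.mono_f
  have hinj : Function.Injective X.f.hom := (Rep.mono_iff_injective X.f).1 hm
  rw [Rep.mono_iff_injective]
  have hlin : ∀ z : ((QF ℚ T).obj X.X₁).V, ((QF ℚ T).map X.f).hom z = 0 → z = 0 := by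
    intro z hz
    obtain ⟨x, rfl⟩ := qmk_surjective T X.X₁ z
    rw [QF_map_qmk] at hz
    have h1 : X.f.hom x ∈ Representation.Coinvariants.ker (X.X₂.ρ.comp T.subtype) :=
      (Representation.Coinvariants.mk_eq_zero _).1 hz
    obtain ⟨l, hl, hl2⟩ := TorC_exists T hT X.X₂ _ h1
    rw [← TorC_Enat] at hl2
    have h2 : TorC_E X.X₁ l x = 0 := by
      apply hinj
      rw [hl2]
      exact (map_zero X.f.hom.toLinearMap).symm
    have h3 := TorC_Eker T ht X.X₁ l hl x
    rw [h2, sub_zero] at h3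
    exact (Representation.Coinvariants.mk_eq_zero _).2 h3
  intro z w hzw
  have h1 : ((QF ℚ T).map X.f).hom (z - w) = 0 := by
    have h2 := map_sub ((QF ℚ T).map X.f).hom.toLinearMap z w
    refine Eq.trans h2 ?_
    exact sub_eq_zero.2 hzw
  exact sub_eq_zero.1 (hlin _ h1)

end Pool.Agent.H5.CP
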