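import Pool.Agent.H5.CP.TowI
import Pool.Agent.H5.CP.StepP

/-!
ROW TowA (60 lines).  `D ≤ Z(G)` finitely generated torsion-free, `G/D` has no element of order `p`: `CDfin (ZMod p) G` implies `CDfin (ZMod p) (G/D)`.
`TowI_main` with `R G Q := NoP p Q → (NoP p G ∧ (CDfin (ZMod p) G → CDfin (ZMod p) Q))`.  (h0): transport along `G ≃* Q` (`CocC_CD`).
(hs): `NoP p Q` gives `NoP p (G/⟨z⟩)`; then `NoP p G`: `x^p = 1` implies `x̄ = 1`, `x = z^a`, `z^{pa} = 1`, `a = 0`; and `StepP_main`.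
-/

namespace Pool.Agent.H5.CP

open CategoryTheory CategoryTheory.Abelian CategoryTheory.Limits

theorem TowA_main {G : Type} [Group G] (p : ℕ) [Fact p.Prime] (D : Subgroup G) [D.Normal]
    (hD : D ≤ Subgroup.center G) (hf : D.FG) (ht : ∀ x ∈ D, IsOfFinOrder x → x = 1)
    (hp : NoP p (G ⧸ D)) (h : CDfin (ZMod p) G) : CDfin (ZMod p) (G ⧸ D) := by
  have key := TowI_main
    (fun (G Q : Type) [Group G] [Group Q] =>
      NoP p Q → (NoP p G ∧ (CDfin (ZMod p) G → CDfin (ZMod p) Q))) ?_ ?_ G D hD hf ht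
  · exact (key hp).2 h
  · rintro G Q _ _ ⟨e⟩ hQ
    refine ⟨fun x hx => ?_, ?_⟩
    · have h1 : (e x) ^ p = 1 := by rw [← map_pow, hx, map_one]
      have h2 := hQ _ h1
      exact (MulEquiv.map_eq_one_iff e).1 h2
    · rintro ⟨n, hn⟩
      exact ⟨n + 1, CocC_CD e.symm n hn⟩
  · intro G Q _ _ z hz hz1 _ hR hQ
    obtain ⟨h1, h2⟩ := hR hQ
    refine ⟨fun x hx => ?_, fun hG => ?_⟩
    · have h3 : (QuotientGroup.mk x : G ⧸ Subgroup.zpowers z) ^ p = 1 := by
        rw [← QuotientGroup.mk_pow, hx]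
        rfl
      have h4 := h1 _ h3
      have h5 : x ∈ Subgroup.zpowers z := (QuotientGroup.eq_one_iff x).1 h4
      obtain ⟨a, rfl⟩ := Subgroup.mem_zpowers_iff.1 h5
      have h6 : z ^ (a * (p : ℤ)) = 1 := by
        rw [zpow_mul, zpow_natCast]
        exact hx
      have h7 := hz1 _ h6
      have hp0 : (p : ℤ) ≠ 0 := by exact_mod_cast (Fact.out : p.Prime).ne_zero
      have h8 : a = 0 := by
        rcases mul_eq_zero.1 h7 with h | h
        · exact h
        · exact absurd h hp0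
      rw [h8, zpow_zero]
    · exact h2 (StepP_main p z hz hz1 h1 hG)

end Pool.Agent.H5.CP
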