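import Pool.Agent.H5.CP.GDef

/-!
ROW TowI (180 lines).  INDUCTION PRINCIPLE for the quotient by a finitely generated torsion-free central subgroup `D`.
`R G Q` is any relation between groups with (h0) `R G Q` if `G ≃* Q`, and (hs): `R (G/⟨z⟩) Q` implies `R G Q` for `z` central of infinite
order.  Then `R G (G/D)`.
Proof.  `Additive D` is a finitely generated torsion-free `ℤ`-module, so it has a basis indexed by `Fin r` (`Module.basisOfFiniteTypeTorsionFree'`,
`Module.finBasis`, ...).  Prove by induction on `r`, for all `G`, `D`, `Q`: if `D ≤ center`, `Additive D` has a basis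
`Fin r` and `G ⧸ D ≃* Q` then `R G Q`.  `r = 0`: `D = ⊥`, `G ⧸ ⊥ ≃* G`.  `r + 1`: `z` = basis vector `0`; `z` is central of infinite order; `G₁ = G/⟨z⟩`,
`D₁ = D.map (mk' ⟨z⟩)` is central; `Additive D₁ ≅ Additive D / ⟨z⟩` has the basis of the images of the remaining basis vectors (linear independence: if
`Σ_{i≥1} a_i b_i ∈ ⟨b_0⟩` then all `a_i = 0`); `G₁ ⧸ D₁ ≃* G ⧸ D` (`QuotientGroup.quotientQuotientEquivQuotient`).
(You may replace the basis by a family `b : Fin r → G` of central elements with: `D = closure (range b)` and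
`(List.ofFn fun i => b i ^ a i).prod = 1 → a = 0`, or any other device, e.g. strong induction on `Module.finrank ℤ (Additive D)` with
`z` such that `D/⟨z⟩` is torsion-free.)
-/

namespace Pool.Agent.H5.CP

open CategoryTheory CategoryTheory.Abelian CategoryTheory.Limits

/-- prepending a zero -/
private def TowIcons (r : ℕ) : Multiplicative (Fin r → ℤ) →* Multiplicative (Fin (r + 1) → ℤ) :=
  AddMonoidHom.toMultiplicative
    { toFun := fun v => (Fin.cons 0 v : Fin (r + 1) → ℤ)
      map_zero' := by
        funext i
        refine Fin.cases ?_ (fun j => ?_) i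
        · rfl
        · rfl
      map_add' := fun v w => by
        funext i
        refine Fin.cases ?_ (fun j => ?_) i
        · simp
        · simp }

private theorem TowIcons_zero {r : ℕ} (v : Multiplicative (Fin r → ℤ)) :
    Multiplicative.toAdd (TowIcons r v) 0 = 0 := rfl

private theorem TowIcons_succ {r : ℕ} (v : Multiplicative (Fin r → ℤ)) (i : Fin r) :
    Multiplicative.toAdd (TowIcons r v) i.succ = Multiplicative.toAdd v i := rfl

private theorem TowI_ind (R : (G Q : Type) → [Group G] → [Group Q] → Prop)
    (h0 : ∀ (G Q : Type) [Group G] [Group Q], Nonempty (G ≃* Q) → R G Q)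
    (hs : ∀ (G Q : Type) [Group G] [Group Q] (z : G), z ∈ Subgroup.center G →
      (∀ n : ℤ, z ^ n = 1 → n = 0) → ∀ [(Subgroup.zpowers z).Normal],
      R (G ⧸ Subgroup.zpowers z) Q → R G Q) (r : ℕ) :
    ∀ (G Q : Type) [Group G] [Group Q] (φ : Multiplicative (Fin r → ℤ) →* G),
      Function.Injective φ → (∀ v, φ v ∈ Subgroup.center G) → ∀ [φ.range.Normal],
      Nonempty (G ⧸ φ.range ≃* Q) → R G Q := by
  induction r with
  | zero =>
    rintro G Q _ _ φ _ _ _ ⟨e⟩
    apply h0
    have hb : φ.range = ⊥ := by
      rw [eq_bot_iff]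
      rintro _ ⟨v, rfl⟩
      rw [Subsingleton.elim v 1, map_one]
      exact one_mem _
    exact ⟨(QuotientGroup.quotientBot.symm.trans
      (QuotientGroup.quotientMulEquivOfEq hb.symm)).trans e⟩
  | succ r ih =>
    rintro G Q _ _ φ hφ hc _ ⟨e⟩
    obtain ⟨z, hz⟩ : ∃ z, z = φ (Multiplicative.ofAdd (Pi.single 0 1)) := ⟨_, rfl⟩
    have hzc : z ∈ Subgroup.center G := by rw [hz]; exact hc _
    have hzn : ∀ n : ℤ, z ^ n = φ (Multiplicative.ofAdd (Pi.single 0 n)) := by
      intro n
      rw [hz, ← map_zpow]
      congr 1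
      rw [← ofAdd_zsmul]
      congr 1
      rw [← Pi.single_smul]
      simp
    have hN : (Subgroup.zpowers z).Normal := zpowers_normal z hzc
    refine hs G Q z hzc ?_ ?_
    · intro n hn
      rw [hzn n, ← map_one φ] at hn
      have h2 := congrArg (fun v : Multiplicative (Fin (r + 1) → ℤ) => Multiplicative.toAdd v 0) (hφ hn)
      simpa using h2
    · let φ₁ : Multiplicative (Fin r → ℤ) →* G ⧸ Subgroup.zpowers z :=
        (QuotientGroup.mk' (Subgroup.zpowers z)).comp (φ.comp (TowIcons r))
      have hφ₁ : ∀ v, φ₁ v = QuotientGroup.mk' (Subgroup.zpowers z) (φ (TowIcons r v)) :=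
        fun _ => rfl
      have hinj : Function.Injective φ₁ := by
        rw [injective_iff_map_eq_one]
        intro v hv
        rw [hφ₁] at hv
        have h3 : φ (TowIcons r v) ∈ Subgroup.zpowers z :=
          (QuotientGroup.eq_one_iff _).1 hv
        obtain ⟨n, hn⟩ := Subgroup.mem_zpowers_iff.1 h3
        rw [hzn n] at hn
        have h4 := hφ hn
        apply Multiplicative.toAdd.injective
        funext i
        have h5 := congrArg (fun v : Multiplicative (Fin (r + 1) → ℤ) =>
          Multiplicative.toAdd v i.succ) h4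
        simp only [TowIcons_succ] at h5
        rw [← h5]
        simp
      have hc1 : ∀ v, φ₁ v ∈ Subgroup.center (G ⧸ Subgroup.zpowers z) := by
        intro v
        rw [Subgroup.mem_center_iff]
        intro g
        induction g using QuotientGroup.induction_on with
        | H g =>
          rw [hφ₁]
          change ((g * φ (TowIcons r v) : G) : G ⧸ Subgroup.zpowers z) =
            ((φ (TowIcons r v) * g : G) : G ⧸ Subgroup.zpowers z)
          rw [Subgroup.mem_center_iff.1 (hc (TowIcons r v)) g]
      have hN1 : φ₁.range.Normal := by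
        apply normal_of_le_center
        rintro _ ⟨v, rfl⟩
        exact hc1 v
      refine ih (G ⧸ Subgroup.zpowers z) Q φ₁ hinj hc1 ?_
      have hle : Subgroup.zpowers z ≤ φ.range := by
        rw [Subgroup.zpowers_le, hz]
        exact ⟨_, rfl⟩
      have hr : φ₁.range = φ.range.map (QuotientGroup.mk' (Subgroup.zpowers z)) := by
        apply le_antisymm
        · rintro _ ⟨v, rfl⟩
          exact ⟨φ (TowIcons r v), ⟨_, rfl⟩, rfl⟩
        · rintro _ ⟨_, ⟨v, rfl⟩, rfl⟩
          have hv : v = Multiplicative.ofAdd (Pi.single 0 (Multiplicative.toAdd v 0)) *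
              TowIcons r (Multiplicative.ofAdd fun i => Multiplicative.toAdd v i.succ) := by
            apply Multiplicative.toAdd.injective
            funext i
            rw [toAdd_mul, Pi.add_apply]
            refine Fin.cases ?_ (fun j => ?_) i
            · rw [TowIcons_zero]
              simp
            · rw [TowIcons_succ]
              simp
          refine ⟨Multiplicative.ofAdd fun i => Multiplicative.toAdd v i.succ, ?_⟩
          rw [hφ₁]
          conv_rhs => rw [hv, map_mul, ← hzn, map_mul]
          have h6 : QuotientGroup.mk' (Subgroup.zpowers z) (z ^ Multiplicative.toAdd v 0) = 1 :=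
            (QuotientGroup.eq_one_iff _).2 (Subgroup.zpow_mem_zpowers _ _)
          rw [h6, one_mul]
      exact ⟨((QuotientGroup.quotientMulEquivOfEq hr).trans
        (QuotientGroup.quotientQuotientEquivQuotient _ _ hle)).trans e⟩

theorem TowI_main (R : (G Q : Type) → [Group G] → [Group Q] → Prop)
    (h0 : ∀ (G Q : Type) [Group G] [Group Q], Nonempty (G ≃* Q) → R G Q)
    (hs : ∀ (G Q : Type) [Group G] [Group Q] (z : G), z ∈ Subgroup.center G →
      (∀ n : ℤ, z ^ n = 1 → n = 0) → ∀ [(Subgroup.zpowers z).Normal],
      R (G ⧸ Subgroup.zpowers z) Q → R G Q)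
    (G : Type) [Group G] (D : Subgroup G) [D.Normal] (hD : D ≤ Subgroup.center G)
    (hf : D.FG) (ht : ∀ x ∈ D, IsOfFinOrder x → x = 1) : R G (G ⧸ D) := by
  have hcomm : ∀ a b : D, a * b = b * a := fun a b =>
    Subtype.ext (Subgroup.mem_center_iff.1 (hD b.2) a)
  let iC : CommGroup D := { (inferInstance : Group D) with mul_comm := hcomm }
  have hfin : Module.Finite ℤ (Additive D) := by
    rw [Module.Finite.iff_addGroup_fg]
    exact GroupFG.iff_add_fg.1 ((Group.fg_iff_subgroup_fg D).2 hf)
  have htf : Module.IsTorsionFree ℤ (Additive D) := by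
    apply Module.IsTorsionFree.of_smul_eq_zero
    intro n x hx
    by_cases hn : n = 0
    · exact Or.inl hn
    · right
      have h1 : (Additive.toMul x) ^ n = 1 := by
        have := congrArg Additive.toMul hx
        rwa [toMul_zsmul, toMul_zero] at this
      have h2 : IsOfFinOrder ((Additive.toMul x : D) : G) := by
        rw [isOfFinOrder_iff_zpow_eq_one]
        refine ⟨n, hn, ?_⟩
        have := congrArg (Subgroup.subtype D) h1
        rwa [map_zpow, map_one] at this
      have h3 := ht _ (Additive.toMul x).2 h2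
      apply Additive.toMul.injective
      exact Subtype.ext h3
  obtain ⟨r, bs⟩ := Module.basisOfFiniteTypeTorsionFree' (R := ℤ) (M := Additive D)
  let ψ : (Fin r → ℤ) ≃+ Additive D := bs.equivFun.symm.toAddEquiv
  let φ : Multiplicative (Fin r → ℤ) →* G :=
    (Subgroup.subtype D).comp (AddMonoidHom.toMultiplicativeLeft ψ.toAddMonoidHom)
  have hφ : ∀ v, φ v = ((Additive.toMul (ψ (Multiplicative.toAdd v)) : D) : G) := fun _ => rfl
  have hr : φ.range = D := by
    apply le_antisymm
    · rintro _ ⟨v, rfl⟩
      rw [hφ]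
      exact (Additive.toMul (ψ (Multiplicative.toAdd v))).2
    · intro x hx
      refine ⟨Multiplicative.ofAdd (ψ.symm (Additive.ofMul ⟨x, hx⟩)), ?_⟩
      rw [hφ, toAdd_ofAdd, AddEquiv.apply_symm_apply]
      rfl
  have hinj : Function.Injective φ := by
    intro v w h
    rw [hφ, hφ] at h
    exact Multiplicative.toAdd.injective (ψ.injective (Additive.toMul.injective (Subtype.ext h)))
  have hc : ∀ v, φ v ∈ Subgroup.center G := fun v => hD (by rw [← hr]; exact ⟨v, rfl⟩)
  have : φ.range.Normal := by rw [hr]; infer_instance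
  exact TowI_ind R h0 hs r G (G ⧸ D) φ hinj hc ⟨QuotientGroup.quotientMulEquivOfEq hr⟩

end Pool.Agent.H5.CP
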