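import Pool.Agent.H5.CP.WDef

/-!
Subquotients of representations and the filtration `V_i` of `W(P;B)` attached to a stable
submodule `K` of `P`.
-/

namespace Pool.Agent.H5.CP

open CategoryTheory CategoryTheory.Limits

section SQ

variable {k G : Type} [CommRing k] [Group G]

/-- the short complex `U → U' → U'/U` of subrepresentations of `A` -/
noncomputable def SQ (A : Rep.{0} k G) (U U' : Submodule k A.V)
    (hU : ∀ g, U ≤ U.comap (A.ρ g)) (hU' : ∀ g, U' ≤ U'.comap (A.ρ g)) (h : U ≤ U') :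
    ShortComplex (Rep.{0} k G) where
  X₁ := A.subrepresentation U hU
  X₂ := A.subrepresentation U' hU'
  X₃ := (A.subrepresentation U' hU').quotient (U.submoduleOf U')
    (fun g x hx => hU g hx)
  f := Rep.ofHom ⟨Submodule.inclusion h, fun _ => rfl⟩
  g := Rep.mkQ (A.subrepresentation U' hU') (U.submoduleOf U') (fun g x hx => hU g hx)
  zero := by
    ext x
    exact (Submodule.Quotient.mk_eq_zero _).2 x.2

end SQ

section V

variable {k G : Type} [CommRing k] [Group G] {p : ℕ} (D : PData G p)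

/-- `V_i = {F ∈ W(P;B) : F(m) = 0 if at least i of the m_j lie in K}` -/
def V (P : Rep.{0} k D.π.ker) (K : Submodule k P.V) (B : Rep.{0} k G) (i : ℕ) :
    Submodule k (MultilinearMap k (fun _ : ZMod p => P.V) B.V) where
  carrier := {F | ∀ m : ZMod p → P.V, i ≤ {j | m j ∈ K}.ncard → F m = 0}
  zero_mem' := by intro m _; rfl
  add_mem' := by
    intro F F' hF hF' m hm
    simp [hF m hm, hF' m hm]
  smul_mem' := by
    intro r F hF m hm
    simp [hF m hm]

lemma V_mono (P : Rep.{0} k D.π.ker) (K : Submodule k P.V) (B : Rep.{0} k G) {i j : ℕ}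
    (h : i ≤ j) : V D P K B i ≤ V D P K B j :=
  fun _ hF m hm => hF m (h.trans hm)

lemma tact_mem_iff (P : Rep.{0} k D.π.ker) (K : Submodule k P.V)
    (hK : ∀ n, K ≤ K.comap (P.ρ n)) (g : G) (m : ZMod p → P.V) (i : ZMod p) :
    tact D P g m i ∈ K ↔ m (i + D.deg g) ∈ K := by
  refine ⟨fun h => ?_, fun h => hK _ h⟩
  have := hK (D.c i g)⁻¹ h
  simpa [tact] using this

lemma tact_ncard (P : Rep.{0} k D.π.ker) (K : Submodule k P.V)
    (hK : ∀ n, K ≤ K.comap (P.ρ n)) (g : G) (m : ZMod p → P.V) :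
    {j | tact D P g m j ∈ K}.ncard = {j | m j ∈ K}.ncard := by
  have : {j | m j ∈ K} = (fun j => j + D.deg g) '' {j | tact D P g m j ∈ K} := by
    ext j
    simp only [Set.mem_setOf_eq, Set.mem_image]
    constructor
    · intro h
      exact ⟨j - D.deg g, by rw [tact_mem_iff D P K hK]; simpa using h, by simp⟩
    · rintro ⟨j', h, rfl⟩
      exact (tact_mem_iff D P K hK g m j').1 h
  rw [this, Set.ncard_image_of_injective _ (add_left_injective _)]

lemma V_stable (P : Rep.{0} k D.π.ker) (K : Submodule k P.V)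
    (hK : ∀ n, K ≤ K.comap (P.ρ n)) (B : Rep.{0} k G) (i : ℕ) (g : G) :
    V D P K B i ≤ (V D P K B i).comap ((W D P B).ρ g) := by
  intro F hF m hm
  change (Wρ D P B g F) m = 0
  rw [Wρ_apply, hF _ (by rwa [tact_ncard D P K hK]), map_zero]

end V

end Pool.Agent.H5.CP
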