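import Pool.Agent.H5.CP.VDef
import Pool.Agent.H5.CP.HigQ

/-!
ROW VHig (150 lines).  `k` a field.  For `1 ≤ i < p` the quotient `V_{i+1}/V_i` (VDef) has no cohomology in degree `j` if
all `N`-modules have none.  Apply `HigQ_main` with `A = W D P B`, `U = V_i`, `U' = V_{i+1}` and
`e(F) = Σ_{S ∈ R} F ∘ q_S` where
 * `q : P → P` is a `k`-linear projection onto `K` (`Submodule.exists_isCompl`, `q x ∈ K` for all x, `q x = x` for x in K),
 * `q_S(m)_j = q(m_j)` for `j ∈ S` and `m_j` for `j ∉ S` (`MultilinearMap.compLinearMap`),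
 * `R` is a set of `i`-subsets `S : Finset (ZMod p)` which meets every orbit of the translations
   `S ↦ S - c` on the set of `i`-subsets exactly once, and such that for every i-subset `T` there is EXACTLY ONE
   `c : ZMod p` with `T - c ∈ R` (exists because translations act freely on the subsets of cardinality
   `0 < i < p`, `p` prime: if `T - c = T` with `c ≠ 0` then `T` is stable under all translations, so T is empty or everything).
For `m ∈ P^{ZMod p}` let `T(m) = {j | m_j ∈ K}`.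
FACT: if `F ∈ V_{i+1}`, `|T(m)| ≥ i` then `e(F)(m) = F(m)` if `T(m) ∈ R` and `0` otherwise.  Indeed if `|T(m)| ≥ i+1`
every `q_S m` has at least i+1 entries in K (the entries of m in K stay in K) so all terms vanish, and F(m) = 0; if `|T(m)| = i`
and `S ≠ T(m)`, `|S| = i`, then `q_S m` has its entries in `S ∪ T(m)`, at least i+1 entries, in K: the term is 0; if
`S = T(m)` then `q_S m = m`.
So `e` preserves `V_i` (if |T(m)| ≥ i then each q_S m has ≥ i entries in K) and `V_{i+1}`; for `n ∈ N` and `F ∈ V_{i+1}`, `|T(m)| ≥ i`: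
`e(nF)(m)` and `(n e(F))(m) = n (e(F)(n⁻¹ m))` agree since `T(n⁻¹ m) = T(m)` (`tact_mem_iff`, deg n = 0);
trace: `(σ(c)⁻¹ e(σ(c) F))(m) = σ(c)⁻¹ ((e(σ(c)F))(σ(c) m))`, `T(σ(c) m) = T(m) - c`, so it is `F(m)` if `T(m) - c ∈ R` and 0
otherwise; summing over c gives F(m) (|T(m)| = i; if > i both sides are 0).
-/

namespace Pool.Agent.H5.CP

open CategoryTheory CategoryTheory.Abelian CategoryTheory.Limits

/-- translation of a finite subset of `ZMod p` -/
def VHig_tr {p : ℕ} [Fact p.Prime] (c : ZMod p) (S : Finset (ZMod p)) : Finset (ZMod p) :=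
  S.map (Equiv.addRight c).toEmbedding

lemma VHig_mem_tr {p : ℕ} [Fact p.Prime] (c x : ZMod p) (S : Finset (ZMod p)) :
    x ∈ VHig_tr c S ↔ x - c ∈ S := by
  unfold VHig_tr
  rw [Finset.mem_map]
  constructor
  · rintro ⟨y, hy, rfl⟩
    simpa using hy
  · intro h
    exact ⟨x - c, h, by simp⟩

lemma VHig_card_tr {p : ℕ} [Fact p.Prime] (c : ZMod p) (S : Finset (ZMod p)) :
    (VHig_tr c S).card = S.card := Finset.card_map _

lemma VHig_tr_tr {p : ℕ} [Fact p.Prime] (c d : ZMod p) (S : Finset (ZMod p)) :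
    VHig_tr c (VHig_tr d S) = VHig_tr (d + c) S := by
  ext x
  rw [VHig_mem_tr, VHig_mem_tr, VHig_mem_tr, sub_sub, add_comm c d]

lemma VHig_tr_zero {p : ℕ} [Fact p.Prime] (S : Finset (ZMod p)) : VHig_tr 0 S = S := by
  ext x
  rw [VHig_mem_tr, sub_zero]

lemma VHig_free {p : ℕ} [Fact p.Prime] (c : ZMod p) (S : Finset (ZMod p)) (h0 : 0 < S.card)
    (hp : S.card < p) (h : VHig_tr c S = S) : c = 0 := by
  by_contra hc
  obtain ⟨x, hx⟩ := Finset.card_pos.1 h0
  have h1 : ∀ n : ℕ, x - n * c ∈ S := by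
    intro n
    induction n with
    | zero => simpa using hx
    | succ n ih =>
      rw [← h, VHig_mem_tr] at ih
      have : x - ((n + 1 : ℕ) : ZMod p) * c = x - n * c - c := by push_cast; ring
      rw [this]
      exact ih
  have h2 : S = Finset.univ := by
    ext y
    refine ⟨fun _ => Finset.mem_univ _, fun _ => ?_⟩
    have h3 := h1 ((x - y) * c⁻¹).val
    rw [ZMod.natCast_zmod_val, mul_assoc, inv_mul_cancel₀ hc, mul_one, sub_sub_cancel] at h3
    exact h3
  rw [h2, Finset.card_univ, ZMod.card] at hp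
  exact lt_irrefl _ hp

lemma VHig_R (p : ℕ) [Fact p.Prime] (i : ℕ) (hi : 1 ≤ i) (hip : i < p) :
    ∃ R : Finset (Finset (ZMod p)), (∀ S ∈ R, S.card = i) ∧
      ∀ T : Finset (ZMod p), T.card = i → ∃ c : ZMod p, VHig_tr (-c) T ∈ R ∧
        ∀ c', VHig_tr (-c') T ∈ R → c' = c := by
  classical
  let st : Setoid (Finset (ZMod p)) :=
    { r := fun S T => ∃ c, T = VHig_tr c S
      iseqv := by
        refine ⟨fun S => ⟨0, (VHig_tr_zero S).symm⟩, ?_, ?_⟩
        · rintro S T ⟨c, rfl⟩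
          exact ⟨-c, by rw [VHig_tr_tr, add_neg_cancel, VHig_tr_zero]⟩
        · rintro S T U ⟨c, rfl⟩ ⟨d, rfl⟩
          exact ⟨c + d, by rw [VHig_tr_tr]⟩ }
  let rep : Finset (ZMod p) → Finset (ZMod p) := fun S => (Quotient.mk st S).out
  have hrep : ∀ S, ∃ c, S = VHig_tr c (rep S) := fun S => Quotient.exact (Quotient.out_eq (Quotient.mk st S))
  have hrep2 : ∀ (S : Finset (ZMod p)) (c : ZMod p), rep (VHig_tr c S) = rep S := by
    intro S c
    have : Quotient.mk st (VHig_tr c S) = Quotient.mk st S :=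
      (Quotient.sound (s := st) ⟨c, rfl⟩).symm
    show (Quotient.mk st (VHig_tr c S)).out = (Quotient.mk st S).out
    rw [this]
  refine ⟨Finset.univ.filter (fun S => S.card = i ∧ rep S = S), ?_, ?_⟩
  · intro S hS
    exact (Finset.mem_filter.1 hS).2.1
  · intro T hT
    obtain ⟨c, hc⟩ := hrep T
    have h1 : VHig_tr (-c) T = rep T := by
      conv_lhs => rw [hc]
      rw [VHig_tr_tr, add_neg_cancel, VHig_tr_zero]
    refine ⟨c, ?_, ?_⟩
    · rw [Finset.mem_filter]
      refine ⟨Finset.mem_univ _, ?_, ?_⟩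
      · rw [VHig_card_tr, hT]
      · rw [hrep2, h1]
    · intro c' hc'
      rw [Finset.mem_filter] at hc'
      have h2 : VHig_tr (-c') T = rep T := by
        rw [← hc'.2.2, hrep2]
      have h3 : VHig_tr (c - c') T = T := by
        have h4 : VHig_tr c (VHig_tr (-c') T) = VHig_tr c (VHig_tr (-c) T) := by rw [h2, h1]
        rw [VHig_tr_tr, VHig_tr_tr, neg_add_cancel, VHig_tr_zero] at h4
        rw [sub_eq_neg_add]
        exact h4
      have h5 := VHig_free (c - c') T (by omega) (by omega) h3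
      exact (sub_eq_zero.1 h5).symm

section

variable {k G : Type} [Field k] [Group G] {p : ℕ} [Fact p.Prime] (D : PData G p)

open Classical in
/-- the set of the `j` with `m j ∈ K` -/
noncomputable def VHig_T {P : Rep.{0} k D.π.ker} (K : Submodule k P.V) (m : ZMod p → P.V) :
    Finset (ZMod p) := Finset.univ.filter (fun j => m j ∈ K)

lemma VHig_mem_T {P : Rep.{0} k D.π.ker} (K : Submodule k P.V) (m : ZMod p → P.V) (j : ZMod p) :
    j ∈ VHig_T D K m ↔ m j ∈ K := by
  unfold VHig_T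
  simp

lemma VHig_ncard {P : Rep.{0} k D.π.ker} (K : Submodule k P.V) (m : ZMod p → P.V) :
    {j | m j ∈ K}.ncard = (VHig_T D K m).card := by
  rw [← Set.ncard_coe_finset]
  congr 1
  ext j
  exact (VHig_mem_T D K m j).symm

/-- the tuple `q_S m` -/
noncomputable def VHig_q {P : Rep.{0} k D.π.ker} (q : P.V →ₗ[k] P.V) (S : Finset (ZMod p))
    (j : ZMod p) : P.V →ₗ[k] P.V := if j ∈ S then q else LinearMap.id

/-- the endomorphism `e` -/
noncomputable def VHig_e (P : Rep.{0} k D.π.ker) (B : Rep.{0} k G) (q : P.V →ₗ[k] P.V)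
    (R : Finset (Finset (ZMod p))) :
    MultilinearMap k (fun _ : ZMod p => P.V) B.V →ₗ[k]
      MultilinearMap k (fun _ : ZMod p => P.V) B.V :=
  { toFun := fun F => ∑ S ∈ R, F.compLinearMap (fun j => VHig_q D q S j)
    map_add' := by
      intro F F'
      rw [← Finset.sum_add_distrib]
      rfl
    map_smul' := by
      intro r F
      rw [RingHom.id_apply, Finset.smul_sum]
      rfl }

lemma VHig_e_apply (P : Rep.{0} k D.π.ker) (B : Rep.{0} k G) (q : P.V →ₗ[k] P.V)
    (R : Finset (Finset (ZMod p))) (F : MultilinearMap k (fun _ : ZMod p => P.V) B.V)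
    (m : ZMod p → P.V) :
    VHig_e D P B q R F m = ∑ S ∈ R, F (fun j => VHig_q D q S j (m j)) := by
  show (∑ S ∈ R, F.compLinearMap (fun j => VHig_q D q S j)) m = _
  rw [sum_apply]
  rfl

lemma VHig_sub {P : Rep.{0} k D.π.ker} (K : Submodule k P.V) (q : P.V →ₗ[k] P.V)
    (hq : ∀ x, q x ∈ K) (S : Finset (ZMod p)) (m : ZMod p → P.V) :
    S ∪ VHig_T D K m ⊆ VHig_T D K (fun j => VHig_q D q S j (m j)) := by
  intro j hj
  rw [VHig_mem_T]
  show VHig_q D q S j (m j) ∈ K
  unfold VHig_q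
  by_cases hS : j ∈ S
  · rw [if_pos hS]
    exact hq _
  · rw [if_neg hS]
    rcases Finset.mem_union.1 hj with h | h
    · exact absurd h hS
    · exact (VHig_mem_T D K m j).1 h

lemma VHig_pres (P : Rep.{0} k D.π.ker) (K : Submodule k P.V) (B : Rep.{0} k G)
    (q : P.V →ₗ[k] P.V) (hq : ∀ x, q x ∈ K) (R : Finset (Finset (ZMod p))) (l : ℕ)
    (F : MultilinearMap k (fun _ : ZMod p => P.V) B.V) (hF : F ∈ V D P K B l) :
    VHig_e D P B q R F ∈ V D P K B l := by
  intro m hm
  rw [VHig_e_apply]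
  refine Finset.sum_eq_zero (fun S _ => hF _ ?_)
  rw [VHig_ncard] at hm ⊢
  exact hm.trans (Finset.card_le_card
    (Finset.subset_union_right.trans (VHig_sub D K q hq S m)))

open Classical in
lemma VHig_fact (P : Rep.{0} k D.π.ker) (K : Submodule k P.V) (B : Rep.{0} k G)
    (q : P.V →ₗ[k] P.V) (hq : ∀ x, q x ∈ K) (hq2 : ∀ x ∈ K, q x = x)
    (R : Finset (Finset (ZMod p))) (i : ℕ) (hR : ∀ S ∈ R, S.card = i)
    (F : MultilinearMap k (fun _ : ZMod p => P.V) B.V) (hF : F ∈ V D P K B (i + 1))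
    (m : ZMod p → P.V) (hm : i ≤ (VHig_T D K m).card) :
    VHig_e D P B q R F m = if VHig_T D K m ∈ R then F m else 0 := by
  rw [VHig_e_apply]
  have h1 : ∀ S ∈ R, F (fun j => VHig_q D q S j (m j)) =
      if S = VHig_T D K m then F m else 0 := by
    intro S hS
    split_ifs with h
    · congr 1
      funext j
      unfold VHig_q
      split_ifs with hj
      · rw [h] at hj
        exact hq2 _ ((VHig_mem_T D K m j).1 hj)
      · rfl
    · refine hF _ ?_
      rw [VHig_ncard]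
      refine le_trans ?_ (Finset.card_le_card (VHig_sub D K q hq S m))
      by_contra hlt
      push Not at hlt
      have hSc := hR S hS
      have h2 : (S ∪ VHig_T D K m).card ≤ i := by omega
      have h3 : S = S ∪ VHig_T D K m :=
        Finset.eq_of_subset_of_card_le Finset.subset_union_left (by omega)
      have h4 : VHig_T D K m = S ∪ VHig_T D K m :=
        Finset.eq_of_subset_of_card_le Finset.subset_union_right (by omega)
      exact h (h3.trans h4.symm)
  rw [Finset.sum_congr rfl h1, Finset.sum_ite_eq']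

lemma VHig_T_tact {P : Rep.{0} k D.π.ker} (K : Submodule k P.V)
    (hK : ∀ n, K ≤ K.comap (P.ρ n)) (g : G) (m : ZMod p → P.V) :
    VHig_T D K (tact D P g m) = VHig_tr (-(D.deg g)) (VHig_T D K m) := by
  ext j
  rw [VHig_mem_T, tact_mem_iff D P K hK, VHig_mem_tr, VHig_mem_T, sub_neg_eq_add]

lemma VHig_he (P : Rep.{0} k D.π.ker) (K : Submodule k P.V)
    (hK : ∀ n, K ≤ K.comap (P.ρ n)) (B : Rep.{0} k G)
    (q : P.V →ₗ[k] P.V) (hq : ∀ x, q x ∈ K) (hq2 : ∀ x ∈ K, q x = x)
    (R : Finset (Finset (ZMod p))) (i : ℕ) (hR : ∀ S ∈ R, S.card = i)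
    (n : G) (hn : D.π n = 1)
    (F : MultilinearMap k (fun _ : ZMod p => P.V) B.V) (hF : F ∈ V D P K B (i + 1)) :
    VHig_e D P B q R (Wρ D P B n F) - Wρ D P B n (VHig_e D P B q R F) ∈ V D P K B i := by
  classical
  intro m hm
  rw [VHig_ncard] at hm
  have hst : Wρ D P B n F ∈ V D P K B (i + 1) := V_stable D P K hK B (i + 1) n hF
  have hdeg : D.deg n⁻¹ = 0 := by
    rw [PData.deg_inv, PData.deg, hn]
    simp
  have hT : VHig_T D K (tact D P n⁻¹ m) = VHig_T D K m := by
    rw [VHig_T_tact D K hK, hdeg, neg_zero, VHig_tr_zero]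
  rw [MultilinearMap.sub_apply, VHig_fact D P K B q hq hq2 R i hR _ hst m hm, Wρ_apply,
    Wρ_apply, VHig_fact D P K B q hq hq2 R i hR F hF _ (by rw [hT]; exact hm), hT]
  split_ifs
  · rw [sub_self]
  · rw [map_zero, sub_zero]

lemma VHig_htr (P : Rep.{0} k D.π.ker) (K : Submodule k P.V)
    (hK : ∀ n, K ≤ K.comap (P.ρ n)) (B : Rep.{0} k G)
    (q : P.V →ₗ[k] P.V) (hq : ∀ x, q x ∈ K) (hq2 : ∀ x ∈ K, q x = x)
    (R : Finset (Finset (ZMod p))) (i : ℕ) (hR : ∀ S ∈ R, S.card = i)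
    (hR2 : ∀ T : Finset (ZMod p), T.card = i → ∃ c : ZMod p, VHig_tr (-c) T ∈ R ∧
        ∀ c', VHig_tr (-c') T ∈ R → c' = c)
    (F : MultilinearMap k (fun _ : ZMod p => P.V) B.V) (hF : F ∈ V D P K B (i + 1)) :
    ∑ c : ZMod p, Wρ D P B (D.σ c)⁻¹ (VHig_e D P B q R (Wρ D P B (D.σ c) F)) - F ∈
      V D P K B i := by
  classical
  intro m hm
  rw [VHig_ncard] at hm
  have h1 : ∀ c : ZMod p, Wρ D P B (D.σ c)⁻¹ (VHig_e D P B q R (Wρ D P B (D.σ c) F)) m =
      if VHig_tr (-c) (VHig_T D K m) ∈ R then F m else 0 := by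
    intro c
    have hst : Wρ D P B (D.σ c) F ∈ V D P K B (i + 1) := V_stable D P K hK B (i + 1) _ hF
    have hT : VHig_T D K (tact D P (D.σ c) m) = VHig_tr (-c) (VHig_T D K m) := by
      rw [VHig_T_tact D K hK, PData.deg_σ]
    rw [Wρ_apply, inv_inv, VHig_fact D P K B q hq hq2 R i hR _ hst _
      (by rw [hT, VHig_card_tr]; exact hm), hT]
    split_ifs
    · rw [Wρ_apply, ← tact_mul, inv_mul_cancel, tact_one]
      have h5 : B.ρ (D.σ c)⁻¹ (B.ρ (D.σ c) (F m)) = (B.ρ ((D.σ c)⁻¹ * D.σ c)) (F m) := by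
        rw [map_mul]; rfl
      rw [h5, inv_mul_cancel, map_one]
      rfl
    · rw [map_zero]
  rw [MultilinearMap.sub_apply, sum_apply, Finset.sum_congr rfl (fun c _ => h1 c)]
  by_cases hc : (VHig_T D K m).card = i
  · obtain ⟨c, hc1, hc2⟩ := hR2 _ hc
    rw [Finset.sum_eq_single c, if_pos hc1, sub_self]
    · intro c' _ hne
      exact if_neg (fun h => hne (hc2 c' h))
    · intro h
      exact absurd (Finset.mem_univ c) h
  · have h0 : F m = 0 := hF m (by rw [VHig_ncard]; omega)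
    rw [h0]
    simp

end

theorem VHig_main {k G : Type} [Field k] [Group G] {p : ℕ} [Fact p.Prime] (D : PData G p)
    (P : Rep.{0} k D.π.ker) (K : Submodule k P.V) (hK : ∀ n, K ≤ K.comap (P.ρ n))
    (B : Rep.{0} k G) (i : ℕ) (hi : 1 ≤ i) (hip : i < p) (j : ℕ)
    (hN : ∀ A' : Rep.{0} k D.π.ker, IsZero (groupCohomology A' j)) :
    IsZero (groupCohomology (SQ (W D P B) (V D P K B i) (V D P K B (i + 1))
      (V_stable D P K hK B i) (V_stable D P K hK B (i + 1))
      (V_mono D P K B (Nat.le_succ i))).X₃ j) := by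
  classical
  obtain ⟨R, hR1, hR2⟩ := VHig_R p i hi hip
  obtain ⟨g, hg⟩ := K.subtype.exists_leftInverse_of_injective K.ker_subtype
  set q : P.V →ₗ[k] P.V := K.subtype ∘ₗ g with hqdef
  have hq : ∀ x, q x ∈ K := fun x => (g x).2
  have hq2 : ∀ x ∈ K, q x = x := by
    intro x hx
    have h1 := congrArg (fun f => ((f (⟨x, hx⟩ : K) : K) : P.V)) hg
    exact h1
  exact HigQ_main D (W D P B) (V D P K B i) (V D P K B (i + 1)) (V_stable D P K hK B i)
    (V_stable D P K hK B (i + 1)) (V_mono D P K B (Nat.le_succ i))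
    (VHig_e D P B q R) (fun F hF => VHig_pres D P K B q hq R i F hF)
    (fun F hF => VHig_pres D P K B q hq R (i + 1) F hF)
    (fun n hn F hF => VHig_he D P K hK B q hq hq2 R i hR1 n hn F hF)
    (fun F hF => VHig_htr D P K hK B q hq hq2 R i hR1 hR2 F hF) j hN

end Pool.Agent.H5.CP
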