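import Pool.Agent.H5.CP.Defs

/-!
The multilinear induction functor `W(M;B)` (dual form of tensor induction) for a normal subgroup
`N = ker π` of index `p`.
-/

namespace Pool.Agent.H5.CP

open CategoryTheory CategoryTheory.Limits

/-- a surjection `π : G → ℤ/p` with a set theoretic section `σ` -/
structure PData (G : Type) [Group G] (p : ℕ) where
  π : G →* Multiplicative (ZMod p)
  σ : ZMod p → G
  hσ : ∀ c, π (σ c) = Multiplicative.ofAdd c

namespace PData

variable {G : Type} [Group G] {p : ℕ} (D : PData G p)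

/-- the degree of `g` in `ℤ/p` -/
def deg (g : G) : ZMod p := Multiplicative.toAdd (D.π g)

@[simp] lemma deg_mul (g h : G) : D.deg (g * h) = D.deg g + D.deg h := by simp [deg]
@[simp] lemma deg_one : D.deg 1 = 0 := by simp [deg]
@[simp] lemma deg_inv (g : G) : D.deg g⁻¹ = - D.deg g := by simp [deg]
@[simp] lemma deg_σ (c : ZMod p) : D.deg (D.σ c) = c := by simp [deg, D.hσ]

lemma mem_ker_iff (g : G) : g ∈ D.π.ker ↔ D.deg g = 0 := by
  rw [MonoidHom.mem_ker, deg]
  exact ⟨fun h => by rw [h]; rfl, fun h => Multiplicative.toAdd.injective h⟩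

/-- the cocycle `c(i,g) = σ(i) g σ(i + deg g)⁻¹ ∈ N` -/
def c (i : ZMod p) (g : G) : D.π.ker :=
  ⟨D.σ i * g * (D.σ (i + D.deg g))⁻¹, by rw [D.mem_ker_iff]; simp⟩

lemma c_mul (i : ZMod p) (g h : G) : D.c i (g * h) = D.c i g * D.c (i + D.deg g) h := by
  apply Subtype.ext
  simp [c, mul_assoc, add_assoc]

@[simp] lemma c_one (i : ZMod p) : D.c i 1 = 1 := by
  apply Subtype.ext
  simp [c]

end PData

section

variable {k G : Type} [CommRing k] [Group G] {p : ℕ} (D : PData G p)

/-- the action of `g` on tuples: `(g m)_i = c(i,g) m_{i + deg g}` -/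
def tact (M : Rep.{0} k D.π.ker) (g : G) (m : ZMod p → M) : ZMod p → M :=
  fun i => M.ρ (D.c i g) (m (i + D.deg g))

lemma tact_mul (M : Rep.{0} k D.π.ker) (g h : G) (m : ZMod p → M) :
    tact D M (g * h) m = tact D M g (tact D M h m) := by
  funext i
  simp [tact, D.c_mul, add_assoc]

@[simp] lemma tact_one (M : Rep.{0} k D.π.ker) (m : ZMod p → M) : tact D M 1 m = m := by
  funext i
  simp [tact]

/-- pull back of a multilinear map along `m ↦ g m` -/
noncomputable def tpull (M : Rep.{0} k D.π.ker) (B : Rep.{0} k G) (g : G)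
    (F : MultilinearMap k (fun _ : ZMod p => M.V) B.V) :
    MultilinearMap k (fun _ : ZMod p => M.V) B.V :=
  (F.compLinearMap (fun i => (M.ρ (D.c i g) : M.V →ₗ[k] M.V))).domDomCongr
    (Equiv.addRight (D.deg g))

lemma tpull_apply (M : Rep.{0} k D.π.ker) (B : Rep.{0} k G) (g : G)
    (F : MultilinearMap k (fun _ : ZMod p => M.V) B.V) (m : ZMod p → M.V) :
    tpull D M B g F m = F (tact D M g m) := by
  simp only [tpull, MultilinearMap.domDomCongr_apply, MultilinearMap.compLinearMap_apply]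
  rfl

/-- The `G`-action on multilinear maps `M^{ℤ/p} → B`: `(g F)(m) = g F(g⁻¹ m)`. -/
noncomputable def Wρ (M : Rep.{0} k D.π.ker) (B : Rep.{0} k G) :
    Representation k G (MultilinearMap k (fun _ : ZMod p => M.V) B.V) where
  toFun := fun g =>
    { toFun := fun F => (B.ρ g).compMultilinearMap (tpull D M B g⁻¹ F)
      map_add' := by intro F F'; ext m; simp [tpull_apply]
      map_smul' := by intro r F; ext m; simp [tpull_apply] }
  map_one' := by ext F m; simp [tpull_apply]
  map_mul' := by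
    intro g h
    ext F m
    simp [tpull_apply, ← tact_mul]

lemma Wρ_apply (M : Rep.{0} k D.π.ker) (B : Rep.{0} k G) (g : G)
    (F : MultilinearMap k (fun _ : ZMod p => M.V) B.V) (m : ZMod p → M.V) :
    (Wρ D M B g F) m = B.ρ g (F (tact D M g⁻¹ m)) := by
  simp [Wρ, tpull_apply]

/-- The `k[G]`-module `W(M;B)` of multilinear maps `M^{ℤ/p} → B`. -/
noncomputable def W (M : Rep.{0} k D.π.ker) (B : Rep.{0} k G) : Rep.{0} k G :=
  Rep.of (Wρ D M B)

/-- `W` is a contravariant functor of `M`: the map `W(M';B) → W(M;B)`, `F ↦ F ∘ f^{ℤ/p}`. -/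
noncomputable def Wmap {M M' : Rep.{0} k D.π.ker} (f : M ⟶ M') (B : Rep.{0} k G) :
    W D M' B ⟶ W D M B :=
  Rep.ofHom
    ⟨{ toFun := fun F : MultilinearMap k (fun _ : ZMod p => M'.V) B.V =>
        F.compLinearMap (fun _ => (f.hom.toLinearMap : M.V →ₗ[k] M'.V))
       map_add' := by intro F F'; ext m; simp
       map_smul' := by intro r F; ext m; simp }, by
      intro g
      ext F m
      change (Wρ D M' B g F) (fun i => f.hom (m i)) =
        (Wρ D M B g (F.compLinearMap (fun _ => (f.hom.toLinearMap : M.V →ₗ[k] M'.V)))) m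
      rw [Wρ_apply, Wρ_apply, MultilinearMap.compLinearMap_apply]
      congr 2
      funext i
      exact (Rep.hom_comm_apply f _ _).symm⟩

lemma Wmap_hom {M M' : Rep.{0} k D.π.ker} (f : M ⟶ M') (B : Rep.{0} k G)
    (F : MultilinearMap k (fun _ : ZMod p => M'.V) B.V) :
    (Wmap D f B).hom F =
      F.compLinearMap (fun _ => (f.hom.toLinearMap : M.V →ₗ[k] M'.V)) := rfl

lemma Wmap_id (M : Rep.{0} k D.π.ker) (B : Rep.{0} k G) : Wmap D (𝟙 M) B = 𝟙 _ := by
  ext F
  rfl

lemma Wmap_comp {M M' M'' : Rep.{0} k D.π.ker} (f : M ⟶ M') (f' : M' ⟶ M'') (B : Rep.{0} k G) :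
    Wmap D (f ≫ f') B = Wmap D f' B ≫ Wmap D f B := by
  ext F
  rfl

end

end Pool.Agent.H5.CP
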