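import Pool.Agent.H5.CP.WDef
import Pool.Agent.H5.CP.PtA

/-!
ROW WFree (200 lines).  `W(k[X];B)` is acyclic for a free `N`-set `X`.
Let `M = Rep.free k N α` (`N = D.π.ker`), a free `k`-module with basis `b_x`, `x ∈ X = α × N`
(`Finsupp.single a (MonoidAlgebra.single n 1)`), permuted by `N`: `n b_(a,n') = b_(a,nn')`.
`Y = (ZMod p → X)` is a `G`-set: `(g y)_i = c(i,g) · y_{i + deg g}` (as `tact`), and `tact g (b_y) = b_{g y}` where
`b_y = (i ↦ b_{y i})`.
(1) `Y` is a FREE `G`-set: if `g y = y` then `g^p y = y`, `deg (g^p) = 0`, and `(g^p y)_i = c(i,g^p) y_i`, so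
`c(i,g^p) = σ(i) g^p σ(i)⁻¹ = 1` (free action of `N` on `X`), hence `g^p = 1`, hence `g = 1` by `hG`.
(2) Hence there is `s : Y → G` with `s(g y) = g s(y)` (choose orbit representatives `y₀` and put `s(g y₀) = g`,
well defined by freeness).
(3) A multilinear map `F : M^{ZMod p} → B` is determined by the values `F(b_y)` and these values are arbitrary
(`Basis.ext_multilinear`; existence e.g. through `PiTensorProduct.lift` and `Basis.piTensorProduct`, or by the explicit
finite sum `F(m) = Σ_y (Π_i (m_i)_{y_i}) • f(y)` over the product of the supports).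
(4) Apply `PtA_main` to `L = W D M B` with `R(Φ)` = the multilinear map with values
`R(Φ)(b_y) = (s(y) · Φ(s(y)⁻¹))(b_y)` (action of `G` on `L`).
 `R(g ↦ g F)(b_y) = (s(y) s(y)⁻¹ F)(b_y) = F(b_y)`.
 `R(Φ(· h))(b_y) = (s(y) Φ(s(y)⁻¹ h))(b_y)`, and `(h R(Φ))(b_y) = h (R(Φ)(b_{h⁻¹ y}))` (`Wρ_apply`)
 `= h [(h⁻¹ s(y)) · Φ(s(y)⁻¹ h)](b_{h⁻¹y}) = (s(y) Φ(s(y)⁻¹ h))(b_y)`.  OK.
-/

namespace Pool.Agent.H5.CP

open CategoryTheory CategoryTheory.Abelian CategoryTheory.Limits

theorem WFree_sec {G Y : Type} [Group G] (act : G → Y → Y) (h1 : ∀ y, act 1 y = y)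
    (hm : ∀ g h y, act (g * h) y = act g (act h y)) (hf : ∀ g y, act g y = y → g = 1) :
    ∃ s : Y → G, ∀ g y, s (act g y) = g * s y := by
  let _ : MulAction G Y :=
    { smul := act
      one_smul := h1
      mul_smul := hm }
  have key : ∀ y : Y, ∃ g : G, act g (Quotient.mk (MulAction.orbitRel G Y) y).out = y := by
    intro y
    have h2 : (MulAction.orbitRel G Y).r (Quotient.mk (MulAction.orbitRel G Y) y).out y :=
      Quotient.exact (Quotient.out_eq _)
    obtain ⟨g, hg⟩ := MulAction.orbitRel_apply.1 h2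
    refine ⟨g⁻¹, ?_⟩
    have hg' : act g y = (Quotient.mk (MulAction.orbitRel G Y) y).out := hg
    rw [← hg', ← hm, inv_mul_cancel, h1]
  choose s hs using key
  refine ⟨s, fun g y => ?_⟩
  have e : Quotient.mk (MulAction.orbitRel G Y) (act g y) =
      Quotient.mk (MulAction.orbitRel G Y) y :=
    Quotient.sound (MulAction.orbitRel_apply.2 ⟨g, rfl⟩)
  have h3 := hs (act g y)
  rw [e] at h3
  have h4 := hs y
  have h5 : act ((g * s y)⁻¹ * s (act g y)) (Quotient.mk (MulAction.orbitRel G Y) y).out =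
      (Quotient.mk (MulAction.orbitRel G Y) y).out := by
    rw [hm, h3]
    have h7 : act g y = act (g * s y) (Quotient.mk (MulAction.orbitRel G Y) y).out := by
      rw [hm, h4]
    rw [h7, ← hm, inv_mul_cancel, h1]
  have h6 := hf _ _ h5
  rw [inv_mul_eq_one] at h6
  exact h6.symm

section

variable {k G : Type} [CommRing k] [Group G] {p : ℕ} [Fact p.Prime] (D : PData G p)
  {X : Type} (sm : D.π.ker → X → X)

/-- the action of `G` on tuples of elements of `X` -/
def WFree_act (g : G) (y : ZMod p → X) : ZMod p → X :=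
  fun i => sm (D.c i g) (y (i + D.deg g))

theorem WFree_act_mul (hm : ∀ n m x, sm (n * m) x = sm n (sm m x)) (g h : G) (y : ZMod p → X) :
    WFree_act D sm (g * h) y = WFree_act D sm g (WFree_act D sm h y) := by
  funext i
  simp [WFree_act, D.c_mul, add_assoc, hm]

theorem WFree_act_one (h1 : ∀ x, sm 1 x = x) (y : ZMod p → X) : WFree_act D sm 1 y = y := by
  funext i
  simp [WFree_act, h1]

theorem WFree_act_pow (h1 : ∀ x, sm 1 x = x) (hm : ∀ n m x, sm (n * m) x = sm n (sm m x)) (g : G)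
    (y : ZMod p → X) (hy : WFree_act D sm g y = y) (n : ℕ) : WFree_act D sm (g ^ n) y = y := by
  induction n with
  | zero => rw [pow_zero, WFree_act_one D sm h1]
  | succ n ih => rw [pow_succ, WFree_act_mul D sm hm, hy, ih]

theorem WFree_deg_pow (g : G) (n : ℕ) : D.deg (g ^ n) = (n : ZMod p) * D.deg g := by
  induction n with
  | zero => simp
  | succ n ih => rw [pow_succ, D.deg_mul, ih]; push_cast; ring

theorem WFree_act_free (hG : ∀ g : G, g ^ p = 1 → g = 1) (h1 : ∀ x, sm 1 x = x)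
    (hm : ∀ n m x, sm (n * m) x = sm n (sm m x)) (hf : ∀ n x, sm n x = x → n = 1) (g : G)
    (y : ZMod p → X) (hy : WFree_act D sm g y = y) : g = 1 := by
  apply hG
  have h2 := congrFun (WFree_act_pow D sm h1 hm g y hy p) 0
  have h3 : D.deg (g ^ p) = 0 := by
    rw [WFree_deg_pow, ZMod.natCast_self, zero_mul]
  rw [WFree_act, h3, add_zero] at h2
  have h4 := congrArg Subtype.val (hf _ _ h2)
  have h5 : D.σ 0 * g ^ p * (D.σ (0 + D.deg (g ^ p)))⁻¹ = 1 := h4
  rw [h3, add_zero, mul_inv_eq_one, mul_eq_left] at h5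
  exact h5

variable (M : Rep.{0} k D.π.ker) (B : Rep.{0} k G) (b : Module.Basis X k M.V)

/-- the multilinear map with given values on basis vectors -/
noncomputable def WFree_mk : ((ZMod p → X) → B.V) ≃ₗ[k]
    MultilinearMap k (fun _ : ZMod p => M.V) B.V :=
  ((Basis.piTensorProduct (fun _ : ZMod p => b)).constr k).trans PiTensorProduct.lift.symm

theorem WFree_mk_apply (f : (ZMod p → X) → B.V) (y : ZMod p → X) :
    WFree_mk D M B b f (fun i => b (y i)) = f y := by
  rw [WFree_mk, LinearEquiv.trans_apply, PiTensorProduct.lift_symm]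
  change ((Basis.piTensorProduct (fun _ : ZMod p => b)).constr k f)
    (PiTensorProduct.tprod k (fun i => b (y i))) = f y
  rw [← Basis.piTensorProduct_apply (fun _ : ZMod p => b) y, Module.Basis.constr_basis]

theorem WFree_tact (hb : ∀ n x, M.ρ n (b x) = b (sm n x)) (g : G) (y : ZMod p → X) :
    tact D M g (fun i => b (y i)) = fun i => b (WFree_act D sm g y i) := by
  funext i
  exact hb _ _

/-- the averaging operator -/
noncomputable def WFree_R (s : (ZMod p → X) → G) :
    (G → MultilinearMap k (fun _ : ZMod p => M.V) B.V) →ₗ[k]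
      MultilinearMap k (fun _ : ZMod p => M.V) B.V where
  toFun := fun Φ => WFree_mk D M B b
    (fun y => (Wρ D M B (s y) (Φ (s y)⁻¹)) (fun i => b (y i)))
  map_add' := by
    intro Φ Ψ
    rw [← map_add]
    congr 1
    funext y
    rw [Pi.add_apply, Pi.add_apply, map_add]
    rfl
  map_smul' := by
    intro r Φ
    rw [RingHom.id_apply, ← map_smul]
    congr 1
    funext y
    rw [Pi.smul_apply, Pi.smul_apply, map_smul]
    rfl

theorem WFree_R_apply (s : (ZMod p → X) → G)
    (Φ : G → MultilinearMap k (fun _ : ZMod p => M.V) B.V) (y : ZMod p → X) :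
    WFree_R D M B b s Φ (fun i => b (y i)) = (Wρ D M B (s y) (Φ (s y)⁻¹)) (fun i => b (y i)) :=
  WFree_mk_apply D M B b _ y

theorem WFree_R1 (s : (ZMod p → X) → G)
    (x : MultilinearMap k (fun _ : ZMod p => M.V) B.V) :
    WFree_R D M B b s (fun g => Wρ D M B g x) = x := by
  refine Module.Basis.ext_multilinear (fun _ : ZMod p => b) fun y => ?_
  rw [WFree_R_apply, ← Module.End.mul_apply, ← map_mul, mul_inv_cancel, map_one,
    Module.End.one_apply]

theorem WFree_R2 (hb : ∀ n x, M.ρ n (b x) = b (sm n x)) (s : (ZMod p → X) → G)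
    (hs : ∀ g y, s (WFree_act D sm g y) = g * s y)
    (Φ : G → MultilinearMap k (fun _ : ZMod p => M.V) B.V) (h : G) :
    WFree_R D M B b s (fun g => Φ (g * h)) = Wρ D M B h (WFree_R D M B b s Φ) := by
  refine Module.Basis.ext_multilinear (fun _ : ZMod p => b) fun y => ?_
  rw [WFree_R_apply, Wρ_apply D M B h, WFree_tact D sm M b hb, WFree_R_apply, hs,
    ← WFree_tact D sm M b hb, ← Wρ_apply, ← Module.End.mul_apply, ← map_mul,
    mul_inv_cancel_left, mul_inv_rev, inv_inv]

theorem WFree_gen (hG : ∀ g : G, g ^ p = 1 → g = 1) (h1 : ∀ x, sm 1 x = x)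
    (hm : ∀ n m x, sm (n * m) x = sm n (sm m x)) (hf : ∀ n x, sm n x = x → n = 1)
    (hb : ∀ n x, M.ρ n (b x) = b (sm n x)) (j : ℕ) :
    IsZero (groupCohomology (W D M B) (j + 1)) := by
  obtain ⟨s, hs⟩ := WFree_sec (WFree_act D sm) (WFree_act_one D sm h1) (WFree_act_mul D sm hm)
    (WFree_act_free D sm hG h1 hm hf)
  exact PtA_main (W D M B) (WFree_R D M B b s) (WFree_R1 D M B b s)
    (WFree_R2 D sm M B b hb s hs) j

end

theorem WFree_main {k G : Type} [CommRing k] [Group G] {p : ℕ} [Fact p.Prime] (D : PData G p)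
    (hG : ∀ g : G, g ^ p = 1 → g = 1) (α : Type) (B : Rep.{0} k G) (j : ℕ) :
    IsZero (groupCohomology (W D (Rep.free k D.π.ker α) B) (j + 1)) := by
  refine WFree_gen D (X := Σ _ : α, D.π.ker) (fun n x => ⟨x.1, n * x.2⟩) _ B
    (Finsupp.basis fun _ : α => MonoidAlgebra.basis D.π.ker k) hG ?_ ?_ ?_ ?_ j
  · rintro ⟨a, m⟩
    simp
  · rintro n m ⟨a, x⟩
    simp [mul_assoc]
  · rintro n ⟨a, x⟩ h
    have h2 : n * x = x := by
      have := (Sigma.mk.inj_iff.1 h).2
      exact eq_of_heq this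
    exact mul_eq_right.1 h2
  · rintro n ⟨a, x⟩
    simp

end Pool.Agent.H5.CP
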